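import Mathlib

set_option autoImplicit false
open Set Filter Topology Complex
open scoped ComplexConjugate

namespace Pool.Agent.MFG

noncomputable section

/-- `k = Z'`. -/
def k (w : ℂ) : ℂ := 1 + (w ^ 2 - 1) ^ 2
/-- `k1 = k'`. -/
def k1 (w : ℂ) : ℂ := 4 * w * (w ^ 2 - 1)
/-- The conformal map from the streamline plane to the physical plane. -/
def Z (w : ℂ) : ℂ := w ^ 5 / 5 - 2 * w ^ 3 / 3 + 2 * w
/-- `g = |k|²`. -/
def g (w : ℂ) : ℝ := normSq (k w)
/-- gradient of `g`. -/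
def gradg (w : ℂ) : ℂ := 2 * k w * conj (k1 w)
/-- release time. -/
def tau (w : ℂ) : ℝ := 6 / g w - 3
/-- unit velocity field. -/
def v0 (w : ℂ) : ℂ := conj (k w)⁻¹

lemma hasDerivAt_Z (w : ℂ) : HasDerivAt Z (k w) w := by
  have h := (((hasDerivAt_id w).pow 5).div_const 5).sub
    ((((hasDerivAt_id w).pow 3).const_mul 2).div_const 3) |>.add ((hasDerivAt_id w).const_mul 2)
  refine h.congr_deriv ?_
  simp only [id, k]
  push_cast
  ring

lemma hasDerivAt_k (w : ℂ) : HasDerivAt k (k1 w) w := by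
  have h := ((((hasDerivAt_id w).pow 2).sub_const 1).pow 2).const_add 1
  refine h.congr_deriv ?_
  simp only [id, k1, Pi.pow_apply]
  push_cast
  ring

/-- pairing with a vector: `⟪a, ξ⟫ = Re (conj a * ξ)`. -/
def ip (a : ℂ) : ℂ →L[ℝ] ℝ := innerSL ℝ a

lemma ip_apply (a ξ : ℂ) : ip a ξ = a.re * ξ.re + a.im * ξ.im := by
  simp [ip, Complex.inner]
  ring

lemma ip_eq_inner (a ξ : ℂ) : ip a ξ = inner ℝ a ξ := rfl

lemma hasFDerivAt_k (w : ℂ) :
    HasFDerivAt k ((ContinuousLinearMap.mul ℝ ℂ (k1 w))) w := by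
  have := (hasDerivAt_k w).hasFDerivAt.restrictScalars ℝ
  refine this.congr_fderiv ?_
  ext <;> simp [mul_comm]

lemma hasFDerivAt_Z (w : ℂ) :
    HasFDerivAt Z ((ContinuousLinearMap.mul ℝ ℂ (k w))) w := by
  have := (hasDerivAt_Z w).hasFDerivAt.restrictScalars ℝ
  refine this.congr_fderiv ?_
  ext <;> simp [mul_comm]

lemma hasFDerivAt_g (w : ℂ) : HasFDerivAt g (ip (gradg w)) w := by
  have h1 : HasFDerivAt (fun w => (k w).re) (reCLM ∘L (ContinuousLinearMap.mul ℝ ℂ (k1 w))) w :=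
    reCLM.hasFDerivAt.comp w (hasFDerivAt_k w)
  have h2 : HasFDerivAt (fun w => (k w).im) (imCLM ∘L (ContinuousLinearMap.mul ℝ ℂ (k1 w))) w :=
    imCLM.hasFDerivAt.comp w (hasFDerivAt_k w)
  have h3 := (h1.mul h1).add (h2.mul h2)
  refine (h3.congr_fderiv ?_).congr_of_eventuallyEq (Eventually.of_forall fun w => ?_)
  · ext ξ <;> simp [ip_apply, gradg] <;> ring
  · simp [g, normSq_apply]

lemma contDiff_k {n : WithTop ℕ∞} : ContDiff ℝ n k := by unfold k; fun_prop
lemma contDiff_k1 {n : WithTop ℕ∞} : ContDiff ℝ n k1 := by unfold k1; fun_prop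
lemma contDiff_Z {n : WithTop ℕ∞} : ContDiff ℝ n Z := by unfold Z; fun_prop

lemma contDiff_g {n : WithTop ℕ∞} : ContDiff ℝ n g := by
  have h1 : ContDiff ℝ n (fun w => (k w).re) := reCLM.contDiff.comp contDiff_k
  have h2 : ContDiff ℝ n (fun w => (k w).im) := imCLM.contDiff.comp contDiff_k
  have : g = fun w => (k w).re * (k w).re + (k w).im * (k w).im := by
    ext w; simp [g, normSq_apply]
  rw [this]
  exact (h1.mul h1).add (h2.mul h2)

lemma contDiff_gradg {n : WithTop ℕ∞} : ContDiff ℝ n gradg := by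
  unfold gradg
  exact (contDiff_const.mul contDiff_k).mul
    ((conjCLE : ℂ ≃L[ℝ] ℂ).contDiff.comp contDiff_k1)

end

end Pool.Agent.MFG
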