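import Pool.Agent.MP_03ede7_an.W1d

set_option autoImplicit false
open Set Filter Topology Complex MeasureTheory
open scoped ComplexConjugate ContDiff

namespace Pool.Agent.MFG

noncomputable section

def hst (x : ℝ) : ℝ := max 0 (x * (1 - x))
def sst (x : ℝ) : ℝ := ∫ u in (0:ℝ)..x, hst u

lemma continuous_hst : Continuous hst := by unfold hst; fun_prop

lemma hst_nonneg (x : ℝ) : 0 ≤ hst x := le_max_left _ _

lemma hst_le (x : ℝ) : hst x ≤ 1 := max_le zero_le_one (by nlinarith [sq_nonneg (x - 1/2)])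

lemma hst_zero {x : ℝ} (h : x ≤ 0 ∨ 1 ≤ x) : hst x = 0 := by
  unfold hst
  apply max_eq_left
  rcases h with h | h <;> nlinarith

lemma hst_pos {x : ℝ} (h0 : 0 < x) (h1 : x < 1) : 0 < hst x := by
  unfold hst
  exact lt_max_of_lt_right (mul_pos h0 (by linarith))

lemma hasDerivAt_sst (x : ℝ) : HasDerivAt sst (hst x) x :=
  intervalIntegral.integral_hasDerivAt_right (continuous_hst.intervalIntegrable _ _)
    continuous_hst.aestronglyMeasurable.stronglyMeasurableAtFilter continuous_hst.continuousAt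

lemma monotone_sst : Monotone sst := by
  refine monotone_of_deriv_nonneg (fun x => (hasDerivAt_sst x).differentiableAt) (fun x => ?_)
  rw [(hasDerivAt_sst x).deriv]; exact hst_nonneg x

lemma sst_of_nonpos {x : ℝ} (h : x ≤ 0) : sst x = 0 := by
  unfold sst
  rw [intervalIntegral.integral_symm, intervalIntegral.integral_congr (g := fun _ => (0:ℝ))]
  · simp
  · intro u hu
    rw [uIcc_of_le h] at hu
    exact hst_zero (Or.inl hu.2)

lemma sst_of_one_le {x : ℝ} (h : 1 ≤ x) : sst x = sst 1 := by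
  unfold sst
  rw [← intervalIntegral.integral_add_adjacent_intervals
    (continuous_hst.intervalIntegrable 0 1) (continuous_hst.intervalIntegrable 1 x)]
  have : ∫ u in (1:ℝ)..x, hst u = 0 := by
    rw [intervalIntegral.integral_congr (g := fun _ => (0:ℝ))]
    · simp
    · intro u hu
      rw [uIcc_of_le h] at hu
      exact hst_zero (Or.inr hu.1)
  rw [this, add_zero]

/-- profile along the channel -/
def aa (x : ℝ) : ℝ := sst (2 * x + 1/2) - sst (100 * (x - 126/100))
def h1f (x : ℝ) : ℝ := 2 * hst (2 * x + 1/2)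
def h2f (x : ℝ) : ℝ := 100 * hst (100 * (x - 126/100))
def a1 (x : ℝ) : ℝ := h1f x - h2f x

lemma hasDerivAt_aa (x : ℝ) : HasDerivAt aa (a1 x) x := by
  have e1 : HasDerivAt (fun x : ℝ => 2 * x + 1/2) 2 x := by
    simpa using ((hasDerivAt_id x).const_mul (2:ℝ)).add_const (1/2)
  have e2 : HasDerivAt (fun x : ℝ => 100 * (x - 126/100)) 100 x := by
    simpa using ((hasDerivAt_id x).sub_const (126/100 : ℝ)).const_mul (100:ℝ)
  have h1 := HasDerivAt.comp (h₂ := sst) x (hasDerivAt_sst (2 * x + 1/2)) e1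
  have h2 := HasDerivAt.comp (h₂ := sst) x (hasDerivAt_sst (100 * (x - 126/100))) e2
  refine (h1.sub h2).congr_deriv ?_
  simp only [a1, h1f, h2f]; ring

lemma continuous_a1 : Continuous a1 := by
  unfold a1 h1f h2f
  have := continuous_hst
  fun_prop

lemma continuous_aa : Continuous aa :=
  continuous_iff_continuousAt.2 fun x => (hasDerivAt_aa x).continuousAt

lemma aa_left {x : ℝ} (h : x ≤ -(1/4)) : aa x = 0 := by
  unfold aa
  rw [sst_of_nonpos (by linarith), sst_of_nonpos (by linarith), sub_zero]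

lemma aa_right {x : ℝ} (h : 127/100 ≤ x) : aa x = 0 := by
  unfold aa
  rw [sst_of_one_le (by linarith), sst_of_one_le (x := 100 * (x - 126/100)) (by linarith), sub_self]

lemma h1f_nonneg (x : ℝ) : 0 ≤ h1f x := mul_nonneg (by norm_num) (hst_nonneg _)
lemma h2f_nonneg (x : ℝ) : 0 ≤ h2f x := mul_nonneg (by norm_num) (hst_nonneg _)

lemma h1f_zero {x : ℝ} (h : 1/4 ≤ |x|) : h1f x = 0 := by
  unfold h1f
  rw [hst_zero, mul_zero]
  rcases le_abs.1 h with h | h
  · right; linarith
  · left; linarith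

lemma h2f_zero {x : ℝ} (h : x ≤ 126/100 ∨ 127/100 ≤ x) : h2f x = 0 := by
  unfold h2f
  rw [hst_zero, mul_zero]
  rcases h with h | h
  · left; linarith
  · right; linarith

lemma a1_zero_out {x : ℝ} (h : x ≤ -(1/4) ∨ 127/100 ≤ x) : a1 x = 0 := by
  unfold a1
  rcases h with h | h
  · rw [h1f_zero (le_abs.2 (Or.inr (by linarith))), h2f_zero (Or.inl (by linarith)), sub_zero]
  · rw [h1f_zero (le_abs.2 (Or.inl (by linarith))), h2f_zero (Or.inr h), sub_zero]

lemma abs_a1_le (x : ℝ) : |a1 x| ≤ 102 := by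
  unfold a1 h1f h2f
  have h1 := hst_nonneg (2 * x + 1/2)
  have h2 := hst_le (2 * x + 1/2)
  have h3 := hst_nonneg (100 * (x - 126/100))
  have h4 := hst_le (100 * (x - 126/100))
  rw [abs_le]; constructor <;> linarith

lemma exists_aa_bound : ∃ A : ℝ, 0 ≤ A ∧ ∀ x, |aa x| ≤ A := by
  obtain ⟨A, hA⟩ := (isCompact_Icc (a := (-(1/4) : ℝ)) (b := 127/100)).exists_bound_of_continuousOn
    continuous_aa.continuousOn
  refine ⟨max A 0, le_max_right _ _, fun x => ?_⟩
  by_cases h1 : x ≤ -(1/4)
  · rw [aa_left h1, abs_zero]; exact le_max_right _ _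
  · by_cases h2 : 127/100 ≤ x
    · rw [aa_right h2, abs_zero]; exact le_max_right _ _
    · push Not at h1 h2
      exact (hA x ⟨h1.le, h2.le⟩).trans (le_max_left _ _)

/-- time profile -/
def th (t : ℝ) : ℝ := sst (4 * t - 2) - sst (4 * t - 3)
def th1 (t : ℝ) : ℝ := 4 * hst (4 * t - 2) - 4 * hst (4 * t - 3)

lemma hasDerivAt_th (x : ℝ) : HasDerivAt th (th1 x) x := by
  have e1 : HasDerivAt (fun x : ℝ => 4 * x - 2) 4 x := by
    simpa using ((hasDerivAt_id x).const_mul (4:ℝ)).sub_const 2
  have e2 : HasDerivAt (fun x : ℝ => 4 * x - 3) 4 x := by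
    simpa using ((hasDerivAt_id x).const_mul (4:ℝ)).sub_const 3
  have h1 := HasDerivAt.comp (h₂ := sst) x (hasDerivAt_sst (4 * x - 2)) e1
  have h2 := HasDerivAt.comp (h₂ := sst) x (hasDerivAt_sst (4 * x - 3)) e2
  refine (h1.sub h2).congr_deriv ?_
  simp only [th1]; ring

lemma continuous_th1 : Continuous th1 := by
  unfold th1
  have := continuous_hst
  fun_prop

lemma continuous_th : Continuous th :=
  continuous_iff_continuousAt.2 fun x => (hasDerivAt_th x).continuousAt

lemma th_nonneg (t : ℝ) : 0 ≤ th t := sub_nonneg.2 (monotone_sst (by linarith))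

lemma th_zero_left {t : ℝ} (h : t ≤ 1/2) : th t = 0 := by
  unfold th
  rw [sst_of_nonpos (by linarith), sst_of_nonpos (by linarith), sub_zero]

lemma th1_zero_left {t : ℝ} (h : t ≤ 1/2) : th1 t = 0 := by
  unfold th1
  rw [hst_zero (Or.inl (by linarith)), hst_zero (Or.inl (by linarith))]; ring

lemma th_one : th 1 = 0 := by
  unfold th
  rw [sst_of_one_le (x := 4 * 1 - 2) (by norm_num)]
  norm_num

lemma th_zero : th 0 = 0 := th_zero_left (by norm_num)

lemma abs_th1_le (t : ℝ) : |th1 t| ≤ 4 := by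
  unfold th1
  have h1 := hst_nonneg (4 * t - 2)
  have h2 := hst_le (4 * t - 2)
  have h3 := hst_nonneg (4 * t - 3)
  have h4 := hst_le (4 * t - 3)
  rw [abs_le]; constructor <;> linarith

lemma sst_le_one {x : ℝ} : sst x ≤ 1 := by
  by_cases h : x ≤ 1
  · refine (monotone_sst h).trans ?_
    unfold sst
    calc ∫ u in (0:ℝ)..1, hst u ≤ ∫ u in (0:ℝ)..1, (1:ℝ) :=
          intervalIntegral.integral_mono_on zero_le_one (continuous_hst.intervalIntegrable _ _)
            intervalIntegrable_const (fun x _ => hst_le x)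
      _ = 1 := by simp
  · push Not at h
    rw [sst_of_one_le h.le]
    unfold sst
    calc ∫ u in (0:ℝ)..1, hst u ≤ ∫ u in (0:ℝ)..1, (1:ℝ) :=
          intervalIntegral.integral_mono_on zero_le_one (continuous_hst.intervalIntegrable _ _)
            intervalIntegrable_const (fun x _ => hst_le x)
      _ = 1 := by simp

lemma sst_nonneg (x : ℝ) : 0 ≤ sst x := by
  by_cases h : x ≤ 0
  · rw [sst_of_nonpos h]
  · push Not at h
    have := monotone_sst h.le
    rwa [sst_of_nonpos le_rfl] at this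

lemma th_le_one (t : ℝ) : th t ≤ 1 := by
  unfold th
  have h1 := sst_le_one (x := 4 * t - 2)
  have h2 := sst_nonneg (4 * t - 3)
  linarith

/-- `th` is positive somewhere -/
lemma th_pos : 0 < ∫ t in (0:ℝ)..1, th t := by
  refine intervalIntegral.integral_pos (by norm_num) continuous_th.continuousOn
    (fun x _ => th_nonneg x) ⟨3/4, by constructor <;> norm_num, ?_⟩
  unfold th
  norm_num
  rw [sst_of_nonpos le_rfl]
  unfold sst
  refine intervalIntegral.integral_pos (by norm_num) continuous_hst.continuousOn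
    (fun x _ => hst_nonneg x) ⟨1/2, by constructor <;> norm_num, ?_⟩
  exact hst_pos (by norm_num) (by norm_num)

lemma h1f_int_pos : 0 < ∫ x in (-(27/20) : ℝ)..(27/20), h1f x := by
  have hc : Continuous h1f := by
    unfold h1f; have := continuous_hst; fun_prop
  refine intervalIntegral.integral_pos (by norm_num) hc.continuousOn
    (fun x _ => h1f_nonneg x) ⟨0, by constructor <;> norm_num, ?_⟩
  unfold h1f
  have : 0 < hst (2 * 0 + 1/2) := hst_pos (by norm_num) (by norm_num)
  linarith

end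

end Pool.Agent.MFG
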