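import Pool.Agent.MP_03ede7_an.HJ

set_option autoImplicit false
open Set Filter Topology Complex MeasureTheory
open scoped ComplexConjugate ContDiff

namespace Pool.Agent.MFG

noncomputable section

lemma tau_pos_zone {w : ℂ} (h1 : 11/10 ≤ |w.re|) (h2 : |w.re| ≤ 1271/1000) (h3 : |w.im| ≤ 26/1000) :
    0 < tau w := by
  have e1 := sq_le_of_abs_le h2
  have e2 := sq_le_of_abs_le h3
  have e3 : (11/10)^2 ≤ w.re^2 := by rw [← sq_abs w.re]; exact pow_le_pow_left₀ (by norm_num) h1 2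
  have hb : (2 * w.re * w.im)^2 ≤ 0.0044 := by
    have : (2 * w.re * w.im)^2 = 4 * (w.re^2 * w.im^2) := by ring
    rw [this]
    have := mul_le_mul e1 e2 (sq_nonneg _) (by positivity)
    norm_num at this ⊢; linarith
  have hb0 : 0 ≤ (2 * w.re * w.im)^2 := sq_nonneg _
  have ha1 : 0.2 ≤ w.re^2 - w.im^2 - 1 := by norm_num at *; linarith
  have ha2 : w.re^2 - w.im^2 - 1 ≤ 0.6155 := by norm_num at *; nlinarith [sq_nonneg w.im]
  have hg : g w < 2 := by
    rw [g_eq']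
    set a := w.re^2 - w.im^2 - 1
    set b := (2 * w.re * w.im)^2
    have haa : a^2 ≤ 0.379 := by nlinarith
    have : (a^2 + b)^2 ≤ 0.39^2 := pow_le_pow_left₀ (by positivity) (by norm_num at *; linarith) 2
    norm_num at *; linarith
  have hR : w ∈ R2 := ⟨h2.trans (by norm_num), h3.trans (by norm_num)⟩
  have hgp := g_pos hR
  unfold tau
  have : 3 < 6 / g w := by rw [lt_div_iff₀ hgp]; linarith
  linarith

/-- lower bound for `|k1|²` in the zone -/
lemma k1_zone {w : ℂ} (h1 : 1259/1000 ≤ |w.re|) (h3 : |w.im| ≤ 26/1000) : 1 ≤ normSq (k1 w) := by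
  have e2 := sq_le_of_abs_le h3
  have e3 : (1259/1000)^2 ≤ w.re^2 := by
    rw [← sq_abs w.re]; exact pow_le_pow_left₀ (by norm_num) h1 2
  have hA : normSq (k1 w) = 16 * (w.re^2 + w.im^2) * ((w.re^2 - w.im^2 - 1)^2 + (2 * w.re * w.im)^2) := by
    simp [k1, normSq_apply, pow_two]; ring
  rw [hA]
  have ha1 : 0.5 ≤ w.re^2 - w.im^2 - 1 := by norm_num at *; linarith
  have h5 : 0.25 ≤ (w.re^2 - w.im^2 - 1)^2 + (2 * w.re * w.im)^2 := by
    have := sq_nonneg (2 * w.re * w.im)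
    norm_num at *; nlinarith
  have h6 : 1 ≤ w.re^2 + w.im^2 := by
    have := sq_nonneg w.im
    norm_num at *; linarith
  have h7 : (1:ℝ) * 0.25 ≤ (w.re^2 + w.im^2) * ((w.re^2 - w.im^2 - 1)^2 + (2 * w.re * w.im)^2) :=
    mul_le_mul h6 h5 (by norm_num) (by linarith)
  norm_num at *; linarith

/-- upper bound for the Jacobian -/
lemma exists_Jac_bound (ε : ℝ) : ∃ B : ℝ, 1 ≤ B ∧ ∀ t ∈ Icc (0:ℝ) 1, ∀ w ∈ Sc, Jac ε t w ≤ B := by
  have hcg : Continuous g := (contDiff_g (n := 0)).continuous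
  have hK : IsCompact (Icc (0:ℝ) 1 ×ˢ Sc) := isCompact_Icc.prod isCompact_Sc
  have hne : ∀ x ∈ Icc (0:ℝ) 1 ×ˢ Sc, g x.2 ≠ 0 := fun x hx => (g_pos (Sc_subset_R2 hx.2)).ne'
  have hg2 : ContinuousOn (fun x : ℝ × ℂ => g x.2) (Icc (0:ℝ) 1 ×ˢ Sc) :=
    (hcg.comp continuous_snd).continuousOn
  have h1 : Continuous (fun w => (conj (k w) * k1 w).re) :=
    continuous_re.comp ((continuous_conj.comp (contDiff_k (n := 0)).continuous).mul
      (contDiff_k1 (n := 0)).continuous)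
  have h2 : ContinuousOn (fun x : ℝ × ℂ => mu ε x.2) (Icc (0:ℝ) 1 ×ˢ Sc) := by
    unfold mu
    refine hg2.add (ContinuousOn.div ?_ (hg2.pow 2) (fun x hx => pow_ne_zero 2 (hne x hx)))
    exact (continuous_const.mul (h1.comp continuous_snd)).continuousOn
  have h3 : ContinuousOn (fun x : ℝ × ℂ => x.1 - tau x.2) (Icc (0:ℝ) 1 ×ˢ Sc) := by
    unfold tau
    exact continuousOn_fst.sub ((continuousOn_const.div hg2 hne).sub continuousOn_const)
  have h4 : Continuous (fun x : ℝ × ℂ => normSq (k1 x.2)) :=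
    continuous_normSq.comp ((contDiff_k1 (n := 0)).continuous.comp continuous_snd)
  have hJ : ContinuousOn (fun x : ℝ × ℂ => Jac ε x.1 x.2) (Icc (0:ℝ) 1 ×ˢ Sc) := by
    unfold Jac
    refine h2.add (((continuous_const.mul h4).continuousOn.mul
      (h3.div (hg2.pow 2) (fun x hx => pow_ne_zero 2 (hne x hx)))).mul
      ((continuousOn_const.div hg2 hne).sub h3))
  obtain ⟨B, hB⟩ := hK.exists_bound_of_continuousOn hJ
  refine ⟨max B 1, le_max_right _ _, fun t ht w hw => ?_⟩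
  exact (le_abs_self _).trans ((hB (t, w) ⟨ht, hw⟩).trans (le_max_left _ _))

namespace Sys

variable {ε : ℝ} {W0 : ℝ × ℂ → ℂ} {N : Set (ℝ × ℂ)} {q : ℝ × ℂ → ℝ} {Nq : Set (ℝ × ℂ)}
    {ζ : ℂ → ℂ} {Nζ : Set ℂ}

/-- released particles near the axis come from `Aset`. -/
lemma zone_mem (h : Sys ε W0 N q Nq ζ Nζ) {t : ℝ} (ht : t ∈ Icc (0:ℝ) 1) {w : ℂ}
    (h2 : |w.re| ≤ 127/100) (h3 : |w.im| ≤ 1/40) (hr : rel t w) :
    W0 (t, Z w) ∈ Aset t ∧ ‖w - W0 (t, Z w)‖ ≤ 1/1000 ∧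
      |tau w - tau (W0 (t, Z w))| ≤ 1/2 * |t - tau (W0 (t, Z w))| := by
  have hwR : w ∈ R2 := ⟨h2.trans (by norm_num), h3.trans (by norm_num)⟩
  have hN := h.geo.W0_mem (TI ht) hwR
  have hW3 : W0 (t, Z w) ∈ R3c := R3_subset_R3c (h.geo.W0R3 _ hN)
  have hw3 : w ∈ R3c := R3_subset_R3c (R2_subset_R3 hwR)
  have heq : Z w = Mt ε t (W0 (t, Z w)) := (h.geo.W0M _ hN).symm
  have hcl := h.geo.close (TI ht) hw3 hW3 heq
  have hsg := (h.geo.sign_pos (TI ht) hw3 hW3 heq).2 (by linarith [hr.2])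
  have htc := h.geo.tauclose t (TI ht) w hw3 _ hW3 heq
  set w₀ := W0 (t, Z w) with hw₀
  have hre : |w.re - w₀.re| ≤ 1/1000 := by
    have := (abs_re_le_norm (w - w₀)).trans hcl
    simpa using this
  have him : |w.im - w₀.im| ≤ 1/1000 := by
    have := (abs_im_le_norm (w - w₀)).trans hcl
    simpa using this
  have hre1 : |w.re| ≤ |w₀.re| + 1/1000 := by
    have := abs_sub_abs_le_abs_sub w.re w₀.re
    linarith
  have hre2 : |w₀.re| ≤ |w.re| + 1/1000 := by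
    have := abs_sub_abs_le_abs_sub w₀.re w.re
    rw [abs_sub_comm] at this
    linarith
  have him2 : |w₀.im| ≤ |w.im| + 1/1000 := by
    have := abs_sub_abs_le_abs_sub w₀.im w.im
    rw [abs_sub_comm] at this
    linarith
  have hlo : 23/20 < |w.re| := by
    by_contra hc
    push Not at hc
    have := tau_gt_one hr.1.le hc (h3.trans (by norm_num))
    linarith [ht.2, hr.2]
  have hpos : 0 < tau w₀ := tau_pos_zone (by linarith) (by linarith) (by linarith)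
  exact ⟨⟨⟨by linarith, by linarith⟩, by linarith, hpos.le, by linarith⟩, hcl, htc⟩

/-- (K1): the density is bounded below near the axis. -/
lemma K1 (h : Sys ε W0 N q Nq ζ Nζ) : ∃ c : ℝ, 0 < c ∧ ∀ t ∈ Icc (0:ℝ) 1, ∀ w : ℂ,
    |w.re| ≤ 127/100 → |w.im| ≤ 1/40 → c ≤ rho ε W0 ζ t (Z w) := by
  obtain ⟨B, hB1, hB⟩ := exists_Jac_bound ε
  refine ⟨1 / (8 * B), by positivity, fun t ht w h2 h3 => ?_⟩
  have hwR : w ∈ R2 := ⟨h2.trans (by norm_num), h3.trans (by norm_num)⟩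
  have hz := h.ζZ w hwR
  have hB8 : 1 / (8 * B) ≤ 1 := by
    rw [div_le_one (by positivity)]; linarith
  by_cases hr : rel t w
  · have hr' : rel t (ζ (Z w)) := by rw [hz]; exact hr
    obtain ⟨hA, -, -⟩ := h.zone_mem ht h2 h3 hr
    rw [rho_A hr' hA]
    obtain ⟨j1, j2⟩ := h.Jac_pos_A ht hA
    have hm := mu_ge h.geo (S_sub_R3c hA.1)
    have hJ := hB t ht _ (S_subset_Sc hA.1)
    rw [div_le_div_iff₀ (by positivity) (by linarith)]
    nlinarith
  · have hr' : ¬ rel t (ζ (Z w)) := by rw [hz]; exact hr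
    rw [rho_inn hr']
    exact hB8

/-- (K2): in the compression zone the density is bounded away from `1`. -/
lemma K2 (h : Sys ε W0 N q Nq ζ Nζ) : ∃ c : ℝ, 0 < c ∧ ∀ t ∈ Icc (1/2:ℝ) 1, ∀ w : ℂ,
    126/100 ≤ |w.re| → |w.re| ≤ 127/100 → |w.im| ≤ 1/40 → rho ε W0 ζ t (Z w) ≤ 1 - c := by
  obtain ⟨B, hB1, hB⟩ := exists_Jac_bound ε
  have hε := h.geo.εpos
  refine ⟨ε^2 / (120 * B), by positivity, fun t ht' w h1 h2 h3 => ?_⟩
  have ht : t ∈ Icc (0:ℝ) 1 := ⟨by linarith [ht'.1], ht'.2⟩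
  have hwR : w ∈ R2 := ⟨h2.trans (by norm_num), h3.trans (by norm_num)⟩
  have hz := h.ζZ w hwR
  obtain ⟨t1, t2⟩ := tau_zone h1 h2 h3
  have hr : rel t w := ⟨by linarith, by linarith [ht'.1]⟩
  have hr' : rel t (ζ (Z w)) := by rw [hz]; exact hr
  obtain ⟨hA, hcl, htc⟩ := h.zone_mem ht h2 h3 hr
  rw [rho_A hr' hA]
  obtain ⟨j1, j2⟩ := h.Jac_pos_A ht hA
  have hJ := hB t ht _ (S_subset_Sc hA.1)
  obtain ⟨-, -, hg2⟩ := Aset_bounds ht hA
  have hg := g_pos (S_sub_R2 hA.1)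
  set w₀ := W0 (t, Z w) with hw₀
  have hre : |w.re - w₀.re| ≤ 1/1000 := by
    have := (abs_re_le_norm (w - w₀)).trans hcl
    simpa using this
  have him : |w.im - w₀.im| ≤ 1/1000 := by
    have := (abs_im_le_norm (w - w₀)).trans hcl
    simpa using this
  have hre1 : |w.re| ≤ |w₀.re| + 1/1000 := by
    have := abs_sub_abs_le_abs_sub w.re w₀.re
    linarith
  have him2 : |w₀.im| ≤ |w.im| + 1/1000 := by
    have := abs_sub_abs_le_abs_sub w₀.im w.im
    rw [abs_sub_comm] at this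
    linarith
  have hk1 := k1_zone (w := w₀) (by linarith) (by linarith)
  have hδ0 : 0 < t - tau w₀ := by linarith [hA.2.2.2]
  rw [abs_of_pos hδ0] at htc
  have hδ : 1/150 ≤ t - tau w₀ := by
    have := (abs_le.1 htc).1
    linarith [ht'.1]
  have hδ1 : t - tau w₀ ≤ 1 := by linarith [hA.2.2.1, ht.2]
  have hJm : ε^2 / 120 ≤ Jac ε t w₀ - mu ε w₀ := by
    have e : Jac ε t w₀ - mu ε w₀ =
        ε^2 * (normSq (k1 w₀) * ((t - tau w₀) / (g w₀)^2) * (12 / g w₀ - (t - tau w₀))) := by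
      rw [Jac]; ring
    rw [e]
    have a1 : 1/600 ≤ (t - tau w₀) / (g w₀)^2 := by
      rw [le_div_iff₀ (by positivity)]
      nlinarith
    have a2 : 5 ≤ 12 / g w₀ - (t - tau w₀) := by
      have : 6 ≤ 12 / g w₀ := by rw [le_div_iff₀ hg]; linarith
      linarith
    have a3 : 1 * (1/600) ≤ normSq (k1 w₀) * ((t - tau w₀) / (g w₀)^2) :=
      mul_le_mul hk1 a1 (by norm_num) (by linarith)
    have a4 : (1 * (1/600)) * 5 ≤ normSq (k1 w₀) * ((t - tau w₀) / (g w₀)^2) *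
        (12 / g w₀ - (t - tau w₀)) :=
      mul_le_mul a3 a2 (by norm_num) (by linarith)
    have : ε^2 / 120 = ε^2 * ((1 * (1/600)) * 5) := by ring
    rw [this]
    exact mul_le_mul_of_nonneg_left a4 (sq_nonneg _)
  have hJ0 : 0 < Jac ε t w₀ := by linarith
  rw [div_le_iff₀ hJ0]
  have : ε^2 / (120 * B) * Jac ε t w₀ ≤ ε^2 / 120 := by
    have e : ε^2 / (120 * B) * Jac ε t w₀ = (ε^2 / 120) * (Jac ε t w₀ / B) := by
      field_simp
    rw [e]
    have : Jac ε t w₀ / B ≤ 1 := by rw [div_le_one (by linarith)]; exact hJ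
    have h0 : 0 ≤ ε^2 / 120 := by positivity
    nlinarith
  linarith

end Sys

end

end Pool.Agent.MFG
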