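import Pool.Agent.MP_03ede7_an.Comp1

set_option autoImplicit false
open Set Filter Topology Complex MeasureTheory
open scoped ComplexConjugate ContDiff

namespace Pool.Agent.MFG

noncomputable section

/-- rectangle carrying the perturbation -/
def Rc : Set ℂ := Ioo (-(27/20)) (27/20) ×ℂ Ioo (-(1/40)) (1/40)

open Classical in
/-- density perturbation, in the channel variable -/
def Hw (t : ℝ) (w : ℂ) : ℝ := if |w.im| < 1/40 then th t * a1 w.re / g w else 0

open Classical in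
/-- momentum perturbation, in the channel variable -/
def mw (t : ℝ) (w : ℂ) : ℝ := if |w.im| < 1/40 then th1 t * aa w.re else 0

def HH (ζ : ℂ → ℂ) (t : ℝ) (z : ℂ) : ℝ := Hw t (ζ z)
def mm (ζ : ℂ → ℂ) (t : ℝ) (z : ℂ) : ℂ := mw t (ζ z) • v0 (ζ z)

/-- competitor density -/
def rho' (ε : ℝ) (W0 : ℝ × ℂ → ℂ) (ζ : ℂ → ℂ) (κ : ℝ) (t : ℝ) (z : ℂ) : ℝ :=
  rho ε W0 ζ t z - κ * HH ζ t z

/-- competitor velocity -/
def vel' (ε : ℝ) (W0 : ℝ × ℂ → ℂ) (ζ : ℂ → ℂ) (κ : ℝ) (t : ℝ) (z : ℂ) : ℂ :=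
  vel ε W0 ζ t z + (κ / rho' ε W0 ζ κ t z) • (mm ζ t z + HH ζ t z • vel ε W0 ζ t z)

lemma Rc_sub_S : Rc ⊆ S := by
  rw [S_eq]
  rintro w ⟨h1, h2⟩
  exact ⟨h1, by constructor <;> linarith [h2.1, h2.2]⟩

lemma mem_Rc {w : ℂ} (hw : w ∈ S) : w ∈ Rc ↔ |w.im| < 1/40 := by
  rw [S_eq] at hw
  rw [abs_lt]
  constructor
  · rintro ⟨h1, h2⟩; exact h2
  · intro h; exact ⟨hw.1, h⟩

lemma measurableSet_Rc : MeasurableSet Rc :=
  (isOpen_Ioo.reProdIm isOpen_Ioo).measurableSet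

lemma volume_Rc_lt_top : volume Rc < ⊤ := (measure_mono Rc_sub_S).trans_lt volume_S_lt_top

/-- support of the perturbation -/
def Supp (w : ℂ) : Prop := |w.im| < 1/40 ∧ -(1/4) < w.re ∧ w.re < 127/100

lemma Hw_zero {t : ℝ} {w : ℂ} (h : ¬ Supp w) : Hw t w = 0 := by
  unfold Hw
  split_ifs with h1
  · have : w.re ≤ -(1/4) ∨ 127/100 ≤ w.re := by
      by_contra hc
      push Not at hc
      exact h ⟨h1, hc⟩
    rw [a1_zero_out this]; simp
  · rfl

lemma mw_zero {t : ℝ} {w : ℂ} (h : ¬ Supp w) : mw t w = 0 := by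
  unfold mw
  split_ifs with h1
  · have : w.re ≤ -(1/4) ∨ 127/100 ≤ w.re := by
      by_contra hc
      push Not at hc
      exact h ⟨h1, hc⟩
    rcases this with h2 | h2
    · rw [aa_left h2, mul_zero]
    · rw [aa_right h2, mul_zero]
  · rfl

lemma abs_Hw_le {t : ℝ} {w : ℂ} (hw : w ∈ R2) : |Hw t w| ≤ 204 := by
  unfold Hw
  split_ifs
  · rw [abs_div, abs_mul, abs_of_pos (g_pos hw), abs_of_nonneg (th_nonneg t)]
    rw [div_le_iff₀ (g_pos hw)]
    have h1 := th_le_one t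
    have h2 := abs_a1_le w.re
    have h3 := g_ge hw
    have h4 : th t * |a1 w.re| ≤ 1 * 102 := mul_le_mul h1 h2 (abs_nonneg _) zero_le_one
    linarith
  · simp

lemma Hw_neg {t : ℝ} {w : ℂ} (hw : w ∈ R2) (h : Hw t w < 0) :
    |w.im| < 1/40 ∧ 1/2 < t ∧ 126/100 < w.re ∧ w.re < 127/100 := by
  unfold Hw at h
  split_ifs at h with h1
  · have hg := g_pos hw
    have h2 : th t * a1 w.re < 0 := by
      by_contra hc
      push Not at hc
      exact absurd h (not_lt.2 (div_nonneg hc hg.le))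
    have ht : 1/2 < t := by
      by_contra hc
      push Not at hc
      rw [th_zero_left hc, zero_mul] at h2
      exact lt_irrefl _ h2
    have ha : a1 w.re < 0 := by
      by_contra hc
      push Not at hc
      exact absurd h2 (not_lt.2 (mul_nonneg (th_nonneg t) hc))
    refine ⟨h1, ht, ?_, ?_⟩
    · by_contra hc
      push Not at hc
      have := h2f_zero (Or.inl hc)
      have h3 := h1f_nonneg w.re
      unfold a1 at ha; linarith
    · by_contra hc
      push Not at hc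
      have := h2f_zero (Or.inr hc)
      have h3 := h1f_nonneg w.re
      unfold a1 at ha; linarith
  · exact absurd h (lt_irrefl _)

lemma measurableSet_im : MeasurableSet {x : ℝ × ℂ | |x.2.im| < 1/40} := by
  have h1 : Measurable (fun x : ℝ × ℂ => |x.2.im|) :=
    (continuous_abs.comp (continuous_im.comp continuous_snd)).measurable
  exact measurableSet_lt h1 measurable_const

lemma measurable_Hw : Measurable (fun x : ℝ × ℂ => Hw x.1 x.2) := by
  have h1 : Measurable (fun x : ℝ × ℂ => th x.1 * a1 x.2.re) :=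
    ((continuous_th.comp continuous_fst).mul
      (continuous_a1.comp (continuous_re.comp continuous_snd))).measurable
  have h2 : Measurable (fun x : ℝ × ℂ => g x.2) := measurable_g.comp measurable_snd
  exact Measurable.ite measurableSet_im (mdiv h1 h2) measurable_const

lemma measurable_mw : Measurable (fun x : ℝ × ℂ => mw x.1 x.2) := by
  have h1 : Measurable (fun x : ℝ × ℂ => th1 x.1 * aa x.2.re) :=
    ((continuous_th1.comp continuous_fst).mul
      (continuous_aa.comp (continuous_re.comp continuous_snd))).measurable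
  exact Measurable.ite measurableSet_im h1 measurable_const

/-- change of variables by `Z` -/
lemma cov_Z (F : ℂ → ℝ) : ∫ z in Om, F z = ∫ w in S, g w * F (Z w) := by
  have hZd : ∀ w ∈ S, HasFDerivWithinAt Z (ContinuousLinearMap.mul ℝ ℂ (k w)) S w :=
    fun w _ => (hasFDerivAt_Z w).hasFDerivWithinAt
  have hZinj : InjOn Z S := Z_injOn.mono S_sub_R3c
  rw [Om, integral_image_eq_integral_abs_det_fderiv_smul volume isOpen_S.measurableSet hZd hZinj F]
  refine setIntegral_congr_fun isOpen_S.measurableSet fun w _ => ?_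
  simp only [det_mul, smul_eq_mul]
  rw [abs_of_nonneg (normSq_nonneg _)]
  rfl

/-- restrict an integral over the channel to `Rc` -/
lemma int_S_eq_Rc {F G : ℂ → ℝ} (h0 : ∀ w ∈ S, ¬ |w.im| < 1/40 → F w = 0)
    (h1 : ∀ w ∈ Rc, F w = G w) : ∫ w in S, F w = ∫ w in Rc, G w := by
  rw [← setIntegral_congr_fun measurableSet_Rc h1]
  refine setIntegral_eq_of_subset_of_forall_sdiff_eq_zero isOpen_S.measurableSet Rc_sub_S ?_
  rintro w ⟨hw, hn⟩
  exact h0 w hw (fun hc => hn ((mem_Rc hw).2 hc))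

def cpsi (ψ : ℂ → ℝ) : ℝ := ∫ w in Rc, a1 w.re * ψ (Z w)
def dpsi (ψ : ℂ → ℝ) : ℝ := ∫ w in Rc, aa w.re * fderiv ℝ ψ (Z w) (k w)

lemma cpsi_integrable {ψ : ℂ → ℝ} {C : ℝ} (hψ : TF ψ C) :
    IntegrableOn (fun w => a1 w.re * ψ (Z w)) Rc := by
  have hm : AEStronglyMeasurable (fun w => a1 w.re * ψ (Z w)) (volume.restrict Rc) :=
    ((continuous_a1.comp continuous_re).continuousOn.mul
      (hψ.ψZ_contOn.mono Rc_sub_S)).aestronglyMeasurable measurableSet_Rc
  refine IntegrableOn.of_bound volume_Rc_lt_top hm (102 * C) ?_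
  refine (ae_restrict_iff' measurableSet_Rc).2 (Eventually.of_forall fun w hw => ?_)
  rw [norm_mul, Real.norm_eq_abs, Real.norm_eq_abs]
  exact mul_le_mul (abs_a1_le _) (hψ.b0 _ ⟨w, Rc_sub_S hw, rfl⟩) (abs_nonneg _) (by norm_num)

lemma dpsi_integrable {ψ : ℂ → ℝ} {C : ℝ} (hψ : TF ψ C) :
    IntegrableOn (fun w => aa w.re * fderiv ℝ ψ (Z w) (k w)) Rc := by
  obtain ⟨A, hA0, hA⟩ := exists_aa_bound
  obtain ⟨B, hB1, hB⟩ := exists_bounds 1
  have hm : AEStronglyMeasurable (fun w => aa w.re * fderiv ℝ ψ (Z w) (k w)) (volume.restrict Rc) :=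
    ((continuous_aa.comp continuous_re).measurable.mul
      (measurable_fd ψ measurable_Z measurable_k)).aestronglyMeasurable
  refine IntegrableOn.of_bound volume_Rc_lt_top hm (A * (C * B)) ?_
  refine (ae_restrict_iff' measurableSet_Rc).2 (Eventually.of_forall fun w hw => ?_)
  rw [norm_mul, Real.norm_eq_abs]
  refine mul_le_mul (hA _) ?_ (norm_nonneg _) hA0
  exact ((fderiv ℝ ψ (Z w)).le_opNorm _).trans (mul_le_mul (hψ.b1 _ ⟨w, Rc_sub_S hw, rfl⟩)
      (hB w (S_subset_Sc (Rc_sub_S hw))).2.1 (norm_nonneg _) hψ.C0)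

/-- one-dimensional integration by parts with the profile `aa`. -/
lemma line_aa {f f' : ℝ → ℝ}
    (hd : ∀ x ∈ Ioo (-(27/20) : ℝ) (27/20), HasDerivAt f (f' x) x)
    (hi : IntegrableOn (fun x => aa x * f' x + a1 x * f x) (Ioo (-(27/20) : ℝ) (27/20))) :
    ∫ x in Ioo (-(27/20) : ℝ) (27/20), (aa x * f' x + a1 x * f x) = 0 := by
  have hsub : Ioc (-(1/4) : ℝ) (127/100) ⊆ Ioo (-(27/20) : ℝ) (27/20) := fun x hx =>
    ⟨by linarith [hx.1], by linarith [hx.2]⟩
  have h1 : ∫ x in Ioo (-(27/20) : ℝ) (27/20), (aa x * f' x + a1 x * f x) =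
      ∫ x in Ioc (-(1/4) : ℝ) (127/100), (aa x * f' x + a1 x * f x) := by
    refine setIntegral_eq_of_subset_of_forall_sdiff_eq_zero measurableSet_Ioo hsub ?_
    rintro x ⟨hx, hn⟩
    have : x ≤ -(1/4) ∨ 127/100 ≤ x := by
      by_contra hc
      push Not at hc
      exact hn ⟨hc.1, hc.2.le⟩
    rw [a1_zero_out this]
    rcases this with h2 | h2
    · rw [aa_left h2]; ring
    · rw [aa_right h2]; ring
  rw [h1, ← intervalIntegral.integral_of_le (by norm_num)]
  have hd' : ∀ x ∈ uIcc (-(1/4) : ℝ) (127/100), HasDerivAt (fun x => aa x * f x)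
      (aa x * f' x + a1 x * f x) x := by
    intro x hx
    rw [uIcc_of_le (by norm_num)] at hx
    have := (hasDerivAt_aa x).mul (hd x ⟨by linarith [hx.1], by linarith [hx.2]⟩)
    refine this.congr_deriv ?_
    ring
  rw [intervalIntegral.integral_eq_sub_of_hasDerivAt hd'
    ((intervalIntegrable_iff_integrableOn_Ioc_of_le (by norm_num)).2 (hi.mono_set hsub)),
    aa_left le_rfl, aa_right le_rfl]
  ring

lemma cd_zero {ψ : ℂ → ℝ} {C : ℝ} (hψ : TF ψ C) : dpsi ψ + cpsi ψ = 0 := by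
  obtain ⟨A, hA0, hA⟩ := exists_aa_bound
  obtain ⟨B, hB1, hB⟩ := exists_bounds 1
  rw [dpsi, cpsi, ← integral_add (dpsi_integrable hψ) (cpsi_integrable hψ)]
  refine rect_zero ((dpsi_integrable hψ).add (cpsi_integrable hψ)) fun y hy => ?_
  have hmem : ∀ x ∈ Ioo (-(27/20) : ℝ) (27/20), (⟨x, y⟩ : ℂ) ∈ Rc := fun x hx => ⟨hx, hy⟩
  have hd : ∀ x ∈ Ioo (-(27/20) : ℝ) (27/20), HasDerivAt (fun x : ℝ => ψ (Z ⟨x, y⟩))
      (fderiv ℝ ψ (Z ⟨x, y⟩) (k ⟨x, y⟩)) x := by
    intro x hx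
    have h1 := curve_Z (hasDerivAt_mk x y)
    have h2 := (hψ.d (Z ⟨x, y⟩) ⟨_, Rc_sub_S (hmem x hx), rfl⟩)
    have h3 := h2.comp_hasDerivAt x h1
    refine h3.congr_deriv ?_
    simp
  refine line_aa (f := fun x : ℝ => ψ (Z ⟨x, y⟩)) (f' := fun x => fderiv ℝ ψ (Z ⟨x, y⟩) (k ⟨x, y⟩))
    hd ?_
  have hcmk : Continuous (fun x : ℝ => (⟨x, y⟩ : ℂ)) :=
    continuous_iff_continuousAt.2 fun x => (hasDerivAt_mk x y).continuousAt
  have hmeas : AEStronglyMeasurable (fun x : ℝ => aa x * fderiv ℝ ψ (Z ⟨x, y⟩) (k ⟨x, y⟩) +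
      a1 x * ψ (Z ⟨x, y⟩)) (volume.restrict (Ioo (-(27/20) : ℝ) (27/20))) := by
    have m1 : Measurable (fun x : ℝ => fderiv ℝ ψ (Z ⟨x, y⟩) (k ⟨x, y⟩)) :=
      measurable_fd ψ (measurable_Z.comp hcmk.measurable) (measurable_k.comp hcmk.measurable)
    have m2 : ContinuousOn (fun x : ℝ => ψ (Z ⟨x, y⟩)) (Ioo (-(27/20) : ℝ) (27/20)) := fun x hx =>
      (hd x hx).continuousAt.continuousWithinAt
    exact (continuous_aa.measurable.mul m1).aestronglyMeasurable.add
      (continuous_a1.aestronglyMeasurable.mul (m2.aestronglyMeasurable measurableSet_Ioo))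
  refine IntegrableOn.of_bound (by simp) hmeas (A * (C * B) + 102 * C) ?_
  refine (ae_restrict_iff' measurableSet_Ioo).2 (Eventually.of_forall fun x hx => ?_)
  have hw := hmem x hx
  refine (norm_add_le _ _).trans (add_le_add ?_ ?_)
  · rw [norm_mul, Real.norm_eq_abs]
    refine mul_le_mul (hA _) ?_ (norm_nonneg _) hA0
    exact ((fderiv ℝ ψ (Z _)).le_opNorm _).trans (mul_le_mul (hψ.b1 _ ⟨_, Rc_sub_S hw, rfl⟩)
      (hB _ (S_subset_Sc (Rc_sub_S hw))).2.1 (norm_nonneg _) hψ.C0)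
  · rw [norm_mul, Real.norm_eq_abs, Real.norm_eq_abs]
    exact mul_le_mul (abs_a1_le _) (hψ.b0 _ ⟨_, Rc_sub_S hw, rfl⟩) (abs_nonneg _) (by norm_num)

end

end Pool.Agent.MFG
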