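import Pool.Agent.MP_03ede7_an.Comp2

set_option autoImplicit false
open Set Filter Topology Complex MeasureTheory
open scoped ComplexConjugate ContDiff

namespace Pool.Agent.MFG

noncomputable section

lemma measurable_Hw_t (t : ℝ) : Measurable (Hw t) :=
  Measurable.comp (g := fun y : ℝ × ℂ => Hw y.1 y.2) (f := fun w : ℂ => (t, w)) measurable_Hw
    (measurable_const.prodMk measurable_id)

lemma measurable_mw_t (t : ℝ) : Measurable (mw t) :=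
  Measurable.comp (g := fun y : ℝ × ℂ => mw y.1 y.2) (f := fun w : ℂ => (t, w)) measurable_mw
    (measurable_const.prodMk measurable_id)

lemma measurable_mv : Measurable (fun x : ℝ × ℂ => mw x.1 x.2 • v0 x.2) :=
  measurable_mw.smul (measurable_v0.comp measurable_snd)

lemma exists_mw_bound : ∃ A : ℝ, 0 ≤ A ∧ ∀ t w, |mw t w| ≤ A := by
  obtain ⟨A, hA0, hA⟩ := exists_aa_bound
  refine ⟨4 * A, by positivity, fun t w => ?_⟩
  unfold mw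
  split_ifs
  · rw [abs_mul]
    exact mul_le_mul (abs_th1_le t) (hA _) (abs_nonneg _) (by norm_num)
  · simp; positivity

namespace Sys

variable {ε : ℝ} {W0 : ℝ × ℂ → ℂ} {N : Set (ℝ × ℂ)} {q : ℝ × ℂ → ℝ} {Nq : Set (ℝ × ℂ)}
    {ζ : ℂ → ℂ} {Nζ : Set ℂ}

lemma ζ_ae (h : Sys ε W0 N q Nq ζ Nζ) : AEMeasurable ζ (volume.restrict Om) :=
  (h.ζC.continuousOn.mono h.Om_sub).aemeasurable isOpen_Om.measurableSet

lemma ζ_ae2 (h : Sys ε W0 N q Nq ζ Nζ) :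
    AEMeasurable (fun x : ℝ × ℂ => (x.1, ζ x.2)) (volume.restrict (Icc (0:ℝ) 1 ×ˢ Om)) := by
  have hm : MeasurableSet (Icc (0:ℝ) 1 ×ˢ Om) := measurableSet_Icc.prod isOpen_Om.measurableSet
  have hc : ContinuousOn (fun x : ℝ × ℂ => (x.1, ζ x.2)) (Icc (0:ℝ) 1 ×ˢ Om) :=
    continuousOn_fst.prodMk (h.ζC.continuousOn.comp continuousOn_snd (fun x hx => h.Om_sub hx.2))
  exact hc.aemeasurable hm

lemma HH_ae (h : Sys ε W0 N q Nq ζ Nζ) :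
    AEMeasurable (fun x : ℝ × ℂ => HH ζ x.1 x.2) (volume.restrict (Icc (0:ℝ) 1 ×ˢ Om)) :=
  measurable_Hw.comp_aemeasurable h.ζ_ae2

lemma mm_ae (h : Sys ε W0 N q Nq ζ Nζ) :
    AEMeasurable (fun x : ℝ × ℂ => mm ζ x.1 x.2) (volume.restrict (Icc (0:ℝ) 1 ×ˢ Om)) :=
  measurable_mv.comp_aemeasurable h.ζ_ae2

lemma HH_ae_t (h : Sys ε W0 N q Nq ζ Nζ) (t : ℝ) :
    AEMeasurable (HH ζ t) (volume.restrict Om) :=
  (measurable_Hw_t t).comp_aemeasurable h.ζ_ae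

lemma mm_ae_t (h : Sys ε W0 N q Nq ζ Nζ) (t : ℝ) :
    AEMeasurable (mm ζ t) (volume.restrict Om) :=
  ((measurable_mw_t t).smul measurable_v0).comp_aemeasurable h.ζ_ae

lemma rho'_ae (h : Sys ε W0 N q Nq ζ Nζ) (κ : ℝ) :
    AEMeasurable (fun x : ℝ × ℂ => rho' ε W0 ζ κ x.1 x.2)
      (volume.restrict (Icc (0:ℝ) 1 ×ˢ Om)) :=
  h.rho_ae.sub (h.HH_ae.const_mul κ)

lemma rho'_ae_t (h : Sys ε W0 N q Nq ζ Nζ) (κ : ℝ) {t : ℝ} (ht : t ∈ Icc (0:ℝ) 1) :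
    AEMeasurable (fun z : ℂ => rho' ε W0 ζ κ t z) (volume.restrict Om) :=
  (h.rho_ae_t ht).sub ((h.HH_ae_t t).const_mul κ)

lemma vel'_ae (h : Sys ε W0 N q Nq ζ Nζ) (κ : ℝ) :
    AEMeasurable (fun x : ℝ × ℂ => vel' ε W0 ζ κ x.1 x.2)
      (volume.restrict (Icc (0:ℝ) 1 ×ˢ Om)) :=
  h.vel_ae.add ((((h.rho'_ae κ).inv.const_mul κ)).smul (h.mm_ae.add (h.HH_ae.smul h.vel_ae)))

lemma HH_Om (h : Sys ε W0 N q Nq ζ Nζ) (t : ℝ) {w : ℂ} (hw : w ∈ S) : HH ζ t (Z w) = Hw t w := by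
  rw [HH, h.ζZ w (S_sub_R2 hw)]

lemma mm_Om (h : Sys ε W0 N q Nq ζ Nζ) (t : ℝ) {w : ℂ} (hw : w ∈ S) :
    mm ζ t (Z w) = mw t w • v0 w := by
  rw [mm, h.ζZ w (S_sub_R2 hw)]

lemma int_HH (h : Sys ε W0 N q Nq ζ Nζ) (ψ : ℂ → ℝ) (t : ℝ) :
    ∫ z in Om, ψ z * HH ζ t z = th t * cpsi ψ := by
  rw [cov_Z, cpsi, ← integral_const_mul]
  refine int_S_eq_Rc (fun w hw hn => ?_) (fun w hw => ?_)
  · rw [h.HH_Om t hw, Hw, if_neg hn]; ring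
  · have hS := Rc_sub_S hw
    have hg := g_pos (S_sub_R2 hS)
    rw [h.HH_Om t hS, Hw, if_pos ((mem_Rc hS).1 hw)]
    field_simp

lemma int_mm (h : Sys ε W0 N q Nq ζ Nζ) (ψ : ℂ → ℝ) (t : ℝ) :
    ∫ z in Om, fderiv ℝ ψ z (mm ζ t z) = th1 t * dpsi ψ := by
  rw [cov_Z, dpsi, ← integral_const_mul]
  refine int_S_eq_Rc (fun w hw hn => ?_) (fun w hw => ?_)
  · rw [h.mm_Om t hw, mw, if_neg hn]; simp
  · have hS := Rc_sub_S hw
    rw [h.mm_Om t hS, mw, if_pos ((mem_Rc hS).1 hw), ← g_smul_v0 (k_ne (S_sub_R2 hS)), map_smul,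
      map_smul, smul_eq_mul, smul_eq_mul]
    ring

/-- smallness of `κ` -/
lemma exists_kappa (h : Sys ε W0 N q Nq ζ Nζ) : ∃ κ₀ : ℝ, 0 < κ₀ ∧ ∃ c : ℝ, 0 < c ∧
    ∀ κ : ℝ, 0 < κ → κ < κ₀ → ∀ t ∈ Icc (0:ℝ) 1, ∀ w ∈ S,
      rho' ε W0 ζ κ t (Z w) ≤ 1 ∧ 0 ≤ rho' ε W0 ζ κ t (Z w) ∧
      (Supp w → c ≤ rho' ε W0 ζ κ t (Z w)) := by
  obtain ⟨c1, hc1, H1⟩ := h.K1
  obtain ⟨c2, hc2, H2⟩ := h.K2
  refine ⟨min (c1 / 408) (c2 / 204), by positivity, c1 / 2, by positivity,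
    fun κ hκ0 hκ t ht w hw => ?_⟩
  obtain ⟨k1', k2'⟩ := lt_min_iff.1 hκ
  have hR := S_sub_R2 hw
  have hHa := abs_Hw_le (t := t) hR
  have hH : HH ζ t (Z w) = Hw t w := h.HH_Om t hw
  have hκH : |κ * Hw t w| ≤ κ * 204 := by
    rw [abs_mul, abs_of_pos hκ0]; exact mul_le_mul_of_nonneg_left hHa hκ0.le
  obtain ⟨b1, b2⟩ := abs_le.1 hκH
  have hSupp : Supp w → c1 / 2 ≤ rho' ε W0 ζ κ t (Z w) := by
    rintro ⟨s1, s2, s3⟩
    have := H1 t ht w (abs_le.2 ⟨by linarith, s3.le⟩) s1.le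
    rw [rho', hH]
    linarith
  refine ⟨?_, ?_, hSupp⟩
  · rw [rho', hH]
    by_cases hneg : Hw t w < 0
    · obtain ⟨n1, n2, n3, n4⟩ := Hw_neg hR hneg
      have hre : |w.re| = w.re := abs_of_pos (by linarith)
      have := H2 t ⟨n2.le, ht.2⟩ w (by rw [hre]; exact n3.le) (by rw [hre]; exact n4.le) n1.le
      linarith
    · push Not at hneg
      have := h.rho_le_one ht (Z w)
      have := mul_nonneg hκ0.le hneg
      linarith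
  · by_cases hs : Supp w
    · have := hSupp hs; linarith
    · rw [rho', hH, Hw_zero hs]
      have := h.rho_nonneg ht (Z w)
      linarith

end Sys

end

end Pool.Agent.MFG
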