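import Pool.Agent.MP_03ede7_an.Comp3

set_option autoImplicit false
open Set Filter Topology Complex MeasureTheory
open scoped ComplexConjugate ContDiff

namespace Pool.Agent.MFG

noncomputable section

/-- admissible smallness parameters -/
structure Kap (ε : ℝ) (W0 : ℝ × ℂ → ℂ) (ζ : ℂ → ℂ) (κ c : ℝ) : Prop where
  κpos : 0 < κ
  cpos : 0 < c
  H : ∀ t ∈ Icc (0:ℝ) 1, ∀ w ∈ S,
      rho' ε W0 ζ κ t (Z w) ≤ 1 ∧ 0 ≤ rho' ε W0 ζ κ t (Z w) ∧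
      (Supp w → c ≤ rho' ε W0 ζ κ t (Z w))

lemma TF_one : TF (fun _ => (1:ℝ)) 1 where
  d := fun z _ => by
    have : fderiv ℝ (fun _ : ℂ => (1:ℝ)) z = 0 := fderiv_const_apply 1
    rw [this]
    exact hasFDerivAt_const _ _
  b0 := fun _ _ => by simp
  b1 := fun z _ => by
    have : fderiv ℝ (fun _ : ℂ => (1:ℝ)) z = 0 := fderiv_const_apply 1
    rw [this]; simp
  C0 := zero_le_one

lemma th_lip : LipschitzWith 4 th := by
  refine lipschitzWith_of_nnnorm_deriv_le (fun x => (hasDerivAt_th x).differentiableAt) (fun x => ?_)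
  rw [(hasDerivAt_th x).deriv, ← NNReal.coe_le_coe, coe_nnnorm, Real.norm_eq_abs]
  exact abs_th1_le x

lemma cpsi_one : cpsi (fun _ => (1:ℝ)) = 0 := by
  have h1 := cd_zero TF_one
  have h2 : dpsi (fun _ => (1:ℝ)) = 0 := by
    unfold dpsi
    have : ∀ w, aa w.re * fderiv ℝ (fun _ : ℂ => (1:ℝ)) (Z w) (k w) = 0 := fun w => by
      have : fderiv ℝ (fun _ : ℂ => (1:ℝ)) (Z w) = 0 := fderiv_const_apply 1
      rw [this]; simp
    simp only [this]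
    simp
  linarith

namespace Sys

variable {ε : ℝ} {W0 : ℝ × ℂ → ℂ} {N : Set (ℝ × ℂ)} {q : ℝ × ℂ → ℝ} {Nq : Set (ℝ × ℂ)}
    {ζ : ℂ → ℂ} {Nζ : Set ℂ} {κ c : ℝ}

lemma abs_HH_le (h : Sys ε W0 N q Nq ζ Nζ) (t : ℝ) {z : ℂ} (hz : z ∈ Om) : |HH ζ t z| ≤ 204 := by
  obtain ⟨w, hw, rfl⟩ := hz
  rw [h.HH_Om t hw]
  exact abs_Hw_le (S_sub_R2 hw)

lemma psi_HH_int (h : Sys ε W0 N q Nq ζ Nζ) {ψ : ℂ → ℝ} {C : ℝ} (hψ : TF ψ C) (t : ℝ) :
    IntegrableOn (fun z => ψ z * HH ζ t z) Om := by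
  refine Integrable.mul_bdd (c := 204) hψ.integrableOn (h.HH_ae_t t).aestronglyMeasurable ?_
  refine (ae_restrict_iff' isOpen_Om.measurableSet).2 (Eventually.of_forall fun z hz => ?_)
  rw [Real.norm_eq_abs]
  exact h.abs_HH_le t hz

lemma psi_rho_int (h : Sys ε W0 N q Nq ζ Nζ) {ψ : ℂ → ℝ} {C : ℝ} (hψ : TF ψ C) {t : ℝ}
    (ht : t ∈ Icc (0:ℝ) 1) : IntegrableOn (fun z => ψ z * rho ε W0 ζ t z) Om := by
  refine Integrable.mul_bdd (c := 1) hψ.integrableOn (h.rho_ae_t ht).aestronglyMeasurable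
    (Eventually.of_forall fun z => ?_)
  rw [Real.norm_eq_abs, abs_of_nonneg (h.rho_nonneg ht z)]
  exact h.rho_le_one ht z

lemma int_rho' (h : Sys ε W0 N q Nq ζ Nζ) {ψ : ℂ → ℝ} {C : ℝ} (hψ : TF ψ C) (κ : ℝ) {t : ℝ}
    (ht : t ∈ Icc (0:ℝ) 1) :
    ∫ z in Om, ψ z * rho' ε W0 ζ κ t z =
      (∫ z in Om, ψ z * rho ε W0 ζ t z) - κ * cpsi ψ * th t := by
  have e : ∀ z, ψ z * rho' ε W0 ζ κ t z = ψ z * rho ε W0 ζ t z - κ * (ψ z * HH ζ t z) := fun z => by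
    rw [rho']; ring
  simp only [e]
  rw [integral_sub (h.psi_rho_int hψ ht) ((h.psi_HH_int hψ t).const_mul κ), integral_const_mul,
    h.int_HH]
  ring

lemma flux_pt (h : Sys ε W0 N q Nq ζ Nζ) (hκ : Kap ε W0 ζ κ c) (L : ℂ →L[ℝ] ℝ) {t : ℝ}
    (ht : t ∈ Icc (0:ℝ) 1) {z : ℂ} (hz : z ∈ Om) :
    L (vel' ε W0 ζ κ t z) * rho' ε W0 ζ κ t z =
      L (vel ε W0 ζ t z) * rho ε W0 ζ t z + κ * L (mm ζ t z) := by
  obtain ⟨w, hw, rfl⟩ := hz
  by_cases hs : Supp w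
  · have hr := (hκ.H t ht w hw).2.2 hs
    have hr0 : rho' ε W0 ζ κ t (Z w) ≠ 0 := (lt_of_lt_of_le hκ.cpos hr).ne'
    rw [vel', map_add, map_smul, map_add, map_smul, smul_eq_mul, smul_eq_mul]
    have e : rho ε W0 ζ t (Z w) = rho' ε W0 ζ κ t (Z w) + κ * HH ζ t (Z w) := by rw [rho']; ring
    rw [e]
    field_simp
    ring
  · have hH : HH ζ t (Z w) = 0 := by rw [h.HH_Om t hw, Hw_zero hs]
    have hm : mm ζ t (Z w) = 0 := by rw [h.mm_Om t hw, mw_zero hs, zero_smul]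
    rw [vel', rho', hH, hm]
    simp

lemma norm_mm_le (h : Sys ε W0 N q Nq ζ Nζ) : ∃ A : ℝ, 0 ≤ A ∧ ∀ t : ℝ, ∀ z ∈ Om,
    ‖mm ζ t z‖ ≤ A := by
  obtain ⟨A, hA0, hA⟩ := exists_mw_bound
  refine ⟨A * 2, by positivity, fun t z hz => ?_⟩
  obtain ⟨w, hw, rfl⟩ := hz
  rw [h.mm_Om t hw, norm_smul, Real.norm_eq_abs]
  exact mul_le_mul (hA _ _) (norm_v0_le (S_sub_R3c hw)) (norm_nonneg _) hA0

lemma fd_mm_int (h : Sys ε W0 N q Nq ζ Nζ) {ψ : ℂ → ℝ} {C : ℝ} (hψ : TF ψ C) (t : ℝ) :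
    IntegrableOn (fun z => fderiv ℝ ψ z (mm ζ t z)) Om := by
  obtain ⟨A, hA0, hA⟩ := h.norm_mm_le
  have hm : AEMeasurable (fun z => fderiv ℝ ψ z (mm ζ t z)) (volume.restrict Om) := by
    have h1 : (fun z => fderiv ℝ ψ z (mm ζ t z)) =
        fun z => (mm ζ t z).re * fderiv ℝ ψ z 1 + (mm ζ t z).im * fderiv ℝ ψ z I := by
      funext x; exact clm_decomp _ _
    rw [h1]
    have hv := h.mm_ae_t t
    exact ((measurable_re.comp_aemeasurable hv).mul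
      (measurable_fderiv_apply_const ℝ ψ (1:ℂ)).aemeasurable).add
      ((measurable_im.comp_aemeasurable hv).mul
        (measurable_fderiv_apply_const ℝ ψ I).aemeasurable)
  refine IntegrableOn.of_bound volume_Om_lt_top hm.aestronglyMeasurable (C * A) ?_
  refine (ae_restrict_iff' isOpen_Om.measurableSet).2 (Eventually.of_forall fun z hz => ?_)
  exact ((fderiv ℝ ψ z).le_opNorm _).trans (mul_le_mul (hψ.b1 z hz) (hA t z hz)
    (norm_nonneg _) hψ.C0)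

lemma flux' (h : Sys ε W0 N q Nq ζ Nζ) (hκ : Kap ε W0 ζ κ c) {ψ : ℂ → ℝ} {C : ℝ} (hψ : TF ψ C)
    {t : ℝ} (ht : t ∈ Icc (0:ℝ) 1) :
    ∫ z in Om, fderiv ℝ ψ z (vel' ε W0 ζ κ t z) * rho' ε W0 ζ κ t z =
      (∫ z in Om, fderiv ℝ ψ z (vel ε W0 ζ t z) * rho ε W0 ζ t z) - κ * cpsi ψ * th1 t := by
  have e1 : ∫ z in Om, fderiv ℝ ψ z (vel' ε W0 ζ κ t z) * rho' ε W0 ζ κ t z =
      ∫ z in Om, (fderiv ℝ ψ z (vel ε W0 ζ t z) * rho ε W0 ζ t z + κ * fderiv ℝ ψ z (mm ζ t z)) :=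
    setIntegral_congr_fun isOpen_Om.measurableSet fun z hz => h.flux_pt hκ _ ht hz
  have i1 : IntegrableOn (fun z => fderiv ℝ ψ z (vel ε W0 ζ t z) * rho ε W0 ζ t z) Om := by
    refine Integrable.mul_bdd (c := 1) (h.fd_vel_integrable hψ ht)
      (h.rho_ae_t ht).aestronglyMeasurable (Eventually.of_forall fun z => ?_)
    rw [Real.norm_eq_abs, abs_of_nonneg (h.rho_nonneg ht z)]
    exact h.rho_le_one ht z
  have hcd := cd_zero hψ
  have hd : dpsi ψ = - cpsi ψ := by linarith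
  rw [e1, integral_add i1 ((h.fd_mm_int hψ t).const_mul κ), integral_const_mul, h.int_mm, hd]
  ring

theorem weak_cont' (h : Sys ε W0 N q Nq ζ Nζ) (hκ : Kap ε W0 ζ κ c) {ψ : ℂ → ℝ} {C : ℝ}
    (hψ : TF ψ C) :
    (∃ K : NNReal, LipschitzOnWith K (fun t => ∫ z in Om, ψ z * rho' ε W0 ζ κ t z) (Icc 0 1)) ∧
    ∀ᵐ t ∂(volume.restrict (Ioo (0:ℝ) 1)),
      HasDerivAt (fun s => ∫ z in Om, ψ z * rho' ε W0 ζ κ s z)
        (∫ z in Om, fderiv ℝ ψ z (vel' ε W0 ζ κ t z) * rho' ε W0 ζ κ t z) t := by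
  obtain ⟨⟨K, hK⟩, hd⟩ := h.weak_cont hψ
  constructor
  · refine ⟨K + ‖κ * cpsi ψ‖₊ * 4, LipschitzOnWith.of_dist_le_mul fun x hx y hy => ?_⟩
    rw [h.int_rho' hψ κ hx, h.int_rho' hψ κ hy, Real.dist_eq]
    have h1 := hK.dist_le_mul x hx y hy
    have h2 := th_lip.dist_le_mul x y
    rw [Real.dist_eq] at h1 h2
    have e : (∫ z in Om, ψ z * rho ε W0 ζ x z) - κ * cpsi ψ * th x -
        ((∫ z in Om, ψ z * rho ε W0 ζ y z) - κ * cpsi ψ * th y) =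
        ((∫ z in Om, ψ z * rho ε W0 ζ x z) - ∫ z in Om, ψ z * rho ε W0 ζ y z) -
        κ * cpsi ψ * (th x - th y) := by ring
    rw [e]
    refine (abs_sub _ _).trans ?_
    rw [abs_mul (κ * cpsi ψ)]
    have h3 : |κ * cpsi ψ| * |th x - th y| ≤ |κ * cpsi ψ| * (4 * dist x y) :=
      mul_le_mul_of_nonneg_left h2 (abs_nonneg _)
    push_cast
    rw [Real.norm_eq_abs]
    have e2 : ((K:ℝ) + |κ * cpsi ψ| * 4) * dist x y = K * dist x y + |κ * cpsi ψ| * (4 * dist x y) := by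
      ring
    rw [e2]
    exact add_le_add h1 h3
  · rw [ae_restrict_iff' measurableSet_Ioo] at hd ⊢
    filter_upwards [hd] with t hdt ht
    have ht' : t ∈ Icc (0:ℝ) 1 := ⟨ht.1.le, ht.2.le⟩
    rw [h.flux' hκ hψ ht']
    have h2 := (hdt ht).sub ((hasDerivAt_th t).const_mul (κ * cpsi ψ))
    refine h2.congr_of_eventuallyEq ?_
    filter_upwards [isOpen_Ioo.mem_nhds ht] with s hs
    exact h.int_rho' hψ κ ⟨hs.1.le, hs.2.le⟩

/-- total mass -/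
lemma mass (h : Sys ε W0 N q Nq ζ Nζ) {t : ℝ} (ht : t ∈ Icc (0:ℝ) 1) :
    ∫ z in Om, rho ε W0 ζ t z = ∫ z in Om, rho ε W0 ζ 0 z := by
  have h1 := h.W1_integral TF_one ht
  have h2 : ∀ s, RR ε (fun _ => (1:ℝ)) s = 0 := fun s => by
    unfold RR Psi
    have : ∀ z : ℂ, fderiv ℝ (fun _ : ℂ => (1:ℝ)) z = 0 := fun z => fderiv_const_apply 1
    simp [this]
  simp only [h2, one_mul] at h1
  rw [intervalIntegral.integral_zero] at h1
  linarith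

lemma mass' (h : Sys ε W0 N q Nq ζ Nζ) (κ : ℝ) {t : ℝ} (ht : t ∈ Icc (0:ℝ) 1) :
    ∫ z in Om, rho' ε W0 ζ κ t z = ∫ z in Om, rho ε W0 ζ 0 z := by
  have h1 := h.int_rho' TF_one κ ht
  simp only [one_mul, cpsi_one] at h1
  rw [h1, ← h.mass ht]
  ring

lemma mass_pos (h : Sys ε W0 N q Nq ζ Nζ) : 0 < ∫ z in Om, rho ε W0 ζ 0 z := by
  have h0 : (0:ℝ) ∈ Icc (0:ℝ) 1 := ⟨le_rfl, zero_le_one⟩
  have hi : IntegrableOn (fun z => rho ε W0 ζ 0 z) Om := by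
    have := h.psi_rho_int TF_one h0
    simpa using this
  rw [setIntegral_pos_iff_support_of_nonneg_ae (Eventually.of_forall fun z => h.rho_nonneg h0 z) hi]
  set A : Set ℂ := {w | |w.re| < 1 ∧ |w.im| < 1/20} with hA
  have hAo : IsOpen A := (isOpen_lt (continuous_abs.comp continuous_re) continuous_const).inter
    (isOpen_lt (continuous_abs.comp continuous_im) continuous_const)
  have hAS : A ⊆ S := fun w hw => ⟨hw.1.trans (by norm_num), hw.2⟩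
  have hZA : IsOpen (Z '' A) := isOpen_image_Z hAo (hAS.trans S_sub_R3c)
  have hne : (Z '' A).Nonempty := ⟨Z 0, 0, by simp [hA], rfl⟩
  refine lt_of_lt_of_le (hZA.measure_pos volume hne) (measure_mono ?_)
  rintro _ ⟨w, hw, rfl⟩
  refine ⟨?_, w, hAS hw, rfl⟩
  rw [Function.mem_support, rho_inn]
  · exact one_ne_zero
  · rw [h.ζZ w (S_sub_R2 (hAS hw))]
    intro hr
    have h1 := hr.1
    have h2 := hw.1
    linarith

lemma vel'_bound (h : Sys ε W0 N q Nq ζ Nζ) (hκ : Kap ε W0 ζ κ c) : ∃ V : ℝ, ∀ t ∈ Icc (0:ℝ) 1,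
    ∀ z ∈ Om, ‖vel' ε W0 ζ κ t z‖ ≤ V := by
  obtain ⟨A, hA0, hA⟩ := h.norm_mm_le
  have hε := h.geo.εpos
  refine ⟨ε * 2 + (κ / c) * (A + 204 * (ε * 2)), fun t ht z hz => ?_⟩
  have hv := h.norm_vel_le ht hz
  have hm := hA t z hz
  have hHH := h.abs_HH_le t hz
  obtain ⟨w, hw, rfl⟩ := hz
  by_cases hs : Supp w
  · have hr := (hκ.H t ht w hw).2.2 hs
    have hr0 : 0 < rho' ε W0 ζ κ t (Z w) := lt_of_lt_of_le hκ.cpos hr
    rw [vel']
    refine (norm_add_le _ _).trans (add_le_add hv ?_)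
    rw [norm_smul, Real.norm_eq_abs, abs_of_nonneg (div_nonneg hκ.κpos.le hr0.le)]
    refine mul_le_mul ?_ ?_ (norm_nonneg _) (div_nonneg hκ.κpos.le hκ.cpos.le)
    · exact div_le_div_of_nonneg_left hκ.κpos.le hκ.cpos hr
    · refine (norm_add_le _ _).trans (add_le_add hm ?_)
      rw [norm_smul, Real.norm_eq_abs]
      exact mul_le_mul hHH hv (norm_nonneg _) (by norm_num)
  · have hH : HH ζ t (Z w) = 0 := by rw [h.HH_Om t hw, Hw_zero hs]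
    have hm : mm ζ t (Z w) = 0 := by rw [h.mm_Om t hw, mw_zero hs, zero_smul]
    rw [vel', hH, hm]
    simp only [zero_smul, add_zero, smul_zero]
    have : 0 ≤ (κ / c) * (A + 204 * (ε * 2)) := by
      have := hκ.κpos; have := hκ.cpos
      positivity
    linarith

end Sys

end

end Pool.Agent.MFG
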