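import Pool.Agent.MP_03ede7_an.Det

set_option autoImplicit false
open Set Filter Topology Complex MeasureTheory
open scoped ComplexConjugate ContDiff

namespace Pool.Agent.MFG

noncomputable section

lemma measurable_g : Measurable g := (contDiff_g (n := 0)).continuous.measurable
lemma measurable_k : Measurable k := (contDiff_k (n := 0)).continuous.measurable
lemma measurable_k1 : Measurable k1 := (contDiff_k1 (n := 0)).continuous.measurable
lemma measurable_Z : Measurable Z := (contDiff_Z (n := 0)).continuous.measurable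
lemma measurable_tau : Measurable tau := (measurable_const.div measurable_g).sub measurable_const
lemma measurable_v0 : Measurable v0 := continuous_conj.measurable.comp measurable_k.inv

lemma measurable_mu (ε : ℝ) : Measurable (mu ε) := by
  unfold mu
  have h1 : Measurable (fun w => (conj (k w) * k1 w).re) :=
    measurable_re.comp ((continuous_conj.measurable.comp measurable_k).mul measurable_k1)
  exact measurable_g.add ((measurable_const.mul h1).div (measurable_g.pow_const 2))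

lemma measurable_Jac (ε : ℝ) : Measurable (fun x : ℝ × ℂ => Jac ε x.1 x.2) := by
  unfold Jac
  have h1 : Measurable (fun x : ℝ × ℂ => x.1 - tau x.2) :=
    measurable_fst.sub (measurable_tau.comp measurable_snd)
  have h2 : Measurable (fun x : ℝ × ℂ => normSq (k1 x.2)) :=
    continuous_normSq.measurable.comp (measurable_k1.comp measurable_snd)
  have h3 : Measurable (fun x : ℝ × ℂ => g x.2) := measurable_g.comp measurable_snd
  exact ((measurable_mu ε).comp measurable_snd).add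
    (((measurable_const.mul h2).mul (h1.div (h3.pow_const 2))).mul ((measurable_const.div h3).sub h1))

/-- particles released before time `t` -/
def Aset (t : ℝ) : Set ℂ := {w | w ∈ S ∧ 11/10 < |w.re| ∧ 0 ≤ tau w ∧ tau w < t}
def innS (t : ℝ) : Set ℂ := {w | w ∈ S ∧ ¬ rel t w}
def relS (t : ℝ) : Set ℂ := {w | w ∈ S ∧ rel t w}

lemma measurableSet_rel : MeasurableSet {x : ℝ × ℂ | rel x.1 x.2} := by
  unfold rel
  have h1 : Measurable (fun x : ℝ × ℂ => |x.2.re|) :=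
    (continuous_abs.comp (continuous_re.comp continuous_snd)).measurable
  exact (measurableSet_lt measurable_const h1).inter
    (measurableSet_lt (measurable_tau.comp measurable_snd) measurable_fst)

lemma measurableSet_A : MeasurableSet {x : ℝ × ℂ | x.2 ∈ Aset x.1} := by
  have h1 : Measurable (fun x : ℝ × ℂ => |x.2.re|) :=
    (continuous_abs.comp (continuous_re.comp continuous_snd)).measurable
  have h2 : MeasurableSet {x : ℝ × ℂ | x.2 ∈ S} := isOpen_S.measurableSet.preimage measurable_snd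
  have h3 : MeasurableSet {x : ℝ × ℂ | 11/10 < |x.2.re|} := measurableSet_lt measurable_const h1
  have h4 : MeasurableSet {x : ℝ × ℂ | 0 ≤ tau x.2} :=
    measurableSet_le measurable_const (measurable_tau.comp measurable_snd)
  have h5 : MeasurableSet {x : ℝ × ℂ | tau x.2 < x.1} :=
    measurableSet_lt (measurable_tau.comp measurable_snd) measurable_fst
  exact h2.inter (h3.inter (h4.inter h5))

lemma measurableSet_rel' (t : ℝ) : MeasurableSet {w : ℂ | rel t w} :=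
  measurableSet_rel.preimage (measurable_const.prodMk measurable_id (f := fun _ : ℂ => t))

lemma measurableSet_Aset (t : ℝ) : MeasurableSet (Aset t) :=
  measurableSet_A.preimage (measurable_const.prodMk measurable_id (f := fun _ : ℂ => t))

lemma measurableSet_innS (t : ℝ) : MeasurableSet (innS t) :=
  isOpen_S.measurableSet.inter (measurableSet_rel' t).compl

lemma measurableSet_relS (t : ℝ) : MeasurableSet (relS t) :=
  isOpen_S.measurableSet.inter (measurableSet_rel' t)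

/-- The physical domain. -/
def Om : Set ℂ := Z '' S

lemma S_sub_R2 : S ⊆ R2 := S_subset_Sc.trans Sc_subset_R2
lemma S_sub_R3c : S ⊆ R3c := S_sub_R2.trans (R2_subset_R3.trans R3_subset_R3c)

lemma isOpen_Om : IsOpen Om := isOpen_image_Z isOpen_S S_sub_R3c

lemma closure_Om_sub : closure Om ⊆ Z '' Sc :=
  closure_minimal (image_mono S_subset_Sc)
    (isCompact_Sc.image (contDiff_Z (n := 0)).continuous).isClosed

lemma isBounded_Om : Bornology.IsBounded Om :=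
  (isCompact_Sc.image (contDiff_Z (n := 0)).continuous).isBounded.subset (image_mono S_subset_Sc)

lemma volume_Om_lt_top : volume Om < ⊤ := isBounded_Om.measure_lt_top

lemma mu_ge {ε : ℝ} {W0 : ℝ × ℂ → ℂ} {N : Set (ℝ × ℂ)} (h : Geo ε W0 N) {w : ℂ} (hw : w ∈ R3c) :
    1/8 ≤ mu ε w := by
  have h1 := (abs_le.1 (h.muclose w hw)).1
  have h2 := g_ge3 hw
  unfold mu
  linarith

lemma Jac_ge_mu {ε t : ℝ} {w : ℂ} (hg0 : 0 < g w) (h0 : 0 ≤ t - tau w)
    (h1 : t - tau w ≤ 12 / g w) : mu ε w ≤ Jac ε t w := by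
  unfold Jac
  have : 0 ≤ ε^2 * normSq (k1 w) * ((t - tau w) / (g w)^2) * (12 / g w - (t - tau w)) := by
    have h2 := normSq_nonneg (k1 w)
    have h3 : 0 ≤ (t - tau w) / (g w)^2 := div_nonneg h0 (sq_nonneg _)
    have h4 : 0 ≤ 12 / g w - (t - tau w) := by linarith
    positivity
  linarith

lemma Aset_bounds {t : ℝ} (ht : t ∈ Icc (0:ℝ) 1) {w : ℂ} (hw : w ∈ Aset t) :
    23/20 ≤ |w.re| ∧ |w.re| ≤ 13/10 ∧ g w ≤ 2 := by
  obtain ⟨h1, h2, h3, h4⟩ := hw
  have hR := S_sub_R2 h1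
  refine ⟨?_, ?_, ?_⟩
  · by_contra hc
    push Not at hc
    have := tau_gt_one h2.le hc.le h1.2.le
    linarith [ht.2]
  · by_contra hc
    push Not at hc
    have := tau_neg hc.le hR.1 h1.2.le
    linarith
  · have hg := g_pos hR
    unfold tau at h3
    have : 3 ≤ 6 / g w := by linarith
    rw [le_div_iff₀ hg] at this
    linarith

lemma Aset_delta {t : ℝ} (ht : t ∈ Icc (0:ℝ) 1) {w : ℂ} (hw : w ∈ Aset t) :
    0 ≤ t - tau w ∧ t - tau w ≤ 12 / g w := by
  obtain ⟨-, -, h5⟩ := Aset_bounds ht hw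
  obtain ⟨h1, h2, h3, h4⟩ := hw
  have hg := g_pos (S_sub_R2 h1)
  refine ⟨by linarith, ?_⟩
  rw [le_div_iff₀ hg]
  nlinarith [ht.2]

open Classical in
/-- density -/
def rho (ε : ℝ) (W0 : ℝ × ℂ → ℂ) (ζ : ℂ → ℂ) (t : ℝ) (z : ℂ) : ℝ :=
  if rel t (ζ z) then
    (if W0 (t, z) ∈ Aset t then mu ε (W0 (t, z)) / Jac ε t (W0 (t, z)) else 0)
  else 1

open Classical in
/-- velocity -/
def vel (ε : ℝ) (W0 : ℝ × ℂ → ℂ) (ζ : ℂ → ℂ) (t : ℝ) (z : ℂ) : ℂ :=
  if rel t (ζ z) then ε • v0 (W0 (t, z)) else ε • v0 (ζ z)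

namespace Sys

variable {ε : ℝ} {W0 : ℝ × ℂ → ℂ} {N : Set (ℝ × ℂ)} {q : ℝ × ℂ → ℝ} {Nq : Set (ℝ × ℂ)}
    {ζ : ℂ → ℂ} {Nζ : Set ℂ}

lemma TI {t : ℝ} (ht : t ∈ Icc (0:ℝ) 1) : t ∈ Icc (-1:ℝ) 2 := ⟨by linarith [ht.1], by linarith [ht.2]⟩

lemma M1 (h : Sys ε W0 N q Nq ζ Nζ) {t : ℝ} (ht : t ∈ Icc (0:ℝ) 1) {w₀ : ℂ} (hw : w₀ ∈ Aset t) :
    ∃ w ∈ relS t, Z w = Mt ε t w₀ := by
  obtain ⟨b1, b2, b3⟩ := Aset_bounds ht hw
  obtain ⟨h1, h2, h3, h4⟩ := hw
  obtain ⟨w, hwR, hwe⟩ := h.geo.image_R2 t (TI ht) w₀ (S_subset_Sc h1)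
  have hw3 : w ∈ R3c := R3_subset_R3c (R2_subset_R3 hwR)
  have hw03 := S_sub_R3c h1
  have hcl := h.geo.close (TI ht) hw3 hw03 hwe
  have hsg := (h.geo.sign_pos (TI ht) hw3 hw03 hwe).1 (by linarith)
  have hre : |w.re - w₀.re| ≤ 1/1000 := by
    have := (abs_re_le_norm (w - w₀)).trans hcl
    simpa using this
  have hre1 : |w.re| ≤ |w₀.re| + 1/1000 := by
    have := abs_sub_abs_le_abs_sub w.re w₀.re
    linarith
  have hre2 : |w₀.re| ≤ |w.re| + 1/1000 := by
    have := abs_sub_abs_le_abs_sub w₀.re w.re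
    rw [abs_sub_comm] at this
    linarith
  have him : (conj (k w₀) * (Z w - Z w₀)).im = 0 := by
    have e2 : Z w - Z w₀ = (ε * (t - tau w₀)) • v0 w₀ := by rw [hwe, Mt]; ring
    have hk : conj (k w₀) ≠ 0 := by simpa using k_ne3 hw03
    have : conj (k w₀) * ((ε * (t - tau w₀)) • v0 w₀) = ((ε * (t - tau w₀) : ℝ) : ℂ) := by
      rw [v0, real_smul, map_inv₀]
      field_simp
    rw [e2, this, ofReal_im]
  have hwim := wall_full b1 b2 h1.2 hcl him
  refine ⟨w, ⟨⟨by linarith, hwim⟩, by linarith, by linarith⟩, hwe⟩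

lemma M3 (h : Sys ε W0 N q Nq ζ Nζ) {t : ℝ} (ht : t ∈ Icc (0:ℝ) 1) :
    Mt ε t '' Aset t = {z | z ∈ Z '' relS t ∧ W0 (t, z) ∈ Aset t} := by
  ext z
  constructor
  · rintro ⟨w₀, hw₀, rfl⟩
    obtain ⟨w, hw, hwe⟩ := h.M1 ht hw₀
    refine ⟨⟨w, hw, hwe⟩, ?_⟩
    rw [h.geo.MW0 t (TI ht) w₀ (S_sub_R2 hw₀.1)]
    exact hw₀
  · rintro ⟨⟨w, hw, rfl⟩, hA⟩
    exact ⟨_, hA, h.geo.W0M _ (h.geo.W0_mem (TI ht) (S_sub_R2 hw.1))⟩

lemma Mt_injOn (h : Sys ε W0 N q Nq ζ Nζ) {t : ℝ} (ht : t ∈ Icc (0:ℝ) 1) :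
    InjOn (Mt ε t) (Aset t) := by
  intro w hw w' hw' heq
  have h1 := h.geo.MW0 t (TI ht) w (S_sub_R2 hw.1)
  have h2 := h.geo.MW0 t (TI ht) w' (S_sub_R2 hw'.1)
  rw [← h1, ← h2, heq]

lemma Jac_pos_A (h : Sys ε W0 N q Nq ζ Nζ) {t : ℝ} (ht : t ∈ Icc (0:ℝ) 1) {w : ℂ}
    (hw : w ∈ Aset t) : 0 < mu ε w ∧ mu ε w ≤ Jac ε t w := by
  obtain ⟨d1, d2⟩ := Aset_delta ht hw
  have hg := g_pos (S_sub_R2 hw.1)
  have := mu_ge h.geo (S_sub_R3c hw.1)
  exact ⟨by linarith, Jac_ge_mu hg d1 d2⟩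

lemma rho_nonneg (h : Sys ε W0 N q Nq ζ Nζ) {t : ℝ} (ht : t ∈ Icc (0:ℝ) 1) (z : ℂ) :
    0 ≤ rho ε W0 ζ t z := by
  unfold rho
  split_ifs with h1 h2
  · obtain ⟨a, b⟩ := h.Jac_pos_A ht h2
    exact div_nonneg a.le (by linarith)
  · exact le_rfl
  · exact zero_le_one

lemma rho_le_one (h : Sys ε W0 N q Nq ζ Nζ) {t : ℝ} (ht : t ∈ Icc (0:ℝ) 1) (z : ℂ) :
    rho ε W0 ζ t z ≤ 1 := by
  unfold rho
  split_ifs with h1 h2
  · obtain ⟨a, b⟩ := h.Jac_pos_A ht h2
    rw [div_le_one (by linarith)]; exact b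
  · exact zero_le_one
  · exact le_rfl

end Sys

end

end Pool.Agent.MFG
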