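import Pool.Agent.MP_03ede7_an.Cov

set_option autoImplicit false
open Set Filter Topology Complex MeasureTheory
open scoped ComplexConjugate ContDiff

namespace Pool.Agent.MFG

noncomputable section

open Classical in
/-- density in terms of `(t, w, w₀)` -/
def Frho (ε : ℝ) (x : ℝ × ℂ × ℂ) : ℝ :=
  if rel x.1 x.2.1 then (if x.2.2 ∈ Aset x.1 then mu ε x.2.2 / Jac ε x.1 x.2.2 else 0) else 1

open Classical in
def Fvel (ε : ℝ) (x : ℝ × ℂ × ℂ) : ℂ :=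
  if rel x.1 x.2.1 then ε • v0 x.2.2 else ε • v0 x.2.1

lemma mS_rel : MeasurableSet {x : ℝ × ℂ × ℂ | rel x.1 x.2.1} := by
  have m12 : Measurable (fun x : ℝ × ℂ × ℂ => (x.1, x.2.1)) :=
    measurable_fst.prodMk (measurable_fst.comp measurable_snd)
  exact m12 measurableSet_rel

lemma mS_A : MeasurableSet {x : ℝ × ℂ × ℂ | x.2.2 ∈ Aset x.1} := by
  have m13 : Measurable (fun x : ℝ × ℂ × ℂ => (x.1, x.2.2)) :=
    measurable_fst.prodMk (measurable_snd.comp measurable_snd)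
  exact m13 measurableSet_A

lemma mdiv {X : Type*} [MeasurableSpace X] {f g : X → ℝ} (hf : Measurable f) (hg : Measurable g) :
    Measurable (fun x => f x / g x) := hf.div hg

lemma mquot (ε : ℝ) : Measurable (fun x : ℝ × ℂ × ℂ => mu ε x.2.2 / Jac ε x.1 x.2.2) :=
  mdiv ((measurable_mu ε).comp (measurable_snd.comp measurable_snd))
    (Measurable.comp (g := fun y : ℝ × ℂ => Jac ε y.1 y.2)
      (f := fun x : ℝ × ℂ × ℂ => (x.1, x.2.2)) (measurable_Jac ε)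
      (measurable_fst.prodMk (measurable_snd.comp measurable_snd)))

lemma measurable_Frho (ε : ℝ) : Measurable (Frho ε) :=
  Measurable.ite mS_rel (Measurable.ite mS_A (mquot ε) measurable_const) measurable_const

lemma measurable_Fvel (ε : ℝ) : Measurable (Fvel ε) := by
  have h1 : Measurable (fun x : ℝ × ℂ × ℂ => ε • v0 x.2.2) :=
    (measurable_v0.comp (measurable_snd.comp measurable_snd)).const_smul ε
  have h2 : Measurable (fun x : ℝ × ℂ × ℂ => ε • v0 x.2.1) :=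
    (measurable_v0.comp (measurable_fst.comp measurable_snd)).const_smul ε
  exact Measurable.ite mS_rel h1 h2

lemma rho_inn {ε : ℝ} {W0 : ℝ × ℂ → ℂ} {ζ : ℂ → ℂ} {t : ℝ} {z : ℂ} (h : ¬ rel t (ζ z)) :
    rho ε W0 ζ t z = 1 := if_neg h

lemma rho_A {ε : ℝ} {W0 : ℝ × ℂ → ℂ} {ζ : ℂ → ℂ} {t : ℝ} {z : ℂ} (h : rel t (ζ z))
    (h2 : W0 (t, z) ∈ Aset t) :
    rho ε W0 ζ t z = mu ε (W0 (t, z)) / Jac ε t (W0 (t, z)) := by
  rw [rho, if_pos h, if_pos h2]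

lemma rho_zero {ε : ℝ} {W0 : ℝ × ℂ → ℂ} {ζ : ℂ → ℂ} {t : ℝ} {z : ℂ} (h : rel t (ζ z))
    (h2 : W0 (t, z) ∉ Aset t) : rho ε W0 ζ t z = 0 := by
  rw [rho, if_pos h, if_neg h2]

lemma vel_inn {ε : ℝ} {W0 : ℝ × ℂ → ℂ} {ζ : ℂ → ℂ} {t : ℝ} {z : ℂ} (h : ¬ rel t (ζ z)) :
    vel ε W0 ζ t z = ε • v0 (ζ z) := if_neg h

lemma vel_rel {ε : ℝ} {W0 : ℝ × ℂ → ℂ} {ζ : ℂ → ℂ} {t : ℝ} {z : ℂ} (h : rel t (ζ z)) :
    vel ε W0 ζ t z = ε • v0 (W0 (t, z)) := if_pos h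

lemma rho_eq (ε : ℝ) (W0 : ℝ × ℂ → ℂ) (ζ : ℂ → ℂ) (t : ℝ) (z : ℂ) :
    rho ε W0 ζ t z = Frho ε (t, ζ z, W0 (t, z)) := rfl

lemma vel_eq (ε : ℝ) (W0 : ℝ × ℂ → ℂ) (ζ : ℂ → ℂ) (t : ℝ) (z : ℂ) :
    vel ε W0 ζ t z = Fvel ε (t, ζ z, W0 (t, z)) := rfl

namespace Sys

variable {ε : ℝ} {W0 : ℝ × ℂ → ℂ} {N : Set (ℝ × ℂ)} {q : ℝ × ℂ → ℝ} {Nq : Set (ℝ × ℂ)}
    {ζ : ℂ → ℂ} {Nζ : Set ℂ}

lemma Om_sub (h : Sys ε W0 N q Nq ζ Nζ) : Om ⊆ Nζ := (image_mono S_sub_R2).trans h.sub_Nζ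

lemma ζ_Om (h : Sys ε W0 N q Nq ζ Nζ) {z : ℂ} (hz : z ∈ Om) : ζ z ∈ S ∧ Z (ζ z) = z := by
  obtain ⟨w, hw, rfl⟩ := hz
  rw [h.ζZ w (S_sub_R2 hw)]
  exact ⟨hw, rfl⟩

lemma ae_triple (h : Sys ε W0 N q Nq ζ Nζ) :
    AEMeasurable (fun x : ℝ × ℂ => (x.1, ζ x.2, W0 x)) (volume.restrict (Icc (0:ℝ) 1 ×ˢ Om)) := by
  have hm : MeasurableSet (Icc (0:ℝ) 1 ×ˢ Om) := measurableSet_Icc.prod isOpen_Om.measurableSet
  have hc : ContinuousOn (fun x : ℝ × ℂ => (x.1, ζ x.2, W0 x)) (Icc (0:ℝ) 1 ×ˢ Om) := by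
    refine continuousOn_fst.prodMk (ContinuousOn.prodMk ?_ ?_)
    · exact h.ζC.continuousOn.comp continuousOn_snd (fun x hx => h.Om_sub hx.2)
    · refine h.geo.W0C.continuousOn.mono ?_
      rintro ⟨t, z⟩ ⟨ht, w, hw, rfl⟩
      exact h.geo.W0_mem (TI ht) (S_sub_R2 hw)
  exact hc.aemeasurable hm

lemma ae_triple_t (h : Sys ε W0 N q Nq ζ Nζ) {t : ℝ} (ht : t ∈ Icc (0:ℝ) 1) :
    AEMeasurable (fun z : ℂ => (t, ζ z, W0 (t, z))) (volume.restrict Om) := by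
  have hc : ContinuousOn (fun z : ℂ => (t, ζ z, W0 (t, z))) Om := by
    refine continuousOn_const.prodMk (ContinuousOn.prodMk ?_ ?_)
    · exact h.ζC.continuousOn.mono h.Om_sub
    · refine h.geo.W0C.continuousOn.comp (by fun_prop : ContinuousOn (fun z : ℂ => (t, z)) Om) ?_
      rintro z ⟨w, hw, rfl⟩
      exact h.geo.W0_mem (TI ht) (S_sub_R2 hw)
  exact hc.aemeasurable isOpen_Om.measurableSet

lemma rho_ae (h : Sys ε W0 N q Nq ζ Nζ) :
    AEMeasurable (fun x : ℝ × ℂ => rho ε W0 ζ x.1 x.2) (volume.restrict (Icc (0:ℝ) 1 ×ˢ Om)) :=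
  (measurable_Frho ε).comp_aemeasurable h.ae_triple

lemma vel_ae (h : Sys ε W0 N q Nq ζ Nζ) :
    AEMeasurable (fun x : ℝ × ℂ => vel ε W0 ζ x.1 x.2) (volume.restrict (Icc (0:ℝ) 1 ×ˢ Om)) :=
  (measurable_Fvel ε).comp_aemeasurable h.ae_triple

lemma rho_ae_t (h : Sys ε W0 N q Nq ζ Nζ) {t : ℝ} (ht : t ∈ Icc (0:ℝ) 1) :
    AEMeasurable (fun z : ℂ => rho ε W0 ζ t z) (volume.restrict Om) :=
  (measurable_Frho ε).comp_aemeasurable (h.ae_triple_t ht)

lemma vel_ae_t (h : Sys ε W0 N q Nq ζ Nζ) {t : ℝ} (ht : t ∈ Icc (0:ℝ) 1) :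
    AEMeasurable (fun z : ℂ => vel ε W0 ζ t z) (volume.restrict Om) :=
  (measurable_Fvel ε).comp_aemeasurable (h.ae_triple_t ht)

/-- change of variables -/
theorem cov (h : Sys ε W0 N q Nq ζ Nζ) {t : ℝ} (ht : t ∈ Icc (0:ℝ) 1) {F : ℂ → ℝ}
    (hF : IntegrableOn F Om) :
    ∫ z in Om, F z * rho ε W0 ζ t z =
      (∫ w in innS t, g w * F (Z w)) + ∫ w in Aset t, mu ε w * F (Mt ε t w) := by
  have hint : IntegrableOn (fun z => F z * rho ε W0 ζ t z) Om := by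
    refine Integrable.mul_bdd (c := 1) hF (h.rho_ae_t ht).aestronglyMeasurable
      (Eventually.of_forall fun z => ?_)
    rw [Real.norm_eq_abs, abs_of_nonneg (h.rho_nonneg ht z)]
    exact h.rho_le_one ht z
  have hZd : ∀ (B : Set ℂ), ∀ w ∈ B,
      HasFDerivWithinAt Z (ContinuousLinearMap.mul ℝ ℂ (k w)) B w :=
    fun B w _ => (hasFDerivAt_Z w).hasFDerivWithinAt
  have hZinj : InjOn Z S := Z_injOn.mono S_sub_R3c
  have hmI : MeasurableSet (Z '' innS t) := measurable_image_of_fderivWithin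
    (measurableSet_innS t) (hZd _) (hZinj.mono fun w hw => hw.1)
  have hmR : MeasurableSet (Z '' relS t) := measurable_image_of_fderivWithin
    (measurableSet_relS t) (hZd _) (hZinj.mono fun w hw => hw.1)
  have hunion : Om = Z '' innS t ∪ Z '' relS t := by
    rw [Om, ← image_union]
    congr 1
    ext w
    constructor
    · intro hw
      by_cases hr : rel t w
      · exact Or.inr ⟨hw, hr⟩
      · exact Or.inl ⟨hw, hr⟩
    · rintro (hw | hw) <;> exact hw.1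
  have hdisj : Disjoint (Z '' innS t) (Z '' relS t) := by
    rw [Set.disjoint_left]
    rintro _ ⟨w, hw, rfl⟩ ⟨w', hw', heq⟩
    have := hZinj hw'.1 hw.1 heq
    subst this
    exact hw.2 hw'.2
  have hintI : IntegrableOn (fun z => F z * rho ε W0 ζ t z) (Z '' innS t) :=
    hint.mono_set (by rw [hunion]; exact subset_union_left)
  have hintR : IntegrableOn (fun z => F z * rho ε W0 ζ t z) (Z '' relS t) :=
    hint.mono_set (by rw [hunion]; exact subset_union_right)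
  have hsplit : ∫ z in Om, F z * rho ε W0 ζ t z =
      (∫ z in Z '' innS t, F z * rho ε W0 ζ t z) + ∫ z in Z '' relS t, F z * rho ε W0 ζ t z := by
    conv_lhs => rw [hunion]
    exact setIntegral_union hdisj hmR hintI hintR
  rw [hsplit]
  congr 1
  · have e1 : ∫ z in Z '' innS t, F z * rho ε W0 ζ t z = ∫ z in Z '' innS t, F z := by
      refine setIntegral_congr_fun hmI ?_
      rintro _ ⟨w, hw, rfl⟩
      have hr : ¬ rel t (ζ (Z w)) := by rw [h.ζZ w (S_sub_R2 hw.1)]; exact hw.2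
      simp only [rho_inn hr, mul_one]
    rw [e1, integral_image_eq_integral_abs_det_fderiv_smul volume (measurableSet_innS t) (hZd _)
      (hZinj.mono fun w hw => hw.1) F]
    refine setIntegral_congr_fun (measurableSet_innS t) fun w hw => ?_
    simp only [det_mul, smul_eq_mul]
    rw [abs_of_nonneg (normSq_nonneg _)]
    rfl
  · have hMd : ∀ w ∈ Aset t, HasFDerivWithinAt (Mt ε t) (ABL (MA ε w) (MB ε t w)) (Aset t) w :=
      fun w hw => (hasFDerivAt_Mt ε t (k_ne (S_sub_R2 hw.1))).hasFDerivWithinAt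
    have hmM : MeasurableSet (Mt ε t '' Aset t) := measurable_image_of_fderivWithin
      (measurableSet_Aset t) hMd (h.Mt_injOn ht)
    have hM3 := h.M3 ht
    have hMsub : Mt ε t '' Aset t ⊆ Z '' relS t := by
      rw [hM3]; exact fun z hz => hz.1
    have e1 : ∫ z in Z '' relS t, F z * rho ε W0 ζ t z =
        ∫ z in Mt ε t '' Aset t, F z * rho ε W0 ζ t z := by
      refine (setIntegral_eq_of_subset_of_forall_sdiff_eq_zero hmR hMsub ?_)
      rintro z ⟨⟨w, hw, rfl⟩, hz2⟩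
      have hn : W0 (t, Z w) ∉ Aset t := fun hA => hz2 (by
        rw [hM3]; exact ⟨⟨w, hw, rfl⟩, hA⟩)
      have hr : rel t (ζ (Z w)) := by rw [h.ζZ w (S_sub_R2 hw.1)]; exact hw.2
      simp only [rho_zero hr hn, mul_zero]
    rw [e1, integral_image_eq_integral_abs_det_fderiv_smul volume (measurableSet_Aset t) hMd
      (h.Mt_injOn ht) (fun z => F z * rho ε W0 ζ t z)]
    refine setIntegral_congr_fun (measurableSet_Aset t) fun w hw => ?_
    obtain ⟨w', hw', hwe⟩ := h.M1 ht hw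
    obtain ⟨j1, j2⟩ := h.Jac_pos_A ht hw
    have hζ : ζ (Mt ε t w) = w' := by rw [← hwe]; exact h.ζZ w' (S_sub_R2 hw'.1)
    have hW : W0 (t, Mt ε t w) = w := h.geo.MW0 t (TI ht) w (S_sub_R2 hw.1)
    have hr : rel t (ζ (Mt ε t w)) := by rw [hζ]; exact hw'.2
    have hA : W0 (t, Mt ε t w) ∈ Aset t := by rw [hW]; exact hw
    simp only [det_Mt ε t (k_ne (S_sub_R2 hw.1)), rho_A hr hA, hW, smul_eq_mul]
    have hJ : 0 < Jac ε t w := by linarith
    rw [abs_of_pos hJ]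
    field_simp

end Sys

end

end Pool.Agent.MFG
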