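import Pool.Agent.MP_03ede7_an.Sys

set_option autoImplicit false
open Set Filter Topology Complex MeasureTheory
open scoped ComplexConjugate ContDiff

namespace Pool.Agent.MFG

noncomputable section

/-- the real-linear map `ξ ↦ A ξ + B conj ξ` -/
def ABL (A B : ℂ) : ℂ →L[ℝ] ℂ :=
  ContinuousLinearMap.mul ℝ ℂ A + (ContinuousLinearMap.mul ℝ ℂ B) ∘L (conjCLE : ℂ →L[ℝ] ℂ)

lemma ABL_apply (A B ξ : ℂ) : ABL A B ξ = A * ξ + B * conj ξ := by simp [ABL]

lemma det_ABL (A B : ℂ) : (ABL A B).det = normSq A - normSq B := by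
  rw [ContinuousLinearMap.det, ← LinearMap.det_toMatrix Complex.basisOneI, Matrix.det_fin_two]
  simp [LinearMap.toMatrix_apply, ABL_apply, normSq_apply]
  ring

lemma det_mul (A : ℂ) : (ContinuousLinearMap.mul ℝ ℂ A).det = normSq A := by
  have : ContinuousLinearMap.mul ℝ ℂ A = ABL A 0 := by
    apply ContinuousLinearMap.ext; intro x; simp [ABL_apply]
  rw [this, det_ABL]; simp

/-- the density factor at release -/
def mu (ε : ℝ) (w : ℂ) : ℝ := g w + 12 * ε * (conj (k w) * k1 w).re / (g w)^2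

/-- The Jacobian of the exterior flow. -/
def Jac (ε t : ℝ) (w : ℂ) : ℝ :=
  mu ε w + ε^2 * normSq (k1 w) * ((t - tau w) / (g w)^2) * (12 / g w - (t - tau w))

def MA (ε : ℝ) (w : ℂ) : ℂ := k w + (6 * ε / (g w)^2 : ℝ) * k1 w
def MB (ε t : ℝ) (w : ℂ) : ℂ :=
  (6 * ε / (g w)^2 : ℝ) * (k w * conj (k1 w) / conj (k w)) -
    (ε * (t - tau w) : ℝ) * (conj (k1 w) / (conj (k w))^2)

lemma hasFDerivAt_Mt (ε t : ℝ) {w : ℂ} (hk : k w ≠ 0) :
    HasFDerivAt (Mt ε t) (ABL (MA ε w) (MB ε t w)) w := by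
  have hg : g w ≠ 0 := by unfold g; simpa using hk
  have hgp : 0 < g w := lt_of_le_of_ne (normSq_nonneg _) (Ne.symm hg)
  have hC : ContDiffAt ℝ 1 (Mt ε t) w := by
    have h1 : ContDiffAt ℝ 1 v0 w := contDiffAt_v0 hk
    have h2 : ContDiffAt ℝ 1 tau w := (contDiffAt_tau hgp).of_le (by norm_cast)
    exact contDiff_Z.contDiffAt.add ((contDiffAt_const.mul (contDiffAt_const.sub h2)).smul h1)
  have hd := (hC.differentiableAt (by simp)).hasFDerivAt
  refine hd.congr_fderiv ?_
  apply ContinuousLinearMap.ext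
  intro ξ
  have hline : HasDerivAt (fun r : ℝ => w + r • ξ) ξ 0 := by
    have := ((hasDerivAt_id (0:ℝ)).smul_const ξ).const_add w
    simpa using this
  have hl0 : w + (0:ℝ) • ξ = w := by simp
  have e1 := curve_Z hline
  have e2 := curve_tau hline (by rw [hl0]; exact hg)
  have e3 := curve_v0 hline (by rw [hl0]; exact hk)
  rw [hl0] at e1 e2 e3
  have e4 := e1.add (((e2.const_sub t).const_mul ε).smul e3)
  have e5 : HasDerivAt (fun r : ℝ => Mt ε t (w + r • ξ)) (fderiv ℝ (Mt ε t) w ξ) 0 := by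
    have h4 : HasFDerivAt (Mt ε t) (fderiv ℝ (Mt ε t) w) ((fun r : ℝ => w + r • ξ) 0) := by
      simp only [hl0]; exact hd
    exact h4.comp_hasDerivAt 0 hline
  have e6 := e5.unique e4
  rw [e6, hl0, ABL_apply]
  have hip : (ip (gradg w) ξ : ℂ) = conj (k w) * k1 w * ξ + k w * conj (k1 w) * conj ξ := by
    have e1 : ip (gradg w) ξ = (conj (gradg w) * ξ).re := by rw [ip_apply]; simp
    rw [e1, Complex.re_eq_add_conj, gradg]
    have h2 : conj (2:ℂ) = 2 := map_ofNat _ 2
    simp only [map_mul, conj_conj, h2]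
    ring
  have hkc : conj (k w) ≠ 0 := by simpa using hk
  have hgk : (g w : ℂ) = conj (k w) * k w := by rw [g, Complex.normSq_eq_conj_mul_self]
  simp only [real_smul, MA, MB, v0]
  push_cast
  rw [hip, hgk]
  simp only [map_div₀, map_neg, map_mul, map_pow, map_inv₀]
  field_simp
  ring

lemma det_Mt (ε t : ℝ) {w : ℂ} (hk : k w ≠ 0) :
    (ABL (MA ε w) (MB ε t w)).det = Jac ε t w := by
  have hg : g w ≠ 0 := by unfold g; simpa using hk
  have hgp : 0 < g w := lt_of_le_of_ne (normSq_nonneg _) (Ne.symm hg)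
  rw [det_ABL]
  have hkc : conj (k w) ≠ 0 := by simpa using hk
  have hgk : (g w : ℂ) = conj (k w) * k w := by rw [g, Complex.normSq_eq_conj_mul_self]
  have hA : normSq (MA ε w) = g w + 12 * ε / (g w)^2 * (conj (k w) * k1 w).re +
      (6 * ε / (g w)^2)^2 * normSq (k1 w) := by
    rw [MA, normSq_add, normSq_mul, normSq_ofReal]
    have : (k w * conj (((6 * ε / g w ^ 2 : ℝ) : ℂ) * k1 w)).re =
        (6 * ε / g w ^ 2) * (conj (k w) * k1 w).re := by
      rw [map_mul, conj_ofReal]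
      have : k w * (((6 * ε / g w ^ 2 : ℝ) : ℂ) * conj (k1 w)) =
        ((6 * ε / g w ^ 2 : ℝ) : ℂ) * (k w * conj (k1 w)) := by ring
      rw [this, re_ofReal_mul]
      congr 1
      simp
    rw [this]
    simp only [g]
    ring
  have hB : normSq (MB ε t w) = ε^2 * (6 / g w - (t - tau w))^2 / (g w)^2 * normSq (k1 w) := by
    have : MB ε t w = ((ε * (6 / g w - (t - tau w)) : ℝ) : ℂ) * (conj (k1 w) / (conj (k w))^2) := by
      rw [MB]
      push_cast
      rw [hgk]
      field_simp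
    rw [this, normSq_mul, normSq_ofReal, normSq_div, normSq_conj, map_pow, normSq_conj]
    simp only [g]
    ring
  rw [hA, hB, Jac, mu]
  field_simp
  ring

end

end Pool.Agent.MFG
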