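import Pool.Agent.MP_03ede7_an.Comp4

set_option autoImplicit false
open Set Filter Topology Complex MeasureTheory
open scoped ComplexConjugate ContDiff

namespace Pool.Agent.MFG

noncomputable section

/-- time-channel box -/
def Kc : Set (ℝ × ℂ) := Icc (0:ℝ) 1 ×ˢ Sc

lemma isCompact_Kc : IsCompact Kc := isCompact_Icc.prod isCompact_Sc

lemma box_sub : Ioo (0:ℝ) 1 ×ˢ Rc ⊆ Kc := fun _ hx =>
  ⟨⟨hx.1.1.le, hx.1.2.le⟩, S_subset_Sc (Rc_sub_S hx.2)⟩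

lemma cont_int {F : ℝ × ℂ → ℝ} (hF : ContinuousOn F Kc) : IntegrableOn F (Ioo (0:ℝ) 1 ×ˢ Rc) :=
  (hF.integrableOn_compact isCompact_Kc).mono_set box_sub

/-- potential in the channel variable -/
def XX (ε : ℝ) (W0 : ℝ × ℂ → ℂ) (ζ : ℂ → ℂ) (x : ℝ × ℂ) : ℝ := chi ε W0 ζ (x.1, Z x.2)
def VV (ε : ℝ) (W0 : ℝ × ℂ → ℂ) (ζ : ℂ → ℂ) (x : ℝ × ℂ) : ℂ := vel ε W0 ζ x.1 (Z x.2)

namespace Sys

variable {ε : ℝ} {W0 : ℝ × ℂ → ℂ} {N : Set (ℝ × ℂ)} {q : ℝ × ℂ → ℝ} {Nq : Set (ℝ × ℂ)}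
    {ζ : ℂ → ℂ} {Nζ : Set ℂ} {κ c : ℝ}

lemma fd_chi_contOn (h : Sys ε W0 N q Nq ζ Nζ) :
    ContinuousOn (fun x : ℝ × ℂ => fderiv ℝ (chi ε W0 ζ) (x.1, Z x.2)) Kc := by
  rintro ⟨t, w⟩ ⟨ht, hw⟩
  have h1 : ContinuousAt (fderiv ℝ (chi ε W0 ζ)) (t, Z w) :=
    ((h.chi_C1 ht hw).1.fderiv_right (m := 0) (by simp)).continuousAt
  have h2 : ContinuousAt (fun x : ℝ × ℂ => (x.1, Z x.2)) (t, w) :=
    (continuous_fst.prodMk ((contDiff_Z (n := 0)).continuous.comp continuous_snd)).continuousAt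
  exact (ContinuousAt.comp (f := fun x : ℝ × ℂ => (x.1, Z x.2)) (g := fderiv ℝ (chi ε W0 ζ))
    h1 h2).continuousWithinAt

lemma XX_contOn (h : Sys ε W0 N q Nq ζ Nζ) :
    ContinuousOn (fun x : ℝ × ℂ => XX ε W0 ζ x) Kc := by
  have h0 : ContinuousOn (chi ε W0 ζ) ((fun x : ℝ × ℂ => (x.1, Z x.2)) '' Kc) := by
    rintro _ ⟨⟨t, w⟩, ⟨ht, hw⟩, rfl⟩
    exact (h.chi_C1 ht hw).1.continuousAt.continuousWithinAt
  have h2 : ContinuousOn (fun x : ℝ × ℂ => (x.1, Z x.2)) Kc :=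
    (continuous_fst.prodMk ((contDiff_Z (n := 0)).continuous.comp continuous_snd)).continuousOn
  exact ContinuousOn.comp (g := chi ε W0 ζ) (f := fun x : ℝ × ℂ => (x.1, Z x.2)) h0 h2
    (mapsTo_image _ _)

lemma fd_chi_eq (h : Sys ε W0 N q Nq ζ Nζ) {x : ℝ × ℂ} (hx : x ∈ Kc) :
    fderiv ℝ (chi ε W0 ζ) (x.1, Z x.2) = Lv (ct ε W0 x.1 x.2) (VV ε W0 ζ x) :=
  (h.chi_deriv hx.1 hx.2).fderiv

lemma ct_contOn (h : Sys ε W0 N q Nq ζ Nζ) :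
    ContinuousOn (fun x : ℝ × ℂ => ct ε W0 x.1 x.2) Kc := by
  have h1 : ContinuousOn (fun x : ℝ × ℂ => fderiv ℝ (chi ε W0 ζ) (x.1, Z x.2) (1, 0)) Kc :=
    h.fd_chi_contOn.clm_apply continuousOn_const
  refine h1.congr fun x hx => ?_
  simp only [h.fd_chi_eq hx, Lv_apply]
  simp

lemma VV_contOn (h : Sys ε W0 N q Nq ζ Nζ) : ContinuousOn (VV ε W0 ζ) Kc := by
  have h1 : ContinuousOn (fun x : ℝ × ℂ => fderiv ℝ (chi ε W0 ζ) (x.1, Z x.2) (0, 1)) Kc :=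
    h.fd_chi_contOn.clm_apply continuousOn_const
  have h2 : ContinuousOn (fun x : ℝ × ℂ => fderiv ℝ (chi ε W0 ζ) (x.1, Z x.2) (0, I)) Kc :=
    h.fd_chi_contOn.clm_apply continuousOn_const
  have h3 : ContinuousOn (fun x : ℝ × ℂ =>
      ((fderiv ℝ (chi ε W0 ζ) (x.1, Z x.2) (0, 1) : ℝ) : ℂ) +
      ((fderiv ℝ (chi ε W0 ζ) (x.1, Z x.2) (0, I) : ℝ) : ℂ) * I) Kc :=
    (continuous_ofReal.comp_continuousOn h1).add
      ((continuous_ofReal.comp_continuousOn h2).mul continuousOn_const)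
  refine h3.congr fun x hx => ?_
  simp only [h.fd_chi_eq hx, Lv_apply, ip_apply]
  apply Complex.ext <;> simp

end Sys

end

end Pool.Agent.MFG
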