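import Pool.Agent.MP_03ede7_an.En1

set_option autoImplicit false
open Set Filter Topology Complex MeasureTheory
open scoped ComplexConjugate ContDiff

namespace Pool.Agent.MFG

noncomputable section

def F1 (ε : ℝ) (W0 : ℝ × ℂ → ℂ) (ζ : ℂ → ℂ) (x : ℝ × ℂ) : ℝ :=
  2 * th1 x.1 * (aa x.2.re * ip (VV ε W0 ζ x) (k x.2)) + th x.1 * (a1 x.2.re * ‖VV ε W0 ζ x‖^2)
def F2 (ε : ℝ) (W0 : ℝ × ℂ → ℂ) (ζ : ℂ → ℂ) (x : ℝ × ℂ) : ℝ :=
  a1 x.2.re * (-2 * th1 x.1 * XX ε W0 ζ x + th x.1 * ‖VV ε W0 ζ x‖^2)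
def F3 (ε : ℝ) (W0 : ℝ × ℂ → ℂ) (ζ : ℂ → ℂ) (x : ℝ × ℂ) : ℝ :=
  a1 x.2.re * (th x.1 * (2 * ct ε W0 x.1 x.2 + ‖VV ε W0 ζ x‖^2))

lemma mkC_cont (y : ℝ) : Continuous (fun x : ℝ => (⟨x, y⟩ : ℂ)) :=
  continuous_iff_continuousAt.2 fun x => (hasDerivAt_mk x y).continuousAt

namespace Sys

variable {ε : ℝ} {W0 : ℝ × ℂ → ℂ} {N : Set (ℝ × ℂ)} {q : ℝ × ℂ → ℝ} {Nq : Set (ℝ × ℂ)}
    {ζ : ℂ → ℂ} {Nζ : Set ℂ} {κ c : ℝ}

lemma XX_dx (h : Sys ε W0 N q Nq ζ Nζ) {t : ℝ} (ht : t ∈ Icc (0:ℝ) 1) {x y : ℝ}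
    (hw : (⟨x, y⟩ : ℂ) ∈ Sc) :
    HasDerivAt (fun x : ℝ => XX ε W0 ζ (t, ⟨x, y⟩)) (ip (VV ε W0 ζ (t, ⟨x, y⟩)) (k ⟨x, y⟩)) x := by
  have h1 := curve_Z (hasDerivAt_mk x y)
  have h2 : HasDerivAt (fun x : ℝ => (t, Z ⟨x, y⟩)) ((0:ℝ), k ⟨x, y⟩ * 1) x :=
    (hasDerivAt_const x t).prodMk h1
  have h3 := (h.chi_deriv ht hw).comp_hasDerivAt x h2
  refine h3.congr_deriv ?_
  simp [Lv_apply, VV]

lemma XX_dt (h : Sys ε W0 N q Nq ζ Nζ) {t : ℝ} (ht : t ∈ Icc (0:ℝ) 1) {w : ℂ} (hw : w ∈ Sc) :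
    HasDerivAt (fun s : ℝ => XX ε W0 ζ (s, w)) (ct ε W0 t w) t := by
  have h2 : HasDerivAt (fun s : ℝ => (s, Z w)) ((1:ℝ), (0:ℂ)) t :=
    (hasDerivAt_id t).prodMk (hasDerivAt_const t (Z w))
  have h3 := (h.chi_deriv ht hw).comp_hasDerivAt t h2
  refine h3.congr_deriv ?_
  simp [Lv_apply]

lemma contOn_pieces (h : Sys ε W0 N q Nq ζ Nζ) :
    ContinuousOn (F1 ε W0 ζ) Kc ∧ ContinuousOn (F2 ε W0 ζ) Kc ∧ ContinuousOn (F3 ε W0 ζ) Kc ∧
    ContinuousOn (fun x : ℝ × ℂ => ip (VV ε W0 ζ x) (k x.2)) Kc := by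
  have c1 : Continuous (fun x : ℝ × ℂ => th1 x.1) := continuous_th1.comp continuous_fst
  have c2 : Continuous (fun x : ℝ × ℂ => th x.1) := continuous_th.comp continuous_fst
  have c3 : Continuous (fun x : ℝ × ℂ => aa x.2.re) :=
    continuous_aa.comp (continuous_re.comp continuous_snd)
  have c4 : Continuous (fun x : ℝ × ℂ => a1 x.2.re) :=
    continuous_a1.comp (continuous_re.comp continuous_snd)
  have c5 : Continuous (fun x : ℝ × ℂ => k x.2) := (contDiff_k (n := 0)).continuous.comp continuous_snd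
  have c6 := h.VV_contOn
  have c7 := h.XX_contOn
  have c8 := h.ct_contOn
  have c9 : ContinuousOn (fun x : ℝ × ℂ => ip (VV ε W0 ζ x) (k x.2)) Kc := by
    have e : (fun x : ℝ × ℂ => ip (VV ε W0 ζ x) (k x.2)) = fun x => (VV ε W0 ζ x).re * (k x.2).re +
        (VV ε W0 ζ x).im * (k x.2).im := by
      funext x; exact ip_apply _ _
    rw [e]
    exact ((continuous_re.comp_continuousOn c6).mul (continuous_re.comp c5).continuousOn).add
      ((continuous_im.comp_continuousOn c6).mul (continuous_im.comp c5).continuousOn)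
  have c10 : ContinuousOn (fun x : ℝ × ℂ => ‖VV ε W0 ζ x‖^2) Kc := (c6.norm).pow 2
  refine ⟨?_, ?_, ?_, c9⟩
  · unfold F1
    exact ((continuous_const.mul c1).continuousOn.mul (c3.continuousOn.mul c9)).add
      (c2.continuousOn.mul (c4.continuousOn.mul c10))
  · unfold F2
    exact c4.continuousOn.mul (((continuous_const.mul c1).continuousOn.mul c7).add
      (c2.continuousOn.mul c10))
  · unfold F3
    exact c4.continuousOn.mul (c2.continuousOn.mul ((continuousOn_const.mul c8).add c10))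

lemma int_F12 (h : Sys ε W0 N q Nq ζ Nζ) :
    ∫ x in Ioo (0:ℝ) 1 ×ˢ Rc, F1 ε W0 ζ x = ∫ x in Ioo (0:ℝ) 1 ×ˢ Rc, F2 ε W0 ζ x := by
  obtain ⟨c1, c2, c3, c9⟩ := h.contOn_pieces
  have i1 := cont_int c1
  have i2 := cont_int c2
  rw [← sub_eq_zero, ← integral_sub i1 i2]
  have hi : IntegrableOn (fun x => F1 ε W0 ζ x - F2 ε W0 ζ x) (Ioo (0:ℝ) 1 ×ˢ Rc)
      (volume.prod volume) := i1.sub i2
  rw [Measure.volume_eq_prod, setIntegral_prod _ hi]
  refine setIntegral_eq_zero_of_forall_eq_zero fun t ht => ?_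
  have ht' : t ∈ Icc (0:ℝ) 1 := ⟨ht.1.le, ht.2.le⟩
  have e : ∀ w : ℂ, F1 ε W0 ζ (t, w) - F2 ε W0 ζ (t, w) = 2 * th1 t *
      (aa w.re * ip (VV ε W0 ζ (t, w)) (k w) + a1 w.re * XX ε W0 ζ (t, w)) := fun w => by
    simp only [F1, F2]; ring
  simp only [e]
  rw [integral_const_mul]
  refine mul_eq_zero_of_right _ ?_
  have hct : Continuous (fun w : ℂ => (t, w)) := by fun_prop
  have hmt : MapsTo (fun w : ℂ => (t, w)) Sc Kc := fun w hw => ⟨ht', hw⟩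
  have d1 : ContinuousOn (fun w : ℂ => aa w.re * ip (VV ε W0 ζ (t, w)) (k w) +
      a1 w.re * XX ε W0 ζ (t, w)) Sc := by
    have p1 : ContinuousOn (fun w : ℂ => ip (VV ε W0 ζ (t, w)) (k w)) Sc :=
      ContinuousOn.comp (g := fun x : ℝ × ℂ => ip (VV ε W0 ζ x) (k x.2)) (f := fun w : ℂ => (t, w))
        c9 hct.continuousOn hmt
    have p2 : ContinuousOn (fun w : ℂ => XX ε W0 ζ (t, w)) Sc :=
      ContinuousOn.comp (g := fun x : ℝ × ℂ => XX ε W0 ζ x) (f := fun w : ℂ => (t, w))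
        h.XX_contOn hct.continuousOn hmt
    exact ((continuous_aa.comp continuous_re).continuousOn.mul p1).add
      ((continuous_a1.comp continuous_re).continuousOn.mul p2)
  refine rect_zero ((d1.integrableOn_compact isCompact_Sc).mono_set
    (Rc_sub_S.trans S_subset_Sc)) fun y hy => ?_
  have hmem : ∀ x ∈ Icc (-(27/20) : ℝ) (27/20), (⟨x, y⟩ : ℂ) ∈ Sc := fun x hx =>
    ⟨abs_le.2 ⟨hx.1, hx.2⟩, abs_le.2 ⟨by linarith [hy.1], by linarith [hy.2]⟩⟩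
  refine line_aa (f := fun x : ℝ => XX ε W0 ζ (t, ⟨x, y⟩))
    (f' := fun x => ip (VV ε W0 ζ (t, ⟨x, y⟩)) (k ⟨x, y⟩))
    (fun x hx => h.XX_dx ht' (hmem x ⟨hx.1.le, hx.2.le⟩)) ?_
  have d2 : ContinuousOn (fun x : ℝ => aa x * ip (VV ε W0 ζ (t, ⟨x, y⟩)) (k ⟨x, y⟩) +
      a1 x * XX ε W0 ζ (t, ⟨x, y⟩)) (Icc (-(27/20) : ℝ) (27/20)) :=
    ContinuousOn.comp (g := fun w : ℂ => aa w.re * ip (VV ε W0 ζ (t, w)) (k w) +
      a1 w.re * XX ε W0 ζ (t, w)) (f := fun x : ℝ => (⟨x, y⟩ : ℂ)) d1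
      (mkC_cont y).continuousOn hmem
  exact (d2.integrableOn_compact isCompact_Icc).mono_set Ioo_subset_Icc_self

lemma int_F23 (h : Sys ε W0 N q Nq ζ Nζ) :
    ∫ x in Ioo (0:ℝ) 1 ×ˢ Rc, F3 ε W0 ζ x = ∫ x in Ioo (0:ℝ) 1 ×ˢ Rc, F2 ε W0 ζ x := by
  obtain ⟨c1, c2, c3, c9⟩ := h.contOn_pieces
  have i3 := cont_int c3
  have i2 := cont_int c2
  rw [← sub_eq_zero, ← integral_sub i3 i2]
  have hi : IntegrableOn (fun x => F3 ε W0 ζ x - F2 ε W0 ζ x) (Ioo (0:ℝ) 1 ×ˢ Rc)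
      (volume.prod volume) := i3.sub i2
  rw [IntegrableOn, ← Measure.prod_restrict] at hi
  rw [Measure.volume_eq_prod, ← Measure.prod_restrict, integral_prod_symm _ hi]
  refine setIntegral_eq_zero_of_forall_eq_zero fun w hw => ?_
  have hwS : w ∈ Sc := S_subset_Sc (Rc_sub_S hw)
  have e : ∀ t : ℝ, F3 ε W0 ζ (t, w) - F2 ε W0 ζ (t, w) = 2 * a1 w.re *
      (th t * ct ε W0 t w + th1 t * XX ε W0 ζ (t, w)) := fun t => by
    simp only [F3, F2]; ring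
  simp only [e]
  rw [integral_const_mul]
  refine mul_eq_zero_of_right _ ?_
  rw [← integral_Ioc_eq_integral_Ioo, ← intervalIntegral.integral_of_le zero_le_one]
  have hct : Continuous (fun t : ℝ => (t, w)) := by fun_prop
  have hmt : MapsTo (fun t : ℝ => (t, w)) (Icc 0 1) Kc := fun t ht => ⟨ht, hwS⟩
  have p1 : ContinuousOn (fun t : ℝ => ct ε W0 t w) (Icc 0 1) :=
    ContinuousOn.comp (g := fun x : ℝ × ℂ => ct ε W0 x.1 x.2) (f := fun t : ℝ => (t, w))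
      h.ct_contOn hct.continuousOn hmt
  have p2 : ContinuousOn (fun t : ℝ => XX ε W0 ζ (t, w)) (Icc 0 1) :=
    ContinuousOn.comp (g := fun x : ℝ × ℂ => XX ε W0 ζ x) (f := fun t : ℝ => (t, w))
      h.XX_contOn hct.continuousOn hmt
  have p3 : ContinuousOn (fun t : ℝ => th t * ct ε W0 t w + th1 t * XX ε W0 ζ (t, w))
      (Icc 0 1) := (continuous_th.continuousOn.mul p1).add (continuous_th1.continuousOn.mul p2)
  have hd : ∀ t ∈ uIcc (0:ℝ) 1, HasDerivAt (fun t => th t * XX ε W0 ζ (t, w))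
      (th t * ct ε W0 t w + th1 t * XX ε W0 ζ (t, w)) t := by
    intro t ht
    rw [uIcc_of_le zero_le_one] at ht
    have := (hasDerivAt_th t).mul (h.XX_dt ht hwS)
    refine this.congr_deriv ?_
    ring
  rw [intervalIntegral.integral_eq_sub_of_hasDerivAt hd
    (ContinuousOn.intervalIntegrable (by rw [uIcc_of_le zero_le_one]; exact p3)), th_one, th_zero]
  ring

/-- pointwise sign -/
lemma F3_le (h : Sys ε W0 N q Nq ζ Nζ) {x : ℝ × ℂ} (hx : x ∈ Ioo (0:ℝ) 1 ×ˢ Rc) :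
    F3 ε W0 ζ x ≤ -(ε^2 / 6) * (th x.1 * h1f x.2.re) := by
  obtain ⟨t, w⟩ := x
  obtain ⟨ht0, hw⟩ := hx
  simp only at ht0 hw
  have ht : t ∈ Icc (0:ℝ) 1 := ⟨ht0.1.le, ht0.2.le⟩
  have hS := Rc_sub_S hw
  have hSc := S_subset_Sc hS
  have hR := S_sub_R2 hS
  have hg := g_pos hR
  have him : |w.im| < 1/40 := (mem_Rc hS).1 hw
  have hε := h.geo.εpos
  simp only [F3]
  by_cases hre : |w.re| ≤ 1/4
  · have hnr : ¬ rel t w := fun hr => by have := hr.1; linarith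
    have e1 : ‖VV ε W0 ζ (t, w)‖^2 = ε^2 / g w := (h.norm_vel_sq ht hSc).2 hnr
    have e2 : ct ε W0 t w = -ε^2 * EE t := by rw [ct, if_neg hnr]
    have e3 : a1 w.re = h1f w.re := by
      rw [a1, h2f_zero (Or.inl (by linarith [(abs_le.1 hre).2])), sub_zero]
    rw [e1, e2, e3]
    have hgc := g_center hre (by linarith)
    have e4 : 2 * (-ε^2 * EE t) + ε^2 / g w ≤ -(ε^2 / 6) := by
      have e5 : ε^2 / g w ≤ ε^2 / 3 := div_le_div_of_nonneg_left (sq_nonneg _) (by norm_num) hgc.le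
      have e6 : ε^2 * (1/4) ≤ ε^2 * EE t :=
        mul_le_mul_of_nonneg_left (by unfold EE; linarith [ht.1]) (sq_nonneg _)
      linarith
    have e7 : 0 ≤ h1f w.re * th t := mul_nonneg (h1f_nonneg _) (th_nonneg _)
    calc h1f w.re * (th t * (2 * (-ε^2 * EE t) + ε^2 / g w)) =
        (h1f w.re * th t) * (2 * (-ε^2 * EE t) + ε^2 / g w) := by ring
      _ ≤ (h1f w.re * th t) * (-(ε^2 / 6)) := mul_le_mul_of_nonneg_left e4 e7
      _ = -(ε^2 / 6) * (th t * h1f w.re) := by ring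
  · push Not at hre
    rw [h1f_zero hre.le, mul_zero, mul_zero]
    apply le_of_eq
    by_cases hz : w.re ≤ 126/100 ∨ 127/100 ≤ w.re
    · rw [a1, h1f_zero hre.le, h2f_zero hz]; ring
    · push Not at hz
      by_cases ht2 : t ≤ 1/2
      · rw [th_zero_left ht2]; ring
      · push Not at ht2
        have hre' : |w.re| = w.re := abs_of_pos (by linarith [hz.1])
        obtain ⟨-, t2⟩ := tau_zone (w := w) (by rw [hre']; exact hz.1.le) (by rw [hre']; exact hz.2.le)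
          him.le
        have hr : rel t w := ⟨by rw [hre']; linarith [hz.1], by linarith⟩
        have hW : W0 (t, Z w) ∈ R3c := R3_subset_R3c (h.geo.W0R3 _ (h.geo.W0_mem (TI ht) hR))
        have hgW : 0 < g (W0 (t, Z w)) := lt_of_lt_of_le (by norm_num) (g_ge3 hW)
        have e1 : ‖VV ε W0 ζ (t, w)‖^2 = ε^2 / g (W0 (t, Z w)) := (h.norm_vel_sq ht hSc).1 hr
        have e2 : ct ε W0 t w = -ε^2 / (2 * g (W0 (t, Z w))) := by rw [ct, if_pos hr]
        rw [e1, e2]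
        have : 2 * (-ε^2 / (2 * g (W0 (t, Z w)))) + ε^2 / g (W0 (t, Z w)) = 0 := by
          field_simp
          ring
        rw [this]; ring

lemma th_h1f_int : 0 < ∫ x in Ioo (0:ℝ) 1 ×ˢ Rc, th x.1 * h1f x.2.re ∧
    IntegrableOn (fun x : ℝ × ℂ => th x.1 * h1f x.2.re) (Ioo (0:ℝ) 1 ×ˢ Rc) := by
  have hc1 : Continuous h1f := by
    unfold h1f; have := continuous_hst; fun_prop
  have hc : Continuous (fun x : ℝ × ℂ => th x.1 * h1f x.2.re) :=
    (continuous_th.comp continuous_fst).mul (hc1.comp (continuous_re.comp continuous_snd))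
  have hi := cont_int (F := fun x : ℝ × ℂ => th x.1 * h1f x.2.re) hc.continuousOn
  refine ⟨?_, hi⟩
  rw [Measure.volume_eq_prod] at hi ⊢
  rw [setIntegral_prod _ hi]
  simp only [integral_const_mul, integral_mul_const]
  have hh1 : 0 < ∫ w in Rc, h1f w.re := by
    have hic : IntegrableOn (fun w : ℂ => h1f w.re) Rc :=
      ((hc1.comp continuous_re).continuousOn.integrableOn_compact isCompact_Sc).mono_set
        (Rc_sub_S.trans S_subset_Sc)
    unfold Rc at hic ⊢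
    rw [rect_fubini hic]
    simp only
    rw [setIntegral_const]
    have e1 : ∫ x in Ioo (-(27/20) : ℝ) (27/20), h1f x = ∫ x in (-(27/20) : ℝ)..(27/20), h1f x := by
      rw [intervalIntegral.integral_of_le (by norm_num), integral_Ioc_eq_integral_Ioo]
    rw [e1, smul_eq_mul]
    refine mul_pos ?_ h1f_int_pos
    simp only [Measure.real, Real.volume_Ioo]
    norm_num
  have hth : 0 < ∫ t in Ioo (0:ℝ) 1, th t := by
    rw [← integral_Ioc_eq_integral_Ioo, ← intervalIntegral.integral_of_le zero_le_one]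
    exact th_pos
  exact mul_pos hth hh1

/-- the linear term is negative -/
lemma int_F1_neg (h : Sys ε W0 N q Nq ζ Nζ) : ∫ x in Ioo (0:ℝ) 1 ×ˢ Rc, F1 ε W0 ζ x < 0 := by
  obtain ⟨c1, c2, c3, c9⟩ := h.contOn_pieces
  obtain ⟨p1, p2⟩ := th_h1f_int
  have hε := h.geo.εpos
  rw [h.int_F12, ← h.int_F23]
  have hm : MeasurableSet (Ioo (0:ℝ) 1 ×ˢ Rc) := measurableSet_Ioo.prod measurableSet_Rc
  have hle : ∫ x in Ioo (0:ℝ) 1 ×ˢ Rc, F3 ε W0 ζ x ≤
      ∫ x in Ioo (0:ℝ) 1 ×ˢ Rc, -(ε^2 / 6) * (th x.1 * h1f x.2.re) :=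
    setIntegral_mono_on (cont_int c3) (p2.const_mul _) hm (fun x hx => h.F3_le hx)
  rw [integral_const_mul] at hle
  have : 0 < ε^2 / 6 := by positivity
  nlinarith

end Sys

end

end Pool.Agent.MFG
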