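import Pool.Agent.MP_03ede7_an.En2

set_option autoImplicit false
open Set Filter Topology Complex MeasureTheory
open scoped ComplexConjugate ContDiff

namespace Pool.Agent.MFG

noncomputable section

/-- admissible pairs on `Om` with mass `M` (bounded velocities) -/
structure AdmC (ρ : ℝ → ℂ → ℝ) (v : ℝ → ℂ → ℂ) (M : ℝ) : Prop where
  aer : AEMeasurable (fun x : ℝ × ℂ => ρ x.1 x.2) (volume.restrict (Ioo (0:ℝ) 1 ×ˢ Om))
  aev : AEMeasurable (fun x : ℝ × ℂ => v x.1 x.2) (volume.restrict (Ioo (0:ℝ) 1 ×ˢ Om))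
  int : ∀ t ∈ Icc (0:ℝ) 1, IntegrableOn (ρ t) Om
  mass : ∀ t ∈ Icc (0:ℝ) 1, ∫ z in Om, ρ t z = M
  bd : ∀ t ∈ Icc (0:ℝ) 1, ∀ z ∈ Om, 0 ≤ ρ t z ∧ ρ t z ≤ 1
  vb : ∃ V : ℝ, ∀ t ∈ Icc (0:ℝ) 1, ∀ z ∈ Om, ‖v t z‖ ≤ V
  weak : ∀ (ψ : ℂ → ℝ) (C : ℝ), TF ψ C →
    (∃ K : NNReal, LipschitzOnWith K (fun t => ∫ z in Om, ψ z * ρ t z) (Icc 0 1)) ∧
    ∀ᵐ t ∂(volume.restrict (Ioo (0:ℝ) 1)),
      HasDerivAt (fun s => ∫ z in Om, ψ z * ρ s z)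
        (∫ z in Om, fderiv ℝ ψ z (v t z) * ρ t z) t

/-- kinetic energy (twice) -/
def EnC (ρ : ℝ → ℂ → ℝ) (v : ℝ → ℂ → ℂ) : ℝ :=
  ∫ x in Ioo (0:ℝ) 1 ×ˢ Om, ‖v x.1 x.2‖^2 * ρ x.1 x.2

lemma measurableSet_D : MeasurableSet (Ioo (0:ℝ) 1 ×ˢ Om) :=
  measurableSet_Ioo.prod isOpen_Om.measurableSet

lemma volume_D_lt_top : volume (Ioo (0:ℝ) 1 ×ˢ Om) < ⊤ := by
  rw [Measure.volume_eq_prod, Measure.prod_prod]
  exact ENNReal.mul_lt_top (by simp) volume_Om_lt_top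

lemma D_sub : Ioo (0:ℝ) 1 ×ˢ Om ⊆ Icc (0:ℝ) 1 ×ˢ Om := prod_mono Ioo_subset_Icc_self subset_rfl

lemma AdmC.energy_int {ρ : ℝ → ℂ → ℝ} {v : ℝ → ℂ → ℂ} {M : ℝ} (h : AdmC ρ v M) :
    IntegrableOn (fun x : ℝ × ℂ => ‖v x.1 x.2‖^2 * ρ x.1 x.2) (Ioo (0:ℝ) 1 ×ˢ Om) := by
  obtain ⟨V, hV⟩ := h.vb
  refine IntegrableOn.of_bound volume_D_lt_top
    ((h.aev.norm.pow_const 2).mul h.aer).aestronglyMeasurable (V^2 * 1) ?_
  refine (ae_restrict_iff' measurableSet_D).2 (Eventually.of_forall fun x hx => ?_)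
  have ht : x.1 ∈ Icc (0:ℝ) 1 := ⟨hx.1.1.le, hx.1.2.le⟩
  obtain ⟨b1, b2⟩ := h.bd x.1 ht x.2 hx.2
  have hv := hV x.1 ht x.2 hx.2
  rw [Real.norm_eq_abs, abs_of_nonneg (mul_nonneg (sq_nonneg _) b1)]
  exact mul_le_mul (pow_le_pow_left₀ (norm_nonneg _) hv 2) b2 b1 (sq_nonneg _)

namespace Sys

variable {ε : ℝ} {W0 : ℝ × ℂ → ℂ} {N : Set (ℝ × ℂ)} {q : ℝ × ℂ → ℝ} {Nq : Set (ℝ × ℂ)}
    {ζ : ℂ → ℂ} {Nζ : Set ℂ} {κ c : ℝ}

theorem admC (h : Sys ε W0 N q Nq ζ Nζ) :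
    AdmC (rho ε W0 ζ) (vel ε W0 ζ) (∫ z in Om, rho ε W0 ζ 0 z) where
  aer := h.rho_ae.mono_set D_sub
  aev := h.vel_ae.mono_set D_sub
  int := fun t ht => by
    have := h.psi_rho_int TF_one ht
    simpa using this
  mass := fun t ht => h.mass ht
  bd := fun t ht z _ => ⟨h.rho_nonneg ht z, h.rho_le_one ht z⟩
  vb := ⟨ε * 2, fun t ht z hz => h.norm_vel_le ht hz⟩
  weak := fun ψ C hψ => h.weak_cont hψ

theorem admC' (h : Sys ε W0 N q Nq ζ Nζ) (hκ : Kap ε W0 ζ κ c) :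
    AdmC (rho' ε W0 ζ κ) (vel' ε W0 ζ κ) (∫ z in Om, rho ε W0 ζ 0 z) where
  aer := (h.rho'_ae κ).mono_set D_sub
  aev := (h.vel'_ae κ).mono_set D_sub
  int := fun t ht => by
    have h1 := h.psi_rho_int TF_one ht
    have h2 := h.psi_HH_int TF_one t
    have h3 := h1.sub (h2.const_mul κ)
    refine h3.congr (Eventually.of_forall fun z => ?_)
    simp [rho']
  mass := fun t ht => h.mass' κ ht
  bd := fun t ht z hz => by
    obtain ⟨w, hw, rfl⟩ := hz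
    obtain ⟨a, b, _⟩ := hκ.H t ht w hw
    exact ⟨b, a⟩
  vb := h.vel'_bound hκ
  weak := fun ψ C hψ => h.weak_cont' hκ hψ

/-- linear energy density -/
def lin (ε : ℝ) (W0 : ℝ × ℂ → ℂ) (ζ : ℂ → ℂ) (x : ℝ × ℂ) : ℝ :=
  2 * ip (vel ε W0 ζ x.1 x.2) (mm ζ x.1 x.2) + HH ζ x.1 x.2 * ‖vel ε W0 ζ x.1 x.2‖^2

lemma lin_int (h : Sys ε W0 N q Nq ζ Nζ) : IntegrableOn (lin ε W0 ζ) (Ioo (0:ℝ) 1 ×ˢ Om) := by
  obtain ⟨A, hA0, hA⟩ := h.norm_mm_le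
  have hv := h.vel_ae.mono_set D_sub
  have hm := h.mm_ae.mono_set D_sub
  have hH := h.HH_ae.mono_set D_sub
  have hε := h.geo.εpos
  have e : lin ε W0 ζ = fun x => 2 * ((vel ε W0 ζ x.1 x.2).re * (mm ζ x.1 x.2).re +
      (vel ε W0 ζ x.1 x.2).im * (mm ζ x.1 x.2).im) + HH ζ x.1 x.2 * ‖vel ε W0 ζ x.1 x.2‖^2 := by
    funext x; rw [lin, ip_apply]
  have hmeas : AEStronglyMeasurable (lin ε W0 ζ) (volume.restrict (Ioo (0:ℝ) 1 ×ˢ Om)) := by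
    rw [e]
    exact ((((measurable_re.comp_aemeasurable hv).mul (measurable_re.comp_aemeasurable hm)).add
      ((measurable_im.comp_aemeasurable hv).mul (measurable_im.comp_aemeasurable hm))).const_mul
      2 |>.add (hH.mul (hv.norm.pow_const 2))).aestronglyMeasurable
  refine IntegrableOn.of_bound volume_D_lt_top hmeas (2 * ((ε * 2) * A) + 204 * (ε * 2)^2) ?_
  refine (ae_restrict_iff' measurableSet_D).2 (Eventually.of_forall fun x hx => ?_)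
  have ht : x.1 ∈ Icc (0:ℝ) 1 := ⟨hx.1.1.le, hx.1.2.le⟩
  have b1 := h.norm_vel_le ht hx.2
  have b2 := hA x.1 x.2 hx.2
  have b3 := h.abs_HH_le x.1 hx.2
  rw [lin]
  refine (norm_add_le _ _).trans (add_le_add ?_ ?_)
  · rw [norm_mul, Real.norm_eq_abs, abs_of_pos (by norm_num : (0:ℝ) < 2)]
    refine mul_le_mul_of_nonneg_left ?_ (by norm_num)
    rw [ip_eq_inner]
    exact (norm_inner_le_norm _ _).trans (mul_le_mul b1 b2 (norm_nonneg _) (by positivity))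
  · rw [norm_mul, Real.norm_eq_abs, Real.norm_eq_abs, abs_of_nonneg (sq_nonneg ‖vel ε W0 ζ x.1 x.2‖)]
    exact mul_le_mul b3 (pow_le_pow_left₀ (norm_nonneg _) b1 2) (sq_nonneg _) (by norm_num)

lemma lin_eq (h : Sys ε W0 N q Nq ζ Nζ) :
    ∫ x in Ioo (0:ℝ) 1 ×ˢ Om, lin ε W0 ζ x = ∫ x in Ioo (0:ℝ) 1 ×ˢ Rc, F1 ε W0 ζ x := by
  have i1 := h.lin_int
  have i2 := cont_int h.contOn_pieces.1
  rw [Measure.volume_eq_prod] at i1 i2 ⊢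
  rw [setIntegral_prod _ i1, setIntegral_prod _ i2]
  refine setIntegral_congr_fun measurableSet_Ioo fun t ht => ?_
  rw [cov_Z]
  refine int_S_eq_Rc (fun w hw hn => ?_) (fun w hw => ?_)
  · rw [lin]
    simp only
    rw [h.HH_Om t hw, h.mm_Om t hw, Hw, mw, if_neg hn, if_neg hn]
    simp
  · have hS := Rc_sub_S hw
    have hg := g_pos (S_sub_R2 hS)
    have him := (mem_Rc hS).1 hw
    rw [lin, F1]
    simp only
    rw [h.HH_Om t hS, h.mm_Om t hS, Hw, mw, if_pos him, if_pos him,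
      ← g_smul_v0 (k_ne (S_sub_R2 hS)), map_smul, map_smul, smul_eq_mul, smul_eq_mul, VV]
    field_simp

lemma inner_expand (v m : ℂ) (r a H : ℝ) (hr : r ≠ 0) :
    ‖v + (a / r) • (m + H • v)‖^2 * r =
      ‖v‖^2 * (r + a * H) + a * (2 * ip v m + H * ‖v‖^2) + a^2 * (‖m + H • v‖^2 / r) := by
  have e : ∀ z : ℂ, ‖z‖^2 = z.re^2 + z.im^2 := fun z => by
    rw [← normSq_eq_norm_sq, normSq_apply]; ring
  rw [e, e, e, ip_apply]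
  simp
  field_simp
  ring

lemma energy_pt (h : Sys ε W0 N q Nq ζ Nζ) (hκ : Kap ε W0 ζ κ c) {A : ℝ} (hA0 : 0 ≤ A)
    (hA : ∀ t : ℝ, ∀ z ∈ Om, ‖mm ζ t z‖ ≤ A) {x : ℝ × ℂ}
    (hx : x ∈ Ioo (0:ℝ) 1 ×ˢ Om) :
    ‖vel' ε W0 ζ κ x.1 x.2‖^2 * rho' ε W0 ζ κ x.1 x.2 ≤
      ‖vel ε W0 ζ x.1 x.2‖^2 * rho ε W0 ζ x.1 x.2 + κ * lin ε W0 ζ x +
        κ^2 * ((A + 204 * (ε * 2))^2 / c) := by
  obtain ⟨t, z⟩ := x
  obtain ⟨ht0, hz⟩ := hx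
  simp only at ht0 hz ⊢
  have ht : t ∈ Icc (0:ℝ) 1 := ⟨ht0.1.le, ht0.2.le⟩
  have b1 := h.norm_vel_le ht hz
  have b2 := hA t z hz
  have b3 := h.abs_HH_le t hz
  have hε := h.geo.εpos
  have hcpos := hκ.cpos
  obtain ⟨w, hw, rfl⟩ := hz
  have hR0 : 0 ≤ κ^2 * ((A + 204 * (ε * 2))^2 / c) := by positivity
  by_cases hs : Supp w
  · have hr := (hκ.H t ht w hw).2.2 hs
    have hr0 : 0 < rho' ε W0 ζ κ t (Z w) := lt_of_lt_of_le hκ.cpos hr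
    have e1 := inner_expand (vel ε W0 ζ t (Z w)) (mm ζ t (Z w)) (rho' ε W0 ζ κ t (Z w)) κ
      (HH ζ t (Z w)) hr0.ne'
    have e2 : rho ε W0 ζ t (Z w) = rho' ε W0 ζ κ t (Z w) + κ * HH ζ t (Z w) := by rw [rho']; ring
    rw [vel', e1, ← e2, lin]
    have e3 : ‖mm ζ t (Z w) + HH ζ t (Z w) • vel ε W0 ζ t (Z w)‖ ≤ A + 204 * (ε * 2) := by
      refine (norm_add_le _ _).trans (add_le_add b2 ?_)
      rw [norm_smul, Real.norm_eq_abs]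
      exact mul_le_mul b3 b1 (norm_nonneg _) (by norm_num)
    have e4 : ‖mm ζ t (Z w) + HH ζ t (Z w) • vel ε W0 ζ t (Z w)‖^2 / rho' ε W0 ζ κ t (Z w) ≤
        (A + 204 * (ε * 2))^2 / c :=
      div_le_div₀ (sq_nonneg _) (pow_le_pow_left₀ (norm_nonneg _) e3 2) hcpos hr
    have e5 := mul_le_mul_of_nonneg_left e4 (sq_nonneg κ)
    simp only
    linarith
  · have hH : HH ζ t (Z w) = 0 := by rw [h.HH_Om t hw, Hw_zero hs]
    have hm : mm ζ t (Z w) = 0 := by rw [h.mm_Om t hw, mw_zero hs, zero_smul]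
    rw [vel', lin]
    simp only
    rw [rho', hH, hm]
    simp
    positivity

theorem energy_lt (h : Sys ε W0 N q Nq ζ Nζ) : ∃ κ c : ℝ, Kap ε W0 ζ κ c ∧
    EnC (rho' ε W0 ζ κ) (vel' ε W0 ζ κ) < EnC (rho ε W0 ζ) (vel ε W0 ζ) := by
  obtain ⟨κ₀, hκ₀, c, hc, H⟩ := h.exists_kappa
  obtain ⟨A, hA0, hA⟩ := h.norm_mm_le
  have hneg := h.int_F1_neg
  rw [← h.lin_eq] at hneg
  set Λ := ∫ x in Ioo (0:ℝ) 1 ×ˢ Om, lin ε W0 ζ x with hΛ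
  set R := (A + 204 * (ε * 2))^2 / c with hR
  set V := volume.real (Ioo (0:ℝ) 1 ×ˢ Om) with hV
  have hR0 : 0 ≤ R := by positivity
  have hV0 : 0 ≤ V := measureReal_nonneg
  set κ := min (κ₀ / 2) (-Λ / (2 * (V * R + 1))) with hκdef
  have hVR : 0 < V * R + 1 := by positivity
  have hκpos : 0 < κ := lt_min (by positivity) (div_pos (by linarith) (by positivity))
  have hκ1 : κ < κ₀ := by
    have := min_le_left (κ₀ / 2) (-Λ / (2 * (V * R + 1)))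
    rw [hκdef]; linarith
  have hκ2 : κ * (V * R + 1) ≤ -Λ / 2 := by
    have := min_le_right (κ₀ / 2) (-Λ / (2 * (V * R + 1)))
    rw [← hκdef, le_div_iff₀ (by positivity)] at this
    linarith
  have hK : Kap ε W0 ζ κ c := ⟨hκpos, hc, H κ hκpos hκ1⟩
  refine ⟨κ, c, hK, ?_⟩
  have i1 := h.admC.energy_int
  have i2 := (h.admC' hK).energy_int
  have i3 : IntegrableOn (fun x : ℝ × ℂ => ‖vel ε W0 ζ x.1 x.2‖^2 * rho ε W0 ζ x.1 x.2 +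
      κ * lin ε W0 ζ x) (Ioo (0:ℝ) 1 ×ˢ Om) := i1.add (h.lin_int.const_mul κ)
  have i4 : IntegrableOn (fun _ : ℝ × ℂ => κ^2 * R) (Ioo (0:ℝ) 1 ×ˢ Om) :=
    integrableOn_const volume_D_lt_top.ne
  have hle : EnC (rho' ε W0 ζ κ) (vel' ε W0 ζ κ) ≤
      ∫ x in Ioo (0:ℝ) 1 ×ˢ Om, ((‖vel ε W0 ζ x.1 x.2‖^2 * rho ε W0 ζ x.1 x.2 +
        κ * lin ε W0 ζ x) + κ^2 * R) :=
    setIntegral_mono_on i2 (i3.add i4) measurableSet_D (fun x hx => h.energy_pt hK hA0 hA hx)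
  rw [integral_add i3 i4, integral_add i1 (h.lin_int.const_mul κ), integral_const_mul,
    setIntegral_const] at hle
  rw [smul_eq_mul] at hle
  have : κ * Λ + V * (κ^2 * R) < 0 := by
    have e : κ * Λ + V * (κ^2 * R) = κ * (Λ + κ * (V * R)) := by ring
    rw [e]
    refine mul_neg_of_pos_of_neg hκpos ?_
    linarith
  unfold EnC at hle ⊢
  linarith

end Sys

end

end Pool.Agent.MFG
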