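import Pool.Agent.MP_03ede7_an.QSol3

set_option autoImplicit false
open Set Filter Topology Complex MeasureTheory
open scoped ComplexConjugate ContDiff

namespace Pool.Agent.MFG

noncomputable section

/-- An open convex rectangle containing `R2`. -/
def R3 : Set ℂ := {w | |w.re| < 3/2 ∧ |w.im| < 1/8}

/-- closed version of R3 -/
def R3c : Set ℂ := {w | |w.re| ≤ 3/2 ∧ |w.im| ≤ 1/8}

lemma R2_subset_R3 : R2 ⊆ R3 := fun _ hw => ⟨hw.1.trans_lt (by norm_num), hw.2.trans_lt (by norm_num)⟩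
lemma R3_subset_R3c : R3 ⊆ R3c := fun _ hw => ⟨hw.1.le, hw.2.le⟩

lemma isOpen_R3 : IsOpen R3 :=
  (isOpen_lt (continuous_abs.comp continuous_re) continuous_const).inter
    (isOpen_lt (continuous_abs.comp continuous_im) continuous_const)

lemma R3c_eq : R3c = Icc (-(3/2)) (3/2) ×ℂ Icc (-(1/8)) (1/8) := by
  ext w; simp [R3c, mem_reProdIm, abs_le]

lemma isCompact_R3c : IsCompact R3c := by
  rw [R3c_eq]; exact isCompact_Icc.reProdIm isCompact_Icc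

lemma convex_R3c : Convex ℝ R3c := by
  rw [R3c_eq]
  exact ((convex_Icc (-(3/2 : ℝ)) (3/2)).linear_preimage reCLM.toLinearMap).inter
    ((convex_Icc (-(1/8 : ℝ)) (1/8)).linear_preimage imCLM.toLinearMap)

lemma k_re_ge3 {w : ℂ} (hw : w ∈ R3c) : 1/2 ≤ (k w).re := by
  have h1 := sq_le_of_abs_le hw.1
  have h2 := sq_le_of_abs_le hw.2
  rw [k_re]
  nlinarith [sq_nonneg (w.re^2 - w.im^2 - 1), sq_nonneg w.re, sq_nonneg w.im,
    mul_le_mul h1 h2 (sq_nonneg _) (by positivity)]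

lemma g_ge3 {w : ℂ} (hw : w ∈ R3c) : 1/4 ≤ g w := by
  have := k_re_ge3 hw
  rw [g, normSq_apply]
  nlinarith [mul_self_nonneg (k w).im]

lemma k_ne3 {w : ℂ} (hw : w ∈ R3c) : k w ≠ 0 := fun h => by
  have := k_re_ge3 hw
  rw [h] at this
  norm_num at this

lemma norm_v0_sq (w : ℂ) : ‖v0 w‖^2 = (g w)⁻¹ := by
  unfold v0 g
  rw [norm_conj, norm_inv, inv_pow, Complex.normSq_eq_norm_sq]

lemma norm_v0_le {w : ℂ} (hw : w ∈ R3c) : ‖v0 w‖ ≤ 2 := by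
  have h1 := norm_v0_sq w
  have h2 : (g w)⁻¹ ≤ 4 := by
    rw [inv_le_comm₀ (lt_of_lt_of_le (by norm_num) (g_ge3 hw)) (by norm_num)]
    have := g_ge3 hw
    linarith
  nlinarith [norm_nonneg (v0 w)]

/-- Quantitative injectivity of `Z`. -/
lemma Z_lower {w w' : ℂ} (hw : w ∈ R3c) (hw' : w' ∈ R3c) :
    ‖w - w'‖ ≤ 2 * ‖Z w - Z w'‖ := by
  set Δ := w - w' with hΔ
  have hseg : ∀ σ ∈ Icc (0:ℝ) 1, w' + σ • Δ ∈ R3c := by
    intro σ hσ
    have := convex_R3c hw' hw (by linarith [hσ.2] : (0:ℝ) ≤ 1 - σ) hσ.1 (by ring)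
    have e : w' + σ • Δ = (1 - σ) • w' + σ • w := by
      rw [hΔ]; simp only [real_smul]; push_cast; ring
    rw [e]; exact this
  have hder : ∀ σ : ℝ, HasDerivAt (fun σ : ℝ => inner ℝ Δ (Z (w' + σ • Δ)))
      (inner ℝ Δ (k (w' + σ • Δ) * Δ)) σ := by
    intro σ
    have h1 : HasDerivAt (fun σ : ℝ => w' + σ • Δ) Δ σ := by
      have := ((hasDerivAt_id σ).smul_const Δ).const_add w'
      simpa using this
    have h2 : HasDerivAt (Z ∘ fun σ : ℝ => w' + σ • Δ) (k (w' + σ • Δ) * Δ) σ :=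
      (hasFDerivAt_Z (w' + σ • Δ)).comp_hasDerivAt σ h1
    have h3 := (hasDerivAt_const σ Δ).inner ℝ h2
    simpa using h3
  have hge : ∀ σ ∈ Icc (0:ℝ) 1, 1/2 * ‖Δ‖^2 ≤ inner ℝ Δ (k (w' + σ • Δ) * Δ) := by
    intro σ hσ
    have h1 : inner ℝ Δ (k (w' + σ • Δ) * Δ) = (k (w' + σ • Δ)).re * ‖Δ‖^2 := by
      rw [← Complex.normSq_eq_norm_sq, normSq_apply]
      simp only [Complex.inner, mul_re, conj_re, conj_im, mul_im]
      ring
    rw [h1]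
    exact mul_le_mul_of_nonneg_right (k_re_ge3 (hseg σ hσ)) (sq_nonneg _)
  have hmv := (convex_Icc (0:ℝ) 1).mul_sub_le_image_sub_of_le_deriv
    (f := fun σ : ℝ => inner ℝ Δ (Z (w' + σ • Δ)))
    (fun σ _ => (hder σ).continuousAt.continuousWithinAt)
    (fun σ _ => (hder σ).differentiableAt.differentiableWithinAt) (C := 1/2 * ‖Δ‖^2)
    (by
      intro σ hσ
      rw [(hder σ).deriv]
      exact hge σ (interior_subset hσ)) 0 ⟨le_rfl, zero_le_one⟩ 1 ⟨zero_le_one, le_rfl⟩ zero_le_one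
  have e1 : w' + (1:ℝ) • Δ = w := by simp [hΔ]
  have e0 : w' + (0:ℝ) • Δ = w' := by simp
  simp only [e1, e0, sub_zero, mul_one] at hmv
  rw [← inner_sub_right] at hmv
  have hcs := real_inner_le_norm Δ (Z w - Z w')
  have hfin : 1/2 * ‖Δ‖^2 ≤ ‖Δ‖ * ‖Z w - Z w'‖ := hmv.trans hcs
  by_cases hz : ‖Δ‖ = 0
  · rw [hz]; positivity
  · have hpos : 0 < ‖Δ‖ := lt_of_le_of_ne (norm_nonneg _) (Ne.symm hz)
    have : ‖Δ‖ * (1/2 * ‖Δ‖) ≤ ‖Δ‖ * ‖Z w - Z w'‖ := by nlinarith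
    have := le_of_mul_le_mul_left this hpos
    linarith

lemma Z_injOn : InjOn Z R3c := by
  intro w hw w' hw' h
  have := Z_lower hw hw'
  rw [h, sub_self, norm_zero, mul_zero] at this
  exact sub_eq_zero.1 (norm_le_zero_iff.1 this)

/-- multiplication by `k ≠ 0`. -/
def mulEquiv (c : ℂ) (hc : c ≠ 0) : ℂ ≃L[ℝ] ℂ :=
  ContinuousLinearEquiv.equivOfInverse (ContinuousLinearMap.mul ℝ ℂ c)
    (ContinuousLinearMap.mul ℝ ℂ c⁻¹) (fun x => by simp [hc]) (fun x => by simp [hc])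

lemma exists_zeta : ∃ ζ : ℂ → ℂ, ∃ N : Set ℂ, IsOpen N ∧ Z '' R2 ⊆ N ∧ ContDiffOn ℝ ∞ ζ N ∧
    (∀ w ∈ R2, ζ (Z w) = w) ∧ (∀ z ∈ N, Z (ζ z) = z ∧ ζ z ∈ R3) ∧
    (∀ w ∈ R2, HasFDerivAt ζ (ContinuousLinearMap.mul ℝ ℂ (k w)⁻¹) (Z w)) := by
  obtain ⟨V, hVo, hKV, hVU, -, himg, -, ζ, hζ, hζC⟩ :=
    exists_inverse_near_compact (n := ∞) (by simp) isOpen_R3 (contDiff_Z.contDiffOn)
      isCompact_R2 R2_subset_R3 (fun w hw => ⟨mulEquiv (k w) (k_ne hw), hasFDerivAt_Z w⟩)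
      (Z_injOn.mono (R2_subset_R3.trans R3_subset_R3c))
  refine ⟨ζ, Z '' V, himg, image_mono hKV, hζC, fun w hw => hζ w (hKV hw), ?_, ?_⟩
  · rintro _ ⟨w, hw, rfl⟩
    rw [hζ w hw]
    exact ⟨rfl, hVU hw⟩
  · intro w hw
    have h1 : HasFDerivAt ζ (fderiv ℝ ζ (Z w)) (Z w) :=
      ((hζC.contDiffAt (himg.mem_nhds ⟨w, hKV hw, rfl⟩)).differentiableAt (by simp)).hasFDerivAt
    have h2 := h1.comp w (hasFDerivAt_Z w)
    have h3 : HasFDerivAt (ζ ∘ Z) (ContinuousLinearMap.id ℝ ℂ) w := by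
      refine (hasFDerivAt_id w).congr_of_eventuallyEq ?_
      filter_upwards [hVo.mem_nhds (hKV hw)] with x hx using hζ x hx
    have h4 := h2.unique h3
    have h5 : fderiv ℝ ζ (Z w) = ContinuousLinearMap.mul ℝ ℂ (k w)⁻¹ := by
      apply ContinuousLinearMap.ext
      intro x
      have h6 := congrArg (fun L => L ((k w)⁻¹ * x)) h4
      simp only [ContinuousLinearMap.comp_apply, ContinuousLinearMap.mul_apply',
        ContinuousLinearMap.id_apply] at h6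
      rw [mul_inv_cancel_left₀ (k_ne hw)] at h6
      simpa using h6
    rw [← h5]; exact h1

end

end Pool.Agent.MFG
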