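import Pool.Agent.MP_03ede7_an.Ext

set_option autoImplicit false
open Set Filter Topology Complex MeasureTheory
open scoped ComplexConjugate ContDiff

namespace Pool.Agent.MFG

noncomputable section

/-- The position at time `t` of the particle released at `w`. -/
def Mt (ε t : ℝ) (w : ℂ) : ℂ := Z w + (ε * (t - tau w)) • v0 w

def Mm (p : ℝ × ℝ × ℂ) : ℝ × ℝ × ℂ := (p.1, p.2.1, Mt p.1 p.2.1 p.2.2)

lemma contDiffAt_v0 {n : WithTop ℕ∞} {w : ℂ} (hk : k w ≠ 0) : ContDiffAt ℝ n v0 w := by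
  have h1 : ContDiffAt ℝ n (fun w => (k w)⁻¹) w := contDiff_k.contDiffAt.inv hk
  exact (conjCLE : ℂ ≃L[ℝ] ℂ).contDiff.contDiffAt.comp w h1

lemma contDiffOn_Mm : ContDiffOn ℝ ∞ Mm {p | p.2.2 ∈ R3} := by
  intro p hp
  have hk : k p.2.2 ≠ 0 := k_ne3 (R3_subset_R3c hp)
  have hg : 0 < g p.2.2 := lt_of_lt_of_le (by norm_num) (g_ge3 (R3_subset_R3c hp))
  have h0 : ContDiffAt ℝ ∞ (fun p : ℝ × ℝ × ℂ => p.2.2) p :=
    (contDiff_snd.comp contDiff_snd).contDiffAt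
  have h1 : ContDiffAt ℝ ∞ (fun p : ℝ × ℝ × ℂ => Z p.2.2) p :=
    (contDiff_Z.comp (contDiff_snd.comp contDiff_snd)).contDiffAt
  have h2 : ContDiffAt ℝ ∞ (fun p : ℝ × ℝ × ℂ => v0 p.2.2) p :=
    ContDiffAt.comp (g := v0) p (contDiffAt_v0 hk) h0
  have h3 : ContDiffAt ℝ ∞ (fun p : ℝ × ℝ × ℂ => p.1) p := contDiff_fst.contDiffAt
  have h4 : ContDiffAt ℝ ∞ (fun p : ℝ × ℝ × ℂ => p.2.1) p :=
    (contDiff_fst.comp contDiff_snd).contDiffAt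
  have h5 := tauLam (p := p) hg
  have h6 : ContDiffAt ℝ ∞ (fun p : ℝ × ℝ × ℂ => Mt p.1 p.2.1 p.2.2) p :=
    h1.add ((h3.mul (h4.sub h5)).smul h2)
  exact (h3.prodMk (h4.prodMk h6)).contDiffWithinAt

/-- derivative of `Mm` at `ε = 0`. -/
def mmEquiv (c B : ℂ) (hc : c ≠ 0) : (ℝ × ℝ × ℂ) ≃L[ℝ] (ℝ × ℝ × ℂ) :=
  ContinuousLinearEquiv.equivOfInverse
    ((ContinuousLinearMap.fst ℝ ℝ (ℝ × ℂ)).prod
      (((ContinuousLinearMap.fst ℝ ℝ ℂ) ∘L (ContinuousLinearMap.snd ℝ ℝ (ℝ × ℂ))).prod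
        ((ContinuousLinearMap.mul ℝ ℂ c) ∘L (ContinuousLinearMap.snd ℝ ℝ ℂ) ∘L
            (ContinuousLinearMap.snd ℝ ℝ (ℝ × ℂ)) +
          (ContinuousLinearMap.fst ℝ ℝ (ℝ × ℂ)).smulRight B)))
    ((ContinuousLinearMap.fst ℝ ℝ (ℝ × ℂ)).prod
      (((ContinuousLinearMap.fst ℝ ℝ ℂ) ∘L (ContinuousLinearMap.snd ℝ ℝ (ℝ × ℂ))).prod
        ((ContinuousLinearMap.mul ℝ ℂ c⁻¹) ∘L ((ContinuousLinearMap.snd ℝ ℝ ℂ) ∘L
            (ContinuousLinearMap.snd ℝ ℝ (ℝ × ℂ)) -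
          (ContinuousLinearMap.fst ℝ ℝ (ℝ × ℂ)).smulRight B))))
    (fun x => by
      obtain ⟨a, b, d⟩ := x
      simp
      field_simp
      ring)
    (fun x => by
      obtain ⟨a, b, d⟩ := x
      simp
      field_simp
      ring)

lemma hasFDerivAt_Mm_zero (t : ℝ) {w : ℂ} (hw : w ∈ R3) :
    HasFDerivAt Mm ((mmEquiv (k w) ((t - tau w) • v0 w) (k_ne3 (R3_subset_R3c hw)) :
      (ℝ × ℝ × ℂ) ≃L[ℝ] (ℝ × ℝ × ℂ)) : (ℝ × ℝ × ℂ) →L[ℝ] (ℝ × ℝ × ℂ)) (0, t, w) := by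
  have hk : k w ≠ 0 := k_ne3 (R3_subset_R3c hw)
  have hg : 0 < g w := lt_of_lt_of_le (by norm_num) (g_ge3 (R3_subset_R3c hw))
  have hfst : HasFDerivAt (fun p : ℝ × ℝ × ℂ => p.1) (ContinuousLinearMap.fst ℝ ℝ (ℝ × ℂ))
    ((0:ℝ), t, w) := hasFDerivAt_fst
  have hsf : HasFDerivAt (fun p : ℝ × ℝ × ℂ => p.2.1)
      ((ContinuousLinearMap.fst ℝ ℝ ℂ) ∘L (ContinuousLinearMap.snd ℝ ℝ (ℝ × ℂ)))
      ((0:ℝ), t, w) :=
    ((ContinuousLinearMap.fst ℝ ℝ ℂ) ∘L (ContinuousLinearMap.snd ℝ ℝ (ℝ × ℂ))).hasFDerivAt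
  have hsnd : HasFDerivAt (fun p : ℝ × ℝ × ℂ => p.2.2)
      ((ContinuousLinearMap.snd ℝ ℝ ℂ) ∘L (ContinuousLinearMap.snd ℝ ℝ (ℝ × ℂ)))
      ((0:ℝ), t, w) :=
    ((ContinuousLinearMap.snd ℝ ℝ ℂ) ∘L (ContinuousLinearMap.snd ℝ ℝ (ℝ × ℂ))).hasFDerivAt
  have hF : ContDiffAt ℝ ∞ (fun p : ℝ × ℝ × ℂ => (p.2.1 - tau p.2.2) • v0 p.2.2) (0, t, w) := by
    have h0 : ContDiffAt ℝ ∞ (fun p : ℝ × ℝ × ℂ => p.2.2) ((0:ℝ), t, w) :=
      (contDiff_snd.comp contDiff_snd).contDiffAt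
    have h2 : ContDiffAt ℝ ∞ (fun p : ℝ × ℝ × ℂ => v0 p.2.2) ((0:ℝ), t, w) :=
      ContDiffAt.comp (g := v0) _ (contDiffAt_v0 hk) h0
    have h4 : ContDiffAt ℝ ∞ (fun p : ℝ × ℝ × ℂ => p.2.1) ((0:ℝ), t, w) :=
      (contDiff_fst.comp contDiff_snd).contDiffAt
    exact (h4.sub (tauLam hg)).smul h2
  have hF' := (hF.differentiableAt (by simp)).hasFDerivAt
  have hZ4 : HasFDerivAt Z (ContinuousLinearMap.mul ℝ ℂ (k w)) ((fun p : ℝ × ℝ × ℂ => p.2.2) (0, t, w)) :=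
    hasFDerivAt_Z w
  have hZ := hZ4.comp ((0:ℝ), t, w) hsnd
  have htot := hfst.prodMk (hsf.prodMk (hZ.add (hfst.smul hF')))
  refine (htot.congr_fderiv ?_).congr_of_eventuallyEq (Eventually.of_forall fun p => ?_)
  · apply ContinuousLinearMap.ext
    rintro ⟨a, b, c⟩
    simp [mmEquiv]
  · simp only [Mm, Mt, Prod.mk.injEq, true_and, Function.comp_apply, Pi.add_apply]
    change _ = Z p.2.2 + p.1 • ((p.2.1 - tau p.2.2) • v0 p.2.2)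
    simp only [real_smul]; push_cast; ring

lemma Mm_zero (t : ℝ) (w : ℂ) : Mm (0, t, w) = (0, t, Z w) := by simp [Mm, Mt]

theorem exists_ext : ∃ ε₁ : ℝ, 0 < ε₁ ∧ ∀ ε : ℝ, 0 < ε → ε < ε₁ →
    ∃ (W0 : ℝ × ℂ → ℂ) (N : Set (ℝ × ℂ)), IsOpen N ∧ Icc (-1:ℝ) 2 ×ˢ (Z '' R2) ⊆ N ∧
      ContDiffOn ℝ ∞ W0 N ∧
      (∀ p ∈ N, W0 p ∈ R3 ∧ Mt ε p.1 (W0 p) = p.2) ∧
      (∀ t ∈ Icc (-1:ℝ) 2, ∀ w ∈ R2, (t, Mt ε t w) ∈ N ∧ W0 (t, Mt ε t w) = w) := by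
  set D : Set (ℝ × ℝ × ℂ) := {p | p.2.2 ∈ R3} with hD
  have hDo : IsOpen D := isOpen_R3.preimage (continuous_snd.comp continuous_snd)
  set K : Set (ℝ × ℝ × ℂ) := ({0} : Set ℝ) ×ˢ (Icc (-1:ℝ) 2 ×ˢ R2) with hK
  have hKc : IsCompact K := isCompact_singleton.prod (isCompact_Icc.prod isCompact_R2)
  obtain ⟨V, hVo, hKV, hVD, -, hVimg, -, finv, hfinv, hfinvC⟩ :=
    exists_inverse_near_compact (n := ∞) (by simp) hDo contDiffOn_Mm hKc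
      (fun p hp => R2_subset_R3 hp.2.2) (by
      rintro ⟨ε, t, w⟩ ⟨h1, h2, h3⟩
      simp only [mem_singleton_iff] at h1
      subst h1
      exact ⟨_, hasFDerivAt_Mm_zero t (R2_subset_R3 h3)⟩) (by
      rintro ⟨ε, t, w⟩ ⟨h1, h2, h3⟩ ⟨ε', t', w'⟩ ⟨h1', h2', h3'⟩ heq
      simp only [mem_singleton_iff] at h1 h1'
      subst h1 h1'
      rw [Mm_zero, Mm_zero] at heq
      simp only [Prod.mk.injEq, true_and] at heq
      obtain ⟨e1, e2⟩ := heq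
      have e3 : w = w' :=
        Z_injOn (R3_subset_R3c (R2_subset_R3 h3)) (R3_subset_R3c (R2_subset_R3 h3')) e2
      rw [e1, e3])
  have hZR2 : IsCompact (Z '' R2) := isCompact_R2.image (contDiff_Z (n := 0)).continuous
  have hT1 : ({0} : Set ℝ) ×ˢ (Icc (-1:ℝ) 2 ×ˢ (Z '' R2)) ⊆ Mm '' V := by
    rintro ⟨ε, t, z⟩ ⟨h1, h2, w, hw, rfl⟩
    simp only [mem_singleton_iff] at h1
    subst h1
    exact ⟨(0, t, w), hKV ⟨rfl, h2, hw⟩, Mm_zero t w⟩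
  obtain ⟨u1, v1, hu1, hv1, h0u1, hv1sub, huv1⟩ :=
    generalized_tube_lemma isCompact_singleton (isCompact_Icc.prod hZR2) hVimg hT1
  obtain ⟨u2, v2, hu2, hv2, h0u2, hv2sub, huv2⟩ :=
    generalized_tube_lemma isCompact_singleton (isCompact_Icc.prod isCompact_R2) hVo hKV
  obtain ⟨ε₁, hε₁, hε₁u⟩ := Metric.isOpen_iff.1 (hu1.inter hu2) 0 ⟨h0u1 rfl, h0u2 rfl⟩
  refine ⟨ε₁, hε₁, fun ε hε0 hε1 => ?_⟩
  have hεu : ε ∈ u1 ∩ u2 := hε₁u (by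
    rw [Real.ball_eq_Ioo]; constructor <;> linarith)
  have hpairC : ContDiff ℝ ∞ (fun p : ℝ × ℂ => (ε, p.1, p.2)) :=
    contDiff_const.prodMk (contDiff_fst.prodMk contDiff_snd)
  set N : Set (ℝ × ℂ) := (fun p : ℝ × ℂ => (ε, p.1, p.2)) ⁻¹' (Mm '' V) with hN
  have hNo : IsOpen N := hVimg.preimage hpairC.continuous
  refine ⟨fun p => (finv (ε, p.1, p.2)).2.2, N, hNo, ?_, ?_, ?_, ?_⟩
  · rintro ⟨t, z⟩ h
    exact huv1 ⟨hεu.1, hv1sub h⟩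
  · exact (contDiff_snd.comp contDiff_snd).comp_contDiffOn
      (hfinvC.comp hpairC.contDiffOn (fun x hx => hx))
  · rintro ⟨t, z⟩ ⟨⟨ε', t', w⟩, hV', heq⟩
    simp only at heq
    simp only
    rw [← heq, hfinv _ hV']
    have e1 : ε' = ε := congrArg Prod.fst heq
    have e2 : t' = t := congrArg (fun x => x.2.1) heq
    have e3 : Mt ε' t' w = z := congrArg (fun x => x.2.2) heq
    refine ⟨hVD hV', ?_⟩
    rw [← e1, ← e2, e3]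
  · intro t ht w hw
    have hmem : (ε, t, w) ∈ V := huv2 ⟨hεu.2, hv2sub ⟨ht, hw⟩⟩
    refine ⟨⟨_, hmem, rfl⟩, ?_⟩
    have : ((ε, t, Mt ε t w) : ℝ × ℝ × ℂ) = Mm (ε, t, w) := rfl
    simp only [this, hfinv _ hmem]

lemma exists_tau_lip : ∃ L : ℝ, 0 < L ∧ ∀ w ∈ R3c, ∀ w' ∈ R3c, |tau w - tau w'| ≤ L * ‖w - w'‖ := by
  have hc : ContinuousOn (fun w => (-6 / g w ^ 2) • ip (gradg w)) R3c := by
    have hg : Continuous g := (contDiff_g (n := 0)).continuous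
    have h1 : ContinuousOn (fun w => (-6 / g w ^ 2)) R3c := by
      refine continuousOn_const.div (hg.pow 2).continuousOn (fun w hw => ?_)
      have := g_ge3 hw
      positivity
    have h2 : Continuous (fun w => ip (gradg w)) :=
      (innerSL ℝ (E := ℂ)).continuous.comp (contDiff_gradg (n := 0)).continuous
    exact h1.smul h2.continuousOn
  obtain ⟨C, hC⟩ := isCompact_R3c.exists_bound_of_continuousOn hc
  refine ⟨max C 0 + 1, by positivity, fun w hw w' hw' => ?_⟩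
  have := convex_R3c.norm_image_sub_le_of_norm_hasFDerivWithin_le (f := tau)
    (f' := fun w => (-6 / g w ^ 2) • ip (gradg w)) (C := max C 0 + 1)
    (fun x hx => (hasFDerivAt_tau (lt_of_lt_of_le (by norm_num) (g_ge3 hx)).ne').hasFDerivWithinAt)
    (fun x hx => (hC x hx).trans (by linarith [le_max_left C 0])) hw' hw
  exact this

end

end Pool.Agent.MFG
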