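import Pool.Agent.MP_03ede7_an.Trans

set_option autoImplicit false
open Set Filter Topology Complex MeasureTheory
open scoped ComplexConjugate ContDiff

namespace Pool.Agent.MFG

noncomputable section

lemma grad_trans {lam : ℝ} (hl : 0 < lam) {f : ℝ × ℂ → ℝ} {c : ℝ} {gr : ℂ} {t : ℝ} {x : E2}
    (hf : HasFDerivAt f (Lv c gr) (t, Aq lam hl.ne' x)) :
    HasGradientAt (fun y => lam^2 * f (t, Aq lam hl.ne' y)) (Bq lam hl.ne' gr) x ∧
    HasDerivAt (fun s => lam^2 * f (s, Aq lam hl.ne' x)) (lam^2 * c) t := by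
  have hA : HasFDerivAt (Aq lam hl.ne') ((Bq lam hl.ne').symm : E2 →L[ℝ] ℂ) x :=
    (Bq lam hl.ne').symm.hasFDerivAt
  constructor
  · have h1 : HasFDerivAt (fun y : E2 => (t, Aq lam hl.ne' y))
        ((0 : E2 →L[ℝ] ℝ).prod ((Bq lam hl.ne').symm : E2 →L[ℝ] ℂ)) x :=
      (hasFDerivAt_const t x).prodMk hA
    have h2 := (hf.comp x h1).const_mul (lam^2)
    rw [hasGradientAt_iff_hasFDerivAt]
    refine h2.congr_fderiv ?_
    apply ContinuousLinearMap.ext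
    intro η
    have e1 : (InnerProductSpace.toDual ℝ E2) (Bq lam hl.ne' gr) η = inner ℝ (Bq lam hl.ne' gr) η := rfl
    rw [e1]
    simp only [_root_.smul_apply, ContinuousLinearMap.comp_apply, ContinuousLinearMap.prod_apply,
      _root_.zero_apply, Lv_apply, mul_zero, zero_add, smul_eq_mul]
    have e2 : ((Bq lam hl.ne').symm : E2 →L[ℝ] ℂ) η = lam⁻¹ • iso2.symm η := rfl
    rw [e2, map_smul, smul_eq_mul, ip_eq_inner, Bq_apply, real_inner_smul_left]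
    have e3 : inner ℝ (iso2 gr) η = inner ℝ gr (iso2.symm η) := by
      conv_lhs => rw [← iso2.apply_symm_apply η]
      exact iso2.inner_map_map _ _
    rw [e3]
    have := hl.ne'
    field_simp
  · have h1 : HasDerivAt (fun s : ℝ => (s, Aq lam hl.ne' x)) ((1:ℝ), (0:ℂ)) t :=
      (hasDerivAt_id t).prodMk (hasDerivAt_const t _)
    have h2 := (hf.comp_hasDerivAt t h1).const_mul (lam^2)
    refine h2.congr_deriv ?_
    simp [Lv_apply]

lemma C1_trans {lam : ℝ} (hl : 0 < lam) {f : ℝ × ℂ → ℝ} {t : ℝ} {x : E2}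
    (hf : ContDiffAt ℝ 1 f (t, Aq lam hl.ne' x)) :
    ContDiffAt ℝ 1 (fun y : ℝ × E2 => lam^2 * f (y.1, Aq lam hl.ne' y.2)) (t, x) := by
  have hA : ContDiff ℝ 1 (Aq lam hl.ne') := (Bq lam hl.ne').symm.contDiff
  have h1 : ContDiffAt ℝ 1 (fun y : ℝ × E2 => (y.1, Aq lam hl.ne' y.2)) (t, x) :=
    (contDiff_fst.prodMk (hA.comp contDiff_snd)).contDiffAt
  exact contDiffAt_const.mul (ContDiffAt.comp (g := f)
    (f := fun y : ℝ × E2 => (y.1, Aq lam hl.ne' y.2)) (t, x) hf h1)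

/-- value function on `E2` -/
def phiE (lam : ℝ) (h : lam ≠ 0) (ε : ℝ) (W0 : ℝ × ℂ → ℂ) (q : ℝ × ℂ → ℝ) (ζ : ℂ → ℂ)
    (y : ℝ × E2) : ℝ :=
  lam^2 * (chi ε W0 ζ (y.1, Aq lam h y.2) + pp ε q ζ (y.1, Aq lam h y.2))

/-- pressure on `E2` -/
def pE (lam : ℝ) (h : lam ≠ 0) (ε : ℝ) (q : ℝ × ℂ → ℝ) (ζ : ℂ → ℂ) (y : ℝ × E2) : ℝ :=
  lam^2 * pp ε q ζ (y.1, Aq lam h y.2)

namespace Sys

variable {ε : ℝ} {W0 : ℝ × ℂ → ℂ} {N : Set (ℝ × ℂ)} {q : ℝ × ℂ → ℝ} {Nq : Set (ℝ × ℂ)}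
    {ζ : ℂ → ℂ} {Nζ : Set ℂ} {κ c : ℝ} {lam : ℝ}

lemma mem_closure_E (hl : 0 < lam) {x : E2} (hx : x ∈ closure (OmE lam hl.ne')) :
    ∃ w ∈ Sc, Z w = Aq lam hl.ne' x := by
  rw [closure_OmE] at hx
  exact closure_Om_sub hx

lemma phiE_C1 (h : Sys ε W0 N q Nq ζ Nζ) (hl : 0 < lam) {y : ℝ × E2}
    (hy : y ∈ Icc (0:ℝ) 1 ×ˢ closure (OmE lam hl.ne')) :
    ContDiffAt ℝ 1 (phiE lam hl.ne' ε W0 q ζ) y ∧ ContDiffAt ℝ 1 (pE lam hl.ne' ε q ζ) y := by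
  obtain ⟨t, x⟩ := y
  obtain ⟨ht, hx⟩ := hy
  obtain ⟨w, hw, hwe⟩ := mem_closure_E hl hx
  simp only at ht
  have h1 := (h.chi_C1 ht hw).1
  have h2 := (h.pp_C1 ht hw).1
  rw [hwe] at h1 h2
  exact ⟨C1_trans hl (f := fun z => chi ε W0 ζ z + pp ε q ζ z) (h1.add h2), C1_trans hl h2⟩

/-- the gradients and the Hamilton–Jacobi equation -/
lemma grads (h : Sys ε W0 N q Nq ζ Nζ) (hl : 0 < lam) {t : ℝ} (ht : t ∈ Icc (0:ℝ) 1) {x : E2}
    (hx : x ∈ OmE lam hl.ne') :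
    (deriv (fun s => phiE lam hl.ne' ε W0 q ζ (s, x)) t +
      ‖gradient (fun y => phiE lam hl.ne' ε W0 q ζ (t, y)) x‖ ^ 2 / 2
        = inner ℝ (gradient (fun y => phiE lam hl.ne' ε W0 q ζ (t, y)) x)
          (gradient (fun y => pE lam hl.ne' ε q ζ (t, y)) x)) ∧
    gradient (fun y => phiE lam hl.ne' ε W0 q ζ (t, y)) x -
      gradient (fun y => pE lam hl.ne' ε q ζ (t, y)) x =
        Bq lam hl.ne' (vel ε W0 ζ t (Aq lam hl.ne' x)) := by
  obtain ⟨w, hw, hwe⟩ := mem_closure_E hl (subset_closure hx)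
  have h1 := h.chi_deriv ht hw
  have h2 := h.pp_deriv ht hw
  have h3 := h1.add h2
  rw [Lv_add] at h3
  have hj := h.hj ht hw
  rw [hwe] at h1 h2 h3 hj
  obtain ⟨a1, a2⟩ := grad_trans hl (f := fun z => chi ε W0 ζ z + pp ε q ζ z) h3
  obtain ⟨b1, -⟩ := grad_trans hl (f := pp ε q ζ) h2
  have e1 : gradient (fun y => phiE lam hl.ne' ε W0 q ζ (t, y)) x = _ := a1.gradient
  have e2 : gradient (fun y => pE lam hl.ne' ε q ζ (t, y)) x = _ := b1.gradient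
  have e3 : deriv (fun s => phiE lam hl.ne' ε W0 q ζ (s, x)) t = _ := a2.deriv
  rw [e1, e2, e3]
  set v := vel ε W0 ζ t (Aq lam hl.ne' x)
  set m := px ε q t w
  have hin : ∀ a b : ℂ, inner ℝ (Bq lam hl.ne' a) (Bq lam hl.ne' b) = lam^2 * inner ℝ a b := by
    intro a b
    rw [Bq_apply, Bq_apply, real_inner_smul_left, real_inner_smul_right, iso2.inner_map_map]
    ring
  constructor
  · rw [← real_inner_self_eq_norm_sq, hin, hin, inner_add_left, inner_add_left, inner_add_right,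
      inner_add_right, real_inner_comm v m, real_inner_self_eq_norm_sq, real_inner_self_eq_norm_sq]
    linear_combination lam^2 * hj
  · rw [← map_sub]; congr 1; abel

end Sys

end

end Pool.Agent.MFG
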