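import Pool.Agent.MP_03ede7_an.Wall

set_option autoImplicit false
open Set Filter Topology Complex MeasureTheory
open scoped ComplexConjugate ContDiff

namespace Pool.Agent.MFG

noncomputable section

lemma k_conj (w : ℂ) : k (conj w) = conj (k w) := by simp [k]
lemma Z_conj (w : ℂ) : Z (conj w) = conj (Z w) := by
  have h5 : conj (5:ℂ) = 5 := map_ofNat _ 5
  have h3 : conj (3:ℂ) = 3 := map_ofNat _ 3
  have h2 : conj (2:ℂ) = 2 := map_ofNat _ 2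
  simp [Z, h5, h3, h2]

lemma wall_neg {w₀ w : ℂ} (h1 : 23/20 ≤ |w₀.re|) (h2 : |w₀.re| ≤ 13/10) (h3 : |w₀.im| ≤ 1/20)
    (h4 : w₀.im ≤ -(1/40)) (hd : ‖w - w₀‖ ≤ 1/1000)
    (him : (conj (k w₀) * (Z w - Z w₀)).im = 0) : w₀.im ≤ w.im := by
  have := wall (w₀ := conj w₀) (w := conj w) (by simpa using h1) (by simpa using h2)
    (by simpa using h3) (by simp; linarith) (by rw [← map_sub, norm_conj]; exact hd) (by
      rw [k_conj, Z_conj, Z_conj, ← map_sub, ← map_mul, conj_im, him, neg_zero])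
  simpa using this

lemma wall_full {w₀ w : ℂ} (h1 : 23/20 ≤ |w₀.re|) (h2 : |w₀.re| ≤ 13/10) (h3 : |w₀.im| < 1/20)
    (hd : ‖w - w₀‖ ≤ 1/1000)
    (him : (conj (k w₀) * (Z w - Z w₀)).im = 0) : |w.im| < 1/20 := by
  have hβ : |w.im - w₀.im| ≤ 1/1000 := by
    have := (abs_im_le_norm (w - w₀)).trans hd
    simpa using this
  obtain ⟨b0, b1⟩ := abs_le.1 hβ
  obtain ⟨c0, c1⟩ := abs_lt.1 h3
  rw [abs_lt]
  by_cases hp : 1/40 ≤ w₀.im
  · have := wall h1 h2 h3.le hp hd him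
    constructor <;> linarith
  · by_cases hn : w₀.im ≤ -(1/40)
    · have := wall_neg h1 h2 h3.le hn hd him
      constructor <;> linarith
    · push Not at hp hn
      constructor <;> linarith

/-- open version of R2 -/
def R2o : Set ℂ := {w | |w.re| < 7/5 ∧ |w.im| < 1/10}

lemma isOpen_R2o : IsOpen R2o :=
  (isOpen_lt (continuous_abs.comp continuous_re) continuous_const).inter
    (isOpen_lt (continuous_abs.comp continuous_im) continuous_const)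

lemma R2o_subset : R2o ⊆ R2 := fun _ hw => ⟨hw.1.le, hw.2.le⟩
lemma Sc_subset_R2o : Sc ⊆ R2o := fun _ hw => ⟨hw.1.trans_lt (by norm_num), hw.2.trans_lt (by norm_num)⟩

/-- `Z` maps open subsets of `R3` to open sets. -/
lemma isOpen_image_Z {A : Set ℂ} (hA : IsOpen A) (hA3 : A ⊆ R3c) : IsOpen (Z '' A) := by
  rw [isOpen_iff_mem_nhds]
  rintro _ ⟨w, hw, rfl⟩
  have h1 : HasStrictFDerivAt Z ((mulEquiv (k w) (k_ne3 (hA3 hw)) : ℂ ≃L[ℝ] ℂ) : ℂ →L[ℝ] ℂ) w :=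
    (contDiff_Z (n := 1)).contDiffAt.hasStrictFDerivAt' (hasFDerivAt_Z w) (by simp)
  have h2 := h1.map_nhds_eq_of_equiv
  rw [← h2]
  exact image_mem_map (hA.mem_nhds hw)

lemma tau_abs_le {w : ℂ} (hw : w ∈ R3c) {t : ℝ} (ht : t ∈ Icc (-1:ℝ) 2) : |t - tau w| ≤ 25 := by
  have hg := g_ge3 hw
  have hgp : 0 < g w := by linarith
  have h1 : 6 / g w ≤ 24 := by rw [div_le_iff₀ hgp]; linarith
  have h2 : 0 < 6 / g w := by positivity
  unfold tau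
  rw [abs_le]
  constructor <;> linarith [ht.1, ht.2]

/-- geometric data of the exterior flow for fixed `ε`. -/
structure Geo (ε : ℝ) (W0 : ℝ × ℂ → ℂ) (N : Set (ℝ × ℂ)) : Prop where
  εpos : 0 < ε
  εle : ε ≤ 1/100000
  isOpen_N : IsOpen N
  sub_N : Icc (-1:ℝ) 2 ×ˢ (Z '' R2) ⊆ N
  W0C : ContDiffOn ℝ ∞ W0 N
  W0R3 : ∀ p ∈ N, W0 p ∈ R3
  W0M : ∀ p ∈ N, Mt ε p.1 (W0 p) = p.2
  MN : ∀ t ∈ Icc (-1:ℝ) 2, ∀ w ∈ R2, (t, Mt ε t w) ∈ N
  MW0 : ∀ t ∈ Icc (-1:ℝ) 2, ∀ w ∈ R2, W0 (t, Mt ε t w) = w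
  tauclose : ∀ t ∈ Icc (-1:ℝ) 2, ∀ w ∈ R3c, ∀ w₀ ∈ R3c, Z w = Mt ε t w₀ →
    |tau w - tau w₀| ≤ 1/2 * |t - tau w₀|
  muclose : ∀ w ∈ R3c, |12 * ε * (conj (k w) * k1 w).re / (g w)^2| ≤ 1/8
  image_R2 : ∀ t ∈ Icc (-1:ℝ) 2, ∀ w₀ ∈ Sc, ∃ w ∈ R2, Z w = Mt ε t w₀

theorem exists_geo : ∃ ε₁ : ℝ, 0 < ε₁ ∧ ∀ ε : ℝ, 0 < ε → ε < ε₁ →
    ∃ (W0 : ℝ × ℂ → ℂ) (N : Set (ℝ × ℂ)), Geo ε W0 N := by
  obtain ⟨ε₂, hε₂, hext⟩ := exists_ext
  obtain ⟨L, hL, hlip⟩ := exists_tau_lip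
  -- bound for mu
  have hc : ContinuousOn (fun w => 12 * (conj (k w) * k1 w).re / (g w)^2) R3c := by
    have hg : Continuous g := (contDiff_g (n := 0)).continuous
    refine ContinuousOn.div ?_ (hg.pow 2).continuousOn (fun w hw => ?_)
    · have h1 : Continuous (fun w => (conj (k w) * k1 w).re) :=
        continuous_re.comp ((continuous_conj.comp (contDiff_k (n := 0)).continuous).mul
          (contDiff_k1 (n := 0)).continuous)
      exact (continuous_const.mul h1).continuousOn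
    · have := g_ge3 hw
      positivity
  obtain ⟨C, hC⟩ := isCompact_R3c.exists_bound_of_continuousOn hc
  set C' := max C 0 + 1 with hC'
  have hC'pos : 0 < C' := by positivity
  -- thickening
  have hZSc : IsCompact (Z '' Sc) := isCompact_Sc.image (contDiff_Z (n := 0)).continuous
  have hR2o3 : R2o ⊆ R3c := R2o_subset.trans (R2_subset_R3.trans R3_subset_R3c)
  obtain ⟨r, hr, hrsub⟩ := hZSc.exists_thickening_subset_open (isOpen_image_Z isOpen_R2o hR2o3)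
    (image_mono Sc_subset_R2o)
  refine ⟨min ε₂ (min (1/100000) (min (1 / (8 * L)) (min (1 / (8 * C')) (r / 51)))),
    by positivity, fun ε h0 h1 => ?_⟩
  obtain ⟨h2, h3, h4, h5, h6⟩ : ε < ε₂ ∧ ε < 1/100000 ∧ ε < 1 / (8 * L) ∧ ε < 1 / (8 * C') ∧
      ε < r / 51 := by
    simp only [lt_min_iff] at h1
    exact ⟨h1.1, h1.2.1, h1.2.2.1, h1.2.2.2.1, h1.2.2.2.2⟩
  obtain ⟨W0, N, n1, n2, n3, n4, n5⟩ := hext ε h0 h2
  refine ⟨W0, N, h0, h3.le, n1, n2, n3, fun p hp => (n4 p hp).1, fun p hp => (n4 p hp).2,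
    fun t ht w hw => (n5 t ht w hw).1, fun t ht w hw => (n5 t ht w hw).2, ?_, ?_, ?_⟩
  · intro t ht w hw w₀ hw₀ heq
    have e1 := Z_lower hw hw₀
    have e2 : Z w - Z w₀ = (ε * (t - tau w₀)) • v0 w₀ := by rw [heq, Mt]; ring
    rw [e2, norm_smul, Real.norm_eq_abs, abs_mul, abs_of_pos h0] at e1
    have e3 := norm_v0_le hw₀
    have e4 := hlip w hw w₀ hw₀
    have e5 : ε * |t - tau w₀| * ‖v0 w₀‖ ≤ ε * |t - tau w₀| * 2 :=
      mul_le_mul_of_nonneg_left e3 (by positivity)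
    have e6 : ‖w - w₀‖ ≤ 4 * (ε * |t - tau w₀|) := by linarith
    have e7 : L * ‖w - w₀‖ ≤ L * (4 * (ε * |t - tau w₀|)) := mul_le_mul_of_nonneg_left e6 hL.le
    rw [lt_div_iff₀ (by positivity)] at h4
    have e8 : L * (4 * (ε * |t - tau w₀|)) = (ε * (8 * L)) * |t - tau w₀| * (1/2) := by ring
    have e9 : (ε * (8 * L)) * |t - tau w₀| ≤ 1 * |t - tau w₀| :=
      mul_le_mul_of_nonneg_right h4.le (abs_nonneg _)
    linarith
  · intro w hw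
    have e1 := (hC w hw).trans (le_max_left C 0)
    rw [Real.norm_eq_abs] at e1
    have e2 : 12 * ε * (conj (k w) * k1 w).re / (g w)^2 =
        ε * (12 * (conj (k w) * k1 w).re / (g w)^2) := by ring
    rw [e2, abs_mul, abs_of_pos h0]
    rw [lt_div_iff₀ (by positivity)] at h5
    have e3 : ε * |12 * (conj (k w) * k1 w).re / (g w)^2| ≤ ε * C' :=
      mul_le_mul_of_nonneg_left (by rw [hC']; linarith) h0.le
    linarith
  · intro t ht w₀ hw₀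
    have hw3 : w₀ ∈ R3c := hR2o3 (Sc_subset_R2o hw₀)
    have hmem : Mt ε t w₀ ∈ Z '' R2o := by
      apply hrsub
      refine Metric.mem_thickening_iff.2 ⟨Z w₀, ⟨w₀, hw₀, rfl⟩, ?_⟩
      have e2 : Mt ε t w₀ - Z w₀ = (ε * (t - tau w₀)) • v0 w₀ := by rw [Mt]; ring
      rw [dist_eq_norm, e2, norm_smul, Real.norm_eq_abs, abs_mul, abs_of_pos h0]
      have e3 := norm_v0_le hw3
      have e4 := tau_abs_le hw3 ht
      have e5 : ε * |t - tau w₀| * ‖v0 w₀‖ ≤ ε * 25 * 2 :=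
        mul_le_mul (mul_le_mul_of_nonneg_left e4 h0.le) e3 (norm_nonneg _) (by positivity)
      linarith
    obtain ⟨w, hw, hwe⟩ := hmem
    exact ⟨w, R2o_subset hw, hwe⟩

namespace Geo

variable {ε : ℝ} {W0 : ℝ × ℂ → ℂ} {N : Set (ℝ × ℂ)}

lemma close (h : Geo ε W0 N) {t : ℝ} (ht : t ∈ Icc (-1:ℝ) 2) {w w₀ : ℂ} (hw : w ∈ R3c)
    (hw₀ : w₀ ∈ R3c) (heq : Z w = Mt ε t w₀) : ‖w - w₀‖ ≤ 1/1000 := by
  have e1 := Z_lower hw hw₀
  have e2 : Z w - Z w₀ = (ε * (t - tau w₀)) • v0 w₀ := by rw [heq, Mt]; ring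
  rw [e2, norm_smul, Real.norm_eq_abs, abs_mul, abs_of_pos h.εpos] at e1
  have e3 := norm_v0_le hw₀
  have e4 := tau_abs_le hw₀ ht
  have e5 : ε * |t - tau w₀| * ‖v0 w₀‖ ≤ (1/100000) * 25 * 2 :=
    mul_le_mul (mul_le_mul h.εle e4 (abs_nonneg _) (by norm_num)) e3 (norm_nonneg _) (by norm_num)
  linarith

lemma sign_pos (h : Geo ε W0 N) {t : ℝ} (ht : t ∈ Icc (-1:ℝ) 2) {w w₀ : ℂ} (hw : w ∈ R3c)
    (hw₀ : w₀ ∈ R3c) (heq : Z w = Mt ε t w₀) : 0 < t - tau w₀ ↔ 0 < t - tau w := by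
  have h1 := h.tauclose t ht w hw w₀ hw₀ heq
  constructor
  · intro hp
    rw [abs_of_pos hp] at h1
    have := (abs_le.1 h1).2
    linarith
  · intro hp
    by_contra hcon
    push Not at hcon
    rw [abs_of_nonpos hcon] at h1
    have := (abs_le.1 h1).1
    linarith

lemma W0_mem (h : Geo ε W0 N) {t : ℝ} (ht : t ∈ Icc (-1:ℝ) 2) {w : ℂ} (hw : w ∈ R2) :
    (t, Z w) ∈ N := h.sub_N ⟨ht, w, hw, rfl⟩

lemma W0_eq_of_tau (h : Geo ε W0 N) {w : ℂ} (hw : w ∈ R2) (ht : tau w ∈ Icc (-1:ℝ) 2) :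
    W0 (tau w, Z w) = w := by
  have := h.MW0 (tau w) ht w hw
  simpa [Mt] using this

end Geo

end

end Pool.Agent.MFG
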