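import Pool.Agent.MP_03ede7_an.Bump

set_option autoImplicit false
open Set Filter Topology Complex MeasureTheory
open scoped ComplexConjugate ContDiff

namespace Pool.Agent.MFG

noncomputable section

open Classical in
/-- time derivative of the pressure -/
def pt (ε : ℝ) (q : ℝ × ℂ → ℝ) (t : ℝ) (w : ℂ) : ℝ :=
  if rel t w then 0 else ε^2 * fderiv ℝ q (t, w) (1, 0)

open Classical in
/-- space gradient of the pressure -/
def px (ε : ℝ) (q : ℝ × ℂ → ℝ) (t : ℝ) (w : ℂ) : ℂ :=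
  if rel t w then 0 else (ε^2 : ℝ) • (gq q (t, w) * v0 w)

open Classical in
/-- time derivative of the potential -/
def ct (ε : ℝ) (W0 : ℝ × ℂ → ℂ) (t : ℝ) (w : ℂ) : ℝ :=
  if rel t w then -ε ^ 2 / (2 * g (W0 (t, Z w))) else -ε^2 * EE t

lemma norm_gq_sq (q : ℝ × ℂ → ℝ) (x : ℝ × ℂ) :
    ‖gq q x‖^2 = (fderiv ℝ q x (0, 1))^2 + (fderiv ℝ q x (0, I))^2 := by
  rw [← normSq_eq_norm_sq, normSq_apply, gq]; ring

lemma ip_one_sub (a b : ℂ) : inner ℝ a b = ip a b := rfl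

lemma Lv_zero : Lv 0 0 = 0 := by
  apply ContinuousLinearMap.ext
  intro x
  simp [Lv_apply, ip_apply]

lemma Lv_add (a b : ℝ) (u v : ℂ) : Lv a u + Lv b v = Lv (a + b) (u + v) := by
  apply ContinuousLinearMap.ext
  intro x
  simp [Lv_apply, ip_apply]
  ring

namespace Sys

variable {ε : ℝ} {W0 : ℝ × ℂ → ℂ} {N : Set (ℝ × ℂ)} {q : ℝ × ℂ → ℝ} {Nq : Set (ℝ × ℂ)}
    {ζ : ℂ → ℂ} {Nζ : Set ℂ}

lemma pp_deriv (h : Sys ε W0 N q Nq ζ Nζ) {t : ℝ} {w : ℂ} (ht : t ∈ Icc (0:ℝ) 1) (hw : w ∈ Sc) :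
    HasFDerivAt (pp ε q ζ) (Lv (pt ε q t w) (px ε q t w)) (t, Z w) := by
  refine (h.pp_C1 ht hw).2.congr_fderiv ?_
  unfold pt px
  split_ifs
  · rw [Lv_zero]
  · rfl

lemma chi_deriv (h : Sys ε W0 N q Nq ζ Nζ) {t : ℝ} {w : ℂ} (ht : t ∈ Icc (0:ℝ) 1) (hw : w ∈ Sc) :
    HasFDerivAt (chi ε W0 ζ) (Lv (ct ε W0 t w) (vel ε W0 ζ t (Z w))) (t, Z w) := by
  refine (h.chi_C1 ht hw).2.congr_fderiv ?_
  unfold ct vel
  rw [h.ζZ w (Sc_subset_R2 hw)]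
  split_ifs
  · rfl
  · rfl

lemma norm_vel_sq (h : Sys ε W0 N q Nq ζ Nζ) {t : ℝ} {w : ℂ} (ht : t ∈ Icc (0:ℝ) 1) (hw : w ∈ Sc) :
    (rel t w → ‖vel ε W0 ζ t (Z w)‖^2 = ε^2 / g (W0 (t, Z w))) ∧
    (¬ rel t w → ‖vel ε W0 ζ t (Z w)‖^2 = ε^2 / g w) := by
  unfold vel
  rw [h.ζZ w (Sc_subset_R2 hw)]
  constructor
  · intro hr
    rw [if_pos hr, norm_smul, mul_pow, norm_v0_sq, Real.norm_eq_abs, sq_abs]; rfl
  · intro hr
    rw [if_neg hr, norm_smul, mul_pow, norm_v0_sq, Real.norm_eq_abs, sq_abs]; rfl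

/-- The scalar Hamilton–Jacobi identity. -/
lemma hj (h : Sys ε W0 N q Nq ζ Nζ) {t : ℝ} {w : ℂ} (ht : t ∈ Icc (0:ℝ) 1) (hw : w ∈ Sc) :
    ct ε W0 t w + pt ε q t w + ‖vel ε W0 ζ t (Z w)‖^2 / 2 - ‖px ε q t w‖^2 / 2 = 0 := by
  have hwR2 := Sc_subset_R2 hw
  have hg := g_pos hwR2
  by_cases hr : rel t w
  · have hW : W0 (t, Z w) ∈ R3c := R3_subset_R3c (h.geo.W0R3 _ (h.geo.W0_mem (TI ht) hwR2))
    have hgW : 0 < g (W0 (t, Z w)) := lt_of_lt_of_le (by norm_num) (g_ge3 hW)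
    rw [(h.norm_vel_sq ht hw).1 hr, ct, pt, px, if_pos hr, if_pos hr, if_pos hr]
    simp
    field_simp
    ring
  · rw [(h.norm_vel_sq ht hw).2 hr, ct, pt, px, if_neg hr, if_neg hr, if_neg hr]
    have e := h.qHJ t ht w hwR2
    rw [norm_smul, mul_pow, norm_mul, mul_pow, norm_v0_sq, norm_gq_sq, Real.norm_eq_abs, sq_abs]
    set a := fderiv ℝ q (t, w) (1, 0)
    set b := fderiv ℝ q (t, w) (0, 1)
    set c := fderiv ℝ q (t, w) (0, I)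
    have e2 : a = (ε^2 / 2 * (b^2 + c^2) - 1/2 + EE t * g w) / g w := by
      rw [eq_div_iff hg.ne']; exact e
    rw [e2]
    field_simp
    ring

lemma pp_nonneg (h : Sys ε W0 N q Nq ζ Nζ) {t : ℝ} {w : ℂ} (ht : t ∈ Icc (0:ℝ) 1) (hw : w ∈ Sc) :
    0 ≤ pp ε q ζ (t, Z w) := by
  unfold pp
  simp only [h.ζZ w (Sc_subset_R2 hw)]
  split_ifs
  · exact le_rfl
  · exact mul_nonneg (sq_nonneg _) (h.qpos t ht w (Sc_subset_R2 hw))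

lemma pp_rho (h : Sys ε W0 N q Nq ζ Nζ) (t : ℝ) (z : ℂ) :
    pp ε q ζ (t, z) * (1 - rho ε W0 ζ t z) = 0 := by
  unfold pp rho
  simp only
  split_ifs <;> simp

end Sys

end

end Pool.Agent.MFG
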