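import Pool.Agent.MP_03ede7_an.Base

set_option autoImplicit false
open Set Filter Topology Complex
open scoped ComplexConjugate

namespace Pool.Agent.MFG

noncomputable section

/-- The big closed rectangle. -/
def R2 : Set ℂ := {w | |w.re| ≤ 7/5 ∧ |w.im| ≤ 1/10}

/-- The channel (open rectangle). -/
def S : Set ℂ := {w | |w.re| < 27/20 ∧ |w.im| < 1/20}

/-- The closed channel. -/
def Sc : Set ℂ := {w | |w.re| ≤ 27/20 ∧ |w.im| ≤ 1/20}

lemma R2_eq : R2 = Icc (-(7/5)) (7/5) ×ℂ Icc (-(1/10)) (1/10) := by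
  ext w; simp [R2, mem_reProdIm, abs_le]

lemma Sc_eq : Sc = Icc (-(27/20)) (27/20) ×ℂ Icc (-(1/20)) (1/20) := by
  ext w; simp [Sc, mem_reProdIm, abs_le]

lemma isCompact_R2 : IsCompact R2 := by
  rw [R2_eq]; exact isCompact_Icc.reProdIm isCompact_Icc

lemma isCompact_Sc : IsCompact Sc := by
  rw [Sc_eq]; exact isCompact_Icc.reProdIm isCompact_Icc

lemma Sc_subset_R2 : Sc ⊆ R2 := fun w hw => ⟨hw.1.trans (by norm_num), hw.2.trans (by norm_num)⟩

lemma S_subset_Sc : S ⊆ Sc := fun w hw => ⟨hw.1.le, hw.2.le⟩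

lemma isOpen_S : IsOpen S :=
  (isOpen_lt (continuous_abs.comp continuous_re) continuous_const).inter
    (isOpen_lt (continuous_abs.comp continuous_im) continuous_const)

lemma k_re (w : ℂ) : (k w).re = 1 + (w.re^2 - w.im^2 - 1)^2 - (2 * w.re * w.im)^2 := by
  simp [k, pow_two]; ring

lemma k_im (w : ℂ) : (k w).im = 2 * (w.re^2 - w.im^2 - 1) * (2 * w.re * w.im) := by
  simp [k, pow_two]; ring

lemma g_eq (w : ℂ) : g w = (1 + (w.re^2 - w.im^2 - 1)^2 - (2 * w.re * w.im)^2)^2 +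
    (2 * (w.re^2 - w.im^2 - 1) * (2 * w.re * w.im))^2 := by
  rw [g, normSq_apply, k_re, k_im]; ring

/-- expression of `g` in terms of `a = re u`, `b² = (im u)²`. -/
lemma g_eq' (w : ℂ) : g w = 1 + 2 * ((w.re^2 - w.im^2 - 1)^2 - (2 * w.re * w.im)^2) +
    ((w.re^2 - w.im^2 - 1)^2 + (2 * w.re * w.im)^2)^2 := by
  rw [g_eq]; ring

lemma sq_le_of_abs_le {x c : ℝ} (h : |x| ≤ c) : x^2 ≤ c^2 := sq_le_sq' (abs_le.1 h).1 (abs_le.1 h).2

lemma k_re_ge {w : ℂ} (hw : w ∈ R2) : 9/10 ≤ (k w).re := by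
  have h1 := sq_le_of_abs_le hw.1
  have h2 := sq_le_of_abs_le hw.2
  rw [k_re]
  nlinarith [sq_nonneg (w.re^2 - w.im^2 - 1), sq_nonneg w.re, sq_nonneg w.im,
    mul_le_mul h1 h2 (sq_nonneg _) (by positivity)]

lemma g_ge {w : ℂ} (hw : w ∈ R2) : 1/2 ≤ g w := by
  have := k_re_ge hw
  rw [g, normSq_apply]
  nlinarith [mul_self_nonneg (k w).im]

lemma g_pos {w : ℂ} (hw : w ∈ R2) : 0 < g w := lt_of_lt_of_le (by norm_num) (g_ge hw)

lemma k_ne {w : ℂ} (hw : w ∈ R2) : k w ≠ 0 := fun h => by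
  have := k_re_ge hw
  rw [h] at this
  norm_num at this

lemma tau_le {w : ℂ} (hw : w ∈ R2) : tau w ≤ 9 := by
  have h := g_ge hw
  have : 6 / g w ≤ 12 := by rw [div_le_iff₀ (g_pos hw)]; linarith
  unfold tau; linarith

lemma tau_ge {w : ℂ} (hw : w ∈ R2) : -3 ≤ tau w := by
  have : 0 ≤ 6 / g w := div_nonneg (by norm_num) (g_pos hw).le
  unfold tau; linarith

end

end Pool.Agent.MFG
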