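import Mathlib

set_option autoImplicit false
open Set Filter Topology

namespace Pool.Agent.MFG

/-- Inverse function theorem in a neighbourhood of a compact set. -/
theorem exists_inverse_near_compact {E F : Type*} [NormedAddCommGroup E] [NormedSpace ℝ E]
    [CompleteSpace E] [NormedAddCommGroup F] [NormedSpace ℝ F]
    {n : WithTop ℕ∞} (hn : n ≠ 0) {f : E → F} {U : Set E} (hU : IsOpen U)
    (hf : ContDiffOn ℝ n f U) {K : Set E} (hK : IsCompact K) (hKU : K ⊆ U)
    (hinv : ∀ x ∈ K, ∃ e : E ≃L[ℝ] F, HasFDerivAt f (e : E →L[ℝ] F) x)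
    (hinj : InjOn f K) :
    ∃ V : Set E, IsOpen V ∧ K ⊆ V ∧ V ⊆ U ∧ InjOn f V ∧ IsOpen (f '' V) ∧
      (∀ x ∈ V, ∃ e : E ≃L[ℝ] F, HasFDerivAt f (e : E →L[ℝ] F) x) ∧
      ∃ finv : F → E, (∀ x ∈ V, finv (f x) = x) ∧ ContDiffOn ℝ n finv (f '' V) := by
  have hn1 : (1 : WithTop ℕ∞) ≤ n := ENat.one_le_iff_ne_zero_withTop.mpr hn
  have hfat : ∀ x ∈ U, ContDiffAt ℝ n f x := fun x hx => hf.contDiffAt (hU.mem_nhds hx)
  have hdiff : ∀ x ∈ U, HasFDerivAt f (fderiv ℝ f x) x := fun x hx =>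
    ((hfat x hx).differentiableAt hn).hasFDerivAt
  -- the open set where the derivative is invertible
  set V₀ : Set E := {x ∈ U | fderiv ℝ f x ∈ range ((↑) : (E ≃L[ℝ] F) → (E →L[ℝ] F))} with hV₀
  have hV₀open : IsOpen V₀ := by
    have hc : ContinuousOn (fderiv ℝ f) U := hf.continuousOn_fderiv_of_isOpen hU hn1
    exact hc.isOpen_inter_preimage hU ContinuousLinearEquiv.isOpen
  have hKV₀ : K ⊆ V₀ := by
    intro x hx
    refine ⟨hKU hx, ?_⟩
    obtain ⟨e, he⟩ := hinv x hx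
    exact ⟨e, he.fderiv.symm⟩
  obtain ⟨V₁, hV₁open, hKV₁, hV₁inj⟩ := hinj.exists_isOpen_superset hK
    (fun x hx => (hfat x (hKU hx)).continuousAt) (by
      intro x hx
      obtain ⟨e, he⟩ := hinv x hx
      refine ⟨((hfat x (hKU hx)).toOpenPartialHomeomorph f he hn).source,
        ((hfat x (hKU hx)).toOpenPartialHomeomorph f he hn).open_source.mem_nhds
          ((hfat x (hKU hx)).mem_toOpenPartialHomeomorph_source he hn), ?_⟩
      exact ((hfat x (hKU hx)).toOpenPartialHomeomorph f he hn).injOn)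
  have hloc : ∀ x ∈ V₀ ∩ V₁, ∃ e : E ≃L[ℝ] F, HasFDerivAt f (e : E →L[ℝ] F) x := by
    rintro x ⟨⟨hxU, e, he⟩, -⟩
    exact ⟨e, he ▸ hdiff x hxU⟩
  -- local structure of the inverse
  classical
  set finv : F → E := fun y => if h : ∃ x ∈ V₀ ∩ V₁, f x = y then h.choose else 0 with hfinv
  have hfinv_left : ∀ x ∈ V₀ ∩ V₁, finv (f x) = x := by
    intro x hx
    have h : ∃ x' ∈ V₀ ∩ V₁, f x' = f x := ⟨x, hx, rfl⟩
    rw [hfinv]
    simp only [dif_pos h]
    exact hV₁inj h.choose_spec.1.2 hx.2 h.choose_spec.2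
  have key : ∀ x ∈ V₀ ∩ V₁, (f '' (V₀ ∩ V₁) ∈ 𝓝 (f x)) ∧ ContDiffAt ℝ n finv (f x) := by
    intro x hx
    obtain ⟨e, he⟩ := hloc x hx
    have hcd := hfat x hx.1.1
    set Φ := hcd.toOpenPartialHomeomorph f he hn with hΦ
    have hxs : x ∈ Φ.source := hcd.mem_toOpenPartialHomeomorph_source he hn
    have hyt : f x ∈ Φ.target := hcd.image_mem_toOpenPartialHomeomorph_target he hn
    have hli : hcd.localInverse he hn = Φ.symm := rfl
    have hsymm : Φ.symm (f x) = x := Φ.left_inv hxs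
    have hcont : ContinuousAt Φ.symm (f x) := Φ.continuousAt_symm hyt
    have hnear : ∀ᶠ y in 𝓝 (f x), Φ.symm y ∈ V₀ ∩ V₁ := by
      apply hcont
      rw [hsymm]
      exact (hV₀open.inter hV₁open).mem_nhds hx
    have hnear2 : ∀ᶠ y in 𝓝 (f x), f (Φ.symm y) = y := by
      filter_upwards [Φ.open_target.mem_nhds hyt] with y hy
      exact Φ.right_inv hy
    constructor
    · filter_upwards [hnear, hnear2] with y h1 h2
      exact ⟨_, h1, h2⟩
    · have h3 : ContDiffAt ℝ n Φ.symm (f x) := by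
        have := hcd.to_localInverse he hn
        rwa [hli] at this
      refine h3.congr_of_eventuallyEq ?_
      filter_upwards [hnear, hnear2] with y h1 h2
      conv_lhs => rw [← h2]
      exact hfinv_left _ h1
  refine ⟨V₀ ∩ V₁, hV₀open.inter hV₁open, subset_inter hKV₀ hKV₁, fun x hx => hx.1.1,
    hV₁inj.mono inter_subset_right, ?_, hloc, finv, hfinv_left, ?_⟩
  · rw [isOpen_iff_mem_nhds]
    rintro _ ⟨x, hx, rfl⟩
    exact (key x hx).1
  · rintro _ ⟨x, hx, rfl⟩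
    exact (key x hx).2.contDiffWithinAt

end Pool.Agent.MFG
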