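import Pool.Agent.MP_03ede7_an.Lines2

set_option autoImplicit false
open Set Filter Topology Complex MeasureTheory
open scoped ComplexConjugate ContDiff

namespace Pool.Agent.MFG

noncomputable section

lemma exists_tauX_bound : ∃ B : ℝ, 0 ≤ B ∧ ∀ w ∈ Sc, |tauX w| ≤ B := by
  have hc : ContinuousOn tauX Sc := by
    have hg : Continuous g := (contDiff_g (n := 0)).continuous
    have h1 : Continuous (fun w => (conj (k w) * k1 w).re) :=
      continuous_re.comp ((continuous_conj.comp (contDiff_k (n := 0)).continuous).mul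
        (contDiff_k1 (n := 0)).continuous)
    refine ContinuousOn.div (continuous_const.mul h1).continuousOn (hg.pow 2).continuousOn
      (fun w hw => ?_)
    have := g_pos (Sc_subset_R2 hw)
    positivity
  obtain ⟨B, hB⟩ := isCompact_Sc.exists_bound_of_continuousOn hc
  exact ⟨max B 0, le_max_right _ _, fun w hw => (hB w hw).trans (le_max_left _ _)⟩

lemma abs_dmt_le {B : ℝ} (hB0 : 0 ≤ B) (hB : ∀ w ∈ Sc, |tauX w| ≤ B) (t : ℝ) {w : ℂ}
    (hw : w ∈ Sc) : |dmt t w| ≤ B := by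
  unfold dmt
  split_ifs
  · exact hB w hw
  · simpa using hB0

lemma mt_zero_of {t : ℝ} (ht : t ∈ Icc (0:ℝ) 1) {w : ℂ} (hw : w ∈ Sc) (h : 13/10 ≤ |w.re|) :
    mt t w = 0 ∧ dmt t w = 0 := by
  have h1 := tau_neg h (hw.1.trans (by norm_num)) hw.2
  have h2 : 11/10 < |w.re| := lt_of_lt_of_le (by norm_num) h
  constructor
  · rw [mt, if_pos h2, min_eq_right (by linarith [ht.1]), max_eq_left h1.le]
  · rw [dmt, if_neg]
    rintro ⟨-, h3, -⟩
    linarith

lemma line_W1 {t : ℝ} (ht : t ∈ Icc (0:ℝ) 1) {y : ℝ} (hy : |y| < 1/20) {f f' : ℝ → ℝ}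
    (hf : ∀ x ∈ Ioo (-(27/20 : ℝ)) (27/20), HasDerivAt f (f' x) x) {C : ℝ}
    (hC : ∀ x ∈ Ioo (-(27/20 : ℝ)) (27/20), |f' x| ≤ C) :
    ∫ x in Ioo (-(27/20 : ℝ)) (27/20), (mt t ⟨x, y⟩ * f' x + dmt t ⟨x, y⟩ * f x) = 0 := by
  obtain ⟨B, hB0, hB⟩ := exists_tauX_bound
  have hSc : ∀ x : ℝ, |x| ≤ 27/20 → (⟨x, y⟩ : ℂ) ∈ Sc := fun x hx => ⟨hx, hy.le⟩
  have hmeas_mk : Measurable (fun x : ℝ => (⟨x, y⟩ : ℂ)) :=
    (continuous_iff_continuousAt.2 fun x => (hasDerivAt_mk x y).continuousAt).measurable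
  -- reduce to the smaller interval
  have hred : ∫ x in Ioo (-(27/20 : ℝ)) (27/20), (mt t ⟨x, y⟩ * f' x + dmt t ⟨x, y⟩ * f x) =
      ∫ x in Ioc (-(67/50 : ℝ)) (67/50), (mt t ⟨x, y⟩ * f' x + dmt t ⟨x, y⟩ * f x) := by
    refine setIntegral_eq_of_subset_of_forall_sdiff_eq_zero measurableSet_Ioo ?_ ?_
    · intro x hx
      exact ⟨by linarith [hx.1], by linarith [hx.2]⟩
    · rintro x ⟨hx1, hx2⟩
      have hxa : |x| ≤ 27/20 := by rw [abs_le]; exact ⟨hx1.1.le, hx1.2.le⟩
      have hxb : 13/10 ≤ |x| := by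
        by_contra hcon
        push Not at hcon
        rw [abs_lt] at hcon
        exact hx2 ⟨by linarith [hcon.1], by linarith [hcon.2]⟩
      obtain ⟨e1, e2⟩ := mt_zero_of ht (hSc x hxa) hxb
      rw [e1, e2]; ring
  rw [hred, ← intervalIntegral.integral_of_le (by norm_num)]
  set H : ℝ → ℝ := fun x => mt t ⟨x, y⟩ * f x with hH
  set E : Set ℝ := {x | |x| = 11/10} ∪ ({x : ℝ | 11/10 < |x| ∧ |x| < 27/20 ∧ tau ⟨x, y⟩ = 0} ∪
    {x : ℝ | 11/10 < |x| ∧ |x| < 27/20 ∧ tau ⟨x, y⟩ = t}) with hE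
  have hEc : E.Countable := by
    refine Countable.union ?_ ((countable_level hy.le 0).union (countable_level hy.le t))
    refine (Set.Finite.subset (s := {11/10, -(11/10)}) (by simp) ?_).countable
    intro x hx
    simp only [mem_insert_iff, mem_singleton_iff]
    rcases le_total 0 x with h | h
    · left; have : |x| = 11/10 := hx
      rwa [abs_of_nonneg h] at this
    · right; have : |x| = 11/10 := hx
      rw [abs_of_nonpos h] at this; linarith
  have hgne : ∀ x : ℝ, |x| ≤ 27/20 → g ⟨x, y⟩ ≠ 0 := fun x hx =>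
    (g_pos (Sc_subset_R2 (hSc x hx))).ne'
  have htc : ∀ x : ℝ, |x| ≤ 27/20 → ContinuousAt (fun x : ℝ => tau ⟨x, y⟩) x := fun x hx =>
    (tau_slice (hgne x hx)).continuousAt
  have habs : ∀ x : ℝ, ContinuousAt (fun x : ℝ => |x|) x := fun x => continuous_abs.continuousAt
  -- local behaviour of mt
  have hloc_inner : ∀ x : ℝ, |x| < 11/10 → (fun x : ℝ => mt t ⟨x, y⟩) =ᶠ[𝓝 x] fun _ => t := by
    intro x hx
    filter_upwards [(habs x) (isOpen_Iio.mem_nhds hx)] with z hz
    refine mt_eq_t ht (fun h => ?_)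
    exact absurd h (not_lt.2 (le_of_lt hz))
  have hloc_big : ∀ x : ℝ, |x| ≤ 27/20 → t < tau ⟨x, y⟩ →
      (fun x : ℝ => mt t ⟨x, y⟩) =ᶠ[𝓝 x] fun _ => t := by
    intro x hx htx
    filter_upwards [(htc x hx) (isOpen_Ioi.mem_nhds htx)] with z hz
    exact mt_eq_t ht (fun _ => le_of_lt hz)
  have hloc_outer : ∀ x : ℝ, 11/10 < |x| →
      (fun x : ℝ => mt t ⟨x, y⟩) =ᶠ[𝓝 x] fun x => max 0 (min t (tau ⟨x, y⟩)) := by
    intro x hx
    filter_upwards [(habs x) (isOpen_Ioi.mem_nhds hx)] with z hz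
    exact if_pos hz
  have hmtc : ∀ x : ℝ, |x| ≤ 27/20 → ContinuousAt (fun x : ℝ => mt t ⟨x, y⟩) x := by
    intro x hx
    rcases lt_trichotomy |x| (11/10) with h | h | h
    · exact continuousAt_const.congr (hloc_inner x h).symm
    · have := tau_gt_one (w := ⟨x, y⟩) h.ge (by rw [h]; norm_num) hy.le
      exact continuousAt_const.congr (hloc_big x hx (by linarith [ht.2])).symm
    · refine ContinuousAt.congr ?_ (hloc_outer x h).symm
      exact continuousAt_const.max (continuousAt_const.min (htc x hx))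
  have hmain := integral_eq_of_hasDerivAt_off_countable_of_le H
    (fun x => mt t ⟨x, y⟩ * f' x + dmt t ⟨x, y⟩ * f x) (a := -(67/50)) (b := 67/50)
    (by norm_num) hEc ?_ ?_ ?_
  · rw [hmain]
    have e1 := mt_zero_of ht (hSc (67/50) (by rw [abs_of_pos] <;> norm_num))
      (by simp only; rw [abs_of_pos] <;> norm_num)
    have e2 := mt_zero_of ht (hSc (-(67/50)) (by rw [abs_of_neg] <;> norm_num))
      (by simp only; rw [abs_of_neg] <;> norm_num)
    simp only [hH, e1.1, e2.1]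
    ring
  · intro x hx
    have hx1 : x ∈ Ioo (-(27/20 : ℝ)) (27/20) := ⟨by linarith [hx.1], by linarith [hx.2]⟩
    exact ((hmtc x (by rw [abs_le]; exact ⟨hx1.1.le, hx1.2.le⟩)).mul
      (hf x hx1).continuousAt).continuousWithinAt
  · rintro x ⟨hx, hxE⟩
    have hx1 : x ∈ Ioo (-(27/20 : ℝ)) (27/20) := ⟨by linarith [hx.1], by linarith [hx.2]⟩
    have hxa : |x| ≤ 27/20 := by rw [abs_le]; exact ⟨hx1.1.le, hx1.2.le⟩
    have hxl : |x| < 27/20 := by rw [abs_lt]; exact hx1
    have hmtd : HasDerivAt (fun x : ℝ => mt t ⟨x, y⟩) (dmt t ⟨x, y⟩) x := by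
      rcases lt_trichotomy |x| (11/10) with h | h | h
      · have hd : dmt t ⟨x, y⟩ = 0 := if_neg (fun hh => absurd hh.1 (not_lt.2 h.le))
        rw [hd]
        exact (hasDerivAt_const x t).congr_of_eventuallyEq (hloc_inner x h)
      · exact absurd (Or.inl h) hxE
      · have ht0 : tau ⟨x, y⟩ ≠ 0 := fun h0 => hxE (Or.inr (Or.inl ⟨h, hxl, h0⟩))
        have htt : tau ⟨x, y⟩ ≠ t := fun h0 => hxE (Or.inr (Or.inr ⟨h, hxl, h0⟩))
        rcases lt_or_gt_of_ne ht0 with h1 | h1
        · have hd : dmt t ⟨x, y⟩ = 0 := if_neg (fun hh => absurd hh.2.1 (not_le.2 h1))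
          rw [hd]
          refine (hasDerivAt_const x (0:ℝ)).congr_of_eventuallyEq ?_
          filter_upwards [hloc_outer x h, (htc x hxa) (isOpen_Iio.mem_nhds h1)] with z hz1 hz2
          have hz2' : tau ⟨z, y⟩ < 0 := hz2
          rw [hz1, min_eq_right (by linarith [ht.1]), max_eq_left hz2'.le]
        · rcases lt_or_gt_of_ne htt with h2 | h2
          · have hd : dmt t ⟨x, y⟩ = tauX ⟨x, y⟩ := if_pos ⟨h, h1.le, h2⟩
            rw [hd]
            refine (tau_slice (hgne x hxa)).congr_of_eventuallyEq ?_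
            filter_upwards [hloc_outer x h, (htc x hxa) (isOpen_Ioo.mem_nhds ⟨h1, h2⟩)]
              with z hz1 hz2
            have hz2' : 0 < tau ⟨z, y⟩ ∧ tau ⟨z, y⟩ < t := hz2
            rw [hz1, min_eq_right hz2'.2.le, max_eq_right hz2'.1.le]
          · have hd : dmt t ⟨x, y⟩ = 0 := if_neg (fun hh => absurd hh.2.2 (not_lt.2 h2.le))
            rw [hd]
            exact (hasDerivAt_const x t).congr_of_eventuallyEq (hloc_big x hxa h2)
    have := hmtd.mul (hf x hx1)
    refine this.congr_deriv ?_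
    ring
  · -- integrability
    have hsub : Ioc (-(67/50) : ℝ) (67/50) ⊆ Ioo (-(27/20 : ℝ)) (27/20) := fun x hx =>
      ⟨by linarith [hx.1], by linarith [hx.2]⟩
    rw [intervalIntegrable_iff_integrableOn_Ioc_of_le (by norm_num)]
    have hfc : ContinuousOn f (Icc (-(67/50) : ℝ) (67/50)) := fun x hx =>
      (hf x ⟨by linarith [hx.1], by linarith [hx.2]⟩).continuousAt.continuousWithinAt
    obtain ⟨M, hM⟩ := isCompact_Icc.exists_bound_of_continuousOn hfc
    have i1 : IntegrableOn (fun x => mt t ⟨x, y⟩ * f' x) (Ioc (-(67/50) : ℝ) (67/50)) := by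
      refine IntegrableOn.of_bound measure_Ioc_lt_top ?_ (1 * C) ?_
      · refine ((measurable_mt t).comp hmeas_mk).aestronglyMeasurable.mul ?_
        refine (measurable_deriv f).aestronglyMeasurable.congr ?_
        refine (ae_restrict_iff' measurableSet_Ioc).2 (Eventually.of_forall fun x hx => ?_)
        exact (hf x (hsub hx)).deriv
      · refine (ae_restrict_iff' measurableSet_Ioc).2 (Eventually.of_forall fun x hx => ?_)
        rw [norm_mul, Real.norm_eq_abs, Real.norm_eq_abs]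
        have h1 := mt_mem ht.1 (⟨x, y⟩ : ℂ)
        rw [abs_of_nonneg h1.1]
        exact mul_le_mul (h1.2.trans ht.2) (hC x (hsub hx)) (abs_nonneg _) zero_le_one
    have i2 : IntegrableOn (fun x => dmt t ⟨x, y⟩ * f x) (Ioc (-(67/50) : ℝ) (67/50)) := by
      refine IntegrableOn.of_bound measure_Ioc_lt_top ?_ (B * M) ?_
      · refine ((measurable_dmt t).comp hmeas_mk).aestronglyMeasurable.mul ?_
        exact (hfc.mono Ioc_subset_Icc_self).aestronglyMeasurable measurableSet_Ioc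
      · refine (ae_restrict_iff' measurableSet_Ioc).2 (Eventually.of_forall fun x hx => ?_)
        rw [norm_mul, Real.norm_eq_abs]
        have hx1 := hsub hx
        refine mul_le_mul (abs_dmt_le hB0 hB t (hSc x (by rw [abs_le]; exact ⟨hx1.1.le, hx1.2.le⟩)))
          (hM x (Ioc_subset_Icc_self hx)) (norm_nonneg _) hB0
    exact i1.add i2

end

end Pool.Agent.MFG
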