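import Pool.Agent.MP_03ede7_an.Cov2

set_option autoImplicit false
open Set Filter Topology Complex MeasureTheory
open scoped ComplexConjugate ContDiff

namespace Pool.Agent.MFG

noncomputable section

/-- Fubini on a rectangle in `ℂ`, horizontal lines first. -/
lemma rect_fubini {F : ℂ → ℝ} {a b c d : ℝ} (hF : IntegrableOn F (Ioo a b ×ℂ Ioo c d)) :
    ∫ w in Ioo a b ×ℂ Ioo c d, F w = ∫ y in Ioo c d, ∫ x in Ioo a b, F ⟨x, y⟩ := by
  have hmp := volume_preserving_equiv_real_prod.symm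
  have hemb : MeasurableEmbedding (⇑measurableEquivRealProd.symm) :=
    measurableEquivRealProd.symm.measurableEmbedding
  have hpre : (⇑measurableEquivRealProd.symm) ⁻¹' (Ioo a b ×ℂ Ioo c d) = Ioo a b ×ˢ Ioo c d := by
    ext ⟨x, y⟩
    rfl
  have h1 := hmp.setIntegral_preimage_emb hemb F (Ioo a b ×ℂ Ioo c d)
  rw [hpre] at h1
  rw [← h1]
  have h2 : IntegrableOn (fun p : ℝ × ℝ => F (measurableEquivRealProd.symm p))
      (Ioo a b ×ˢ Ioo c d) (volume.prod volume) := by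
    have := (hmp.integrableOn_comp_preimage hemb (f := F) (s := Ioo a b ×ℂ Ioo c d)).2 hF
    rw [hpre] at this
    exact this
  rw [Measure.volume_eq_prod, ← Measure.prod_restrict]
  rw [IntegrableOn, ← Measure.prod_restrict] at h2
  rw [integral_prod_symm _ h2]
  rfl

lemma rect_zero {F : ℂ → ℝ} {a b c d : ℝ} (hF : IntegrableOn F (Ioo a b ×ℂ Ioo c d))
    (h0 : ∀ y ∈ Ioo c d, ∫ x in Ioo a b, F ⟨x, y⟩ = 0) :
    ∫ w in Ioo a b ×ℂ Ioo c d, F w = 0 := by
  rw [rect_fubini hF]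
  exact setIntegral_eq_zero_of_forall_eq_zero h0

lemma S_eq : S = Ioo (-(27/20)) (27/20) ×ℂ Ioo (-(1/20)) (1/20) := by
  ext w; simp [S, mem_reProdIm, abs_lt]

/-- `∂_χ g` -/
lemma ip_gradg_one (w : ℂ) : ip (gradg w) 1 = 2 * (conj (k w) * k1 w).re := by
  rw [ip_apply, gradg]; simp; ring

lemma c_re_sign {w : ℂ} (h1 : 11/10 ≤ |w.re|) (h2 : |w.re| ≤ 27/20) (h3 : |w.im| ≤ 1/20) :
    0 < w.re * (conj (k w) * k1 w).re := by
  have e1 := sq_le_of_abs_le h2
  have e2 := sq_le_of_abs_le h3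
  have e3 : (11/10)^2 ≤ w.re^2 := by rw [← sq_abs w.re]; exact pow_le_pow_left₀ (by norm_num) h1 2
  have hb0 : 0 ≤ (2 * w.re * w.im)^2 := sq_nonneg _
  have ha1 : 0.2 ≤ w.re^2 - w.im^2 - 1 := by norm_num at *; linarith
  rw [c_re]
  have hX : 0 < (w.re^2 - w.im^2 - 1) * (1 + ((w.re^2 - w.im^2 - 1)^2 + (2 * w.re * w.im)^2)) -
      2 * w.im^2 * (1 - ((w.re^2 - w.im^2 - 1)^2 + (2 * w.re * w.im)^2)) := by
    set a := w.re^2 - w.im^2 - 1
    set b := (2 * w.re * w.im)^2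
    have h4 : 0 ≤ a^2 + b := by positivity
    have h5 : 0.2 * 1 ≤ a * (1 + (a^2 + b)) :=
      mul_le_mul ha1 (by linarith) (by norm_num) (by linarith [show (0:ℝ) ≤ 0.2 by norm_num])
    have h6 : 2 * w.im^2 * (1 - (a^2 + b)) ≤ 2 * 0.0025 * 1 := by
      have : 2 * w.im^2 * (1 - (a^2 + b)) ≤ 2 * w.im^2 * 1 :=
        mul_le_mul_of_nonneg_left (by linarith) (by positivity)
      norm_num at *; linarith
    norm_num at *; linarith
  have hre : 0 < w.re^2 := lt_of_lt_of_le (by norm_num) e3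
  nlinarith

end

end Pool.Agent.MFG
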