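import Pool.Agent.MP_03ede7_an.Lines

set_option autoImplicit false
open Set Filter Topology Complex MeasureTheory
open scoped ComplexConjugate ContDiff

namespace Pool.Agent.MFG

noncomputable section

lemma hasDerivAt_mk (x y : ℝ) : HasDerivAt (fun x : ℝ => (⟨x, y⟩ : ℂ)) 1 x := by
  have h : (fun x : ℝ => (⟨x, y⟩ : ℂ)) = fun x : ℝ => (x : ℂ) + y * I := by
    funext x; exact Complex.mk_eq_add_mul_I x y
  rw [h]
  exact (ofRealCLM.hasDerivAt (x := x)).add_const _

/-- `∂_χ τ` -/
def tauX (w : ℂ) : ℝ := -12 * (conj (k w) * k1 w).re / (g w)^2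

lemma tau_slice {x y : ℝ} (hg : g ⟨x, y⟩ ≠ 0) :
    HasDerivAt (fun x : ℝ => tau ⟨x, y⟩) (tauX ⟨x, y⟩) x := by
  have h := curve_tau (hasDerivAt_mk x y) hg
  refine h.congr_deriv ?_
  rw [ip_gradg_one, tauX]
  ring

lemma mem_R2_of {x y : ℝ} (hx : |x| ≤ 7/5) (hy : |y| ≤ 1/10) : (⟨x, y⟩ : ℂ) ∈ R2 := ⟨hx, hy⟩

lemma countable_level {y : ℝ} (hy : |y| ≤ 1/20) (c : ℝ) :
    {x : ℝ | 11/10 < |x| ∧ |x| < 27/20 ∧ tau ⟨x, y⟩ = c}.Countable := by
  have hgne : ∀ x : ℝ, |x| ≤ 27/20 → g ⟨x, y⟩ ≠ 0 := fun x hx =>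
    (g_pos (mem_R2_of (hx.trans (by norm_num)) (hy.trans (by norm_num)))).ne'
  have hcont : ∀ x : ℝ, |x| ≤ 27/20 → ContinuousAt (fun x : ℝ => tau ⟨x, y⟩) x := fun x hx =>
    (tau_slice (hgne x hx)).continuousAt
  have h1 : StrictAntiOn (fun x : ℝ => tau ⟨x, y⟩) (Icc (11/10) (27/20)) := by
    refine strictAntiOn_of_deriv_neg (convex_Icc _ _) (fun x hx => ?_) (fun x hx => ?_)
    · exact (hcont x (by rw [abs_le]; constructor <;> linarith [hx.1, hx.2])).continuousWithinAt
    · rw [interior_Icc] at hx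
      have hxa : |x| = x := abs_of_pos (by linarith [hx.1])
      have hx1 : |x| ≤ 27/20 := by rw [hxa]; exact hx.2.le
      rw [(tau_slice (hgne x hx1)).deriv, tauX]
      have hs := c_re_sign (w := ⟨x, y⟩) (by simp only [hxa]; exact hx.1.le) hx1 hy
      simp only at hs
      have hpos : 0 < x := by linarith [hx.1]
      have hc : 0 < (conj (k ⟨x, y⟩) * k1 ⟨x, y⟩).re := (pos_iff_pos_of_mul_pos hs).1 hpos
      have hg2 : 0 < g ⟨x, y⟩ ^ 2 := by have := hgne x hx1; positivity
      apply div_neg_of_neg_of_pos _ hg2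
      linarith
  have h2 : StrictMonoOn (fun x : ℝ => tau ⟨x, y⟩) (Icc (-(27/20)) (-(11/10))) := by
    refine strictMonoOn_of_deriv_pos (convex_Icc _ _) (fun x hx => ?_) (fun x hx => ?_)
    · exact (hcont x (by rw [abs_le]; constructor <;> linarith [hx.1, hx.2])).continuousWithinAt
    · rw [interior_Icc] at hx
      have hxa : |x| = -x := abs_of_neg (by linarith [hx.2])
      have hx1 : |x| ≤ 27/20 := by rw [hxa]; linarith [hx.1]
      rw [(tau_slice (hgne x hx1)).deriv, tauX]
      have hs := c_re_sign (w := ⟨x, y⟩) (by simp only [hxa]; linarith [hx.2]) hx1 hy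
      simp only at hs
      have hneg : x < 0 := by linarith [hx.2]
      have hc : (conj (k ⟨x, y⟩) * k1 ⟨x, y⟩).re < 0 := by
        by_contra hcon
        push Not at hcon
        nlinarith
      have hg2 : 0 < g ⟨x, y⟩ ^ 2 := by have := hgne x hx1; positivity
      apply div_pos _ hg2
      linarith
  have hs1 : ({x : ℝ | x ∈ Icc (11/10) (27/20) ∧ tau ⟨x, y⟩ = c}).Subsingleton := by
    intro a ha b hb
    exact h1.injOn ha.1 hb.1 (ha.2.trans hb.2.symm)
  have hs2 : ({x : ℝ | x ∈ Icc (-(27/20)) (-(11/10)) ∧ tau ⟨x, y⟩ = c}).Subsingleton := by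
    intro a ha b hb
    exact h2.injOn ha.1 hb.1 (ha.2.trans hb.2.symm)
  refine (hs1.countable.union hs2.countable).mono ?_
  rintro x ⟨a1, a2, a3⟩
  rcases le_total 0 x with hx | hx
  · left
    rw [abs_of_nonneg hx] at a1 a2
    exact ⟨⟨a1.le, a2.le⟩, a3⟩
  · right
    rw [abs_of_nonpos hx] at a1 a2
    exact ⟨⟨by linarith, by linarith⟩, a3⟩

open Classical in
/-- time spent in the saturated zone before `t` -/
def mt (t : ℝ) (w : ℂ) : ℝ := if 11/10 < |w.re| then max 0 (min t (tau w)) else t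

open Classical in
def dmt (t : ℝ) (w : ℂ) : ℝ := if 11/10 < |w.re| ∧ 0 ≤ tau w ∧ tau w < t then tauX w else 0

lemma measurable_mt (t : ℝ) : Measurable (mt t) := by
  have h1 : Measurable (fun w : ℂ => |w.re|) := (continuous_abs.comp continuous_re).measurable
  have h2 : Measurable (fun w : ℂ => max 0 (min t (tau w))) :=
    measurable_const.max (measurable_const.min measurable_tau)
  exact Measurable.ite (measurableSet_lt measurable_const h1) h2 measurable_const

lemma measurable_tauX : Measurable tauX := by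
  have h1 : Measurable (fun w => (conj (k w) * k1 w).re) :=
    measurable_re.comp ((continuous_conj.measurable.comp measurable_k).mul measurable_k1)
  exact mdiv (measurable_const.mul h1) (measurable_g.pow_const 2)

lemma measurable_dmt (t : ℝ) : Measurable (dmt t) := by
  have h1 : Measurable (fun w : ℂ => |w.re|) := (continuous_abs.comp continuous_re).measurable
  have h2 : MeasurableSet {w : ℂ | 11/10 < |w.re|} := measurableSet_lt measurable_const h1
  have h3 : MeasurableSet {w : ℂ | 0 ≤ tau w} := measurableSet_le measurable_const measurable_tau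
  have h4 : MeasurableSet {w : ℂ | tau w < t} := measurableSet_lt measurable_tau measurable_const
  exact Measurable.ite (h2.inter (h3.inter h4)) measurable_tauX measurable_const

lemma mt_mem {t : ℝ} (ht : 0 ≤ t) (w : ℂ) : 0 ≤ mt t w ∧ mt t w ≤ t := by
  unfold mt
  split_ifs
  · exact ⟨le_max_left _ _, max_le ht (min_le_left _ _)⟩
  · exact ⟨ht, le_rfl⟩

/-- near the inner part, `mt t = t`. -/
lemma mt_eq_t {t : ℝ} (ht : t ∈ Icc (0:ℝ) 1) {w : ℂ} (h : 11/10 < |w.re| → t ≤ tau w) :
    mt t w = t := by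
  unfold mt
  split_ifs with h1
  · rw [min_eq_left (h h1), max_eq_right ht.1]
  · rfl

end

end Pool.Agent.MFG
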