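import Pool.Agent.MP_03ede7_an.Fin

/-!
# Overview of the counterexample (MP_03ede7_an, negation S03700)

The plane of the independent variable `w` is a thin rectangle `S` (the channel); the physical domain
is its conformal image `Om = Z '' S`, where `Z' = k`, `k w = 1 + (w² - 1)²`, `g = |k|²`.
* In the saturated zone `ρ = 1` the velocity is the potential flow `∇χ`, `χ = ε Re ζ(z) - ε² ee(t)`
  with `ζ = Z⁻¹` (speed `ε g^{-1/2}`: fast at the two constrictions near `Re w = ± 1`, slow in the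
  centre and in the outer parts).
* A particle is released (leaves the saturated zone) at time `tau w = 6/g w - 3` when `|Re w| > 11/10`;
  it then moves freely along a straight line with its velocity at release; `ρ` is given by the
  Jacobian of this flow (file `Cov`), and `ρ < 1` there.
* The pressure `p` solves `∂ₜp = ½|∇p|² - Q_χ`, `p = 0` after release (files `QSol*`), it is `C¹`
  and nonnegative, and `φ = χ + p` solves the Hamilton-Jacobi equation of the system.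
* In the centre of the channel `Q_χ = ∂ₜχ + ½|∇χ|² < 0` although `ρ = 1` there, so that moving a
  little mass from the centre to the part of the exterior zone where `ρ < 1` and back decreases the
  energy (files `Comp*`, `En*`): the classical solution is not a minimiser of (V).
* `Trans`, `Fin`: transport to `EuclideanSpace ℝ (Fin 2)` and normalisation of the mass.
-/

set_option autoImplicit false
open Set Filter Topology Complex MeasureTheory
open scoped ComplexConjugate ContDiff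

namespace Pool.Agent.MFG

noncomputable section

/-- The cost functional of the frozen statement (with `d = 2`, `T = 1`). -/
def JE (Ω : Set E2) (Φ : E2 → ℝ) (ρ : ℝ → E2 → ℝ) (v : ℝ → E2 → E2) : ℝ :=
  (∫⁻ z in Set.Ioo (0:ℝ) 1 ×ˢ Ω, ENNReal.ofReal (‖v z.1 z.2‖ ^ 2 / 2 * ρ z.1 z.2)).toReal
        - ∫ x in Ω, Φ x * ρ 1 x

/-- The counterexample in the form used by the frozen statement. -/
theorem counterexample :
    ∃ (Ω : Set E2), IsOpen Ω ∧ Bornology.IsBounded Ω ∧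
    ∃ (Φ : E2 → ℝ), ContDiffOn ℝ 1 Φ (closure Ω) ∧
    ∃ (ρ₀ : E2 → ℝ), IntegrableOn ρ₀ Ω ∧ (∫ x in Ω, ρ₀ x) = 1 ∧
      (∀ᵐ x ∂(volume.restrict Ω), 0 ≤ ρ₀ x ∧ ρ₀ x ≤ 1) ∧
    ∃ (φ p : ℝ × E2 → ℝ) (ρ : ℝ → E2 → ℝ),
      ContDiffOn ℝ 1 φ (Set.Icc 0 1 ×ˢ closure Ω) ∧
      ContDiffOn ℝ 1 p (Set.Icc 0 1 ×ˢ closure Ω) ∧
      (∀ t ∈ Set.Ioo (0:ℝ) 1, ∀ x ∈ Ω,
        deriv (fun s => φ (s, x)) t + ‖gradient (fun y => φ (t, y)) x‖ ^ 2 / 2
          = inner ℝ (gradient (fun y => φ (t, y)) x) (gradient (fun y => p (t, y)) x)) ∧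
      (∀ x ∈ closure Ω, φ (1, x) = Φ x) ∧
      AdmE Ω ρ₀ ρ (fun t x => gradient (fun y => φ (t, y)) x - gradient (fun y => p (t, y)) x) ∧
      (∀ z ∈ Set.Icc (0:ℝ) 1 ×ˢ closure Ω, 0 ≤ p z) ∧
      (∀ᵐ z ∂(volume.restrict (Set.Ioo (0:ℝ) 1 ×ˢ Ω)), p z * (1 - ρ z.1 z.2) = 0) ∧
    ∃ (ρ' : ℝ → E2 → ℝ) (v' : ℝ → E2 → E2), AdmE Ω ρ₀ ρ' v' ∧
      JE Ω Φ ρ' v' <
        JE Ω Φ ρ (fun t x => gradient (fun y => φ (t, y)) x - gradient (fun y => p (t, y)) x) := by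
  obtain ⟨ε, W0, N, q, Nq, ζ, Nζ, h⟩ := exists_sys
  obtain ⟨κ, c, hκ, hlt⟩ := h.energy_lt
  set M := ∫ z in Om, rho ε W0 ζ 0 z with hM
  have hMpos : 0 < M := h.mass_pos
  set lam := 1 / Real.sqrt M with hlam
  have hl : 0 < lam := by positivity
  have hlM : lam^2 * M = 1 := by
    rw [hlam, div_pow, one_pow, Real.sq_sqrt hMpos.le]
    field_simp
  have hv : ∀ t ∈ Ioo (0:ℝ) 1, ∀ x ∈ OmE lam hl.ne',
      (fun t x => gradient (fun y => phiE lam hl.ne' ε W0 q ζ (t, y)) x -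
        gradient (fun y => pE lam hl.ne' ε q ζ (t, y)) x) t x =
        Bq lam hl.ne' (vel ε W0 ζ t (Aq lam hl.ne' x)) := fun t ht x hx =>
    (h.grads hl ⟨ht.1.le, ht.2.le⟩ hx).2
  have hv' : ∀ t ∈ Ioo (0:ℝ) 1, ∀ x ∈ OmE lam hl.ne',
      (fun t x => Bq lam hl.ne' (vel' ε W0 ζ κ t (Aq lam hl.ne' x))) t x =
        Bq lam hl.ne' (vel' ε W0 ζ κ t (Aq lam hl.ne' x)) := fun _ _ _ _ => rfl
  have A1 := trans_adm hl h.admC hlM (ρ₀ := fun x => rho ε W0 ζ 0 (Aq lam hl.ne' x))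
    (fun _ _ => rfl) hv
  have A2 := trans_adm hl (h.admC' hκ) hlM (ρ₀ := fun x => rho ε W0 ζ 0 (Aq lam hl.ne' x))
    (fun x hx => by
      obtain ⟨w, hw, hwe⟩ := (hx : Aq lam hl.ne' x ∈ Om)
      rw [← hwe, rho', h.HH_Om 0 hw, Hw, th_zero]
      simp) hv'
  have h0 := A1.2.2.1 0 ⟨le_rfl, zero_le_one⟩
  refine ⟨OmE lam hl.ne', isOpen_OmE hl.ne', isBounded_OmE hl.ne',
    fun x => phiE lam hl.ne' ε W0 q ζ (1, x), ?_,
    fun x => rho ε W0 ζ 0 (Aq lam hl.ne' x), h0.1, h0.2.1, h0.2.2,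
    phiE lam hl.ne' ε W0 q ζ, pE lam hl.ne' ε q ζ, fun t x => rho ε W0 ζ t (Aq lam hl.ne' x),
    ?_, ?_, ?_, fun _ _ => rfl, A1, ?_, ?_,
    fun t x => rho' ε W0 ζ κ t (Aq lam hl.ne' x),
    fun t x => Bq lam hl.ne' (vel' ε W0 ζ κ t (Aq lam hl.ne' x)), A2, ?_⟩
  · intro x hx
    have h1 := (h.phiE_C1 hl (y := (1, x)) ⟨⟨zero_le_one, le_rfl⟩, hx⟩).1
    have h2 : ContDiffAt ℝ 1 (fun x : E2 => ((1:ℝ), x)) x := contDiffAt_const.prodMk contDiffAt_id
    exact (ContDiffAt.comp (g := phiE lam hl.ne' ε W0 q ζ) (f := fun x : E2 => ((1:ℝ), x))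
      x h1 h2).contDiffWithinAt
  · exact fun y hy => (h.phiE_C1 hl hy).1.contDiffWithinAt
  · exact fun y hy => (h.phiE_C1 hl hy).2.contDiffWithinAt
  · exact fun t ht x hx => (h.grads hl ⟨ht.1.le, ht.2.le⟩ hx).1
  · rintro ⟨t, x⟩ ⟨ht, hx⟩
    obtain ⟨w, hw, hwe⟩ := Sys.mem_closure_E hl hx
    have := h.pp_nonneg ht hw
    rw [hwe] at this
    exact mul_nonneg (sq_nonneg _) this
  · refine Eventually.of_forall fun z => ?_
    rw [pE, mul_assoc, h.pp_rho, mul_zero]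
  · unfold JE
    have e1 := lint_E hl h.admC hv (c := 1/2) (by norm_num)
    have e2 := lint_E hl (h.admC' hκ) hv' (c := 1/2) (by norm_num)
    have q1 : ∫⁻ z in Set.Ioo (0:ℝ) 1 ×ˢ OmE lam hl.ne', ENNReal.ofReal
        (‖gradient (fun y => phiE lam hl.ne' ε W0 q ζ (z.1, y)) z.2 -
          gradient (fun y => pE lam hl.ne' ε q ζ (z.1, y)) z.2‖ ^ 2 / 2 *
          rho ε W0 ζ z.1 (Aq lam hl.ne' z.2)) =
        ENNReal.ofReal (1/2 * lam^4 * EnC (rho ε W0 ζ) (vel ε W0 ζ)) := by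
      rw [← e1]
      refine lintegral_congr fun z => ?_
      congr 1
      ring
    have q2 : ∫⁻ z in Set.Ioo (0:ℝ) 1 ×ˢ OmE lam hl.ne', ENNReal.ofReal
        (‖Bq lam hl.ne' (vel' ε W0 ζ κ z.1 (Aq lam hl.ne' z.2))‖ ^ 2 / 2 *
          rho' ε W0 ζ κ z.1 (Aq lam hl.ne' z.2)) =
        ENNReal.ofReal (1/2 * lam^4 * EnC (rho' ε W0 ζ κ) (vel' ε W0 ζ κ)) := by
      rw [← e2]
      refine lintegral_congr fun z => ?_
      congr 1
      ring
    rw [q1, q2]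
    have hn : 0 ≤ EnC (rho' ε W0 ζ κ) (vel' ε W0 ζ κ) := by
      unfold EnC
      refine setIntegral_nonneg measurableSet_D fun x hx => ?_
      exact mul_nonneg (sq_nonneg _) ((h.admC' hκ).bd x.1 ⟨hx.1.1.le, hx.1.2.le⟩ x.2 hx.2).1
    rw [ENNReal.toReal_ofReal (by positivity), ENNReal.toReal_ofReal
      (mul_nonneg (by positivity) (hn.trans hlt.le))]
    have e3 : ∫ x in OmE lam hl.ne', phiE lam hl.ne' ε W0 q ζ (1, x) *
        rho' ε W0 ζ κ 1 (Aq lam hl.ne' x) =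
        ∫ x in OmE lam hl.ne', phiE lam hl.ne' ε W0 q ζ (1, x) *
        rho ε W0 ζ 1 (Aq lam hl.ne' x) := by
      refine setIntegral_congr_fun (isOpen_OmE hl.ne').measurableSet fun x hx => ?_
      obtain ⟨w, hw, hwe⟩ := (hx : Aq lam hl.ne' x ∈ Om)
      rw [← hwe, rho', h.HH_Om 1 hw, Hw, th_one]
      simp
    rw [e3]
    have : 0 < 1/2 * lam^4 := by positivity
    have := mul_lt_mul_of_pos_left hlt this
    linarith

end

end Pool.Agent.MFG
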