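import Pool.Agent.MP_03ede7_an.PathOp
import Pool.Agent.MP_03ede7_an.InvLemma

set_option autoImplicit false
open Set Filter Topology Complex MeasureTheory
open scoped ComplexConjugate ContDiff

namespace Pool.Agent.MFG

noncomputable section

def kC (Y : PC) : PC := 1 + (Y ^ 2 - 1) ^ 2
def k1C (Y : PC) : PC := 4 * Y * (Y ^ 2 - 1)
def bC (Y : PC) : PC := 2 * kC Y * star (k1C Y)
def gC (Y : PC) : PC := kC Y * star (kC Y)

lemma kC_apply (Y : PC) (u : Set.Icc (0:ℝ) 1) : kC Y u = k (Y u) := by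
  simp [kC, k]

lemma k1C_apply (Y : PC) (u : Set.Icc (0:ℝ) 1) : k1C Y u = k1 (Y u) := by
  have h4 : (4 : PC) u = 4 := rfl
  simp [k1C, k1, h4]

lemma bC_apply (Y : PC) (u : Set.Icc (0:ℝ) 1) : bC Y u = gradg (Y u) := by
  have h2 : (2 : PC) u = 2 := rfl
  simp [bC, gradg, kC_apply, k1C_apply, h2]

lemma gC_apply (Y : PC) (u : Set.Icc (0:ℝ) 1) : gC Y u = (g (Y u) : ℂ) := by
  simp only [gC, ContinuousMap.mul_apply, ContinuousMap.star_apply, kC_apply, g]
  rw [Complex.star_def, Complex.mul_conj]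

lemma contDiff_kC {n : WithTop ℕ∞} : ContDiff ℝ n kC := by unfold kC; fun_prop
lemma contDiff_k1C {n : WithTop ℕ∞} : ContDiff ℝ n k1C := by unfold k1C; fun_prop

lemma contDiff_bC {n : WithTop ℕ∞} : ContDiff ℝ n bC := by
  unfold bC
  exact (contDiff_const.mul contDiff_kC).mul ((starL' ℝ : PC ≃L[ℝ] PC).contDiff.comp contDiff_k1C)

lemma contDiff_gC {n : WithTop ℕ∞} : ContDiff ℝ n gC := by
  unfold gC
  exact contDiff_kC.mul ((starL' ℝ : PC ≃L[ℝ] PC).contDiff.comp contDiff_kC)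

/-- constant paths. -/
def constP : ℂ →L[ℝ] PC :=
  LinearMap.mkContinuous
    { toFun := fun w => ContinuousMap.const _ w
      map_add' := fun _ _ => rfl
      map_smul' := fun _ _ => rfl } 1 (by
    intro w
    rw [ContinuousMap.norm_le _ (by positivity)]
    intro u
    change ‖w‖ ≤ _
    simp)

@[simp] lemma constP_apply (w : ℂ) (u : Set.Icc (0:ℝ) 1) : constP w u = w := rfl

/-- The fixed point map. -/
def Phi (p : ℝ × PC) : ℝ × PC := (p.1, p.2 - p.1 • KL (bC p.2))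

lemma contDiff_Phi {n : WithTop ℕ∞} : ContDiff ℝ n Phi := by
  unfold Phi
  exact contDiff_fst.prodMk (contDiff_snd.sub (contDiff_fst.smul
    (KL.contDiff.comp (contDiff_bC.comp contDiff_snd))))

lemma Phi_zero (Y : PC) : Phi (0, Y) = (0, Y) := by
  have : (0:ℝ) • KL (bC Y) = 0 := by ext u; simp [ContinuousMap.smul_apply]
  simp only [Phi, this, sub_zero]

/-- shear -/
def shear (B : PC) : (ℝ × PC) ≃L[ℝ] (ℝ × PC) :=
  ContinuousLinearEquiv.equivOfInverse
    ((ContinuousLinearMap.fst ℝ ℝ PC).prod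
      (ContinuousLinearMap.snd ℝ ℝ PC - (ContinuousLinearMap.fst ℝ ℝ PC).smulRight B))
    ((ContinuousLinearMap.fst ℝ ℝ PC).prod
      (ContinuousLinearMap.snd ℝ ℝ PC + (ContinuousLinearMap.fst ℝ ℝ PC).smulRight B))
    (fun x => by simp) (fun x => by simp)

lemma hasFDerivAt_Phi (Y : PC) :
    HasFDerivAt Phi ((shear (KL (bC Y)) : (ℝ × PC) ≃L[ℝ] (ℝ × PC)) : (ℝ × PC) →L[ℝ] (ℝ × PC))
      (0, Y) := by
  have h1 : HasFDerivAt (fun p : ℝ × PC => KL (bC p.2))
      (fderiv ℝ (fun p : ℝ × PC => KL (bC p.2)) (0, Y)) (0, Y) := by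
    apply DifferentiableAt.hasFDerivAt
    have : ContDiff ℝ 1 (fun p : ℝ × PC => KL (bC p.2)) :=
      KL.contDiff.comp (contDiff_bC.comp contDiff_snd)
    exact this.contDiffAt.differentiableAt (by simp)
  have h2 : HasFDerivAt (fun p : ℝ × PC => p.1) (ContinuousLinearMap.fst ℝ ℝ PC) (0, Y) :=
    hasFDerivAt_fst
  have h3 : HasFDerivAt (fun p : ℝ × PC => p.2) (ContinuousLinearMap.snd ℝ ℝ PC) (0, Y) :=
    hasFDerivAt_snd
  have h := h2.prodMk (h3.sub (h2.smul h1))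
  refine h.congr_fderiv ?_
  ext x <;> simp [shear]

theorem exists_path {K : Set ℂ} (hK : IsCompact K) :
    ∃ ν₀ : ℝ, 0 < ν₀ ∧ ∃ U : Set ℂ, IsOpen U ∧ K ⊆ U ∧ ∃ P : ℝ × ℂ → PC,
      ContDiffOn ℝ ∞ P (Ioo (-ν₀) ν₀ ×ˢ U) ∧
      (∀ w ∈ U, P (0, w) = constP w) ∧
      (∀ ν ∈ Ioo (-ν₀) ν₀, ∀ w ∈ U,
        P (ν, w) = constP w + ν • KL (bC (P (ν, w)))) ∧
      (∀ ν ∈ Ioo (-ν₀) ν₀, ∀ w ∈ U, ∀ s : Set.Icc (0:ℝ) 1,
        P (ν * (s:ℝ) ^ 2, w) = scalePath (P (ν, w)) s) := by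
  set Kc : Set (ℝ × PC) := (fun w : ℂ => ((0:ℝ), constP w)) '' K with hKc
  have hKcc : IsCompact Kc := hK.image (by fun_prop)
  obtain ⟨V, hVo, hKV, -, hVinj, hVimg, -, finv, hfinv, hfinvC⟩ :=
    exists_inverse_near_compact (n := ∞) (by simp) isOpen_univ
      (contDiff_Phi.contDiffOn) hKcc (subset_univ _) (by
        rintro _ ⟨w, -, rfl⟩
        exact ⟨_, hasFDerivAt_Phi _⟩) (by
        rintro _ ⟨w, -, rfl⟩ _ ⟨w', -, rfl⟩ h
        simpa [Phi_zero] using h)
  obtain ⟨r, hr, hrV⟩ := hKcc.exists_thickening_subset_open hVo hKV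
  -- the good open set
  set Pf : ℝ × ℂ → ℝ × PC := fun p => (p.1, constP p.2) with hPf
  have hPfC : ContDiff ℝ ∞ Pf := contDiff_fst.prodMk (constP.contDiff.comp contDiff_snd)
  set D : Set (ℝ × ℂ) := Pf ⁻¹' (Phi '' V) with hD
  have hDo : IsOpen D := hVimg.preimage hPfC.continuous
  have hFD : ContDiffOn ℝ ∞ (fun p => finv (Pf p)) D :=
    hfinvC.comp hPfC.contDiffOn (fun x hx => hx)
  set W : Set (ℝ × ℂ) := {p ∈ D | finv (Pf p) ∈
      {q : ℝ × PC | True}} ∩ {p ∈ D | ‖(finv (Pf p)).2 - constP p.2‖ < r / 2} ∩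
      {p | |p.1| < r / 2 } ∩ {p | p.2 ∈ Metric.thickening (r/2) K} with hW
  have hWo : IsOpen W := by
    refine ((IsOpen.inter ?_ ?_).inter ?_).inter ?_
    · simpa using hDo
    · have hc : ContinuousOn (fun p : ℝ × ℂ => ‖(finv (Pf p)).2 - constP p.2‖) D := by
        refine ContinuousOn.norm (ContinuousOn.sub ?_ ?_)
        · exact continuous_snd.comp_continuousOn hFD.continuousOn
        · exact (constP.continuous.comp continuous_snd).continuousOn
      exact hc.isOpen_inter_preimage hDo isOpen_Iio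
    · exact isOpen_lt (by fun_prop) continuous_const
    · exact Metric.isOpen_thickening.preimage continuous_snd
  have hKW : ({0} : Set ℝ) ×ˢ K ⊆ W := by
    rintro ⟨ν, w⟩ ⟨hν, hw⟩
    simp only [mem_singleton_iff] at hν
    subst hν
    have hmem : ((0:ℝ), constP w) ∈ V := hKV ⟨w, hw, rfl⟩
    have hD' : ((0:ℝ), w) ∈ D := ⟨_, hmem, Phi_zero _⟩
    have hval : finv (Pf ((0:ℝ), w)) = ((0:ℝ), constP w) := by
      have := hfinv _ hmem
      rwa [Phi_zero] at this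
    refine ⟨⟨⟨⟨hD', trivial⟩, hD', ?_⟩, ?_⟩, ?_⟩
    · rw [hval]; simpa using hr
    · simpa using hr
    · exact Metric.self_subset_thickening (by positivity) K hw
  obtain ⟨u, U, huo, hUo, h0u, hKU, huU⟩ :=
    generalized_tube_lemma (isCompact_singleton) hK hWo hKW
  obtain ⟨ν₀, hν₀, hν₀u⟩ := Metric.isOpen_iff.1 huo 0 (h0u rfl)
  rw [Real.ball_eq_Ioo, zero_sub, zero_add] at hν₀u
  have hsub : Ioo (-ν₀) ν₀ ×ˢ U ⊆ W := (prod_mono hν₀u subset_rfl).trans huU
  -- the structure of points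
  have hstruct : ∀ ν ∈ Ioo (-ν₀) ν₀, ∀ w ∈ U, ∃ Y : PC, (ν, Y) ∈ V ∧
      Y - ν • KL (bC Y) = constP w ∧ finv (Pf (ν, w)) = (ν, Y) ∧ ‖Y - constP w‖ < r / 2 ∧
      |ν| < r / 2 ∧ w ∈ Metric.thickening (r/2) K := by
    intro ν hν w hw
    have hm : (ν, w) ∈ W := hsub ⟨hν, hw⟩
    obtain ⟨⟨⟨⟨hd, -⟩, -, hlt⟩, h3⟩, h4⟩ := hm
    obtain ⟨⟨ν', Y⟩, hxV, hx⟩ := hd
    have h1 : ν' = ν := congrArg Prod.fst hx
    subst h1
    have h2 : Y - ν' • KL (bC Y) = constP w := congrArg Prod.snd hx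
    have h5 : finv (Pf (ν', w)) = (ν', Y) := by
      rw [← hx]; exact hfinv _ hxV
    refine ⟨Y, hxV, h2, h5, ?_, h3, h4⟩
    simp only at hlt
    rw [h5] at hlt
    exact hlt
  refine ⟨ν₀, hν₀, U, hUo, hKU, fun p => (finv (Pf p)).2, ?_, ?_, ?_, ?_⟩
  · exact contDiff_snd.comp_contDiffOn (hFD.mono fun p hp => (hsub hp).1.1.2.1)
  · intro w hw
    obtain ⟨Y, hYV, h1, h2, -⟩ := hstruct 0 ⟨by linarith, hν₀⟩ w hw
    simp only [h2]
    have h0 : (0:ℝ) • KL (bC Y) = 0 := by ext u; simp [ContinuousMap.smul_apply]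
    rwa [h0, sub_zero] at h1
  · intro ν hν w hw
    obtain ⟨Y, hYV, h1, h2, -⟩ := hstruct ν hν w hw
    simp only [h2]
    rw [← h1]; abel
  · intro ν hν w hw s
    obtain ⟨Y, hYV, h1, h2, h3, h4, h5⟩ := hstruct ν hν w hw
    have hs2 : (s:ℝ) ^ 2 ≤ 1 := pow_le_one₀ s.2.1 s.2.2
    have hs0 : 0 ≤ (s:ℝ) ^ 2 := by positivity
    have hν' : |ν * (s:ℝ) ^ 2| ≤ |ν| := by
      rw [abs_mul, abs_of_nonneg hs0]
      exact mul_le_of_le_one_right (abs_nonneg _) hs2
    have hVs : (ν * (s:ℝ) ^ 2, scalePath Y s) ∈ V := by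
      apply hrV
      obtain ⟨w', hw', hd⟩ := Metric.mem_thickening_iff.1 h5
      refine Metric.mem_thickening_iff.2 ⟨((0:ℝ), constP w'), ⟨w', hw', rfl⟩, ?_⟩
      rw [Prod.dist_eq]
      apply max_lt
      · simp only [dist_zero_right, Real.norm_eq_abs]
        linarith
      · simp only
        have hn : ‖scalePath Y s - constP w‖ ≤ ‖Y - constP w‖ := by
          rw [ContinuousMap.norm_le _ (norm_nonneg _)]
          intro u
          have := (Y - constP w).norm_coe_le_norm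
            ⟨s * u, mul_nonneg s.2.1 u.2.1, mul_le_one₀ s.2.2 u.2.1 u.2.2⟩
          simpa [scalePath_apply] using this
        have hn2 : ‖constP w - constP w'‖ ≤ dist w w' := by
          rw [ContinuousMap.norm_le _ dist_nonneg]
          intro u
          simp [dist_eq_norm]
        rw [dist_eq_norm]
        calc ‖scalePath Y s - constP w'‖ = ‖(scalePath Y s - constP w) + (constP w - constP w')‖ := by
              congr 1; abel
          _ ≤ _ := norm_add_le _ _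
          _ < r := by linarith
    have hPs : Phi (ν * (s:ℝ) ^ 2, scalePath Y s) = Pf (ν * (s:ℝ) ^ 2, w) := by
      simp only [Phi, hPf, Prod.mk.injEq, true_and]
      ext u
      have hb : bC (scalePath Y s) = scalePath (bC Y) s := by
        ext u
        simp only [bC_apply, scalePath_apply]
      have e1 : (Y - ν • KL (bC Y)) ⟨s * u, mul_nonneg s.2.1 u.2.1, mul_le_one₀ s.2.2 u.2.1 u.2.2⟩
          = w := by
        rw [h1]; rfl
      simp only [ContinuousMap.sub_apply, ContinuousMap.smul_apply, KL_apply, real_smul] at e1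
      rw [Kfun_scale _ _ u.2] at e1
      simp only [ContinuousMap.sub_apply, ContinuousMap.smul_apply, KL_apply, hb,
        scalePath_apply, constP_apply, real_smul]
      rw [← e1]
      push_cast
      ring
    have h6 : finv (Pf (ν * (s:ℝ) ^ 2, w)) = (ν * (s:ℝ) ^ 2, scalePath Y s) := by
      rw [← hPs]; exact hfinv _ hVs
    simp only [h2, h6]

end

end Pool.Agent.MFG
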