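import Pool.Agent.MP_03ede7_an.Orbit

set_option autoImplicit false
open Set Filter Topology Complex MeasureTheory
open scoped ComplexConjugate ContDiff

namespace Pool.Agent.MFG

noncomputable section

lemma ext_bC (Y : PC) (u : ℝ) : ext (bC Y) u = gradg (ext Y u) := by
  simp only [ext, IccExtend_apply, bC_apply]

lemma ext_gC (Y : PC) (u : ℝ) : ext (gC Y) u = (g (ext Y u) : ℂ) := by
  simp only [ext, IccExtend_apply, gC_apply]

lemma IL_gC (Y : PC) : (IL (gC Y)).re = ∫ r in (0:ℝ)..1, g (ext Y r) := by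
  rw [IL_apply]
  simp only [ext_gC]
  rw [intervalIntegral.integral_ofReal]
  simp

lemma slice_contDiffAt {F : Type*} [NormedAddCommGroup F] [NormedSpace ℝ F] {ν₀ : ℝ} {U : Set ℂ}
    (hU : IsOpen U) {y : ℝ × ℂ → F} (hy : ContDiffOn ℝ ∞ y (Ioo (-ν₀) ν₀ ×ˢ U))
    {w : ℂ} (hw : w ∈ U) {ν : ℝ} (hν : ν ∈ Ioo (-ν₀) ν₀) :
    ContDiffAt ℝ ∞ (fun ν => y (ν, w)) ν := by
  have h1 : ContDiffAt ℝ ∞ y (ν, w) := hy.contDiffAt ((isOpen_Ioo.prod hU).mem_nhds ⟨hν, hw⟩)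
  exact h1.comp ν (contDiff_id.prodMk contDiff_const).contDiffAt

theorem exists_orbit {K : Set ℂ} (hK : IsCompact K) :
    ∃ ν₀ : ℝ, 0 < ν₀ ∧ ∃ U : Set ℂ, IsOpen U ∧ K ⊆ U ∧ ∃ (y : ℝ × ℂ → ℂ) (G : ℝ × ℂ → ℝ),
      ContDiffOn ℝ ∞ y (Ioo (-ν₀) ν₀ ×ˢ U) ∧ ContDiffOn ℝ ∞ G (Ioo (-ν₀) ν₀ ×ˢ U) ∧
      (∀ w ∈ U, y (0, w) = w) ∧ (∀ w ∈ U, G (0, w) = g w) ∧
      (∀ w ∈ U, ∀ ν ∈ Ioo (-ν₀) ν₀,
        (4 * ν : ℝ) • deriv (deriv (fun ν => y (ν, w))) ν + (2 : ℝ) • deriv (fun ν => y (ν, w)) ν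
          = gradg (y (ν, w))) ∧
      (∀ w ∈ U, ∀ ν ∈ Ioo (-ν₀) ν₀,
        G (ν, w) + 2 * ν * deriv (fun ν => G (ν, w)) ν = g (y (ν, w))) := by
  obtain ⟨ν₁, hν₁, U, hU, hKU, P, hPC, hP0, hPeq, hPs⟩ := exists_path hK
  have one_mem : (1:ℝ) ∈ Icc (0:ℝ) 1 := ⟨zero_le_one, le_rfl⟩
  set y : ℝ × ℂ → ℂ := fun p => P p ⟨1, one_mem⟩ with hy
  set G : ℝ × ℂ → ℝ := fun p => (IL (gC (P p))).re with hG
  have hyC : ContDiffOn ℝ ∞ y (Ioo (-ν₁) ν₁ ×ˢ U) := by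
    have h1 : ContDiff ℝ ∞ (fun X : PC => X ⟨1, one_mem⟩) :=
      (ContinuousMap.evalCLM ℝ (M := ℂ) (⟨1, one_mem⟩ : Set.Icc (0:ℝ) 1)).contDiff
    exact h1.comp_contDiffOn hPC
  have hGC : ContDiffOn ℝ ∞ G (Ioo (-ν₁) ν₁ ×ˢ U) :=
    reCLM.contDiff.comp_contDiffOn (IL.contDiff.comp_contDiffOn (contDiff_gC.comp_contDiffOn hPC))
  -- scaling of the path
  have hscale : ∀ ν ∈ Ioo (-ν₁) ν₁, ∀ w ∈ U, ∀ s ∈ Icc (0:ℝ) 1,
      y (ν * s ^ 2, w) = ext (P (ν, w)) s := by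
    intro ν hν w hw s hs
    have := hPs ν hν w hw ⟨s, hs⟩
    simp only [hy]
    simp only at this
    rw [this, scalePath_apply, ext_apply _ hs]
    congr 1
    ext
    simp
  have hGscale : ∀ ν ∈ Ioo (-ν₁) ν₁, ∀ w ∈ U, ∀ s ∈ Icc (0:ℝ) 1,
      s * G (ν * s ^ 2, w) = ∫ r in (0:ℝ)..s, g (ext (P (ν, w)) r) := by
    intro ν hν w hw s hs
    have h1 := hPs ν hν w hw ⟨s, hs⟩
    simp only at h1
    simp only [hG]
    rw [IL_gC, h1]
    have h2 := intervalIntegral.smul_integral_comp_mul_left (a := 0) (b := 1)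
      (fun r => g (ext (P (ν, w)) r)) s
    rw [mul_zero, mul_one, smul_eq_mul] at h2
    rw [← h2]
    congr 1
    refine intervalIntegral.integral_congr fun r hr => ?_
    rw [uIcc_of_le zero_le_one] at hr
    rw [ext_scalePath _ ⟨s, hs⟩ hr]
  have hsub : Ioo (-(ν₁ / 4)) (ν₁ / 4) ⊆ Ioo (-ν₁) ν₁ := Ioo_subset_Ioo (by linarith) (by linarith)
  -- ODE for nonzero ν
  have hode : ∀ w ∈ U, ∀ ν ∈ Ioo (-(ν₁ / 4)) (ν₁ / 4), ν ≠ 0 →
        (4 * ν : ℝ) • deriv (deriv (fun ν => y (ν, w))) ν + (2 : ℝ) • deriv (fun ν => y (ν, w)) ν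
          = gradg (y (ν, w)) := by
    intro w hw ν hν hν0
    set c : ℝ → ℂ := fun ν => y (ν, w) with hc
    have hcOn : ContDiffOn ℝ ∞ c (Ioo (-ν₁) ν₁) := fun x hx =>
      (slice_contDiffAt hU hyC hw hx).contDiffWithinAt
    have hc1On : ContDiffOn ℝ ∞ (deriv c) (Ioo (-ν₁) ν₁) := hcOn.deriv_of_isOpen isOpen_Ioo (by simp)
    have hcd : ∀ x ∈ Ioo (-ν₁) ν₁, HasDerivAt c (deriv c x) x := fun x hx =>
      ((hcOn.contDiffAt (isOpen_Ioo.mem_nhds hx)).differentiableAt (by simp)).hasDerivAt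
    have hc1d : ∀ x ∈ Ioo (-ν₁) ν₁, HasDerivAt (deriv c) (deriv (deriv c) x) x := fun x hx =>
      ((hc1On.contDiffAt (isOpen_Ioo.mem_nhds hx)).differentiableAt (by simp)).hasDerivAt
    set ν' : ℝ := 4 * ν with hν'
    have hν'm : ν' ∈ Ioo (-ν₁) ν₁ := ⟨by rw [hν']; linarith [hν.1], by rw [hν']; linarith [hν.2]⟩
    have hν'0 : ν' ≠ 0 := by rw [hν']; simpa using hν0
    set Y : PC := P (ν', w) with hY
    -- the smooth extension of the path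
    set Yr : ℝ → ℂ := fun u => w + (ν' : ℂ) * Kfun (bC Y) u with hYr
    have hYr1 : ∀ u, HasDerivAt Yr ((ν' : ℂ) * ∫ r in (0:ℝ)..u, ext (bC Y) r) u := fun u =>
      ((hasDerivAt_Kfun (bC Y) u).const_mul (ν' : ℂ)).const_add w
    have hYr2 : ∀ u, HasDerivAt (fun u : ℝ => (ν' : ℂ) * ∫ r in (0:ℝ)..u, ext (bC Y) r)
        ((ν' : ℂ) * ext (bC Y) u) u := fun u =>
      (hasDerivAt_prim (bC Y) u).const_mul (ν' : ℂ)
    have hYrY : ∀ u ∈ Icc (0:ℝ) 1, Yr u = ext Y u := by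
      intro u hu
      have h1 := hPeq ν' hν'm w hw
      rw [ext_apply _ hu]
      conv_rhs => rw [hY, h1]
      simp [hYr, hY, KL_apply]
    have hcY : ∀ u ∈ Ioo (0:ℝ) 1, c (ν' * u ^ 2) = Yr u := by
      intro u hu
      rw [hYrY u ⟨hu.1.le, hu.2.le⟩]
      exact hscale ν' hν'm w hw u ⟨hu.1.le, hu.2.le⟩
    have hmem : ∀ u ∈ Ioo (0:ℝ) 1, ν' * u ^ 2 ∈ Ioo (-ν₁) ν₁ := by
      intro u hu
      have hu2 : u ^ 2 ≤ 1 := pow_le_one₀ hu.1.le hu.2.le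
      have hu0 : 0 ≤ u ^ 2 := by positivity
      have : |ν' * u ^ 2| < ν₁ := by
        rw [abs_mul, abs_of_nonneg hu0]
        exact (mul_le_of_le_one_right (abs_nonneg _) hu2).trans_lt (abs_lt.2 hν'm)
      exact abs_lt.1 this
    have e1 : ∀ u : ℝ, HasDerivAt (fun u : ℝ => ν' * u ^ 2) (2 * ν' * u) u := by
      intro u
      have := (hasDerivAt_pow 2 u).const_mul ν'
      refine this.congr_deriv ?_
      push_cast
      ring
    have hd1 : ∀ u ∈ Ioo (0:ℝ) 1,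
        (2 * ν' * u : ℝ) • deriv c (ν' * u ^ 2) = (ν' : ℂ) * ∫ r in (0:ℝ)..u, ext (bC Y) r := by
      intro u hu
      have e2 : HasDerivAt c (deriv c (ν' * u ^ 2)) (ν' * u ^ 2) := hcd _ (hmem u hu)
      have e3 : HasDerivAt (fun u : ℝ => c (ν' * u ^ 2)) ((2 * ν' * u) • deriv c (ν' * u ^ 2)) u :=
        HasDerivAt.scomp (g₁ := c) (h := fun u : ℝ => ν' * u ^ 2) u e2 (e1 u)
      have e4 : HasDerivAt (fun u : ℝ => c (ν' * u ^ 2))
          ((ν' : ℂ) * ∫ r in (0:ℝ)..u, ext (bC Y) r) u := by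
        refine (hYr1 u).congr_of_eventuallyEq ?_
        filter_upwards [isOpen_Ioo.mem_nhds hu] with v hv
        exact hcY v hv
      exact e3.unique e4
    have hhalf : (1/2 : ℝ) ∈ Ioo (0:ℝ) 1 := by constructor <;> norm_num
    have hνhalf : ν' * (1/2:ℝ) ^ 2 = ν := by rw [hν']; ring
    have f2 := hc1d _ (hmem _ hhalf)
    have f3 : HasDerivAt (fun u : ℝ => deriv c (ν' * u ^ 2))
        ((2 * ν' * (1/2)) • deriv (deriv c) (ν' * (1/2:ℝ) ^ 2)) (1/2) :=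
      HasDerivAt.scomp (g₁ := deriv c) (h := fun u : ℝ => ν' * u ^ 2) (1/2) f2 (e1 _)
    have f4 : HasDerivAt (fun u : ℝ => 2 * ν' * u) (2 * ν') (1/2) := by
      simpa using (hasDerivAt_id (1/2:ℝ)).const_mul (2 * ν')
    have f5 := f4.smul f3
    have f6 : HasDerivAt (fun u : ℝ => (2 * ν' * u : ℝ) • deriv c (ν' * u ^ 2))
        ((ν' : ℂ) * ext (bC Y) (1/2)) (1/2) := by
      refine (hYr2 (1/2)).congr_of_eventuallyEq ?_
      filter_upwards [isOpen_Ioo.mem_nhds hhalf] with v hv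
      exact hd1 v hv
    have f7 := f5.unique f6
    rw [hνhalf, ext_bC, ← hYrY (1/2) ⟨hhalf.1.le, hhalf.2.le⟩, ← hcY _ hhalf, hνhalf] at f7
    have hν'c : (ν' : ℂ) ≠ 0 := by exact_mod_cast hν'0
    apply mul_left_cancel₀ hν'c
    rw [← f7]
    simp only [real_smul, hν']
    push_cast
    ring
  have hode' : ∀ w ∈ U, ∀ ν ∈ Ioo (-(ν₁ / 4)) (ν₁ / 4),
        (4 * ν : ℝ) • deriv (deriv (fun ν => y (ν, w))) ν + (2 : ℝ) • deriv (fun ν => y (ν, w)) ν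
          = gradg (y (ν, w)) := by
    intro w hw ν hν
    by_cases hν0 : ν = 0
    swap
    · exact hode w hw ν hν hν0
    set c : ℝ → ℂ := fun ν => y (ν, w) with hc
    have hcOn : ContDiffOn ℝ ∞ c (Ioo (-ν₁) ν₁) := fun x hx =>
      (slice_contDiffAt hU hyC hw hx).contDiffWithinAt
    have hc1On : ContDiffOn ℝ ∞ (deriv c) (Ioo (-ν₁) ν₁) := hcOn.deriv_of_isOpen isOpen_Ioo (by simp)
    have hc2On : ContDiffOn ℝ ∞ (deriv (deriv c)) (Ioo (-ν₁) ν₁) :=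
      hc1On.deriv_of_isOpen isOpen_Ioo (by simp)
    have hnear : Ioo (-ν₁) ν₁ ∈ 𝓝 (0:ℝ) := isOpen_Ioo.mem_nhds ⟨by linarith, hν₁⟩
    have hnear4 : Ioo (-(ν₁/4)) (ν₁/4) ∈ 𝓝 (0:ℝ) :=
      isOpen_Ioo.mem_nhds ⟨by linarith, by linarith⟩
    have hcont : ContinuousAt (fun ν : ℝ => (4 * ν : ℝ) • deriv (deriv c) ν + (2 : ℝ) • deriv c ν
        - gradg (c ν)) 0 := by
      refine ContinuousAt.sub (ContinuousAt.add ?_ ?_) ?_
      · have h4 : ContinuousAt (fun ν : ℝ => 4 * ν) 0 := by fun_prop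
        exact h4.smul (hc2On.continuousOn.continuousAt hnear)
      · exact (hc1On.continuousOn.continuousAt hnear).const_smul (2:ℝ)
      · exact ContinuousAt.comp (g := gradg) (contDiff_gradg (n := 0)).continuous.continuousAt
          (hcOn.continuousOn.continuousAt hnear)
    have hz : Tendsto (fun ν : ℝ => (4 * ν : ℝ) • deriv (deriv c) ν + (2 : ℝ) • deriv c ν
        - gradg (c ν)) (𝓝[≠] 0) (𝓝 0) := by
      refine tendsto_const_nhds.congr' ?_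
      filter_upwards [self_mem_nhdsWithin, mem_nhdsWithin_of_mem_nhds hnear4] with x hx hx4
      rw [hode w hw x hx4 hx, sub_self]
    have huniq := tendsto_nhds_unique (hcont.tendsto.mono_left nhdsWithin_le_nhds) hz
    subst hν0
    exact sub_eq_zero.1 huniq
  have hGode : ∀ w ∈ U, ∀ ν ∈ Ioo (-(ν₁ / 4)) (ν₁ / 4),
        G (ν, w) + 2 * ν * deriv (fun ν => G (ν, w)) ν = g (y (ν, w)) := by
    intro w hw ν hν
    set c : ℝ → ℝ := fun ν => G (ν, w) with hc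
    have hcOn : ContDiffOn ℝ ∞ c (Ioo (-ν₁) ν₁) := fun x hx =>
      (slice_contDiffAt hU hGC hw hx).contDiffWithinAt
    have hcd : ∀ x ∈ Ioo (-ν₁) ν₁, HasDerivAt c (deriv c x) x := fun x hx =>
      ((hcOn.contDiffAt (isOpen_Ioo.mem_nhds hx)).differentiableAt (by simp)).hasDerivAt
    set ν' : ℝ := 4 * ν with hν'
    have hν'm : ν' ∈ Ioo (-ν₁) ν₁ := ⟨by rw [hν']; linarith [hν.1], by rw [hν']; linarith [hν.2]⟩
    set Y : PC := P (ν', w) with hY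
    have hhalf : (1/2 : ℝ) ∈ Ioo (0:ℝ) 1 := by constructor <;> norm_num
    have hνhalf : ν' * (1/2:ℝ) ^ 2 = ν := by rw [hν']; ring
    have e1 : HasDerivAt (fun u : ℝ => ν' * u ^ 2) ν' (1/2) := by
      have := (hasDerivAt_pow 2 (1/2:ℝ)).const_mul ν'
      refine this.congr_deriv ?_
      norm_num
    have e2 : HasDerivAt (fun u : ℝ => c (ν' * u ^ 2)) (deriv c ν * ν') (1/2) := by
      have : HasDerivAt c (deriv c ν) (ν' * (1/2:ℝ) ^ 2) := by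
        rw [hνhalf]; exact hcd ν (hsub hν)
      exact HasDerivAt.comp (h₂ := c) (h := fun u : ℝ => ν' * u ^ 2) (1/2) this e1
    have e3 := (hasDerivAt_id (1/2:ℝ)).mul e2
    have hcg : Continuous (fun r => g (ext Y r)) :=
      (contDiff_g (n := 0)).continuous.comp (continuous_ext Y)
    have e4 : HasDerivAt (fun s => ∫ r in (0:ℝ)..s, g (ext Y r)) (g (ext Y (1/2))) (1/2) :=
      intervalIntegral.integral_hasDerivAt_right (hcg.intervalIntegrable _ _)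
        hcg.aestronglyMeasurable.stronglyMeasurableAtFilter hcg.continuousAt
    have e5 : HasDerivAt (fun u : ℝ => id u * c (ν' * u ^ 2)) (g (ext Y (1/2))) (1/2) := by
      refine e4.congr_of_eventuallyEq ?_
      filter_upwards [isOpen_Ioo.mem_nhds hhalf] with v hv
      exact hGscale ν' hν'm w hw v ⟨hv.1.le, hv.2.le⟩
    have e6 := e3.unique e5
    rw [← hscale ν' hν'm w hw (1/2) ⟨hhalf.1.le, hhalf.2.le⟩, hνhalf] at e6
    simp only [id] at e6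
    rw [← e6, hν']
    ring
  have hsubU : Ioo (-(ν₁ / 4)) (ν₁ / 4) ×ˢ U ⊆ Ioo (-ν₁) ν₁ ×ˢ U := prod_mono hsub subset_rfl
  refine ⟨ν₁ / 4, by positivity, U, hU, hKU, y, G, hyC.mono hsubU, hGC.mono hsubU, ?_, ?_,
    hode', hGode⟩
  · intro w hw
    simp only [hy, hP0 w hw, constP_apply]
  · intro w hw
    simp only [hG, IL_gC, hP0 w hw]
    have : ∀ r : ℝ, ext (constP w) r = w := fun r => by simp [ext, IccExtend_apply]
    simp [this]

end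

end Pool.Agent.MFG
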