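import Pool.Agent.MP_03ede7_an.Orbit2

set_option autoImplicit false
open Set Filter Topology Complex MeasureTheory
open scoped ComplexConjugate ContDiff

namespace Pool.Agent.MFG

noncomputable section

/-- The rest-orbit data. -/
structure Orb (ν₀ : ℝ) (U : Set ℂ) (y : ℝ × ℂ → ℂ) (G : ℝ × ℂ → ℝ) : Prop where
  pos : 0 < ν₀
  hU : IsOpen U
  yC : ContDiffOn ℝ ∞ y (Ioo (-ν₀) ν₀ ×ˢ U)
  GC : ContDiffOn ℝ ∞ G (Ioo (-ν₀) ν₀ ×ˢ U)
  y0 : ∀ w ∈ U, y (0, w) = w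
  G0 : ∀ w ∈ U, G (0, w) = g w
  ode : ∀ w ∈ U, ∀ ν ∈ Ioo (-ν₀) ν₀,
        (4 * ν : ℝ) • deriv (deriv (fun ν => y (ν, w))) ν + (2 : ℝ) • deriv (fun ν => y (ν, w)) ν
          = gradg (y (ν, w))
  Gode : ∀ w ∈ U, ∀ ν ∈ Ioo (-ν₀) ν₀,
        G (ν, w) + 2 * ν * deriv (fun ν => G (ν, w)) ν = g (y (ν, w))

section slices

variable {F : Type*} [NormedAddCommGroup F] [NormedSpace ℝ F]

lemma hasDerivAt_slice_fst {f : ℝ × ℂ → F} {ν : ℝ} {w : ℂ} {f' : ℝ × ℂ →L[ℝ] F}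
    (h : HasFDerivAt f f' (ν, w)) : HasDerivAt (fun ν => f (ν, w)) (f' (1, 0)) ν := by
  have h1 : HasDerivAt (fun ν : ℝ => (ν, w)) ((1 : ℝ), (0 : ℂ)) ν :=
    (hasDerivAt_id ν).prodMk (hasDerivAt_const ν w)
  exact h.comp_hasDerivAt ν h1

lemma hasDerivAt_slice_snd {f : ℝ × ℂ → F} {ν : ℝ} {w : ℂ} {f' : ℝ × ℂ →L[ℝ] F}
    (h : HasFDerivAt f f' (ν, w)) (ξ : ℂ) :
    HasDerivAt (fun r : ℝ => f (ν, w + r • ξ)) (f' (0, ξ)) 0 := by
  have h1 : HasDerivAt (fun r : ℝ => (ν, w + r • ξ)) ((0 : ℝ), ξ) 0 := by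
    have h2 : HasDerivAt (fun r : ℝ => w + r • ξ) ξ 0 := by
      have := ((hasDerivAt_id (0:ℝ)).smul_const ξ).const_add w
      simpa using this
    exact (hasDerivAt_const 0 ν).prodMk h2
  have h3 : HasFDerivAt f f' ((fun r : ℝ => (ν, w + r • ξ)) 0) := by simpa using h
  exact h3.comp_hasDerivAt 0 h1

end slices

namespace Orb

variable {ν₀ : ℝ} {U : Set ℂ} {y : ℝ × ℂ → ℂ} {G : ℝ × ℂ → ℝ}

lemma isOpen_dom (h : Orb ν₀ U y G) : IsOpen (Ioo (-ν₀) ν₀ ×ˢ U) := isOpen_Ioo.prod h.hU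

lemma yd (h : Orb ν₀ U y G) {p : ℝ × ℂ} (hp : p ∈ Ioo (-ν₀) ν₀ ×ˢ U) :
    HasFDerivAt y (fderiv ℝ y p) p :=
  ((h.yC.contDiffAt (h.isOpen_dom.mem_nhds hp)).differentiableAt (by simp)).hasFDerivAt

lemma Gd (h : Orb ν₀ U y G) {p : ℝ × ℂ} (hp : p ∈ Ioo (-ν₀) ν₀ ×ˢ U) :
    HasFDerivAt G (fderiv ℝ G p) p :=
  ((h.GC.contDiffAt (h.isOpen_dom.mem_nhds hp)).differentiableAt (by simp)).hasFDerivAt

lemma yd2 (h : Orb ν₀ U y G) {p : ℝ × ℂ} (hp : p ∈ Ioo (-ν₀) ν₀ ×ˢ U) :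
    HasFDerivAt (fderiv ℝ y) (fderiv ℝ (fderiv ℝ y) p) p := by
  have h1 : ContDiffAt ℝ 1 (fderiv ℝ y) p :=
    (h.yC.contDiffAt (h.isOpen_dom.mem_nhds hp)).fderiv_right (by norm_cast)
  exact (h1.differentiableAt (by simp)).hasFDerivAt

lemma Gd2 (h : Orb ν₀ U y G) {p : ℝ × ℂ} (hp : p ∈ Ioo (-ν₀) ν₀ ×ˢ U) :
    HasFDerivAt (fderiv ℝ G) (fderiv ℝ (fderiv ℝ G) p) p := by
  have h1 : ContDiffAt ℝ 1 (fderiv ℝ G) p :=
    (h.GC.contDiffAt (h.isOpen_dom.mem_nhds hp)).fderiv_right (by norm_cast)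
  exact (h1.differentiableAt (by simp)).hasFDerivAt

lemma ysymm (h : Orb ν₀ U y G) {p : ℝ × ℂ} (hp : p ∈ Ioo (-ν₀) ν₀ ×ˢ U) (a b : ℝ × ℂ) :
    fderiv ℝ (fderiv ℝ y) p a b = fderiv ℝ (fderiv ℝ y) p b a :=
  ((h.yC.contDiffAt (h.isOpen_dom.mem_nhds hp)).isSymmSndFDerivAt (by simp; norm_cast)) a b

lemma Gsymm (h : Orb ν₀ U y G) {p : ℝ × ℂ} (hp : p ∈ Ioo (-ν₀) ν₀ ×ˢ U) (a b : ℝ × ℂ) :
    fderiv ℝ (fderiv ℝ G) p a b = fderiv ℝ (fderiv ℝ G) p b a :=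
  ((h.GC.contDiffAt (h.isOpen_dom.mem_nhds hp)).isSymmSndFDerivAt (by simp; norm_cast)) a b

/-- (O2) in terms of Fréchet derivatives. -/
lemma ode' (h : Orb ν₀ U y G) {ν : ℝ} {w : ℂ} (hp : (ν, w) ∈ Ioo (-ν₀) ν₀ ×ˢ U) :
    (4 * ν : ℝ) • fderiv ℝ (fderiv ℝ y) (ν, w) (1, 0) (1, 0)
      + (2 : ℝ) • fderiv ℝ y (ν, w) (1, 0) = gradg (y (ν, w)) := by
  rw [← h.ode w hp.2 ν hp.1]
  have h1 : ∀ ν' ∈ Ioo (-ν₀) ν₀, deriv (fun ν => y (ν, w)) ν' = fderiv ℝ y (ν', w) (1, 0) :=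
    fun ν' hν' => (hasDerivAt_slice_fst (h.yd (p := (ν', w)) ⟨hν', hp.2⟩)).deriv
  have h2 : HasDerivAt (fun ν => fderiv ℝ y (ν, w) (1, 0))
      (fderiv ℝ (fderiv ℝ y) (ν, w) (1, 0) (1, 0)) ν := by
    have := hasDerivAt_slice_fst (h.yd2 (p := (ν, w)) hp)
    have h3 := this.clm_apply (hasDerivAt_const ν ((1:ℝ), (0:ℂ)))
    simpa using h3
  have h4 : HasDerivAt (deriv (fun ν => y (ν, w)))
      (fderiv ℝ (fderiv ℝ y) (ν, w) (1, 0) (1, 0)) ν := by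
    refine h2.congr_of_eventuallyEq ?_
    filter_upwards [isOpen_Ioo.mem_nhds hp.1] with x hx using h1 x hx
  rw [h4.deriv, h1 ν hp.1]

lemma Gode' (h : Orb ν₀ U y G) {ν : ℝ} {w : ℂ} (hp : (ν, w) ∈ Ioo (-ν₀) ν₀ ×ˢ U) :
    G (ν, w) + 2 * ν * fderiv ℝ G (ν, w) (1, 0) = g (y (ν, w)) := by
  rw [← h.Gode w hp.2 ν hp.1, (hasDerivAt_slice_fst (h.Gd hp)).deriv]

/-- (E1) conservation of energy. -/
lemma E1 (h : Orb ν₀ U y G) {ν : ℝ} {w : ℂ} (hp : (ν, w) ∈ Ioo (-ν₀) ν₀ ×ˢ U) :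
    g (y (ν, w)) = g w + 2 * ν * ‖fderiv ℝ y (ν, w) (1, 0)‖ ^ 2 := by
  have hw := hp.2
  set e : ℝ → ℝ := fun ν => g (y (ν, w)) -
    2 * ν * inner ℝ (fderiv ℝ y (ν, w) (1, 0)) (fderiv ℝ y (ν, w) (1, 0)) with he
  have hder : ∀ x ∈ Ioo (-ν₀) ν₀, HasDerivAt e 0 x := by
    intro x hx
    have hpx : (x, w) ∈ Ioo (-ν₀) ν₀ ×ˢ U := ⟨hx, hw⟩
    have h1 := hasDerivAt_slice_fst (h.yd hpx)
    have h2 : HasDerivAt (fun ν => fderiv ℝ y (ν, w) (1, 0))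
        (fderiv ℝ (fderiv ℝ y) (x, w) (1, 0) (1, 0)) x := by
      have h3 := (hasDerivAt_slice_fst (h.yd2 hpx)).clm_apply
        (hasDerivAt_const x ((1:ℝ), (0:ℂ)))
      simpa using h3
    have h3' : HasDerivAt (g ∘ fun ν => y (ν, w)) (ip (gradg (y (x, w)))
        (fderiv ℝ y (x, w) (1, 0))) x :=
      (hasFDerivAt_g (y (x, w))).comp_hasDerivAt x h1
    have h3 : HasDerivAt (fun ν => g (y (ν, w))) (ip (gradg (y (x, w)))
        (fderiv ℝ y (x, w) (1, 0))) x := h3'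
    have h4 := h2.inner ℝ h2
    have h5 : HasDerivAt (fun ν : ℝ => 2 * ν) 2 x := by
      simpa using (hasDerivAt_id x).const_mul (2:ℝ)
    have h6 := h3.sub (h5.mul h4)
    refine h6.congr_deriv ?_
    rw [ip_eq_inner, ← h.ode' hpx, inner_add_left, inner_smul_left, inner_smul_left]
    simp only [conj_trivial]
    rw [real_inner_comm (fderiv ℝ y (x, w) (1, 0)) ((fderiv ℝ (fderiv ℝ y) (x, w) (1, 0)) (1, 0))]
    ring
  have hconst : e ν = e 0 := by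
    have h0 : (0:ℝ) ∈ Ioo (-ν₀) ν₀ := ⟨by linarith [h.pos], h.pos⟩
    refine isOpen_Ioo.is_const_of_deriv_eq_zero isPreconnected_Ioo
      (fun x hx => (hder x hx).differentiableAt.differentiableWithinAt)
      (fun x hx => (hder x hx).deriv) hp.1 h0
  have he0 : e 0 = g w := by simp [he, h.y0 w hw]
  have hν : e ν = g (y (ν, w)) - 2 * ν * ‖fderiv ℝ y (ν, w) (1, 0)‖ ^ 2 := by
    simp only [he, real_inner_self_eq_norm_sq]
  rw [he0, hν] at hconst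
  linarith

lemma star_aux {ν₀ : ℝ} {F F' : ℝ → ℝ} (hF : ∀ x ∈ Ioo (-ν₀) ν₀, HasDerivAt F (F' x) x)
    (hL : ∀ x ∈ Ioo (-ν₀) ν₀, F x + 2 * x * F' x = 0) {ν : ℝ} (hν : ν ∈ Ioo (-ν₀) ν₀) :
    F ν = 0 := by
  have hmem : ∀ u ∈ Icc (0:ℝ) 1, ν * u ^ 2 ∈ Ioo (-ν₀) ν₀ := by
    intro u hu
    have hu2 : u ^ 2 ≤ 1 := pow_le_one₀ hu.1 hu.2
    have hu0 : 0 ≤ u ^ 2 := by positivity
    have : |ν * u ^ 2| < ν₀ := by
      rw [abs_mul, abs_of_nonneg hu0]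
      exact (mul_le_of_le_one_right (abs_nonneg _) hu2).trans_lt (abs_lt.2 hν)
    exact abs_lt.1 this
  have hd : ∀ u ∈ Icc (0:ℝ) 1, HasDerivAt (fun u => u * F (ν * u ^ 2)) 0 u := by
    intro u hu
    have e1 : HasDerivAt (fun u : ℝ => ν * u ^ 2) (2 * ν * u) u := by
      have := (hasDerivAt_pow 2 u).const_mul ν
      refine this.congr_deriv ?_
      push_cast
      ring
    have e2 : HasDerivAt (fun u : ℝ => F (ν * u ^ 2)) (F' (ν * u ^ 2) * (2 * ν * u)) u :=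
      HasDerivAt.comp (h₂ := F) (h := fun u : ℝ => ν * u ^ 2) u (hF _ (hmem u hu)) e1
    have e3 := (hasDerivAt_id u).mul e2
    refine e3.congr_deriv ?_
    have := hL _ (hmem u hu)
    simp only [id]
    linarith
  have h := constant_of_has_deriv_right_zero (f := fun u => u * F (ν * u ^ 2)) (a := 0) (b := 1)
    (fun u hu => (hd u hu).continuousAt.continuousWithinAt)
    (fun u hu => (hd u ⟨hu.1, hu.2.le⟩).hasDerivWithinAt) 1 ⟨zero_le_one, le_rfl⟩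
  simpa using h

/-- (**) -/
lemma starstar (h : Orb ν₀ U y G) {ν : ℝ} {w : ℂ} (hp : (ν, w) ∈ Ioo (-ν₀) ν₀ ×ˢ U) (ξ : ℂ) :
    2 * fderiv ℝ G (ν, w) (0, ξ) =
      2 * inner ℝ (fderiv ℝ y (ν, w) (1, 0)) (fderiv ℝ y (ν, w) (0, ξ)) + ip (gradg w) ξ := by
  have hw := hp.2
  set F : ℝ → ℝ := fun ν => 2 * fderiv ℝ G (ν, w) (0, ξ) -
    2 * inner ℝ (fderiv ℝ y (ν, w) (1, 0)) (fderiv ℝ y (ν, w) (0, ξ)) - ip (gradg w) ξ with hF
  set F' : ℝ → ℝ := fun ν => 2 * fderiv ℝ (fderiv ℝ G) (ν, w) (1, 0) (0, ξ) -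
    2 * (inner ℝ (fderiv ℝ y (ν, w) (1, 0)) (fderiv ℝ (fderiv ℝ y) (ν, w) (1, 0) (0, ξ)) +
      inner ℝ (fderiv ℝ (fderiv ℝ y) (ν, w) (1, 0) (1, 0)) (fderiv ℝ y (ν, w) (0, ξ))) with hF'
  have hFd : ∀ x ∈ Ioo (-ν₀) ν₀, HasDerivAt F (F' x) x := by
    intro x hx
    have hpx : (x, w) ∈ Ioo (-ν₀) ν₀ ×ˢ U := ⟨hx, hw⟩
    have h2 : ∀ b : ℝ × ℂ, HasDerivAt (fun ν => fderiv ℝ y (ν, w) b)
        (fderiv ℝ (fderiv ℝ y) (x, w) (1, 0) b) x := by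
      intro b
      have h3 := (hasDerivAt_slice_fst (h.yd2 hpx)).clm_apply (hasDerivAt_const x b)
      simpa using h3
    have h3 : ∀ b : ℝ × ℂ, HasDerivAt (fun ν => fderiv ℝ G (ν, w) b)
        (fderiv ℝ (fderiv ℝ G) (x, w) (1, 0) b) x := by
      intro b
      have h3 := (hasDerivAt_slice_fst (h.Gd2 hpx)).clm_apply (hasDerivAt_const x b)
      simpa using h3
    have h4 := (h2 (1, 0)).inner ℝ (h2 (0, ξ))
    exact (((h3 (0, ξ)).const_mul 2).sub (h4.const_mul 2)).sub_const _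
  have hFL : ∀ x ∈ Ioo (-ν₀) ν₀, F x + 2 * x * F' x = 0 := by
    intro x hx
    have hpx : (x, w) ∈ Ioo (-ν₀) ν₀ ×ˢ U := ⟨hx, hw⟩
    -- nearby points in the `ξ` direction
    have hnear : ∀ᶠ r : ℝ in 𝓝 0, (x, w + r • ξ) ∈ Ioo (-ν₀) ν₀ ×ˢ U := by
      have hc : ContinuousAt (fun r : ℝ => (x, w + r • ξ)) 0 := by fun_prop
      apply hc
      simpa using h.isOpen_dom.mem_nhds hpx
    have h2 : ∀ b : ℝ × ℂ, HasDerivAt (fun r : ℝ => fderiv ℝ y (x, w + r • ξ) b)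
        (fderiv ℝ (fderiv ℝ y) (x, w) (0, ξ) b) 0 := by
      intro b
      have h3 := (hasDerivAt_slice_snd (h.yd2 hpx) ξ).clm_apply (hasDerivAt_const 0 b)
      simpa using h3
    have h3 : ∀ b : ℝ × ℂ, HasDerivAt (fun r : ℝ => fderiv ℝ G (x, w + r • ξ) b)
        (fderiv ℝ (fderiv ℝ G) (x, w) (0, ξ) b) 0 := by
      intro b
      have h3 := (hasDerivAt_slice_snd (h.Gd2 hpx) ξ).clm_apply (hasDerivAt_const 0 b)
      simpa using h3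
    have hgy : HasDerivAt (fun r : ℝ => g (y (x, w + r • ξ)))
        (ip (gradg (y (x, w))) (fderiv ℝ y (x, w) (0, ξ))) 0 := by
      have h1 := hasDerivAt_slice_snd (h.yd hpx) ξ
      have h4 : HasFDerivAt g (ip (gradg (y (x, w)))) ((fun r : ℝ => y (x, w + r • ξ)) 0) := by
        simpa using hasFDerivAt_g (y (x, w))
      have h5 : HasDerivAt (g ∘ fun r : ℝ => y (x, w + r • ξ))
        (ip (gradg (y (x, w))) (fderiv ℝ y (x, w) (0, ξ))) 0 := h4.comp_hasDerivAt 0 h1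
      exact h5
    have hgw : HasDerivAt (fun r : ℝ => g (w + r • ξ)) (ip (gradg w) ξ) 0 := by
      have h1 : HasDerivAt (fun r : ℝ => w + r • ξ) ξ 0 := by
        have := ((hasDerivAt_id (0:ℝ)).smul_const ξ).const_add w
        simpa using this
      have h4 : HasFDerivAt g (ip (gradg w)) ((fun r : ℝ => w + r • ξ) 0) := by
        simpa using hasFDerivAt_g w
      have h5 : HasDerivAt (g ∘ fun r : ℝ => w + r • ξ) (ip (gradg w) ξ) 0 :=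
        h4.comp_hasDerivAt 0 h1
      exact h5
    -- derivative of (O3) in direction ξ
    have k1 : fderiv ℝ G (x, w) (0, ξ) + 2 * x * fderiv ℝ (fderiv ℝ G) (x, w) (0, ξ) (1, 0)
        = ip (gradg (y (x, w))) (fderiv ℝ y (x, w) (0, ξ)) := by
      have e1 := (hasDerivAt_slice_snd (h.Gd hpx) ξ).add ((h3 (1, 0)).const_mul (2 * x))
      refine e1.unique (hgy.congr_of_eventuallyEq ?_)
      filter_upwards [hnear] with r hr
      exact h.Gode' hr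
    -- derivative of (E1) in direction ξ
    have k2 : ip (gradg (y (x, w))) (fderiv ℝ y (x, w) (0, ξ)) = ip (gradg w) ξ +
        2 * x * (2 * inner ℝ (fderiv ℝ y (x, w) (1, 0))
          (fderiv ℝ (fderiv ℝ y) (x, w) (0, ξ) (1, 0))) := by
      have e1 := hgw.add (((h2 (1, 0)).inner ℝ (h2 (1, 0))).const_mul (2 * x))
      have e2 := hgy.unique (e1.congr_of_eventuallyEq (by
        filter_upwards [hnear] with r hr
        rw [h.E1 hr, ← real_inner_self_eq_norm_sq]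
        rfl))
      rw [e2]
      simp only [zero_smul, add_zero]
      rw [real_inner_comm (fderiv ℝ y (x, w) (1, 0))
        ((fderiv ℝ (fderiv ℝ y) (x, w) (0, ξ)) (1, 0))]
      ring
    have k3 := h.ode' hpx
    have k4 : inner ℝ ((4 * x : ℝ) • fderiv ℝ (fderiv ℝ y) (x, w) (1, 0) (1, 0)
      + (2 : ℝ) • fderiv ℝ y (x, w) (1, 0)) (fderiv ℝ y (x, w) (0, ξ)) =
        ip (gradg (y (x, w))) (fderiv ℝ y (x, w) (0, ξ)) := by
      rw [k3]; rfl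
    rw [inner_add_left, inner_smul_left, inner_smul_left] at k4
    simp only [conj_trivial] at k4
    rw [h.Gsymm hpx (0, ξ) (1, 0)] at k1
    rw [h.ysymm hpx (0, ξ) (1, 0)] at k2
    simp only [hF, hF']
    linear_combination 2 * k1 - k4 + k2
  have := star_aux hFd hFL hp.1
  simp only [hF] at this
  linarith

end Orb

end

end Pool.Agent.MFG
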