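import Pool.Agent.MP_03ede7_an.Base

set_option autoImplicit false
open Set Filter Topology Complex MeasureTheory
open scoped ComplexConjugate

namespace Pool.Agent.MFG

noncomputable section

/-- path space -/
abbrev PC := C(Set.Icc (0:ℝ) 1, ℂ)

/-- extension to the line -/
def ext (X : PC) : ℝ → ℂ := Set.IccExtend (zero_le_one) X

lemma continuous_ext (X : PC) : Continuous (ext X) := X.continuous.Icc_extend'

lemma ext_apply (X : PC) {u : ℝ} (hu : u ∈ Icc (0:ℝ) 1) : ext X u = X ⟨u, hu⟩ :=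
  IccExtend_of_mem _ _ hu

lemma norm_ext_le (X : PC) (u : ℝ) : ‖ext X u‖ ≤ ‖X‖ := by
  unfold ext
  rw [IccExtend_apply]
  exact X.norm_coe_le_norm _

lemma ext_add (X Y : PC) (u : ℝ) : ext (X + Y) u = ext X u + ext Y u := by
  simp [ext, IccExtend_apply]

lemma ext_smul (c : ℝ) (X : PC) (u : ℝ) : ext (c • X) u = c • ext X u := by
  simp [ext, IccExtend_apply]

/-- double primitive vanishing with its derivative at `0` -/
def Kfun (X : PC) (u : ℝ) : ℂ :=
  (u : ℂ) * (∫ r in (0:ℝ)..u, ext X r) - ∫ r in (0:ℝ)..u, (r : ℂ) * ext X r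

lemma hasDerivAt_prim (X : PC) (u : ℝ) :
    HasDerivAt (fun u => ∫ r in (0:ℝ)..u, ext X r) (ext X u) u :=
  intervalIntegral.integral_hasDerivAt_right ((continuous_ext X).intervalIntegrable _ _)
    (continuous_ext X).aestronglyMeasurable.stronglyMeasurableAtFilter
    (continuous_ext X).continuousAt

lemma continuous_rext (X : PC) : Continuous (fun r : ℝ => (r : ℂ) * ext X r) :=
  continuous_ofReal.mul (continuous_ext X)

lemma hasDerivAt_prim2 (X : PC) (u : ℝ) :
    HasDerivAt (fun u => ∫ r in (0:ℝ)..u, (r : ℂ) * ext X r) ((u : ℂ) * ext X u) u :=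
  intervalIntegral.integral_hasDerivAt_right ((continuous_rext X).intervalIntegrable _ _)
    (continuous_rext X).aestronglyMeasurable.stronglyMeasurableAtFilter
    (continuous_rext X).continuousAt

lemma hasDerivAt_Kfun (X : PC) (u : ℝ) :
    HasDerivAt (Kfun X) (∫ r in (0:ℝ)..u, ext X r) u := by
  have h1 : HasDerivAt (fun u : ℝ => (u : ℂ)) 1 u := ofRealCLM.hasDerivAt
  have h := (h1.mul (hasDerivAt_prim X u)).sub (hasDerivAt_prim2 X u)
  refine h.congr_deriv ?_
  ring

lemma continuous_Kfun (X : PC) : Continuous (Kfun X) :=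
  continuous_iff_continuousAt.2 fun u => (hasDerivAt_Kfun X u).continuousAt

lemma Kfun_add (X Y : PC) (u : ℝ) : Kfun (X + Y) u = Kfun X u + Kfun Y u := by
  unfold Kfun
  simp only [ext_add, mul_add]
  rw [intervalIntegral.integral_add ((continuous_ext X).intervalIntegrable _ _)
      ((continuous_ext Y).intervalIntegrable _ _),
    intervalIntegral.integral_add ((continuous_rext X).intervalIntegrable _ _)
      ((continuous_rext Y).intervalIntegrable _ _)]
  ring

lemma Kfun_smul (c : ℝ) (X : PC) (u : ℝ) : Kfun (c • X) u = c • Kfun X u := by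
  unfold Kfun
  simp only [ext_smul, mul_smul_comm, intervalIntegral.integral_smul, smul_sub]

lemma norm_Kfun_le (X : PC) {u : ℝ} (hu : u ∈ Icc (0:ℝ) 1) : ‖Kfun X u‖ ≤ 2 * ‖X‖ := by
  have hu0 : 0 ≤ u := hu.1
  have hu1 : u ≤ 1 := hu.2
  have h1 : ‖∫ r in (0:ℝ)..u, ext X r‖ ≤ ‖X‖ * |u - 0| :=
    intervalIntegral.norm_integral_le_of_norm_le_const fun r _ => norm_ext_le X r
  have h2 : ‖∫ r in (0:ℝ)..u, (r : ℂ) * ext X r‖ ≤ ‖X‖ * |u - 0| := by
    refine intervalIntegral.norm_integral_le_of_norm_le_const fun r hr => ?_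
    rw [uIoc_of_le hu0] at hr
    rw [norm_mul, norm_real, Real.norm_eq_abs, abs_of_pos hr.1]
    have : r ≤ 1 := hr.2.trans hu1
    nlinarith [norm_ext_le X r, norm_nonneg (ext X r), hr.1]
  have h3 : |u - 0| ≤ 1 := by rw [sub_zero, abs_of_nonneg hu0]; exact hu1
  have hX : 0 ≤ ‖X‖ := norm_nonneg _
  unfold Kfun
  calc ‖(u : ℂ) * (∫ r in (0:ℝ)..u, ext X r) - ∫ r in (0:ℝ)..u, (r : ℂ) * ext X r‖
      ≤ ‖(u : ℂ) * (∫ r in (0:ℝ)..u, ext X r)‖ + ‖∫ r in (0:ℝ)..u, (r : ℂ) * ext X r‖ :=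
        norm_sub_le _ _
    _ ≤ 2 * ‖X‖ := by
        rw [norm_mul, norm_real, Real.norm_eq_abs, abs_of_nonneg hu0]
        have h4 : ‖∫ r in (0:ℝ)..u, ext X r‖ ≤ ‖X‖ := h1.trans (by nlinarith)
        have h5 : ‖∫ r in (0:ℝ)..u, (r : ℂ) * ext X r‖ ≤ ‖X‖ := h2.trans (by nlinarith)
        nlinarith [norm_nonneg (∫ r in (0:ℝ)..u, ext X r)]

/-- `Kfun` as a continuous linear operator on path space. -/
def KL : PC →L[ℝ] PC :=
  LinearMap.mkContinuous
    { toFun := fun X => ⟨fun u => Kfun X u, (continuous_Kfun X).comp continuous_subtype_val⟩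
      map_add' := fun X Y => by ext u; exact Kfun_add X Y u
      map_smul' := fun c X => by ext u; exact Kfun_smul c X u } 2 (by
    intro X
    rw [ContinuousMap.norm_le _ (by positivity)]
    intro u
    exact norm_Kfun_le X u.2)

lemma KL_apply (X : PC) (u : Set.Icc (0:ℝ) 1) : KL X u = Kfun X u := rfl

/-- integral functional. -/
def IL : PC →L[ℝ] ℂ :=
  LinearMap.mkContinuous
    { toFun := fun X => ∫ r in (0:ℝ)..1, ext X r
      map_add' := fun X Y => by
        simp only [ext_add]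
        exact intervalIntegral.integral_add ((continuous_ext X).intervalIntegrable _ _)
          ((continuous_ext Y).intervalIntegrable _ _)
      map_smul' := fun c X => by
        simp only [ext_smul, intervalIntegral.integral_smul]; rfl } 1 (by
    intro X
    have h1 : ‖∫ r in (0:ℝ)..1, ext X r‖ ≤ ‖X‖ * |(1:ℝ) - 0| :=
      intervalIntegral.norm_integral_le_of_norm_le_const fun r _ => norm_ext_le X r
    simpa [mul_comm] using h1)

lemma IL_apply (X : PC) : IL X = ∫ r in (0:ℝ)..1, ext X r := rfl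

/-- The reparametrized path `u ↦ X (s u)`. -/
def scalePath (X : PC) (s : Set.Icc (0:ℝ) 1) : PC :=
  ⟨fun u => X ⟨s * u, mul_nonneg s.2.1 u.2.1, mul_le_one₀ s.2.2 u.2.1 u.2.2⟩,
    X.continuous.comp (by fun_prop)⟩

lemma scalePath_apply (X : PC) (s u : Set.Icc (0:ℝ) 1) :
    scalePath X s u = X ⟨s * u, mul_nonneg s.2.1 u.2.1, mul_le_one₀ s.2.2 u.2.1 u.2.2⟩ := rfl

lemma ext_scalePath (X : PC) (s : Set.Icc (0:ℝ) 1) {u : ℝ} (hu : u ∈ Icc (0:ℝ) 1) :
    ext (scalePath X s) u = ext X (s * u) := by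
  rw [ext_apply _ hu, scalePath_apply,
    ext_apply _ (⟨mul_nonneg s.2.1 hu.1, mul_le_one₀ s.2.2 hu.1 hu.2⟩ : (s : ℝ) * u ∈ Icc (0:ℝ) 1)]

lemma Kfun_scale (X : PC) (s : Set.Icc (0:ℝ) 1) {u : ℝ} (hu : u ∈ Icc (0:ℝ) 1) :
    Kfun X (s * u) = ((s : ℝ) ^ 2 : ℝ) * Kfun (scalePath X s) u := by
  have h1 : ∫ r in (0:ℝ)..(s * u), ext X r = (s : ℝ) • ∫ r in (0:ℝ)..u, ext (scalePath X s) r := by
    have := intervalIntegral.smul_integral_comp_mul_left (a := 0) (b := u) (ext X) (s : ℝ)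
    rw [mul_zero] at this
    rw [← this]
    congr 1
    refine intervalIntegral.integral_congr fun r hr => ?_
    rw [uIcc_of_le hu.1] at hr
    exact (ext_scalePath X s ⟨hr.1, hr.2.trans hu.2⟩).symm
  have h2 : ∫ r in (0:ℝ)..(s * u), (r : ℂ) * ext X r =
      (s : ℝ) • ∫ r in (0:ℝ)..u, (s : ℂ) * ((r : ℂ) * ext (scalePath X s) r) := by
    have := intervalIntegral.smul_integral_comp_mul_left (a := 0) (b := u)
      (fun r : ℝ => (r : ℂ) * ext X r) (s : ℝ)
    rw [mul_zero] at this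
    rw [← this]
    congr 1
    refine intervalIntegral.integral_congr fun r hr => ?_
    rw [uIcc_of_le hu.1] at hr
    rw [ext_scalePath X s ⟨hr.1, hr.2.trans hu.2⟩]
    push_cast
    ring
  unfold Kfun
  rw [h1, h2, intervalIntegral.integral_const_mul]
  simp only [real_smul]
  push_cast
  ring

end

end Pool.Agent.MFG
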