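import Pool.Agent.MP_03ede7_an.Geo

set_option autoImplicit false
open Set Filter Topology Complex MeasureTheory
open scoped ComplexConjugate ContDiff

namespace Pool.Agent.MFG

noncomputable section

/-- C¹ gluing across the zero set of `m`. -/
lemma glue {X : Type*} [NormedAddCommGroup X] [NormedSpace ℝ X] {f m : X → ℝ} {U : Set X}
    (hU : IsOpen U) (hf : ContDiffOn ℝ 1 f U) (hm : ContinuousOn m U)
    (hz : ∀ x ∈ U, m x = 0 → f x = 0 ∧ fderiv ℝ f x = 0) :
    ContDiffOn ℝ 1 (fun x => if 0 < m x then f x else 0) U ∧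
    ∀ x ∈ U, HasFDerivAt (fun x => if 0 < m x then f x else 0)
      (if 0 < m x then fderiv ℝ f x else 0) x := by
  have hfd : ∀ x ∈ U, HasFDerivAt f (fderiv ℝ f x) x := fun x hx =>
    ((hf.contDiffAt (hU.mem_nhds hx)).differentiableAt (by simp)).hasFDerivAt
  have hfc : ContinuousOn (fderiv ℝ f) U := hf.continuousOn_fderiv_of_isOpen hU le_rfl
  have hder : ∀ x ∈ U, HasFDerivAt (fun x => if 0 < m x then f x else 0)
      (if 0 < m x then fderiv ℝ f x else 0) x := by
    intro x hx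
    have hmx : ContinuousAt m x := hm.continuousAt (hU.mem_nhds hx)
    rcases lt_trichotomy (m x) 0 with h | h | h
    · rw [if_neg (not_lt.2 h.le)]
      refine (hasFDerivAt_const (0:ℝ) x).congr_of_eventuallyEq ?_
      filter_upwards [hmx (isOpen_Iio.mem_nhds h)] with y hy
      rw [if_neg (not_lt.2 (le_of_lt hy))]
    · rw [if_neg (by rw [h]; exact lt_irrefl 0)]
      obtain ⟨h1, h2⟩ := hz x hx h
      have h3 := hfd x hx
      rw [h2] at h3
      rw [hasFDerivAt_iff_isLittleO] at h3 ⊢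
      refine (Asymptotics.isBigO_of_le _ (fun y => ?_)).trans_isLittleO h3
      have hnx : ¬ (0 < m x) := by rw [h]; exact lt_irrefl 0
      simp only [if_neg hnx, h1, sub_zero, _root_.zero_apply]
      split_ifs
      · exact le_rfl
      · simp
    · rw [if_pos h]
      refine (hfd x hx).congr_of_eventuallyEq ?_
      filter_upwards [hmx (isOpen_Ioi.mem_nhds h)] with y hy
      rw [if_pos (show 0 < m y from hy)]
  refine ⟨fun x hx => ContDiffAt.contDiffWithinAt ?_, hder⟩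
  rw [contDiffAt_one_iff]
  refine ⟨fun x => if 0 < m x then fderiv ℝ f x else 0, U, hU.mem_nhds hx, ?_, hder⟩
  intro x hx
  apply ContinuousAt.continuousWithinAt
  have hmx : ContinuousAt m x := hm.continuousAt (hU.mem_nhds hx)
  have hfx : ContinuousAt (fderiv ℝ f) x := hfc.continuousAt (hU.mem_nhds hx)
  rcases lt_trichotomy (m x) 0 with h | h | h
  · refine (continuousAt_const (y := (0 : X →L[ℝ] ℝ))).congr ?_
    filter_upwards [hmx (isOpen_Iio.mem_nhds h)] with y hy
    rw [if_neg (not_lt.2 (le_of_lt hy))]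
  · have h2 := (hz x hx h).2
    rw [ContinuousAt, if_neg (by rw [h]; exact lt_irrefl 0)]
    rw [ContinuousAt, h2] at hfx
    rw [tendsto_zero_iff_norm_tendsto_zero] at hfx ⊢
    refine squeeze_zero (fun _ => norm_nonneg _) (fun y => ?_) hfx
    split_ifs
    · exact le_rfl
    · simp
  · refine hfx.congr ?_
    filter_upwards [hmx (isOpen_Ioi.mem_nhds h)] with y hy
    rw [if_pos (show 0 < m y from hy)]

/-- linear functional `(b, η) ↦ c b + ⟪v, η⟫` -/
def Lv (c : ℝ) (v : ℂ) : ℝ × ℂ →L[ℝ] ℝ :=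
  c • ContinuousLinearMap.fst ℝ ℝ ℂ + (ip v) ∘L ContinuousLinearMap.snd ℝ ℝ ℂ

lemma Lv_apply (c : ℝ) (v : ℂ) (x : ℝ × ℂ) : Lv c v x = c * x.1 + ip v x.2 := by simp [Lv]

/-- exterior potential -/
def chiE (ε : ℝ) (W0 : ℝ × ℂ → ℂ) (p : ℝ × ℂ) : ℝ :=
  ε * (W0 p).re - ε ^ 2 * ee (tau (W0 p)) + ε ^ 2 * (p.1 - tau (W0 p)) / (2 * g (W0 p))

section curves

variable {c : ℝ → ℂ} {om : ℂ} {r : ℝ}

lemma curve_k (hc : HasDerivAt c om r) : HasDerivAt (fun r => k (c r)) (k1 (c r) * om) r :=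
  (hasFDerivAt_k (c r)).comp_hasDerivAt r hc

lemma curve_Z (hc : HasDerivAt c om r) : HasDerivAt (fun r => Z (c r)) (k (c r) * om) r :=
  (hasFDerivAt_Z (c r)).comp_hasDerivAt r hc

lemma curve_g (hc : HasDerivAt c om r) : HasDerivAt (fun r => g (c r)) (ip (gradg (c r)) om) r := by
  have h : HasDerivAt (g ∘ c) (ip (gradg (c r)) om) r := (hasFDerivAt_g (c r)).comp_hasDerivAt r hc
  exact h

lemma curve_tau (hc : HasDerivAt c om r) (hg : g (c r) ≠ 0) :
    HasDerivAt (fun r => tau (c r)) (-6 / g (c r) ^ 2 * ip (gradg (c r)) om) r := by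
  have h : HasDerivAt (tau ∘ c) (((-6 / g (c r) ^ 2) • ip (gradg (c r))) om) r :=
    (hasFDerivAt_tau hg).comp_hasDerivAt r hc
  exact h

lemma curve_v0 (hc : HasDerivAt c om r) (hk : k (c r) ≠ 0) :
    HasDerivAt (fun r => v0 (c r)) (conj (-(k1 (c r) * om) / (k (c r)) ^ 2)) r := by
  have h := (curve_k hc).inv hk
  exact (conjCLE : ℂ ≃L[ℝ] ℂ).toContinuousLinearMap.hasFDerivAt.comp_hasDerivAt r h

end curves

lemma v0_inner_kmul {w : ℂ} (hk : k w ≠ 0) (om : ℂ) : inner ℝ (v0 w) (k w * om) = om.re := by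
  have : inner ℝ (v0 w) (k w * om) = (conj (v0 w) * (k w * om)).re := by
    simp [Complex.inner, mul_comm]
  rw [this, v0, conj_conj, inv_mul_cancel_left₀ hk]

lemma v0_inner_dv0 {w : ℂ} (hk : k w ≠ 0) (om : ℂ) :
    inner ℝ (v0 w) (conj (-(k1 w * om) / (k w) ^ 2)) = -(ip (gradg w) om) / (2 * g w ^ 2) := by
  have hg : g w ≠ 0 := by unfold g; simpa using hk
  have h1 : inner ℝ (v0 w) (conj (-(k1 w * om) / (k w) ^ 2)) =
      ((k w)⁻¹ * conj (-(k1 w * om) / (k w) ^ 2)).re := by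
    simp [Complex.inner, v0, mul_comm]
  have h2 : ip (gradg w) om = 2 * (conj (k w) * k1 w * om).re := by
    rw [ip_apply, gradg]; simp; ring
  have h3 : ((k w)⁻¹ * conj (-(k1 w * om) / (k w) ^ 2)) =
      (-(1 / (g w)^2) : ℝ) * conj (conj (k w) * k1 w * om) := by
    have hkc : conj (k w) ≠ 0 := by simpa using hk
    have hgk : (g w : ℂ) = conj (k w) * k w := by rw [g, Complex.normSq_eq_conj_mul_self]
    push_cast
    rw [hgk]
    simp only [map_div₀, map_neg, map_mul, map_pow, conj_conj]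
    field_simp
  rw [h1, h3, h2, re_ofReal_mul, conj_re]
  field_simp

lemma Geo.hasFDerivAt_chiE {ε : ℝ} {W0 : ℝ × ℂ → ℂ} {N : Set (ℝ × ℂ)} (h : Geo ε W0 N)
    {p : ℝ × ℂ} (hp : p ∈ N) :
    ContDiffAt ℝ ∞ (chiE ε W0) p ∧
    HasFDerivAt (chiE ε W0) (Lv (-ε ^ 2 / (2 * g (W0 p))) (ε • v0 (W0 p))) p := by
  obtain ⟨t, z⟩ := p
  have hW3 := R3_subset_R3c (h.W0R3 _ hp)
  have hk : k (W0 (t, z)) ≠ 0 := k_ne3 hW3
  have hg : 0 < g (W0 (t, z)) := lt_of_lt_of_le (by norm_num) (g_ge3 hW3)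
  have hWC : ContDiffAt ℝ ∞ W0 (t, z) := h.W0C.contDiffAt (h.isOpen_N.mem_nhds hp)
  have hWd := (hWC.differentiableAt (by simp)).hasFDerivAt
  have hC : ContDiffAt ℝ ∞ (chiE ε W0) (t, z) := by
    unfold chiE
    have c1 : ContDiffAt ℝ ∞ (fun p => (W0 p).re) (t, z) := reCLM.contDiff.contDiffAt.comp _ hWC
    have c2 : ContDiffAt ℝ ∞ (fun p => tau (W0 p)) (t, z) :=
      ContDiffAt.comp (g := tau) _ (contDiffAt_tau hg) hWC
    have c3 : ContDiffAt ℝ ∞ (fun p => ee (tau (W0 p))) (t, z) :=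
      ContDiffAt.comp (g := ee) _ contDiff_ee.contDiffAt c2
    have c4 : ContDiffAt ℝ ∞ (fun p => g (W0 p)) (t, z) :=
      ContDiffAt.comp (g := g) _ contDiff_g.contDiffAt hWC
    exact ((contDiffAt_const.mul c1).sub (contDiffAt_const.mul c3)).add
      ((contDiffAt_const.mul (contDiff_fst.contDiffAt.sub c2)).div (contDiffAt_const.mul c4)
        (by positivity))
  refine ⟨hC, ?_⟩
  have hd := (hC.differentiableAt (by simp)).hasFDerivAt
  refine hd.congr_fderiv ?_
  apply ContinuousLinearMap.ext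
  rintro ⟨b, η⟩
  rw [Lv_apply]
  simp only
  -- the line
  set w := W0 (t, z) with hw
  have hline : HasDerivAt (fun r : ℝ => (t + r * b, z + r • η)) ((b, η) : ℝ × ℂ) 0 := by
    have h1 : HasDerivAt (fun r : ℝ => t + r * b) b 0 := by
      simpa using ((hasDerivAt_id (0:ℝ)).mul_const b).const_add t
    have h2 : HasDerivAt (fun r : ℝ => z + r • η) η 0 := by
      have := ((hasDerivAt_id (0:ℝ)).smul_const η).const_add z
      simpa using this
    exact h1.prodMk h2
  have hl0 : (fun r : ℝ => (t + r * b, z + r • η)) 0 = (t, z) := by simp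
  set om := fderiv ℝ W0 (t, z) (b, η) with hom
  have hWl : HasDerivAt (fun r : ℝ => W0 (t + r * b, z + r • η)) om 0 := by
    have h4 : HasFDerivAt W0 (fderiv ℝ W0 (t, z)) ((fun r : ℝ => (t + r * b, z + r • η)) 0) := by
      rw [hl0]; exact hWd
    exact h4.comp_hasDerivAt 0 hline
  have hW00 : W0 (t + 0 * b, z + (0:ℝ) • η) = w := by simp [hw]
  have htl : HasDerivAt (fun r : ℝ => t + r * b) b 0 := by
    simpa using ((hasDerivAt_id (0:ℝ)).mul_const b).const_add t
  have e1 := curve_Z hWl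
  have e2 := curve_tau hWl (by rw [hW00]; exact hg.ne')
  have e3 := curve_v0 hWl (by rw [hW00]; exact hk)
  have e4 := curve_g hWl
  rw [hW00] at e1 e2 e3 e4
  set dg := ip (gradg w) om with hdg
  -- identity from Mt
  have eM := e1.add (((htl.sub e2).const_mul ε).smul e3)
  have hnear : ∀ᶠ r : ℝ in 𝓝 0, (t + r * b, z + r • η) ∈ N := by
    have : ContinuousAt (fun r : ℝ => (t + r * b, z + r • η)) 0 := hline.continuousAt
    apply this
    rw [hl0]; exact h.isOpen_N.mem_nhds hp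
  have eM2 : HasDerivAt (fun r : ℝ => z + r • η) η 0 := by
    have := ((hasDerivAt_id (0:ℝ)).smul_const η).const_add z
    simpa using this
  have eMη := eM.unique (eM2.congr_of_eventuallyEq (by
    filter_upwards [hnear] with r hr
    exact h.W0M _ hr))
  -- derivative of chiE along the line
  have f1 : HasDerivAt (fun r : ℝ => (W0 (t + r * b, z + r • η)).re) om.re 0 :=
    reCLM.hasFDerivAt.comp_hasDerivAt 0 hWl
  have f2 : HasDerivAt (fun r : ℝ => ee (tau (W0 (t + r * b, z + r • η)))) _ 0 :=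
    HasDerivAt.comp (h₂ := ee) (0:ℝ) (hasDerivAt_ee _) e2
  have f3 := ((f1.const_mul ε).sub (f2.const_mul (ε^2))).add
    (((htl.sub e2).const_mul (ε^2)).div (e4.const_mul 2) (by rw [hW00]; positivity))
  have f4 : HasDerivAt (fun r : ℝ => chiE ε W0 (t + r * b, z + r • η))
      (fderiv ℝ (chiE ε W0) (t, z) (b, η)) 0 := by
    have h4 : HasFDerivAt (chiE ε W0) (fderiv ℝ (chiE ε W0) (t, z))
        ((fun r : ℝ => (t + r * b, z + r • η)) 0) := by
      rw [hl0]; exact hd
    exact h4.comp_hasDerivAt 0 hline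
  have f5 := f4.unique f3
  have hts : ((fun r : ℝ => t + r * b) - fun r => tau (W0 (t + r * b, z + r • η))) 0 =
      t - tau w := by simp [hw]
  rw [hts, hW00] at eMη f5
  rw [f5]
  have hin : inner ℝ (v0 w) _ = inner ℝ (v0 w) η := congrArg (fun x => inner ℝ (v0 w) x) eMη
  rw [inner_add_right, inner_add_right, v0_inner_kmul hk, inner_smul_right, inner_smul_right,
    v0_inner_dv0 hk, real_inner_self_eq_norm_sq, norm_v0_sq, ← hdg] at hin
  rw [ip_eq_inner, inner_smul_left, ← hin, EE_tau hg]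
  simp only [conj_trivial, hh]
  field_simp
  ring

end

end Pool.Agent.MFG
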