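import Pool.Agent.MP_03ede7_an.Orbit3
import Pool.Agent.MP_03ede7_an.Ineq

set_option autoImplicit false
open Set Filter Topology Complex MeasureTheory
open scoped ComplexConjugate ContDiff

namespace Pool.Agent.MFG

noncomputable section

def EE (x : ℝ) : ℝ := (3 + x) / 12
def ee (x : ℝ) : ℝ := (3 + x) ^ 2 / 24
def hh (w : ℂ) : ℝ := -1 / (2 * g w)

lemma hasDerivAt_ee (x : ℝ) : HasDerivAt ee (EE x) x := by
  have := (((hasDerivAt_id x).const_add 3).pow 2).div_const 24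
  refine this.congr_deriv ?_
  simp [EE]; ring

lemma EE_tau {w : ℂ} (hg : 0 < g w) : EE (tau w) = - hh w := by
  unfold EE tau hh; field_simp; ring

/-- ν as a function of (ε, s, w) -/
def nu (p : ℝ × ℝ × ℂ) : ℝ := p.1 ^ 2 * (hh p.2.2 * p.2.1 ^ 2)

def Lam (y : ℝ × ℂ → ℂ) (G : ℝ × ℂ → ℝ) (p : ℝ × ℝ × ℂ) : ℝ × ℝ × ℂ :=
  (p.1, tau p.2.2 + p.2.1 * G (nu p, p.2.2), y (nu p, p.2.2))

def Afun (G : ℝ × ℂ → ℝ) (p : ℝ × ℝ × ℂ) : ℝ :=
  ee (tau p.2.2 + p.2.1 * G (nu p, p.2.2)) - ee (tau p.2.2) - p.2.1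
    - hh p.2.2 * p.2.1 * G (nu p, p.2.2)

lemma contDiffAt_hh {w : ℂ} (hg : 0 < g w) : ContDiffAt ℝ ∞ hh w := by
  unfold hh
  exact contDiffAt_const.div (contDiffAt_const.mul contDiff_g.contDiffAt) (by positivity)

lemma contDiffAt_tau {w : ℂ} (hg : 0 < g w) : ContDiffAt ℝ ∞ tau w := by
  unfold tau
  exact (contDiffAt_const.div contDiff_g.contDiffAt (by positivity)).sub contDiffAt_const

lemma contDiff_ee {n : WithTop ℕ∞} : ContDiff ℝ n ee := by unfold ee; fun_prop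

lemma contDiffAt_nu {p : ℝ × ℝ × ℂ} (hg : 0 < g p.2.2) : ContDiffAt ℝ ∞ nu p := by
  unfold nu
  have h1 : ContDiffAt ℝ ∞ (fun p : ℝ × ℝ × ℂ => hh p.2.2) p :=
    ContDiffAt.comp (g := hh) (f := fun p : ℝ × ℝ × ℂ => p.2.2) p (contDiffAt_hh hg)
      (contDiff_snd.comp contDiff_snd).contDiffAt
  have h2 : ContDiffAt ℝ ∞ (fun p : ℝ × ℝ × ℂ => p.1 ^ 2) p := (contDiff_fst.pow 2).contDiffAt
  have h3 : ContDiffAt ℝ ∞ (fun p : ℝ × ℝ × ℂ => p.2.1 ^ 2) p :=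
    ((contDiff_fst.comp contDiff_snd).pow 2).contDiffAt
  exact h2.mul (h1.mul h3)

variable {ν₀ : ℝ} {U : Set ℂ} {y : ℝ × ℂ → ℂ} {G : ℝ × ℂ → ℝ}

/-- The natural domain of `Lam`. -/
def LDom (ν₀ : ℝ) (U : Set ℂ) : Set (ℝ × ℝ × ℂ) :=
  {p | p.2.2 ∈ U ∧ 0 < g p.2.2 ∧ nu p ∈ Ioo (-ν₀) ν₀}

lemma isOpen_LDom (hU : IsOpen U) : IsOpen (LDom ν₀ U) := by
  rw [isOpen_iff_mem_nhds]
  rintro p ⟨h1, h2, h3⟩
  have c1 : ContinuousAt (fun p : ℝ × ℝ × ℂ => p.2.2) p := by fun_prop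
  have c2 : ContinuousAt (fun p : ℝ × ℝ × ℂ => g p.2.2) p :=
    (contDiff_g (n := 0)).continuous.continuousAt.comp c1
  filter_upwards [c1 (hU.mem_nhds h1), c2 (isOpen_Ioi.mem_nhds h2),
    (contDiffAt_nu h2).continuousAt (isOpen_Ioo.mem_nhds h3)] with q h4 h5 h6
  exact ⟨h4, h5, h6⟩

lemma pair_contDiffAt {p : ℝ × ℝ × ℂ} (hg : 0 < g p.2.2) :
    ContDiffAt ℝ ∞ (fun p : ℝ × ℝ × ℂ => (nu p, p.2.2)) p :=
  (contDiffAt_nu hg).prodMk (contDiff_snd.comp contDiff_snd).contDiffAt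

lemma Orb.yLam (h : Orb ν₀ U y G) {p : ℝ × ℝ × ℂ} (hp : p ∈ LDom ν₀ U) :
    ContDiffAt ℝ ∞ (fun p : ℝ × ℝ × ℂ => y (nu p, p.2.2)) p :=
  ContDiffAt.comp (g := y) (f := fun p : ℝ × ℝ × ℂ => (nu p, p.2.2)) p
    (h.yC.contDiffAt (h.isOpen_dom.mem_nhds ⟨hp.2.2, hp.1⟩)) (pair_contDiffAt hp.2.1)

lemma Orb.GLam (h : Orb ν₀ U y G) {p : ℝ × ℝ × ℂ} (hp : p ∈ LDom ν₀ U) :
    ContDiffAt ℝ ∞ (fun p : ℝ × ℝ × ℂ => G (nu p, p.2.2)) p :=
  ContDiffAt.comp (g := G) (f := fun p : ℝ × ℝ × ℂ => (nu p, p.2.2)) p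
    (h.GC.contDiffAt (h.isOpen_dom.mem_nhds ⟨hp.2.2, hp.1⟩)) (pair_contDiffAt hp.2.1)

lemma tauLam {p : ℝ × ℝ × ℂ} (hg : 0 < g p.2.2) :
    ContDiffAt ℝ ∞ (fun p : ℝ × ℝ × ℂ => tau p.2.2) p :=
  ContDiffAt.comp (g := tau) (f := fun p : ℝ × ℝ × ℂ => p.2.2) p (contDiffAt_tau hg)
      (contDiff_snd.comp contDiff_snd).contDiffAt

lemma hhLam {p : ℝ × ℝ × ℂ} (hg : 0 < g p.2.2) :
    ContDiffAt ℝ ∞ (fun p : ℝ × ℝ × ℂ => hh p.2.2) p :=
  ContDiffAt.comp (g := hh) (f := fun p : ℝ × ℝ × ℂ => p.2.2) p (contDiffAt_hh hg)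
      (contDiff_snd.comp contDiff_snd).contDiffAt

lemma Orb.LamC (h : Orb ν₀ U y G) : ContDiffOn ℝ ∞ (Lam y G) (LDom ν₀ U) := by
  intro p hp
  have h1 : ContDiffAt ℝ ∞ (fun p : ℝ × ℝ × ℂ => p.2.1) p :=
    (contDiff_fst.comp contDiff_snd).contDiffAt
  exact (contDiff_fst.contDiffAt.prodMk (((tauLam hp.2.1).add (h1.mul (h.GLam hp))).prodMk
    (h.yLam hp))).contDiffWithinAt

lemma Orb.AC (h : Orb ν₀ U y G) : ContDiffOn ℝ ∞ (Afun G) (LDom ν₀ U) := by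
  intro p hp
  have h1 : ContDiffAt ℝ ∞ (fun p : ℝ × ℝ × ℂ => p.2.1) p :=
    (contDiff_fst.comp contDiff_snd).contDiffAt
  have h2 := (tauLam hp.2.1).add (h1.mul (h.GLam hp))
  have h3 := ContDiffAt.comp (g := ee) p contDiff_ee.contDiffAt h2
  have h4 := ContDiffAt.comp (g := ee) p contDiff_ee.contDiffAt (tauLam hp.2.1)
  exact ((((h3.sub h4).sub h1).sub (((hhLam hp.2.1).mul h1).mul (h.GLam hp)))).contDiffWithinAt

/-- The derivative identity along a line with fixed ε. -/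
lemma Orb.deriv_identity (h : Orb ν₀ U y G) {p : ℝ × ℝ × ℂ} (hp : p ∈ LDom ν₀ U)
    (a : ℝ) (ξ : ℂ) :
    fderiv ℝ (Afun G) p (0, a, ξ) =
      (hh p.2.2 + EE (tau p.2.2 + p.2.1 * G (nu p, p.2.2))) * (fderiv ℝ (Lam y G) p (0, a, ξ)).2.1
      - 2 * hh p.2.2 * p.2.1 * inner ℝ (fderiv ℝ y (nu p, p.2.2) (1, 0))
        (fderiv ℝ (Lam y G) p (0, a, ξ)).2.2 ∧
    (fderiv ℝ (Lam y G) p (0, a, ξ)).1 = 0 := by
  obtain ⟨ε, s, w⟩ := p
  have hg : 0 < g w := hp.2.1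
  have hdom : (nu (ε, s, w), w) ∈ Ioo (-ν₀) ν₀ ×ˢ U := ⟨hp.2.2, hp.1⟩
  simp only
  -- the line
  have hs : HasDerivAt (fun r : ℝ => s + r * a) a 0 := by
    simpa using ((hasDerivAt_id (0:ℝ)).mul_const a).const_add s
  have hw : HasDerivAt (fun r : ℝ => w + r • ξ) ξ 0 := by
    have := ((hasDerivAt_id (0:ℝ)).smul_const ξ).const_add w
    simpa using this
  have hline : HasDerivAt (fun r : ℝ => (ε, s + r * a, w + r • ξ)) ((0:ℝ), a, ξ) 0 :=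
    (hasDerivAt_const 0 ε).prodMk (hs.prodMk hw)
  have hgd : HasDerivAt (fun r : ℝ => g (w + r • ξ)) (ip (gradg w) ξ) 0 := by
    have h4 : HasFDerivAt g (ip (gradg w)) ((fun r : ℝ => w + r • ξ) 0) := by
      simpa using hasFDerivAt_g w
    have h5 : HasDerivAt (g ∘ fun r : ℝ => w + r • ξ) (ip (gradg w) ξ) 0 :=
      h4.comp_hasDerivAt 0 hw
    exact h5
  set dg := ip (gradg w) ξ with hdg
  have hgd0 : g (w + (0:ℝ) • ξ) = g w := by simp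
  have hhd : HasDerivAt (fun r : ℝ => hh (w + r • ξ)) (2 * (hh w)^2 * dg) 0 := by
    have h1 := (hasDerivAt_const (0:ℝ) (-1:ℝ)).div (hgd.const_mul 2) (by rw [hgd0]; positivity)
    refine h1.congr_deriv ?_
    rw [hgd0]
    unfold hh; field_simp; ring
  have htd : HasDerivAt (fun r : ℝ => tau (w + r • ξ)) (- 6 * dg / (g w)^2) 0 := by
    have h1 := ((hasDerivAt_const (0:ℝ) (6:ℝ)).div hgd (by rw [hgd0]; positivity)).sub_const 3
    refine h1.congr_deriv ?_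
    rw [hgd0]
    field_simp; ring
  set dν := ε^2 * (2 * (hh w)^2 * dg * s^2 + hh w * (2 * s * a)) with hdν
  have hnd : HasDerivAt (fun r : ℝ => nu (ε, s + r * a, w + r • ξ)) dν 0 := by
    have h1 := ((hhd.mul (hs.pow 2)).const_mul (ε^2))
    refine h1.congr_deriv ?_
    simp [hdν]
  have hpair : HasDerivAt (fun r : ℝ => (nu (ε, s + r * a, w + r • ξ), w + r • ξ)) (dν, ξ) 0 :=
    hnd.prodMk hw
  set N := nu (ε, s, w) with hN
  have hG : HasDerivAt (fun r : ℝ => G (nu (ε, s + r * a, w + r • ξ), w + r • ξ))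
      (fderiv ℝ G (N, w) (dν, ξ)) 0 := by
    have h4 : HasFDerivAt G (fderiv ℝ G (N, w))
        ((fun r : ℝ => (nu (ε, s + r * a, w + r • ξ), w + r • ξ)) 0) := by
      simpa using h.Gd hdom
    exact h4.comp_hasDerivAt 0 hpair
  have hy : HasDerivAt (fun r : ℝ => y (nu (ε, s + r * a, w + r • ξ), w + r • ξ))
      (fderiv ℝ y (N, w) (dν, ξ)) 0 := by
    have h4 : HasFDerivAt y (fderiv ℝ y (N, w))
        ((fun r : ℝ => (nu (ε, s + r * a, w + r • ξ), w + r • ξ)) 0) := by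
      simpa using h.yd hdom
    exact h4.comp_hasDerivAt 0 hpair
  have hopen := isOpen_LDom (ν₀ := ν₀) h.hU
  have hθ := htd.add (hs.mul hG)
  have hLamd : HasDerivAt (fun r : ℝ => Lam y G (ε, s + r * a, w + r • ξ))
      (fderiv ℝ (Lam y G) (ε, s, w) (0, a, ξ)) 0 := by
    have h4 : HasFDerivAt (Lam y G) (fderiv ℝ (Lam y G) (ε, s, w))
        ((fun r : ℝ => (ε, s + r * a, w + r • ξ)) 0) := by
      simpa using (((h.LamC.contDiffAt (hopen.mem_nhds hp)).differentiableAt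
        (by simp)).hasFDerivAt)
    exact h4.comp_hasDerivAt 0 hline
  have hLam2 := (hasDerivAt_const (0:ℝ) ε).prodMk (hθ.prodMk hy)
  have hLamEq := hLamd.unique hLam2
  have hAd : HasDerivAt (fun r : ℝ => Afun G (ε, s + r * a, w + r • ξ))
      (fderiv ℝ (Afun G) (ε, s, w) (0, a, ξ)) 0 := by
    have h4 : HasFDerivAt (Afun G) (fderiv ℝ (Afun G) (ε, s, w))
        ((fun r : ℝ => (ε, s + r * a, w + r • ξ)) 0) := by
      simpa using (((h.AC.contDiffAt (hopen.mem_nhds hp)).differentiableAt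
        (by simp)).hasFDerivAt)
    exact h4.comp_hasDerivAt 0 hline
  have hee : HasDerivAt (fun r : ℝ => ee (tau (w + r • ξ) +
      (s + r * a) * G (nu (ε, s + r * a, w + r • ξ), w + r • ξ))) _ 0 :=
    HasDerivAt.comp (h₂ := ee) (0:ℝ) (hasDerivAt_ee _) hθ
  have hee2 : HasDerivAt (fun r : ℝ => ee (tau (w + r • ξ))) _ 0 :=
    HasDerivAt.comp (h₂ := ee) (0:ℝ) (hasDerivAt_ee _) htd
  have hA2 := ((hee.sub hee2).sub hs).sub ((hhd.mul hs).mul hG)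
  have hAEq := hAd.unique hA2
  have hdec : ((dν, ξ) : ℝ × ℂ) = dν • ((1:ℝ), (0:ℂ)) + ((0:ℝ), ξ) := by
    ext <;> simp
  have hGdec : fderiv ℝ G (N, w) (dν, ξ) = dν * fderiv ℝ G (N, w) (1, 0) +
      fderiv ℝ G (N, w) (0, ξ) := by
    rw [hdec, map_add, map_smul, smul_eq_mul]
  have hydec : fderiv ℝ y (N, w) (dν, ξ) = dν • fderiv ℝ y (N, w) (1, 0) +
      fderiv ℝ y (N, w) (0, ξ) := by
    rw [hdec, map_add, map_smul]
  have k1 := h.Gode' hdom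
  have k2 := h.E1 hdom
  have k3 := h.starstar hdom ξ
  have k4 : inner ℝ (fderiv ℝ y (N, w) (1, 0)) (fderiv ℝ y (N, w) (dν, ξ)) =
      dν * ‖fderiv ℝ y (N, w) (1, 0)‖^2 +
        inner ℝ (fderiv ℝ y (N, w) (1, 0)) (fderiv ℝ y (N, w) (0, ξ)) := by
    rw [hydec, inner_add_right, inner_smul_right, real_inner_self_eq_norm_sq]
  have k5 : EE (tau w) = - hh w := EE_tau hg
  have k6 : 2 * hh w * g w = -1 := by unfold hh; field_simp
  have k7 : N = ε^2 * (hh w * s^2) := rfl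
  have k8 : hh w * (-6 * dg / g w ^ 2) + EE (tau w) * (-6 * dg / g w ^ 2) = 0 := by
    rw [k5]; ring
  rw [hLamEq, hAEq]
  refine ⟨?_, rfl⟩
  rw [k4]
  simp only [Pi.mul_apply, hGdec, zero_smul, zero_mul, add_zero, ← hN]
  rw [hdν]
  linear_combination -k8 - hh w * s * k3 - (2 * hh w ^ 2 * dg * s + 2 * hh w * a) * (k1 + k2) +
    2 * (fderiv ℝ G (N, w) (1, 0) - ‖fderiv ℝ y (N, w) (1, 0)‖^2) *
      (2 * hh w ^ 2 * dg * s + 2 * hh w * a) * k7 - (hh w * dg * s + a) * k6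

end

end Pool.Agent.MFG
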