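import Pool.Agent.MP_03ede7_an.QSol

set_option autoImplicit false
open Set Filter Topology Complex MeasureTheory
open scoped ComplexConjugate ContDiff

namespace Pool.Agent.MFG

noncomputable section

variable {ν₀ : ℝ} {U : Set ℂ} {y : ℝ × ℂ → ℂ} {G : ℝ × ℂ → ℝ}

lemma hasFDerivAt_tau {w : ℂ} (hg : g w ≠ 0) :
    HasFDerivAt tau ((-6 / g w ^ 2) • ip (gradg w)) w := by
  have h1 : HasDerivAt (fun x : ℝ => 6 / x - 3) (-6 / g w ^ 2) (g w) := by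
    have := ((hasDerivAt_const (g w) (6:ℝ)).div (hasDerivAt_id (g w)) hg).sub_const 3
    refine this.congr_deriv ?_
    simp
  exact h1.comp_hasFDerivAt w (hasFDerivAt_g w)

/-- derivative of `Lam` at `ε = 0` as an equivalence. -/
def lamEquiv (s : ℝ) (w : ℂ) (hg : g w ≠ 0) : (ℝ × ℝ × ℂ) ≃L[ℝ] (ℝ × ℝ × ℂ) :=
  ContinuousLinearEquiv.equivOfInverse
    ((ContinuousLinearMap.fst ℝ ℝ (ℝ × ℂ)).prod
      ((((-6 / g w ^ 2 + s) • ip (gradg w)) ∘L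
          (ContinuousLinearMap.snd ℝ ℝ ℂ) ∘L (ContinuousLinearMap.snd ℝ ℝ (ℝ × ℂ)) +
        (g w) • ((ContinuousLinearMap.fst ℝ ℝ ℂ) ∘L (ContinuousLinearMap.snd ℝ ℝ (ℝ × ℂ)))).prod
        ((ContinuousLinearMap.snd ℝ ℝ ℂ) ∘L (ContinuousLinearMap.snd ℝ ℝ (ℝ × ℂ)))))
    ((ContinuousLinearMap.fst ℝ ℝ (ℝ × ℂ)).prod
      (((g w)⁻¹ • ((ContinuousLinearMap.fst ℝ ℝ ℂ) ∘L (ContinuousLinearMap.snd ℝ ℝ (ℝ × ℂ)) -
        ((-6 / g w ^ 2 + s) • ip (gradg w)) ∘L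
          (ContinuousLinearMap.snd ℝ ℝ ℂ) ∘L (ContinuousLinearMap.snd ℝ ℝ (ℝ × ℂ)))).prod
        ((ContinuousLinearMap.snd ℝ ℝ ℂ) ∘L (ContinuousLinearMap.snd ℝ ℝ (ℝ × ℂ)))))
    (fun x => by
      obtain ⟨a, b, c⟩ := x
      simp [hg])
    (fun x => by
      obtain ⟨a, b, c⟩ := x
      simp [hg])

lemma nu_zero (s : ℝ) (w : ℂ) : nu (0, s, w) = 0 := by simp [nu]

lemma hasFDerivAt_nu_zero (s : ℝ) {w : ℂ} (hg : 0 < g w) :
    HasFDerivAt nu (0 : (ℝ × ℝ × ℂ) →L[ℝ] ℝ) (0, s, w) := by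
  have hm : ContDiffAt ℝ ∞ (fun p : ℝ × ℝ × ℂ => hh p.2.2 * p.2.1 ^ 2) (0, s, w) := by
    have h1 : ContDiffAt ℝ ∞ (fun p : ℝ × ℝ × ℂ => hh p.2.2) (0, s, w) := hhLam hg
    have h3 : ContDiffAt ℝ ∞ (fun p : ℝ × ℝ × ℂ => p.2.1 ^ 2) (0, s, w) :=
      ((contDiff_fst.comp contDiff_snd).pow 2).contDiffAt
    exact h1.mul h3
  have hm' := (hm.differentiableAt (by simp)).hasFDerivAt
  have h1 : HasFDerivAt (fun p : ℝ × ℝ × ℂ => p.1) (ContinuousLinearMap.fst ℝ ℝ (ℝ × ℂ))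
    ((0:ℝ), s, w) := hasFDerivAt_fst
  have h2 := h1.mul (h1.mul hm')
  refine (h2.congr_fderiv ?_).congr_of_eventuallyEq (Eventually.of_forall fun p => ?_)
  · simp
  · simp only [nu, Pi.mul_apply]; ring

lemma Orb.hasFDerivAt_Lam_zero (h : Orb ν₀ U y G) (s : ℝ) {w : ℂ} (hw : w ∈ U) (hg : 0 < g w) :
    HasFDerivAt (Lam y G) ((lamEquiv s w hg.ne' : (ℝ × ℝ × ℂ) ≃L[ℝ] (ℝ × ℝ × ℂ)) :
      (ℝ × ℝ × ℂ) →L[ℝ] (ℝ × ℝ × ℂ)) (0, s, w) := by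
  have h0 : (0:ℝ) ∈ Ioo (-ν₀) ν₀ := ⟨by linarith [h.pos], h.pos⟩
  have hdom : ((0:ℝ), w) ∈ Ioo (-ν₀) ν₀ ×ˢ U := ⟨h0, hw⟩
  have hn := hasFDerivAt_nu_zero s hg
  have hsnd : HasFDerivAt (fun p : ℝ × ℝ × ℂ => p.2.2)
      ((ContinuousLinearMap.snd ℝ ℝ ℂ) ∘L (ContinuousLinearMap.snd ℝ ℝ (ℝ × ℂ)))
      ((0:ℝ), s, w) :=
    ((ContinuousLinearMap.snd ℝ ℝ ℂ) ∘L (ContinuousLinearMap.snd ℝ ℝ (ℝ × ℂ))).hasFDerivAt
  have hsf : HasFDerivAt (fun p : ℝ × ℝ × ℂ => p.2.1)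
      ((ContinuousLinearMap.fst ℝ ℝ ℂ) ∘L (ContinuousLinearMap.snd ℝ ℝ (ℝ × ℂ)))
      ((0:ℝ), s, w) :=
    ((ContinuousLinearMap.fst ℝ ℝ ℂ) ∘L (ContinuousLinearMap.snd ℝ ℝ (ℝ × ℂ))).hasFDerivAt
  have hpair := hn.prodMk hsnd
  have hG4 : HasFDerivAt G (fderiv ℝ G (0, w))
      ((fun p : ℝ × ℝ × ℂ => (nu p, p.2.2)) ((0:ℝ), s, w)) := by
    simpa [nu_zero] using h.Gd hdom
  have hG := hG4.comp ((0:ℝ), s, w) hpair
  have hy4 : HasFDerivAt y (fderiv ℝ y (0, w))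
      ((fun p : ℝ × ℝ × ℂ => (nu p, p.2.2)) ((0:ℝ), s, w)) := by
    simpa [nu_zero] using h.yd hdom
  have hy := hy4.comp ((0:ℝ), s, w) hpair
  have htau : HasFDerivAt tau ((-6 / g w ^ 2) • ip (gradg w)) w := hasFDerivAt_tau hg.ne'
  have htau' := HasFDerivAt.comp (g := tau) ((0:ℝ), s, w) htau hsnd
  have hfst : HasFDerivAt (fun p : ℝ × ℝ × ℂ => p.1) (ContinuousLinearMap.fst ℝ ℝ (ℝ × ℂ))
    ((0:ℝ), s, w) := hasFDerivAt_fst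
  have htot := hfst.prodMk ((htau'.add (hsf.mul hG)).prodMk hy)
  -- derivatives of the slices
  have hU := h.hU
  have gy : ∀ ξ : ℂ, fderiv ℝ y (0, w) (0, ξ) = ξ := by
    intro ξ
    have e1 := hasDerivAt_slice_snd (h.yd hdom) ξ
    have e2 : HasDerivAt (fun r : ℝ => w + r • ξ) ξ 0 := by
      have := ((hasDerivAt_id (0:ℝ)).smul_const ξ).const_add w
      simpa using this
    refine e1.unique (e2.congr_of_eventuallyEq ?_)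
    have hc : ContinuousAt (fun r : ℝ => w + r • ξ) 0 := by fun_prop
    filter_upwards [hc (by simpa using hU.mem_nhds hw)] with r hr using h.y0 _ hr
  have gG : ∀ ξ : ℂ, fderiv ℝ G (0, w) (0, ξ) = ip (gradg w) ξ := by
    intro ξ
    have e1 := hasDerivAt_slice_snd (h.Gd hdom) ξ
    have e2 : HasDerivAt (fun r : ℝ => w + r • ξ) ξ 0 := by
      have := ((hasDerivAt_id (0:ℝ)).smul_const ξ).const_add w
      simpa using this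
    have e3 : HasDerivAt (g ∘ fun r : ℝ => w + r • ξ) (ip (gradg w) ξ) 0 := by
      have h4 : HasFDerivAt g (ip (gradg w)) ((fun r : ℝ => w + r • ξ) 0) := by
        simpa using hasFDerivAt_g w
      exact h4.comp_hasDerivAt 0 e2
    refine e1.unique (e3.congr_of_eventuallyEq ?_)
    have hc : ContinuousAt (fun r : ℝ => w + r • ξ) 0 := by fun_prop
    filter_upwards [hc (by simpa using hU.mem_nhds hw)] with r hr using h.G0 _ hr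
  refine (htot.congr_fderiv ?_)
  apply ContinuousLinearMap.ext
  rintro ⟨a, b, c⟩
  simp [lamEquiv, gy, gG, nu_zero, h.G0 w hw]
  ring

end

end Pool.Agent.MFG
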