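import Pool.Agent.MP_03ede7_an.QSol2

set_option autoImplicit false
open Set Filter Topology Complex MeasureTheory
open scoped ComplexConjugate ContDiff

namespace Pool.Agent.MFG

noncomputable section

variable {ν₀ : ℝ} {U : Set ℂ} {y : ℝ × ℂ → ℂ} {G : ℝ × ℂ → ℝ}

lemma exists_orb : ∃ (ν₀ : ℝ) (U : Set ℂ) (y : ℝ × ℂ → ℂ) (G : ℝ × ℂ → ℝ),
    Orb ν₀ U y G ∧ R2 ⊆ U := by
  obtain ⟨ν₀, hν₀, U, hU, hKU, y, G, h1, h2, h3, h4, h5, h6⟩ := exists_orbit isCompact_R2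
  exact ⟨ν₀, U, y, G, ⟨hν₀, hU, h1, h2, h3, h4, h5, h6⟩, hKU⟩

lemma Orb.fst_fderiv_Lam (h : Orb ν₀ U y G) {p : ℝ × ℝ × ℂ} (hp : p ∈ LDom ν₀ U)
    (v : ℝ × ℝ × ℂ) : (fderiv ℝ (Lam y G) p v).1 = v.1 := by
  have h1 : HasFDerivAt (Lam y G) (fderiv ℝ (Lam y G) p) p :=
    ((h.LamC.contDiffAt ((isOpen_LDom h.hU).mem_nhds hp)).differentiableAt (by simp)).hasFDerivAt
  have h2 := (hasFDerivAt_fst (𝕜 := ℝ) (p := Lam y G p)).comp p h1
  have h3 : HasFDerivAt (fun p : ℝ × ℝ × ℂ => p.1) (ContinuousLinearMap.fst ℝ ℝ (ℝ × ℂ)) p :=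
    hasFDerivAt_fst
  have h4 := h2.unique h3
  exact congrArg (fun L => L v) h4

lemma Lam_zero (h : Orb ν₀ U y G) (s : ℝ) {w : ℂ} (hw : w ∈ U) :
    Lam y G (0, s, w) = (0, tau w + s * g w, w) := by
  simp [Lam, nu_zero, h.y0 w hw, h.G0 w hw]

/-- positivity estimate. -/
lemma Afun_nonneg {ε s : ℝ} {w : ℂ} {C : ℝ} (hg : 1/3 < g w) (hs : |s| ≤ 25)
    (_hC0 : 0 ≤ C) (hC : C * ε^2 ≤ 1/100000)
    (hG : |G (nu (ε, s, w), w) - g w| ≤ C * |nu (ε, s, w)|) :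
    0 ≤ Afun G (ε, s, w) := by
  have hgpos : 0 < g w := by linarith
  set Γ := G (nu (ε, s, w), w) with hΓ
  have hA : Afun G (ε, s, w) = s * (Γ - g w) / g w + s^2 * Γ^2 / 24 := by
    simp only [Afun, ← hΓ, ee, tau, hh]
    field_simp
    ring
  have hnu : |nu (ε, s, w)| = ε^2 * s^2 / (2 * g w) := by
    have h1 : nu (ε, s, w) = - (ε^2 * s^2 / (2 * g w)) := by
      simp only [nu, hh]; field_simp
    rw [h1, abs_neg, abs_of_nonneg (by positivity)]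
  have hs2 : s^2 ≤ 625 := by
    have := sq_le_sq' (abs_le.1 hs).1 (abs_le.1 hs).2
    linarith
  have hginv : 1 / g w ≤ 3 := by
    rw [div_le_iff₀ hgpos]; linarith
  have hginv0 : 0 < 1 / g w := by positivity
  have e1 : C * |nu (ε, s, w)| = (C * ε^2) * s^2 * (1 / g w) / 2 := by
    rw [hnu]; field_simp
  have e2 : C * |nu (ε, s, w)| ≤ s^2 * (3/200000) := by
    rw [e1]
    have h1 : (C * ε^2) * s^2 ≤ (1/100000) * s^2 := mul_le_mul_of_nonneg_right hC (sq_nonneg s)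
    have h2 : (C * ε^2) * s^2 * (1 / g w) ≤ ((1/100000) * s^2) * 3 :=
      mul_le_mul h1 hginv hginv0.le (by positivity)
    linarith
  have e3 : |Γ - g w| ≤ s^2 * (3/200000) := hG.trans e2
  have e4 : |Γ - g w| ≤ 1/100 := by nlinarith
  have e5 : 1/4 ≤ Γ := by
    have := (abs_le.1 e4).1; linarith
  have e6 : |s * (Γ - g w) / g w| ≤ s^2 * (9/8000) := by
    rw [abs_div, abs_mul, abs_of_pos hgpos, div_eq_mul_one_div]
    have h1 : |s| * |Γ - g w| ≤ 25 * (s^2 * (3/200000)) :=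
      mul_le_mul hs e3 (abs_nonneg _) (by norm_num)
    calc |s| * |Γ - g w| * (1 / g w) ≤ (25 * (s^2 * (3/200000))) * 3 :=
          mul_le_mul h1 hginv hginv0.le (by positivity)
      _ = s^2 * (9/8000) := by ring
  have e7 := (abs_le.1 e6).1
  have e8 : 1/16 ≤ Γ^2 := by nlinarith
  rw [hA]
  nlinarith [mul_le_mul_of_nonneg_left e8 (sq_nonneg s)]

theorem exists_q : ∃ ε₁ : ℝ, 0 < ε₁ ∧ ∀ ε : ℝ, 0 < ε → ε < ε₁ →
    ∃ (q : ℝ × ℂ → ℝ) (N : Set (ℝ × ℂ)), IsOpen N ∧ Icc (0:ℝ) 1 ×ˢ R2 ⊆ N ∧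
      ContDiffOn ℝ ∞ q N ∧
      (∀ t ∈ Icc (0:ℝ) 1, ∀ w ∈ R2,
        fderiv ℝ q (t, w) (1, 0) * g w =
          ε^2 / 2 * ((fderiv ℝ q (t, w) (0, 1))^2 + (fderiv ℝ q (t, w) (0, I))^2)
            - 1/2 + EE t * g w) ∧
      (∀ t ∈ Icc (0:ℝ) 1, ∀ w ∈ R2, 0 ≤ q (t, w)) ∧
      (∀ w ∈ R2, q (tau w, w) = 0 ∧ fderiv ℝ q (tau w, w) = 0) := by
  obtain ⟨ν₀, U, y, G, h, hRU⟩ := exists_orb
  have hcg : Continuous g := (contDiff_g (n := 0)).continuous
  obtain ⟨K1, hK1, hRK1, hK1U⟩ := exists_compact_between isCompact_R2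
    (h.hU.inter (isOpen_Ioi.preimage hcg : IsOpen (g ⁻¹' Ioi (1/3)))) (fun w hw =>
      ⟨hRU hw, by
        have := g_ge hw
        simp only [mem_preimage, mem_Ioi]; linarith⟩)
  -- bound on ∂_ν G
  have hcont : ContinuousOn (fun p => fderiv ℝ G p (1, 0)) (Ioo (-ν₀) ν₀ ×ˢ U) := by
    have := h.GC.continuousOn_fderiv_of_isOpen h.isOpen_dom (by norm_cast)
    exact this.clm_apply continuousOn_const
  have hsub1 : Icc (-(ν₀/2)) (ν₀/2) ×ˢ K1 ⊆ Ioo (-ν₀) ν₀ ×ˢ U := by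
    rintro ⟨a, b⟩ ⟨ha, hb⟩
    exact ⟨⟨by linarith [ha.1, h.pos], by linarith [ha.2, h.pos]⟩, (hK1U hb).1⟩
  obtain ⟨C0, hC0⟩ := (isCompact_Icc.prod hK1).exists_bound_of_continuousOn
    (hcont.mono hsub1)
  set C := max C0 0 + 1 with hC
  have hCpos : 0 < C := by positivity
  have hGlip : ∀ ν ∈ Icc (-(ν₀/2)) (ν₀/2), ∀ w ∈ K1, |G (ν, w) - g w| ≤ C * |ν| := by
    intro ν hν w hw
    have h0 : (0:ℝ) ∈ Icc (-(ν₀/2)) (ν₀/2) := ⟨by linarith [h.pos], by linarith [h.pos]⟩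
    have := (convex_Icc (-(ν₀/2)) (ν₀/2)).norm_image_sub_le_of_norm_hasDerivWithin_le
      (f := fun ν => G (ν, w)) (f' := fun ν => fderiv ℝ G (ν, w) (1, 0)) (C := C)
      (fun x hx => (hasDerivAt_slice_fst (h.Gd (hsub1 ⟨hx, hw⟩))).hasDerivWithinAt)
      (fun x hx => (hC0 (x, w) ⟨hx, hw⟩).trans (by
        rw [hC]; linarith [le_max_left C0 0])) h0 hν
    simp only [h.G0 w (hK1U hw).1, Real.norm_eq_abs, sub_zero] at this
    exact this
  set ε₂ := min 1 (min (ν₀ / 2000) (1 / (100000 * C))) with hε₂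
  have hε₂pos : 0 < ε₂ := by
    have := h.pos
    positivity
  have hεsq : ∀ ε : ℝ, |ε| < ε₂ → ε^2 < ν₀/2000 ∧ C * ε^2 ≤ 1/100000 := by
    intro ε hε
    have h1 : |ε| < 1 := hε.trans_le (min_le_left _ _)
    have h2 : |ε| < ν₀/2000 := hε.trans_le ((min_le_right _ _).trans (min_le_left _ _))
    have h3 : |ε| < 1 / (100000 * C) := hε.trans_le ((min_le_right _ _).trans (min_le_right _ _))
    have h4 : ε^2 ≤ |ε| := by
      rw [← sq_abs]; nlinarith [abs_nonneg ε]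
    refine ⟨h4.trans_lt h2, ?_⟩
    rw [lt_div_iff₀ (by positivity)] at h3
    nlinarith
  -- the working domain
  set D : Set (ℝ × ℝ × ℂ) := {p | |p.1| < ε₂ ∧ |p.2.1| < 25 ∧ p.2.2 ∈ interior K1} with hD
  have hDo : IsOpen D := by
    refine (isOpen_lt (continuous_abs.comp continuous_fst) continuous_const).inter
      ((isOpen_lt (continuous_abs.comp (continuous_fst.comp continuous_snd))
        continuous_const).inter ?_)
    exact isOpen_interior.preimage (continuous_snd.comp continuous_snd)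
  have hDprop : ∀ p ∈ D, 1/3 < g p.2.2 ∧ p.2.2 ∈ U ∧ |p.2.1| ≤ 25 ∧
      nu p ∈ Icc (-(ν₀/2)) (ν₀/2) ∧ p.2.2 ∈ K1 ∧ C * p.1^2 ≤ 1/100000 := by
    rintro ⟨ε, s, w⟩ ⟨h1, h2, h3⟩
    simp only at h1 h2 h3
    have hwK := interior_subset h3
    have hg : 1/3 < g w := (hK1U hwK).2
    have hgpos : 0 < g w := by linarith
    refine ⟨hg, (hK1U hwK).1, h2.le, ?_, hwK, (hεsq ε h1).2⟩
    have hnu : nu (ε, s, w) = - (ε^2 * (s^2 * (1 / g w) / 2)) := by
      simp only [nu, hh]; field_simp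
    have hs2 : s^2 ≤ 625 := by
      have := sq_le_sq' (abs_le.1 h2.le).1 (abs_le.1 h2.le).2
      linarith
    have hginv : 1 / g w ≤ 3 := by
      rw [div_le_iff₀ hgpos]; linarith
    have hginv0 : 0 < 1 / g w := by positivity
    have e1 : s^2 * (1 / g w) ≤ 625 * 3 := mul_le_mul hs2 hginv hginv0.le (by norm_num)
    have e0 : 0 ≤ s^2 * (1 / g w) := by positivity
    have e2 : ε^2 * (s^2 * (1 / g w) / 2) ≤ (ν₀/2000) * (625 * 3 / 2) :=
      mul_le_mul (hεsq ε h1).1.le (by linarith) (by positivity) (by linarith [h.pos])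
    have e3 : 0 ≤ ε^2 * (s^2 * (1 / g w) / 2) := by positivity
    rw [hnu, mem_Icc]
    constructor <;> linarith [h.pos]
  have hDL : D ⊆ LDom ν₀ U := by
    intro p hp
    obtain ⟨h1, h2, h3, h4, h5, h6⟩ := hDprop p hp
    exact ⟨h2, by linarith, by linarith [h4.1, h.pos], by linarith [h4.2, h.pos]⟩
  have hApos : ∀ p ∈ D, 0 ≤ Afun G p := by
    rintro ⟨ε, s, w⟩ hp
    obtain ⟨h1, h2, h3, h4, h5, h6⟩ := hDprop _ hp
    exact Afun_nonneg h1 h3 hCpos.le h6 (hGlip _ h4 w h5)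
  -- the compact set
  set KL : Set (ℝ × ℝ × ℂ) := ({0} : Set ℝ) ×ˢ (Icc (-24:ℝ) 24 ×ˢ R2) with hKL
  have hKLc : IsCompact KL := isCompact_singleton.prod (isCompact_Icc.prod isCompact_R2)
  have hKLD : KL ⊆ D := by
    rintro ⟨ε, s, w⟩ ⟨h1, h2, h3⟩
    simp only [mem_singleton_iff] at h1
    simp only at h2 h3
    refine ⟨?_, ?_, hRK1 h3⟩
    · simp only [h1, abs_zero]; exact hε₂pos
    · exact (abs_le.2 h2).trans_lt (by norm_num)
  obtain ⟨V, hVo, hKV, hVD, hVinj, hVimg, hVe, finv, hfinv, hfinvC⟩ :=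
    exists_inverse_near_compact (n := ∞) (by simp) hDo (h.LamC.mono hDL) hKLc hKLD (by
      rintro ⟨ε, s, w⟩ ⟨h1, h2, h3⟩
      simp only [mem_singleton_iff] at h1
      subst h1
      exact ⟨_, h.hasFDerivAt_Lam_zero s (hRU h3) (g_pos h3)⟩) (by
      rintro ⟨ε, s, w⟩ ⟨h1, h2, h3⟩ ⟨ε', s', w'⟩ ⟨h1', h2', h3'⟩ heq
      simp only [mem_singleton_iff] at h1 h1'
      subst h1 h1'
      rw [Lam_zero h s (hRU h3), Lam_zero h s' (hRU h3')] at heq
      simp only [Prod.mk.injEq, true_and] at heq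
      obtain ⟨e1, e2⟩ := heq
      subst e2
      have : s = s' := by
        have hg := g_pos h3
        have : s * g w = s' * g w := by linarith
        exact mul_right_cancel₀ hg.ne' this
      rw [this])
  -- tubes
  have hT1 : ({0} : Set ℝ) ×ˢ (Icc (0:ℝ) 1 ×ˢ R2) ⊆ Lam y G '' V := by
    rintro ⟨ε, t, w⟩ ⟨h1, h2, h3⟩
    simp only [mem_singleton_iff] at h1
    subst h1
    have hg := g_ge h3
    have hgp := g_pos h3
    have hb : |(t - tau w) / g w| ≤ 24 := by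
      rw [abs_div, abs_of_pos hgp, div_le_iff₀ hgp, abs_le]
      have := tau_le h3
      have := tau_ge h3
      simp only at h2
      constructor <;> nlinarith [h2.1, h2.2]
    refine ⟨(0, (t - tau w) / g w, w), hKV ⟨rfl, abs_le.1 hb, h3⟩, ?_⟩
    rw [Lam_zero h _ (hRU h3)]
    simp only [Prod.mk.injEq, true_and, and_true]
    field_simp
    ring
  have hT2 : ({0} : Set ℝ) ×ˢ (({0} : Set ℝ) ×ˢ R2) ⊆ V := by
    rintro ⟨ε, s, w⟩ ⟨h1, h2, h3⟩
    simp only [mem_singleton_iff] at h1 h2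
    subst h1 h2
    exact hKV ⟨rfl, ⟨by norm_num, by norm_num⟩, h3⟩
  obtain ⟨u1, v1, hu1, hv1, h0u1, hv1sub, huv1⟩ :=
    generalized_tube_lemma isCompact_singleton (isCompact_Icc.prod isCompact_R2) hVimg hT1
  obtain ⟨u2, v2, hu2, hv2, h0u2, hv2sub, huv2⟩ :=
    generalized_tube_lemma isCompact_singleton (isCompact_singleton.prod isCompact_R2) hVo hT2
  obtain ⟨ε₁, hε₁, hε₁u⟩ := Metric.isOpen_iff.1 (hu1.inter hu2) 0 ⟨h0u1 rfl, h0u2 rfl⟩
  refine ⟨ε₁, hε₁, fun ε hε0 hε1 => ?_⟩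
  have hεu : ε ∈ u1 ∩ u2 := hε₁u (by
    rw [Real.ball_eq_Ioo]; constructor <;> linarith)
  set N : Set (ℝ × ℂ) := (fun p : ℝ × ℂ => (ε, p.1, p.2)) ⁻¹' (Lam y G '' V) with hN
  have hpairC : ContDiff ℝ ∞ (fun p : ℝ × ℂ => (ε, p.1, p.2)) :=
    contDiff_const.prodMk (contDiff_fst.prodMk contDiff_snd)
  have hNo : IsOpen N := hVimg.preimage hpairC.continuous
  have hQC : ContDiffOn ℝ ∞ (fun p => Afun G (finv p)) (Lam y G '' V) := by
    refine (h.AC.mono hDL).comp hfinvC ?_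
    rintro _ ⟨p, hp, rfl⟩
    rw [hfinv p hp]
    exact hVD hp
  set q : ℝ × ℂ → ℝ := fun p => Afun G (finv (ε, p.1, p.2)) with hq
  have hqC : ContDiffOn ℝ ∞ q N := hQC.comp hpairC.contDiffOn (fun x hx => hx)
  have hsubN : Icc (0:ℝ) 1 ×ˢ R2 ⊆ N := by
    rintro ⟨t, w⟩ ht
    exact huv1 ⟨hεu.1, hv1sub ht⟩
  -- the derivative of q at a point
  have hqd : ∀ p0 ∈ V, ∀ t w, Lam y G p0 = (ε, t, w) → q (t, w) = Afun G p0 ∧
      ∀ (b : ℝ) (ξ : ℂ), fderiv ℝ q (t, w) (b, ξ) =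
        (hh p0.2.2 + EE t) * b - 2 * hh p0.2.2 * p0.2.1 *
          inner ℝ (fderiv ℝ y (nu p0, p0.2.2) (1, 0)) ξ := by
    intro p0 hp0 t w heq
    have hfin : finv (ε, t, w) = p0 := by rw [← heq]; exact hfinv p0 hp0
    refine ⟨by simp only [hq, hfin], ?_⟩
    intro b ξ
    have himg : (ε, t, w) ∈ Lam y G '' V := ⟨p0, hp0, heq⟩
    have hQd : HasFDerivAt (fun p => Afun G (finv p))
        (fderiv ℝ (fun p => Afun G (finv p)) (ε, t, w)) (ε, t, w) :=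
      ((hQC.contDiffAt (hVimg.mem_nhds himg)).differentiableAt (by simp)).hasFDerivAt
    set DQ := fderiv ℝ (fun p => Afun G (finv p)) (ε, t, w) with hDQ
    obtain ⟨e, he⟩ := hVe p0 hp0
    have hlin : HasFDerivAt (fun p : ℝ × ℂ => (ε, p.1, p.2))
        ((0 : ℝ × ℂ →L[ℝ] ℝ).prod ((ContinuousLinearMap.fst ℝ ℝ ℂ).prod
          (ContinuousLinearMap.snd ℝ ℝ ℂ))) (t, w) :=
      (hasFDerivAt_const ε (t, w)).prodMk (hasFDerivAt_fst.prodMk hasFDerivAt_snd)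
    have hqd1 : HasFDerivAt q (DQ ∘L ((0 : ℝ × ℂ →L[ℝ] ℝ).prod
        ((ContinuousLinearMap.fst ℝ ℝ ℂ).prod (ContinuousLinearMap.snd ℝ ℝ ℂ)))) (t, w) :=
      HasFDerivAt.comp (g := fun p => Afun G (finv p)) (t, w) hQd hlin
    rw [hqd1.fderiv]
    simp only [ContinuousLinearMap.comp_apply, ContinuousLinearMap.prod_apply,
      ContinuousLinearMap.coe_fst', ContinuousLinearMap.coe_snd', _root_.zero_apply]
    -- chain rule
    have hQd' : HasFDerivAt (fun p => Afun G (finv p)) DQ (Lam y G p0) := by rw [heq]; exact hQd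
    have hchain : HasFDerivAt (fun p => Afun G (finv (Lam y G p))) (DQ ∘L (e : _ →L[ℝ] _)) p0 :=
      HasFDerivAt.comp (g := fun p => Afun G (finv p)) p0 hQd' he
    have hAd : HasFDerivAt (Afun G) (DQ ∘L (e : _ →L[ℝ] _)) p0 := by
      refine hchain.congr_of_eventuallyEq ?_
      filter_upwards [hVo.mem_nhds hp0] with p hp
      rw [hfinv p hp]
    have hefd : fderiv ℝ (Lam y G) p0 = (e : _ →L[ℝ] _) := he.fderiv
    set v := e.symm (0, b, ξ) with hv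
    have hev : (fderiv ℝ (Lam y G) p0) v = (0, b, ξ) := by
      rw [hefd, hv]; simp
    have hv1 : v.1 = 0 := by
      have := h.fst_fderiv_Lam (hDL (hVD hp0)) v
      rw [hev] at this
      exact this.symm
    have hvv : v = (0, v.2.1, v.2.2) := by
      ext <;> simp [hv1]
    have hid := (h.deriv_identity (hDL (hVD hp0)) v.2.1 v.2.2).1
    rw [← hvv, hev, hAd.fderiv] at hid
    simp only [ContinuousLinearMap.comp_apply] at hid
    have hev' : (e : (ℝ × ℝ × ℂ) →L[ℝ] (ℝ × ℝ × ℂ)) v = (0, b, ξ) := by rw [← hefd]; exact hev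
    rw [hev'] at hid
    have ht : tau p0.2.2 + p0.2.1 * G (nu p0, p0.2.2) = t := by
      have := congrArg (fun x => x.2.1) heq
      simpa [Lam] using this
    rw [ht] at hid
    exact hid
  refine ⟨q, N, hNo, hsubN, hqC, ?_, ?_, ?_⟩
  · intro t ht w hw
    obtain ⟨⟨ε', s, w0⟩, hp0, heq⟩ := hsubN (show (t, w) ∈ Icc (0:ℝ) 1 ×ˢ R2 from ⟨ht, hw⟩)
    simp only at heq
    have hε' : ε' = ε := congrArg Prod.fst heq
    subst hε'
    obtain ⟨-, hder⟩ := hqd _ hp0 t w heq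
    have hL := hDL (hVD hp0)
    have hdom : (nu (ε', s, w0), w0) ∈ Ioo (-ν₀) ν₀ ×ˢ U := ⟨hL.2.2, hL.1⟩
    have hE1 := h.E1 hdom
    have hyw : y (nu (ε', s, w0), w0) = w := congrArg (fun x => x.2.2) heq
    have hg0 : 0 < g w0 := hL.2.1
    rw [hyw] at hE1
    rw [hder 1 0, hder 0 1, hder 0 I]
    set P := fderiv ℝ y (nu (ε', s, w0), w0) (1, 0) with hP
    have hn : ‖P‖^2 = P.re^2 + P.im^2 := by
      rw [← Complex.normSq_eq_norm_sq, normSq_apply]; ring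
    have hi1 : inner ℝ P (1:ℂ) = P.re := by simp [Complex.inner]
    have hi2 : inner ℝ P I = P.im := by simp [Complex.inner]
    have hi0 : inner ℝ P (0:ℂ) = 0 := inner_zero_right _
    rw [hi1, hi2, hi0]
    rw [hn] at hE1
    simp only [mul_one, mul_zero, sub_zero, zero_sub]
    have k6 : 2 * hh w0 * g w0 = -1 := by unfold hh; field_simp
    have k7 : nu (ε', s, w0) = ε'^2 * (hh w0 * s^2) := rfl
    rw [k7] at hE1
    linear_combination (hh w0) * hE1 + k6 / 2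
  · intro t ht w hw
    obtain ⟨⟨ε', s, w0⟩, hp0, heq⟩ := hsubN (show (t, w) ∈ Icc (0:ℝ) 1 ×ˢ R2 from ⟨ht, hw⟩)
    simp only at heq
    obtain ⟨hval, -⟩ := hqd _ hp0 t w heq
    rw [hval]
    exact hApos _ (hVD hp0)
  · intro w hw
    have hp0 : (ε, (0:ℝ), w) ∈ V := huv2 ⟨hεu.2, hv2sub ⟨rfl, hw⟩⟩
    have hnu0 : nu (ε, (0:ℝ), w) = 0 := by simp [nu]
    have heq : Lam y G (ε, (0:ℝ), w) = (ε, tau w, w) := by
      simp [Lam, hnu0, h.y0 w (hRU hw)]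
    obtain ⟨hval, hder⟩ := hqd _ hp0 (tau w) w heq
    constructor
    · rw [hval]
      simp [Afun]
    · apply ContinuousLinearMap.ext
      rintro ⟨b, ξ⟩
      rw [hder b ξ, EE_tau (g_pos hw)]
      simp

end

end Pool.Agent.MFG
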