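import Pool.Agent.MP_03ede7_an.Pot

set_option autoImplicit false
open Set Filter Topology Complex MeasureTheory
open scoped ComplexConjugate ContDiff

namespace Pool.Agent.MFG

noncomputable section

/-- All the data for one fixed small `ε`. -/
structure Sys (ε : ℝ) (W0 : ℝ × ℂ → ℂ) (N : Set (ℝ × ℂ)) (q : ℝ × ℂ → ℝ) (Nq : Set (ℝ × ℂ))
    (ζ : ℂ → ℂ) (Nζ : Set ℂ) : Prop where
  geo : Geo ε W0 N
  isOpen_Nq : IsOpen Nq
  sub_Nq : Icc (0:ℝ) 1 ×ˢ R2 ⊆ Nq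
  qC : ContDiffOn ℝ ∞ q Nq
  qHJ : ∀ t ∈ Icc (0:ℝ) 1, ∀ w ∈ R2,
        fderiv ℝ q (t, w) (1, 0) * g w =
          ε^2 / 2 * ((fderiv ℝ q (t, w) (0, 1))^2 + (fderiv ℝ q (t, w) (0, I))^2)
            - 1/2 + EE t * g w
  qpos : ∀ t ∈ Icc (0:ℝ) 1, ∀ w ∈ R2, 0 ≤ q (t, w)
  q0 : ∀ w ∈ R2, q (tau w, w) = 0 ∧ fderiv ℝ q (tau w, w) = 0
  isOpen_Nζ : IsOpen Nζ
  sub_Nζ : Z '' R2 ⊆ Nζ
  ζC : ContDiffOn ℝ ∞ ζ Nζ
  ζZ : ∀ w ∈ R2, ζ (Z w) = w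
  Zζ : ∀ z ∈ Nζ, Z (ζ z) = z
  ζR3 : ∀ z ∈ Nζ, ζ z ∈ R3
  ζd : ∀ w ∈ R2, HasFDerivAt ζ (ContinuousLinearMap.mul ℝ ℂ (k w)⁻¹) (Z w)

theorem exists_sys : ∃ (ε : ℝ) (W0 : ℝ × ℂ → ℂ) (N : Set (ℝ × ℂ)) (q : ℝ × ℂ → ℝ)
    (Nq : Set (ℝ × ℂ)) (ζ : ℂ → ℂ) (Nζ : Set ℂ), Sys ε W0 N q Nq ζ Nζ := by
  obtain ⟨ε₁, h1, H1⟩ := exists_geo
  obtain ⟨ε₂, h2, H2⟩ := exists_q
  obtain ⟨ζ, Nζ, z1, z2, z3, z4, z5, z6⟩ := exists_zeta
  set ε := min ε₁ ε₂ / 2 with hε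
  have hpos : 0 < min ε₁ ε₂ := lt_min h1 h2
  have e1 : ε < ε₁ := by
    have := min_le_left ε₁ ε₂; rw [hε]; linarith
  have e2 : ε < ε₂ := by
    have := min_le_right ε₁ ε₂; rw [hε]; linarith
  have e0 : 0 < ε := by positivity
  obtain ⟨W0, N, hgeo⟩ := H1 ε e0 e1
  obtain ⟨q, Nq, q1, q2, q3, q4, q5, q6⟩ := H2 ε e0 e2
  exact ⟨ε, W0, N, q, Nq, ζ, Nζ, hgeo, q1, q2, q3, q4, q5, q6, z1, z2, z3, z4,
    fun z hz => (z5 z hz).1, fun z hz => (z5 z hz).2, z6⟩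

/-- released -/
def rel (t : ℝ) (w : ℂ) : Prop := 11/10 < |w.re| ∧ tau w < t

open Classical in
/-- pressure -/
def pp (ε : ℝ) (q : ℝ × ℂ → ℝ) (ζ : ℂ → ℂ) (x : ℝ × ℂ) : ℝ :=
  if rel x.1 (ζ x.2) then 0 else ε ^ 2 * q (x.1, ζ x.2)

/-- interior potential -/
def chiI (ε : ℝ) (ζ : ℂ → ℂ) (x : ℝ × ℂ) : ℝ := ε * (ζ x.2).re - ε ^ 2 * ee x.1

open Classical in
/-- potential -/
def chi (ε : ℝ) (W0 : ℝ × ℂ → ℂ) (ζ : ℂ → ℂ) (x : ℝ × ℂ) : ℝ :=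
  if rel x.1 (ζ x.2) then chiE ε W0 x else chiI ε ζ x

/-- gradient of `q` in `w` -/
def gq (q : ℝ × ℂ → ℝ) (x : ℝ × ℂ) : ℂ := ⟨fderiv ℝ q x (0, 1), fderiv ℝ q x (0, I)⟩

lemma fderiv_q_eq (q : ℝ × ℂ → ℝ) (x : ℝ × ℂ) :
    fderiv ℝ q x = Lv (fderiv ℝ q x (1, 0)) (gq q x) := by
  apply ContinuousLinearMap.ext
  rintro ⟨b, η⟩
  rw [Lv_apply, ip_apply]
  have : ((b, η) : ℝ × ℂ) = b • ((1:ℝ), (0:ℂ)) + η.re • ((0:ℝ), (1:ℂ)) + η.im • ((0:ℝ), I) := by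
    ext <;> simp
  rw [this, map_add, map_add, map_smul, map_smul, map_smul]
  simp [gq]
  ring

namespace Sys

variable {ε : ℝ} {W0 : ℝ × ℂ → ℂ} {N : Set (ℝ × ℂ)} {q : ℝ × ℂ → ℝ} {Nq : Set (ℝ × ℂ)}
    {ζ : ℂ → ℂ} {Nζ : Set ℂ}

/-- points of the closed channel: neighbourhood facts. -/
lemma near (h : Sys ε W0 N q Nq ζ Nζ) {t : ℝ} {w : ℂ} (ht : t ∈ Icc (0:ℝ) 1) (hw : w ∈ Sc) :
    ∃ U : Set (ℝ × ℂ), IsOpen U ∧ (t, Z w) ∈ U ∧ ∀ x ∈ U, x.1 ∈ Ioo (-1:ℝ) 2 ∧ x.2 ∈ Nζ ∧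
      ζ x.2 ∈ R2o ∧ x ∈ N ∧ (x.1, ζ x.2) ∈ Nq ∧ Z (ζ x.2) = x.2 := by
  have hwR2 := Sc_subset_R2 hw
  have hNζ : Z w ∈ Nζ := h.sub_Nζ ⟨w, hwR2, rfl⟩
  have hζc : ContinuousAt ζ (Z w) := h.ζC.continuousOn.continuousAt (h.isOpen_Nζ.mem_nhds hNζ)
  have hev : ∀ᶠ x : ℝ × ℂ in 𝓝 (t, Z w), x.1 ∈ Ioo (-1:ℝ) 2 ∧ x.2 ∈ Nζ ∧
      ζ x.2 ∈ R2o ∧ x ∈ N ∧ (x.1, ζ x.2) ∈ Nq ∧ Z (ζ x.2) = x.2 := by
    have c1 : ContinuousAt (fun x : ℝ × ℂ => x.1) (t, Z w) := continuous_fst.continuousAt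
    have c2 : ContinuousAt (fun x : ℝ × ℂ => x.2) (t, Z w) := continuous_snd.continuousAt
    have c3 : ContinuousAt (fun x : ℝ × ℂ => ζ x.2) (t, Z w) :=
      ContinuousAt.comp (g := ζ) hζc c2
    have c4 : ContinuousAt (fun x : ℝ × ℂ => (x.1, ζ x.2)) (t, Z w) := c1.prodMk c3
    have z0 : ζ (Z w) = w := h.ζZ w hwR2
    have m1 : ∀ᶠ x : ℝ × ℂ in 𝓝 (t, Z w), x.1 ∈ Ioo (-1:ℝ) 2 :=
      c1 (isOpen_Ioo.mem_nhds (by constructor <;> simp only <;> linarith [ht.1, ht.2]))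
    have m2 : ∀ᶠ x : ℝ × ℂ in 𝓝 (t, Z w), x.2 ∈ Nζ := c2 (h.isOpen_Nζ.mem_nhds hNζ)
    have m3 : ∀ᶠ x : ℝ × ℂ in 𝓝 (t, Z w), ζ x.2 ∈ R2o :=
      c3 (isOpen_R2o.mem_nhds (by simp only [z0]; exact Sc_subset_R2o hw))
    have m4 : ∀ᶠ x : ℝ × ℂ in 𝓝 (t, Z w), x ∈ N := by
      refine h.geo.isOpen_N.mem_nhds (h.geo.W0_mem ?_ hwR2)
      constructor <;> linarith [ht.1, ht.2]
    have m5 : ∀ᶠ x : ℝ × ℂ in 𝓝 (t, Z w), (x.1, ζ x.2) ∈ Nq :=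
      c4 (h.isOpen_Nq.mem_nhds (by simp only [z0]; exact h.sub_Nq ⟨ht, hwR2⟩))
    filter_upwards [m1, m2, m3, m4, m5] with x a1 a2 a3 a4 a5
    exact ⟨a1, a2, a3, a4, a5, h.Zζ _ a2⟩
  obtain ⟨U, hU, hUo, hxU⟩ := mem_nhds_iff.1 hev
  exact ⟨U, hUo, hxU, hU⟩

lemma pI_contDiffAt (h : Sys ε W0 N q Nq ζ Nζ) {x : ℝ × ℂ} (h1 : x.2 ∈ Nζ)
    (h2 : (x.1, ζ x.2) ∈ Nq) : ContDiffAt ℝ ∞ (fun x : ℝ × ℂ => ε ^ 2 * q (x.1, ζ x.2)) x := by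
  have c1 : ContDiffAt ℝ ∞ (fun x : ℝ × ℂ => ζ x.2) x :=
    ContDiffAt.comp (g := ζ) x (h.ζC.contDiffAt (h.isOpen_Nζ.mem_nhds h1)) contDiff_snd.contDiffAt
  have c2 : ContDiffAt ℝ ∞ (fun x : ℝ × ℂ => (x.1, ζ x.2)) x := contDiff_fst.contDiffAt.prodMk c1
  exact contDiffAt_const.mul
    (ContDiffAt.comp (g := q) x (h.qC.contDiffAt (h.isOpen_Nq.mem_nhds h2)) c2)

lemma chiI_contDiffAt (h : Sys ε W0 N q Nq ζ Nζ) {x : ℝ × ℂ} (h1 : x.2 ∈ Nζ) :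
    ContDiffAt ℝ ∞ (chiI ε ζ) x := by
  have c1 : ContDiffAt ℝ ∞ (fun x : ℝ × ℂ => ζ x.2) x :=
    ContDiffAt.comp (g := ζ) x (h.ζC.contDiffAt (h.isOpen_Nζ.mem_nhds h1)) contDiff_snd.contDiffAt
  have c2 : ContDiffAt ℝ ∞ (fun x : ℝ × ℂ => (ζ x.2).re) x := reCLM.contDiff.contDiffAt.comp _ c1
  have c3 : ContDiffAt ℝ ∞ (fun x : ℝ × ℂ => ee x.1) x :=
    (contDiff_ee.comp contDiff_fst).contDiffAt
  exact (contDiffAt_const.mul c2).sub (contDiffAt_const.mul c3)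

/-- derivative of the interior pressure -/
lemma pI_deriv (h : Sys ε W0 N q Nq ζ Nζ) {t : ℝ} {w : ℂ} (hw : w ∈ R2) (h2 : (t, w) ∈ Nq) :
    HasFDerivAt (fun x : ℝ × ℂ => ε ^ 2 * q (x.1, ζ x.2))
      (Lv (ε^2 * fderiv ℝ q (t, w) (1, 0)) ((ε^2 : ℝ) • (gq q (t, w) * v0 w))) (t, Z w) := by
  have z0 : ζ (Z w) = w := h.ζZ w hw
  have hq : HasFDerivAt q (fderiv ℝ q (t, w)) (t, w) :=
    ((h.qC.contDiffAt (h.isOpen_Nq.mem_nhds h2)).differentiableAt (by simp)).hasFDerivAt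
  have hz : HasFDerivAt (fun x : ℝ × ℂ => ζ x.2)
      ((ContinuousLinearMap.mul ℝ ℂ (k w)⁻¹) ∘L ContinuousLinearMap.snd ℝ ℝ ℂ) (t, Z w) :=
    HasFDerivAt.comp (g := ζ) (t, Z w) (h.ζd w hw) hasFDerivAt_snd
  have hpair := (hasFDerivAt_fst (𝕜 := ℝ) (p := (t, Z w))).prodMk hz
  have hq' : HasFDerivAt q (fderiv ℝ q (t, w)) ((fun x : ℝ × ℂ => (x.1, ζ x.2)) (t, Z w)) := by
    simp only [z0]; exact hq
  have hc := (hq'.comp (t, Z w) hpair).const_mul (ε^2)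
  refine hc.congr_fderiv ?_
  rw [fderiv_q_eq]
  apply ContinuousLinearMap.ext
  rintro ⟨b, η⟩
  simp only [_root_.smul_apply, ContinuousLinearMap.comp_apply,
    ContinuousLinearMap.prod_apply, ContinuousLinearMap.coe_fst', ContinuousLinearMap.coe_snd',
    ContinuousLinearMap.mul_apply', Lv_apply, smul_eq_mul, real_smul]
  have : ip (((ε^2 : ℝ) : ℂ) * (gq q (t, w) * v0 w)) η = ε^2 * ip (gq q (t, w)) ((k w)⁻¹ * η) := by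
    have e1 : ∀ a b : ℂ, ip a b = (conj a * b).re := fun a b => by
      rw [ip_apply]; simp
    rw [e1, e1, ← re_ofReal_mul]
    congr 1
    simp only [map_mul, conj_ofReal, v0, conj_conj]
    ring
  rw [this]
  simp
  ring

lemma chiI_deriv (h : Sys ε W0 N q Nq ζ Nζ) {t : ℝ} {w : ℂ} (hw : w ∈ R2) :
    HasFDerivAt (chiI ε ζ) (Lv (-ε^2 * EE t) (ε • v0 w)) (t, Z w) := by
  have hz : HasFDerivAt (fun x : ℝ × ℂ => ζ x.2)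
      ((ContinuousLinearMap.mul ℝ ℂ (k w)⁻¹) ∘L ContinuousLinearMap.snd ℝ ℝ ℂ) (t, Z w) :=
    HasFDerivAt.comp (g := ζ) (t, Z w) (h.ζd w hw) hasFDerivAt_snd
  have h1 := (reCLM.hasFDerivAt.comp (t, Z w) hz).const_mul ε
  have h2 : HasFDerivAt (fun x : ℝ × ℂ => ee x.1) (EE t • ContinuousLinearMap.fst ℝ ℝ ℂ)
      (t, Z w) :=
    HasDerivAt.comp_hasFDerivAt (t, Z w) (h₂ := ee) (hasDerivAt_ee t) hasFDerivAt_fst
  have h3 := h1.sub (h2.const_mul (ε^2))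
  refine h3.congr_fderiv ?_
  apply ContinuousLinearMap.ext
  rintro ⟨b, η⟩
  rw [Lv_apply]
  have e1 : ip (ε • v0 w) η = ε * ((k w)⁻¹ * η).re := by
    rw [ip_apply, v0]
    simp
    ring
  rw [e1]
  simp
  ring

lemma re_le {w : ℂ} (hw : w ∈ Sc) : |w.re| ≤ 27/20 := hw.1

/-- neighbourhood dichotomy -/
lemma dichotomy (h : Sys ε W0 N q Nq ζ Nζ) {t : ℝ} {w : ℂ} (ht : t ∈ Icc (0:ℝ) 1) (hw : w ∈ Sc) :
    (¬ rel t w ∧ ∀ᶠ x : ℝ × ℂ in 𝓝 (t, Z w), ¬ rel x.1 (ζ x.2)) ∨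
    (11/10 < |w.re| ∧ ∃ U : Set (ℝ × ℂ), IsOpen U ∧ (t, Z w) ∈ U ∧ ∀ x ∈ U, x.1 ∈ Ioo (-1:ℝ) 2 ∧
      x.2 ∈ Nζ ∧ ζ x.2 ∈ R2o ∧ x ∈ N ∧ (x.1, ζ x.2) ∈ Nq ∧ Z (ζ x.2) = x.2 ∧
      11/10 < |(ζ x.2).re|) := by
  have hwR2 := Sc_subset_R2 hw
  have z0 : ζ (Z w) = w := h.ζZ w hwR2
  have hNζ : Z w ∈ Nζ := h.sub_Nζ ⟨w, hwR2, rfl⟩
  have hζc : ContinuousAt ζ (Z w) := h.ζC.continuousOn.continuousAt (h.isOpen_Nζ.mem_nhds hNζ)
  have c2 : ContinuousAt (fun x : ℝ × ℂ => x.2) (t, Z w) := continuous_snd.continuousAt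
  have c3 : ContinuousAt (fun x : ℝ × ℂ => ζ x.2) (t, Z w) :=
    ContinuousAt.comp (g := ζ) hζc c2
  have c4 : ContinuousAt (fun x : ℝ × ℂ => |(ζ x.2).re|) (t, Z w) :=
    (continuous_abs.comp continuous_re).continuousAt.comp c3
  by_cases hre : 11/10 < |w.re|
  · right
    obtain ⟨U, hU, hxU, hUp⟩ := h.near ht hw
    refine ⟨hre, ?_⟩
    have hev : ∀ᶠ x : ℝ × ℂ in 𝓝 (t, Z w), x ∈ U ∧ 11/10 < |(ζ x.2).re| := by
      have e1 : ∀ᶠ x : ℝ × ℂ in 𝓝 (t, Z w), x ∈ U := hU.mem_nhds hxU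
      have e2 : ∀ᶠ x : ℝ × ℂ in 𝓝 (t, Z w), |(ζ x.2).re| ∈ Ioi (11/10 : ℝ) :=
        c4 (isOpen_Ioi.mem_nhds (by simp only [z0]; exact hre))
      exact e1.and e2
    obtain ⟨U', hU', hU'o, hxU'⟩ := mem_nhds_iff.1 hev
    refine ⟨U', hU'o, hxU', fun x hx => ?_⟩
    obtain ⟨a1, a2⟩ := hU' hx
    obtain ⟨b1, b2, b3, b4, b5, b6⟩ := hUp x a1
    exact ⟨b1, b2, b3, b4, b5, b6, a2⟩
  · left
    push Not at hre
    refine ⟨fun hr => absurd hr.1 (not_lt.2 hre), ?_⟩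
    rcases lt_or_eq_of_le hre with hlt | heq
    · have e2 : ∀ᶠ x : ℝ × ℂ in 𝓝 (t, Z w), |(ζ x.2).re| ∈ Iio (11/10 : ℝ) :=
        c4 (isOpen_Iio.mem_nhds (by simp only [z0]; exact hlt))
      filter_upwards [e2] with x hx hr
      exact absurd hr.1 (not_lt.2 (le_of_lt hx))
    · have htau := tau_gt_one heq.ge (by rw [heq]; norm_num) hw.2
      have c5 : ContinuousAt (fun x : ℝ × ℂ => tau (ζ x.2)) (t, Z w) := by
        refine ContinuousAt.comp (g := tau) ?_ c3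
        simp only [z0]
        exact (contDiffAt_tau (g_pos hwR2)).continuousAt
      have c6 : ContinuousAt (fun x : ℝ × ℂ => tau (ζ x.2) - x.1) (t, Z w) :=
        c5.sub continuous_fst.continuousAt
      have e2 : ∀ᶠ x : ℝ × ℂ in 𝓝 (t, Z w), tau (ζ x.2) - x.1 ∈ Ioi (0 : ℝ) :=
        c6 (isOpen_Ioi.mem_nhds (by simp only [z0, mem_Ioi]; linarith [ht.2]))
      filter_upwards [e2] with x hx hr
      have : 0 < tau (ζ x.2) - x.1 := hx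
      linarith [hr.2]

lemma m_contOn (h : Sys ε W0 N q Nq ζ Nζ) {U : Set (ℝ × ℂ)}
    (hU : ∀ x ∈ U, x.2 ∈ Nζ ∧ ζ x.2 ∈ R2o) :
    ContinuousOn (fun x : ℝ × ℂ => x.1 - tau (ζ x.2)) U := by
  intro x hx
  apply ContinuousAt.continuousWithinAt
  have hζc : ContinuousAt ζ x.2 :=
    h.ζC.continuousOn.continuousAt (h.isOpen_Nζ.mem_nhds (hU x hx).1)
  have c3 : ContinuousAt (fun x : ℝ × ℂ => ζ x.2) x :=
    ContinuousAt.comp (g := ζ) hζc continuous_snd.continuousAt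
  have c5 : ContinuousAt (fun x : ℝ × ℂ => tau (ζ x.2)) x :=
    ContinuousAt.comp (g := tau) (contDiffAt_tau (g_pos (R2o_subset (hU x hx).2))).continuousAt c3
  exact continuous_fst.continuousAt.sub c5

open Classical in
theorem pp_C1 (h : Sys ε W0 N q Nq ζ Nζ) {t : ℝ} {w : ℂ} (ht : t ∈ Icc (0:ℝ) 1) (hw : w ∈ Sc) :
    ContDiffAt ℝ 1 (pp ε q ζ) (t, Z w) ∧
    HasFDerivAt (pp ε q ζ) (if rel t w then 0 else
      Lv (ε^2 * fderiv ℝ q (t, w) (1, 0)) ((ε^2 : ℝ) • (gq q (t, w) * v0 w))) (t, Z w) := by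
  have hwR2 := Sc_subset_R2 hw
  have z0 : ζ (Z w) = w := h.ζZ w hwR2
  have hNζ : Z w ∈ Nζ := h.sub_Nζ ⟨w, hwR2, rfl⟩
  have hNq : (t, w) ∈ Nq := h.sub_Nq ⟨ht, hwR2⟩
  have hf1 : ContDiffAt ℝ 1 (fun x : ℝ × ℂ => ε ^ 2 * q (x.1, ζ x.2)) (t, Z w) :=
    (h.pI_contDiffAt (x := (t, Z w)) hNζ (by simp only [z0]; exact hNq)).of_le (by norm_cast)
  have hfd := h.pI_deriv hwR2 hNq
  rcases h.dichotomy ht hw with ⟨hnr, hev⟩ | ⟨hre, U, hU, hxU, hUp⟩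
  · rw [if_neg hnr]
    have heq : pp ε q ζ =ᶠ[𝓝 (t, Z w)] (fun x : ℝ × ℂ => ε ^ 2 * q (x.1, ζ x.2)) := by
      filter_upwards [hev] with x hx
      rw [pp, if_neg hx]
    exact ⟨hf1.congr_of_eventuallyEq heq, hfd.congr_of_eventuallyEq heq⟩
  · set f : ℝ × ℂ → ℝ := fun x => ε ^ 2 * q (x.1, ζ x.2) with hf
    set m : ℝ × ℂ → ℝ := fun x => x.1 - tau (ζ x.2) with hm
    have hfC : ContDiffOn ℝ 1 f U := fun x hx =>
      ((h.pI_contDiffAt (hUp x hx).2.1 (hUp x hx).2.2.2.2.1).of_le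
        (by norm_cast)).contDiffWithinAt
    have hmC : ContinuousOn m U := h.m_contOn (fun x hx => ⟨(hUp x hx).2.1, (hUp x hx).2.2.1⟩)
    obtain ⟨g1, g2⟩ := glue hU hfC hmC (by
      rintro ⟨s, z⟩ hx hmx
      obtain ⟨b1, b2, b3, b4, b5, b6, b7⟩ := hUp _ hx
      simp only at b1 b2 b3 b5 b6 b7
      have hs : s = tau (ζ z) := by simp only [hm] at hmx; linarith
      have hR := R2o_subset b3
      obtain ⟨q1, q2⟩ := h.q0 (ζ z) hR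
      rw [← hs] at q1 q2
      refine ⟨by simp only [hf, q1, mul_zero], ?_⟩
      have := h.pI_deriv hR b5
      rw [b6] at this
      rw [this.fderiv, q2]
      have hgq : gq q (s, ζ z) = 0 := by
        simp only [gq, q2]; rfl
      rw [hgq]
      apply ContinuousLinearMap.ext
      rintro ⟨b, η⟩
      simp [Lv_apply, ip_apply])
    have hppeq : pp ε q ζ =ᶠ[𝓝 (t, Z w)] (fun x => f x - (if 0 < m x then f x else 0)) := by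
      filter_upwards [hU.mem_nhds hxU] with x hx
      obtain ⟨b1, b2, b3, b4, b5, b6, b7⟩ := hUp _ hx
      by_cases hmx : 0 < m x
      · have hr : rel x.1 (ζ x.2) := ⟨b7, by simp only [hm] at hmx; linarith⟩
        rw [pp, if_pos hr, if_pos hmx, sub_self]
      · have hr : ¬ rel x.1 (ζ x.2) := fun hr => hmx (by simp only [hm]; linarith [hr.2])
        rw [pp, if_neg hr, if_neg hmx, sub_zero]
    refine ⟨(hf1.sub (g1.contDiffAt (hU.mem_nhds hxU))).congr_of_eventuallyEq hppeq, ?_⟩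
    refine ((hfd.sub (g2 _ hxU)).congr_of_eventuallyEq hppeq).congr_fderiv ?_
    by_cases hr : rel t w
    · have hmx : 0 < m (t, Z w) := by simp only [hm, z0]; linarith [hr.2]
      rw [if_pos hr, if_pos hmx, hfd.fderiv, sub_self]
    · have hmx : ¬ 0 < m (t, Z w) := by
        intro hmx
        simp only [hm, z0] at hmx
        exact hr ⟨hre, by linarith⟩
      rw [if_neg hr, if_neg hmx, sub_zero]

open Classical in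
theorem chi_C1 (h : Sys ε W0 N q Nq ζ Nζ) {t : ℝ} {w : ℂ} (ht : t ∈ Icc (0:ℝ) 1) (hw : w ∈ Sc) :
    ContDiffAt ℝ 1 (chi ε W0 ζ) (t, Z w) ∧
    HasFDerivAt (chi ε W0 ζ) (if rel t w then
        Lv (-ε ^ 2 / (2 * g (W0 (t, Z w)))) (ε • v0 (W0 (t, Z w)))
      else Lv (-ε^2 * EE t) (ε • v0 w)) (t, Z w) := by
  have hwR2 := Sc_subset_R2 hw
  have z0 : ζ (Z w) = w := h.ζZ w hwR2
  have hNζ : Z w ∈ Nζ := h.sub_Nζ ⟨w, hwR2, rfl⟩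
  have hN : (t, Z w) ∈ N := h.geo.W0_mem (by constructor <;> linarith [ht.1, ht.2]) hwR2
  have hI1 : ContDiffAt ℝ 1 (chiI ε ζ) (t, Z w) :=
    (h.chiI_contDiffAt (x := (t, Z w)) hNζ).of_le (by norm_cast)
  have hId := h.chiI_deriv (t := t) hwR2
  obtain ⟨-, hEd⟩ := h.geo.hasFDerivAt_chiE hN
  rcases h.dichotomy ht hw with ⟨hnr, hev⟩ | ⟨hre, U, hU, hxU, hUp⟩
  · rw [if_neg hnr]
    have heq : chi ε W0 ζ =ᶠ[𝓝 (t, Z w)] chiI ε ζ := by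
      filter_upwards [hev] with x hx
      rw [chi, if_neg hx]
    exact ⟨hI1.congr_of_eventuallyEq heq, hId.congr_of_eventuallyEq heq⟩
  · set f : ℝ × ℂ → ℝ := fun x => chiE ε W0 x - chiI ε ζ x with hf
    set m : ℝ × ℂ → ℝ := fun x => x.1 - tau (ζ x.2) with hm
    have hfC : ContDiffOn ℝ 1 f U := fun x hx =>
      (((h.geo.hasFDerivAt_chiE (hUp x hx).2.2.2.1).1.sub
        (h.chiI_contDiffAt (hUp x hx).2.1)).of_le (by norm_cast)).contDiffWithinAt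
    have hmC : ContinuousOn m U := h.m_contOn (fun x hx => ⟨(hUp x hx).2.1, (hUp x hx).2.2.1⟩)
    obtain ⟨g1, g2⟩ := glue hU hfC hmC (by
      rintro ⟨s, z⟩ hx hmx
      obtain ⟨b1, b2, b3, b4, b5, b6, b7⟩ := hUp _ hx
      simp only at b1 b2 b3 b5 b6 b7
      have hs : s = tau (ζ z) := by simp only [hm] at hmx; linarith
      have hR := R2o_subset b3
      have hW : W0 (s, z) = ζ z := by
        have := h.geo.W0_eq_of_tau hR (by rw [← hs]; exact ⟨b1.1.le, b1.2.le⟩)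
        rwa [← hs, b6] at this
      refine ⟨?_, ?_⟩
      · simp only [hf, chiE, chiI, hW]
        rw [← hs]; ring
      · have e1 := (h.geo.hasFDerivAt_chiE b4).2
        have e2 := h.chiI_deriv (t := s) hR
        rw [b6] at e2
        rw [hW] at e1
        have e3 := (e1.sub e2).fderiv
        simp only [hf]
        have e4 : fderiv ℝ (fun x => chiE ε W0 x - chiI ε ζ x) (s, z) = _ := e3
        rw [e4]
        have hg := g_pos hR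
        have e5 : -ε ^ 2 / (2 * g (ζ z)) = -ε ^ 2 * EE s := by
          rw [hs, EE_tau hg, hh]; field_simp
        rw [e5, sub_self])
    have hceq : chi ε W0 ζ =ᶠ[𝓝 (t, Z w)]
        (fun x => chiI ε ζ x + (if 0 < m x then f x else 0)) := by
      filter_upwards [hU.mem_nhds hxU] with x hx
      obtain ⟨b1, b2, b3, b4, b5, b6, b7⟩ := hUp _ hx
      by_cases hmx : 0 < m x
      · have hr : rel x.1 (ζ x.2) := ⟨b7, by simp only [hm] at hmx; linarith⟩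
        rw [chi, if_pos hr, if_pos hmx, hf]; ring
      · have hr : ¬ rel x.1 (ζ x.2) := fun hr => hmx (by simp only [hm]; linarith [hr.2])
        rw [chi, if_neg hr, if_neg hmx, add_zero]
    refine ⟨(hI1.add (g1.contDiffAt (hU.mem_nhds hxU))).congr_of_eventuallyEq hceq, ?_⟩
    refine ((hId.add (g2 _ hxU)).congr_of_eventuallyEq hceq).congr_fderiv ?_
    by_cases hr : rel t w
    · have hmx : 0 < m (t, Z w) := by simp only [hm, z0]; linarith [hr.2]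
      rw [if_pos hr, if_pos hmx]
      have e3 : fderiv ℝ f (t, Z w) = _ := (hEd.sub hId).fderiv
      rw [e3]; abel
    · have hmx : ¬ 0 < m (t, Z w) := by
        intro hmx
        simp only [hm, z0] at hmx
        exact hr ⟨hre, by linarith⟩
      rw [if_neg hr, if_neg hmx, add_zero]

end Sys

end

end Pool.Agent.MFG
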