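import Pool.Agent.MP_03ede7_an.En3

set_option autoImplicit false
open Set Filter Topology Complex MeasureTheory
open scoped ComplexConjugate ContDiff

namespace Pool.Agent.MFG

noncomputable section

lemma isCompact_closure_Om : IsCompact (closure Om) := isBounded_Om.isCompact_closure

/-- local bound for the derivative near a point of the closure -/
lemma local_bound {ψ : ℂ → ℝ} (hψ : ContDiffOn ℝ 1 ψ (closure Om)) {x : ℂ} (hx : x ∈ closure Om) :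
    ∃ V ∈ 𝓝[closure Om] x, ∃ C : ℝ, ∀ y ∈ V ∩ Om, ‖fderiv ℝ ψ y‖ ≤ C := by
  have h1 : ContDiffWithinAt ℝ (0 + 1) ψ (closure Om) x := by
    have := hψ x hx
    simpa using this
  rw [contDiffWithinAt_succ_iff_hasFDerivWithinAt (by simp)] at h1
  obtain ⟨u, hu, -, f', hf', hc⟩ := h1
  rw [insert_eq_of_mem hx] at hu
  have hxu : x ∈ u := mem_of_mem_nhdsWithin hx hu
  have hcont : ContinuousWithinAt f' u x := hc.continuousWithinAt
  -- f' is bounded near x within u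
  have hb : ∀ᶠ y in 𝓝[u] x, ‖f' y‖ < ‖f' x‖ + 1 :=
    (hcont.norm.tendsto).eventually_lt_const (by linarith)
  -- open neighbourhood
  obtain ⟨O1, hO1, hxO1, hs1⟩ := mem_nhdsWithin.1 hu
  obtain ⟨O2, hO2, hxO2, hs2⟩ := mem_nhdsWithin.1 hb
  refine ⟨O1 ∩ O2, mem_nhdsWithin_of_mem_nhds ((hO1.inter hO2).mem_nhds ⟨hxO1, hxO2⟩),
    ‖f' x‖ + 1, ?_⟩
  rintro y ⟨⟨hy1, hy2⟩, hyO⟩
  have hyu : y ∈ u := hs1 ⟨hy1, subset_closure hyO⟩
  have hun : u ∈ 𝓝 y := by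
    refine mem_of_superset ((hO1.inter isOpen_Om).mem_nhds ⟨hy1, hyO⟩) ?_
    rintro z ⟨hz1, hz2⟩
    exact hs1 ⟨hz1, subset_closure hz2⟩
  have hd := (hf' y hyu).hasFDerivAt hun
  rw [hd.fderiv]
  exact (hs2 ⟨hy2, hyu⟩ : ‖f' y‖ < ‖f' x‖ + 1).le

lemma exists_TF {ψ : ℂ → ℝ} (hψ : ContDiffOn ℝ 1 ψ (closure Om)) : ∃ C : ℝ, TF ψ C := by
  obtain ⟨C1, hC1⟩ := isCompact_closure_Om.exists_bound_of_continuousOn hψ.continuousOn
  obtain ⟨C2, hC2⟩ : ∃ C : ℝ, ∀ y ∈ closure Om ∩ Om, ‖fderiv ℝ ψ y‖ ≤ C := by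
    refine isCompact_closure_Om.induction_on (p := fun s => ∃ C : ℝ, ∀ y ∈ s ∩ Om,
      ‖fderiv ℝ ψ y‖ ≤ C) ⟨0, fun y hy => absurd hy.1 (notMem_empty y)⟩ ?_ ?_ ?_
    · rintro s t hst ⟨C, hC⟩
      exact ⟨C, fun y hy => hC y ⟨hst hy.1, hy.2⟩⟩
    · rintro s t ⟨C, hC⟩ ⟨C', hC'⟩
      refine ⟨max C C', ?_⟩
      rintro y ⟨hy | hy, hyO⟩
      · exact (hC y ⟨hy, hyO⟩).trans (le_max_left _ _)
      · exact (hC' y ⟨hy, hyO⟩).trans (le_max_right _ _)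
    · intro x hx
      obtain ⟨V, hV, C, hC⟩ := local_bound hψ hx
      exact ⟨V, hV, C, hC⟩
  refine ⟨max (max C1 C2) 0, ?_, ?_, ?_, le_max_right _ _⟩
  · intro z hz
    have : ContDiffAt ℝ 1 ψ z := (hψ z (subset_closure hz)).contDiffAt
      (mem_of_superset (isOpen_Om.mem_nhds hz) subset_closure)
    exact (this.differentiableAt (by simp)).hasFDerivAt
  · intro z hz
    exact (hC1 z (subset_closure hz)).trans ((le_max_left _ _).trans (le_max_left _ _))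
  · intro z hz
    exact (hC2 z ⟨subset_closure hz, hz⟩).trans ((le_max_right _ _).trans (le_max_left _ _))

end

end Pool.Agent.MFG
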