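import Pool.Agent.MP_03ede7_an.TFmk

set_option autoImplicit false
open Set Filter Topology Complex MeasureTheory
open scoped ComplexConjugate ContDiff

namespace Pool.Agent.MFG

noncomputable section

abbrev E2 := EuclideanSpace ℝ (Fin 2)

def iso2 : ℂ ≃ₗᵢ[ℝ] E2 := Complex.orthonormalBasisOneI.repr

/-- scaled isometry `z ↦ λ e(z)` -/
def Bq (lam : ℝ) (h : lam ≠ 0) : ℂ ≃L[ℝ] E2 :=
  ContinuousLinearEquiv.equivOfInverse
    (lam • ((iso2.toContinuousLinearEquiv : ℂ ≃L[ℝ] E2) : ℂ →L[ℝ] E2))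
    (lam⁻¹ • ((iso2.symm.toContinuousLinearEquiv : E2 ≃L[ℝ] ℂ) : E2 →L[ℝ] ℂ))
    (fun z => by
      change lam⁻¹ • iso2.symm (lam • iso2 z) = z
      rw [map_smul, iso2.symm_apply_apply, smul_smul, inv_mul_cancel₀ h, one_smul])
    (fun x => by
      change lam • iso2 (lam⁻¹ • iso2.symm x) = x
      rw [map_smul, iso2.apply_symm_apply, smul_smul, mul_inv_cancel₀ h, one_smul])

variable {lam : ℝ} (hl : 0 < lam)

lemma Bq_apply (h : lam ≠ 0) (z : ℂ) : Bq lam h z = lam • iso2 z := rfl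

lemma Bq_symm_apply (h : lam ≠ 0) (x : E2) : (Bq lam h).symm x = lam⁻¹ • iso2.symm x := rfl

/-- inverse map -/
def Aq (lam : ℝ) (h : lam ≠ 0) : E2 → ℂ := (Bq lam h).symm

lemma Aq_apply (h : lam ≠ 0) (x : E2) : Aq lam h x = lam⁻¹ • iso2.symm x := rfl

lemma Bq_Aq (h : lam ≠ 0) (x : E2) : Bq lam h (Aq lam h x) = x := (Bq lam h).apply_symm_apply x
lemma Aq_Bq (h : lam ≠ 0) (z : ℂ) : Aq lam h (Bq lam h z) = z := (Bq lam h).symm_apply_apply z

lemma norm_Bq (hl : 0 < lam) (z : ℂ) : ‖Bq lam hl.ne' z‖ = lam * ‖z‖ := by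
  rw [Bq_apply, norm_smul, Real.norm_eq_abs, abs_of_pos hl, iso2.norm_map]

lemma Aq_cont (h : lam ≠ 0) : Continuous (Aq lam h) := (Bq lam h).symm.continuous

lemma Aq_emb (h : lam ≠ 0) : MeasurableEmbedding (Aq lam h) :=
  (Bq lam h).symm.toHomeomorph.measurableEmbedding

def Gq (lam : ℝ) (h : lam ≠ 0) : ℝ × E2 → ℝ × ℂ := Prod.map id (Aq lam h)

lemma Gq_emb (h : lam ≠ 0) : MeasurableEmbedding (Gq lam h) :=
  ((Homeomorph.refl ℝ).prodCongr (Bq lam h).symm.toHomeomorph).measurableEmbedding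

/-- the domain -/
def OmE (lam : ℝ) (h : lam ≠ 0) : Set E2 := Aq lam h ⁻¹' Om

lemma map_Aq (hl : 0 < lam) : Measure.map (Aq lam hl.ne') (volume : Measure E2) =
    ENNReal.ofReal (lam^2) • (volume : Measure ℂ) := by
  have h1 : Measure.map iso2.symm (volume : Measure E2) = volume := iso2.symm.measurePreserving.map_eq
  have h2 := Measure.map_addHaar_smul (volume : Measure ℂ) (r := lam⁻¹) (inv_ne_zero hl.ne')
  have h3 : Aq lam hl.ne' = (fun z : ℂ => lam⁻¹ • z) ∘ iso2.symm := rfl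
  have h4 : Measurable (fun z : ℂ => lam⁻¹ • z) := measurable_id.const_smul lam⁻¹
  have h5 := Measure.map_map (μ := (volume : Measure E2)) h4 iso2.symm.continuous.measurable
  rw [h3, ← h5, h1, h2, Complex.finrank_real_complex]
  congr 2
  rw [inv_pow, inv_inv, abs_of_pos (by positivity)]

lemma map_Aq_restrict (hl : 0 < lam) :
    Measure.map (Aq lam hl.ne') ((volume : Measure E2).restrict (OmE lam hl.ne')) =
    ENNReal.ofReal (lam^2) • (volume : Measure ℂ).restrict Om := by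
  rw [OmE, ← Measure.restrict_map (Aq_cont hl.ne').measurable isOpen_Om.measurableSet, map_Aq hl,
    Measure.restrict_smul]

lemma map_Gq_restrict (hl : 0 < lam) :
    Measure.map (Gq lam hl.ne') ((volume : Measure (ℝ × E2)).restrict
      (Ioo (0:ℝ) 1 ×ˢ OmE lam hl.ne')) =
    ENNReal.ofReal (lam^2) • (volume : Measure (ℝ × ℂ)).restrict (Ioo (0:ℝ) 1 ×ˢ Om) := by
  have h1 := Measure.map_prod_map (volume : Measure ℝ) (volume : Measure E2) measurable_id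
    (Aq_cont hl.ne').measurable
  rw [map_Aq hl, Measure.map_id, Measure.prod_smul_right] at h1
  have h2 : Ioo (0:ℝ) 1 ×ˢ OmE lam hl.ne' = Gq lam hl.ne' ⁻¹' (Ioo (0:ℝ) 1 ×ˢ Om) := by
    ext x; rfl
  rw [h2, ← Measure.restrict_map (Gq_emb hl.ne').measurable measurableSet_D,
    Measure.volume_eq_prod, Measure.volume_eq_prod, Gq, ← h1, Measure.restrict_smul]

lemma int_Aq (hl : 0 < lam) (F : ℂ → ℝ) :
    ∫ x in OmE lam hl.ne', F (Aq lam hl.ne' x) = lam^2 * ∫ z in Om, F z := by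
  rw [← (Aq_emb hl.ne').integral_map, map_Aq_restrict hl, integral_smul_measure,
    ENNReal.toReal_ofReal (by positivity), smul_eq_mul]

lemma int_Gq (hl : 0 < lam) (F : ℝ × ℂ → ℝ) :
    ∫ x in Ioo (0:ℝ) 1 ×ˢ OmE lam hl.ne', F (Gq lam hl.ne' x) =
      lam^2 * ∫ x in Ioo (0:ℝ) 1 ×ˢ Om, F x := by
  rw [← (Gq_emb hl.ne').integral_map, map_Gq_restrict hl, integral_smul_measure,
    ENNReal.toReal_ofReal (by positivity), smul_eq_mul]

lemma intble_Aq (hl : 0 < lam) {F : ℂ → ℝ} (hF : IntegrableOn F Om) :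
    IntegrableOn (fun x => F (Aq lam hl.ne' x)) (OmE lam hl.ne') := by
  have h1 : Integrable F (ENNReal.ofReal (lam^2) • (volume : Measure ℂ).restrict Om) :=
    Integrable.smul_measure hF ENNReal.ofReal_ne_top
  rw [← map_Aq_restrict hl] at h1
  exact h1.comp_measurable (Aq_emb hl.ne').measurable

lemma intble_Gq (hl : 0 < lam) {F : ℝ × ℂ → ℝ} (hF : IntegrableOn F (Ioo (0:ℝ) 1 ×ˢ Om)) :
    IntegrableOn (fun x => F (Gq lam hl.ne' x)) (Ioo (0:ℝ) 1 ×ˢ OmE lam hl.ne') := by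
  have h1 : Integrable F (ENNReal.ofReal (lam^2) • (volume : Measure (ℝ × ℂ)).restrict
      (Ioo (0:ℝ) 1 ×ˢ Om)) := Integrable.smul_measure hF ENNReal.ofReal_ne_top
  rw [← map_Gq_restrict hl] at h1
  exact h1.comp_measurable (Gq_emb hl.ne').measurable

lemma ae_Gq {β : Type*} [MeasurableSpace β] (hl : 0 < lam) {F : ℝ × ℂ → β}
    (hF : AEMeasurable F (volume.restrict (Ioo (0:ℝ) 1 ×ˢ Om))) :
    AEMeasurable (fun x => F (Gq lam hl.ne' x)) (volume.restrict (Ioo (0:ℝ) 1 ×ˢ OmE lam hl.ne')) := by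
  have h1 := hF.smul_measure (ENNReal.ofReal (lam^2))
  rw [← map_Gq_restrict hl] at h1
  exact h1.comp_measurable (Gq_emb hl.ne').measurable

lemma isOpen_OmE (h : lam ≠ 0) : IsOpen (OmE lam h) := isOpen_Om.preimage (Aq_cont h)

lemma OmE_eq_image (h : lam ≠ 0) : OmE lam h = Bq lam h '' Om := by
  ext x
  constructor
  · intro hx; exact ⟨Aq lam h x, hx, Bq_Aq h x⟩
  · rintro ⟨z, hz, rfl⟩
    change Aq lam h (Bq lam h z) ∈ Om
    rw [Aq_Bq]; exact hz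

lemma isBounded_OmE (h : lam ≠ 0) : Bornology.IsBounded (OmE lam h) := by
  rw [OmE_eq_image]
  exact (isBounded_Om.isCompact_closure.image (Bq lam h).continuous).isBounded.subset
    (image_mono subset_closure)

lemma closure_OmE (h : lam ≠ 0) : closure (OmE lam h) = Aq lam h ⁻¹' closure Om :=
  ((Bq lam h).symm.toHomeomorph.preimage_closure Om).symm

lemma measurableSet_DE (h : lam ≠ 0) : MeasurableSet (Ioo (0:ℝ) 1 ×ˢ OmE lam h) :=
  measurableSet_Ioo.prod (isOpen_OmE h).measurableSet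

/-- The admissibility predicate of the frozen statement (with `d = 2`, `T = 1`). -/
def AdmE (Ω : Set E2) (ρ₀ : E2 → ℝ) (ρ : ℝ → E2 → ℝ) (v : ℝ → E2 → E2) : Prop :=
  (AEMeasurable (Function.uncurry ρ) (volume.restrict (Set.Ioo 0 1 ×ˢ Ω)) ∧
       AEMeasurable (Function.uncurry v) (volume.restrict (Set.Ioo 0 1 ×ˢ Ω)) ∧
       (∀ t ∈ Set.Icc (0:ℝ) 1, IntegrableOn (ρ t) Ω ∧ (∫ x in Ω, ρ t x) = 1 ∧
          ∀ᵐ x ∂(volume.restrict Ω), 0 ≤ ρ t x ∧ ρ t x ≤ 1) ∧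
       (∫⁻ z in Set.Ioo (0:ℝ) 1 ×ˢ Ω, ENNReal.ofReal (‖v z.1 z.2‖ ^ 2 * ρ z.1 z.2)) < ⊤ ∧
       (∀ᵐ x ∂(volume.restrict Ω), ρ 0 x = ρ₀ x) ∧
       (∀ ψ : E2 → ℝ, ContDiffOn ℝ 1 ψ (closure Ω) →
          (∃ K : NNReal, LipschitzOnWith K (fun t => ∫ x in Ω, ψ x * ρ t x) (Set.Icc 0 1)) ∧
          ∀ᵐ t ∂(volume.restrict (Set.Ioo 0 1)),
            HasDerivAt (fun s => ∫ x in Ω, ψ x * ρ s x)
              (∫ x in Ω, inner ℝ (gradient ψ x) (v t x) * ρ t x) t))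

/-- energy transport -/
lemma lint_E (hl : 0 < lam) {ρ : ℝ → ℂ → ℝ} {v : ℝ → ℂ → ℂ} {M : ℝ} (h : AdmC ρ v M)
    {vE : ℝ → E2 → E2} (hv : ∀ t ∈ Ioo (0:ℝ) 1, ∀ x ∈ OmE lam hl.ne',
      vE t x = Bq lam hl.ne' (v t (Aq lam hl.ne' x))) {c : ℝ} (hc : 0 ≤ c) :
    ∫⁻ z in Ioo (0:ℝ) 1 ×ˢ OmE lam hl.ne',
      ENNReal.ofReal (c * (‖vE z.1 z.2‖^2 * ρ z.1 (Aq lam hl.ne' z.2))) =
      ENNReal.ofReal (c * lam^4 * EnC ρ v) := by
  have e1 : ∀ z ∈ Ioo (0:ℝ) 1 ×ˢ OmE lam hl.ne',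
      ENNReal.ofReal (c * (‖vE z.1 z.2‖^2 * ρ z.1 (Aq lam hl.ne' z.2))) =
      ENNReal.ofReal ((fun x : ℝ × ℂ => (c * lam^2) * (‖v x.1 x.2‖^2 * ρ x.1 x.2))
        (Gq lam hl.ne' z)) := by
    rintro ⟨t, x⟩ ⟨ht, hx⟩
    simp only at ht hx
    simp only [Gq, Prod.map, id]
    rw [hv t ht x hx, norm_Bq hl]
    congr 1
    ring
  rw [setLIntegral_congr_fun (measurableSet_DE hl.ne') e1]
  have i1 : IntegrableOn (fun x : ℝ × ℂ => (c * lam^2) * (‖v x.1 x.2‖^2 * ρ x.1 x.2))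
      (Ioo (0:ℝ) 1 ×ˢ Om) := h.energy_int.const_mul _
  rw [← ofReal_integral_eq_lintegral_ofReal (intble_Gq hl i1)]
  · rw [int_Gq hl (fun x : ℝ × ℂ => (c * lam^2) * (‖v x.1 x.2‖^2 * ρ x.1 x.2)),
      integral_const_mul]
    congr 1
    unfold EnC
    ring
  · refine (ae_restrict_iff' (measurableSet_DE hl.ne')).2 (Eventually.of_forall ?_)
    rintro ⟨t, x⟩ ⟨ht, hx⟩
    simp only at ht hx
    have hb := (h.bd t ⟨ht.1.le, ht.2.le⟩ _ hx).1
    simp only [Gq, Prod.map, id, Pi.zero_apply]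
    positivity

theorem trans_adm (hl : 0 < lam) {ρ : ℝ → ℂ → ℝ} {v : ℝ → ℂ → ℂ} {M : ℝ} (h : AdmC ρ v M)
    (hM : lam^2 * M = 1) {ρ₀ : E2 → ℝ}
    (h0 : ∀ x ∈ OmE lam hl.ne', ρ 0 (Aq lam hl.ne' x) = ρ₀ x)
    {vE : ℝ → E2 → E2} (hv : ∀ t ∈ Ioo (0:ℝ) 1, ∀ x ∈ OmE lam hl.ne',
      vE t x = Bq lam hl.ne' (v t (Aq lam hl.ne' x))) :
    AdmE (OmE lam hl.ne') ρ₀ (fun t x => ρ t (Aq lam hl.ne' x)) vE := by
  refine ⟨ae_Gq hl h.aer, ?_, ?_, ?_, ?_, ?_⟩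
  · have h1 : AEMeasurable (fun x : ℝ × E2 => Bq lam hl.ne' (v x.1 (Aq lam hl.ne' x.2)))
        (volume.restrict (Ioo (0:ℝ) 1 ×ˢ OmE lam hl.ne')) :=
      (Bq lam hl.ne').continuous.measurable.comp_aemeasurable (ae_Gq hl h.aev)
    refine h1.congr ?_
    refine (ae_restrict_iff' (measurableSet_DE hl.ne')).2 (Eventually.of_forall ?_)
    rintro ⟨t, x⟩ ⟨ht, hx⟩
    exact (hv t ht x hx).symm
  · intro t ht
    refine ⟨intble_Aq hl (h.int t ht), ?_, ?_⟩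
    · rw [int_Aq hl (fun z => ρ t z), h.mass t ht, hM]
    · refine (ae_restrict_iff' (isOpen_OmE hl.ne').measurableSet).2 (Eventually.of_forall ?_)
      intro x hx
      exact h.bd t ht _ hx
  · have := lint_E hl h hv (c := 1) zero_le_one
    simp only [one_mul] at this
    rw [this]
    exact ENNReal.ofReal_lt_top
  · exact (ae_restrict_iff' (isOpen_OmE hl.ne').measurableSet).2 (Eventually.of_forall h0)
  · intro ψ hψ
    set ψ' : ℂ → ℝ := ψ ∘ Bq lam hl.ne' with hψ'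
    have hC : ContDiffOn ℝ 1 ψ' (closure Om) := by
      refine hψ.comp (Bq lam hl.ne').contDiff.contDiffOn ?_
      intro z hz
      rw [closure_OmE]
      change Aq lam hl.ne' (Bq lam hl.ne' z) ∈ closure Om
      rw [Aq_Bq]; exact hz
    obtain ⟨C, hTF⟩ := exists_TF hC
    obtain ⟨⟨K, hK⟩, hd⟩ := h.weak ψ' C hTF
    have eI : ∀ t, ∫ x in OmE lam hl.ne', ψ x * ρ t (Aq lam hl.ne' x) =
        lam^2 * ∫ z in Om, ψ' z * ρ t z := by
      intro t
      rw [← int_Aq hl (fun z => ψ' z * ρ t z)]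
      refine setIntegral_congr_fun (isOpen_OmE hl.ne').measurableSet fun x _ => ?_
      simp only [hψ', Function.comp, Bq_Aq]
    simp only [eI]
    refine ⟨⟨‖lam^2‖₊ * K, ?_⟩, ?_⟩
    · refine LipschitzOnWith.of_dist_le_mul fun x hx y hy => ?_
      have h1 := hK.dist_le_mul x hx y hy
      rw [Real.dist_eq] at h1 ⊢
      rw [← mul_sub, abs_mul]
      push_cast
      rw [Real.norm_eq_abs, mul_assoc]
      exact mul_le_mul_of_nonneg_left h1 (abs_nonneg _)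
    · rw [ae_restrict_iff' measurableSet_Ioo] at hd ⊢
      filter_upwards [hd] with t hdt ht
      have h1 := (hdt ht).const_mul (lam^2)
      refine h1.congr_deriv ?_
      rw [← int_Aq hl (fun z => fderiv ℝ ψ' z (v t z) * ρ t z)]
      refine setIntegral_congr_fun (isOpen_OmE hl.ne').measurableSet fun x hx => ?_
      rw [hv t ht x hx, gradient, InnerProductSpace.toDual_symm_apply, hψ',
        ContinuousLinearEquiv.comp_right_fderiv, Bq_Aq]
      rfl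

end

end Pool.Agent.MFG
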