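import Pool.Agent.MP_03ede7_an.Line1

set_option autoImplicit false
open Set Filter Topology Complex MeasureTheory
open scoped ComplexConjugate ContDiff

namespace Pool.Agent.MFG

noncomputable section

/-- test functions -/
structure TF (ψ : ℂ → ℝ) (C : ℝ) : Prop where
  d : ∀ z ∈ Om, HasFDerivAt ψ (fderiv ℝ ψ z) z
  b0 : ∀ z ∈ Om, |ψ z| ≤ C
  b1 : ∀ z ∈ Om, ‖fderiv ℝ ψ z‖ ≤ C
  C0 : 0 ≤ C

lemma clm_decomp (L : ℂ →L[ℝ] ℝ) (v : ℂ) : L v = v.re * L 1 + v.im * L I := by
  have : v = v.re • (1:ℂ) + v.im • I := by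
    apply Complex.ext <;> simp
  conv_lhs => rw [this]
  rw [map_add, map_smul, map_smul, smul_eq_mul, smul_eq_mul]

lemma measurable_fd {X : Type*} [MeasurableSpace X] (ψ : ℂ → ℝ) {a v : X → ℂ} (ha : Measurable a)
    (hv : Measurable v) : Measurable (fun x => fderiv ℝ ψ (a x) (v x)) := by
  have h1 : (fun x => fderiv ℝ ψ (a x) (v x)) =
      fun x => (v x).re * fderiv ℝ ψ (a x) 1 + (v x).im * fderiv ℝ ψ (a x) I := by
    funext x; exact clm_decomp _ _
  rw [h1]
  have m1 : Measurable (fun x => fderiv ℝ ψ (a x) 1) :=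
    (measurable_fderiv_apply_const ℝ ψ (1:ℂ)).comp ha
  have m2 : Measurable (fun x => fderiv ℝ ψ (a x) I) :=
    (measurable_fderiv_apply_const ℝ ψ I).comp ha
  exact ((measurable_re.comp hv).mul m1).add ((measurable_im.comp hv).mul m2)

/-- uniform bounds on the closed channel -/
lemma exists_bounds (ε : ℝ) : ∃ B : ℝ, 1 ≤ B ∧ ∀ w ∈ Sc, g w ≤ B ∧ ‖k w‖ ≤ B ∧ |mu ε w| ≤ B ∧
    ‖v0 w‖ ≤ B := by
  have hcg : Continuous g := (contDiff_g (n := 0)).continuous
  have hck : Continuous k := (contDiff_k (n := 0)).continuous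
  have hmu : ContinuousOn (mu ε) Sc := by
    have h1 : Continuous (fun w => (conj (k w) * k1 w).re) :=
      continuous_re.comp ((continuous_conj.comp (contDiff_k (n := 0)).continuous).mul
        (contDiff_k1 (n := 0)).continuous)
    refine hcg.continuousOn.add (ContinuousOn.div (continuous_const.mul h1).continuousOn
      (hcg.pow 2).continuousOn (fun w hw => ?_))
    have := g_pos (Sc_subset_R2 hw)
    positivity
  obtain ⟨B1, hB1⟩ := isCompact_Sc.exists_bound_of_continuousOn hcg.continuousOn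
  obtain ⟨B2, hB2⟩ := isCompact_Sc.exists_bound_of_continuousOn hck.continuousOn
  obtain ⟨B3, hB3⟩ := isCompact_Sc.exists_bound_of_continuousOn hmu
  refine ⟨max 2 (max B1 (max B2 B3)), le_trans (by norm_num) (le_max_left _ _), fun w hw => ?_⟩
  refine ⟨?_, ?_, ?_, ?_⟩
  · exact (le_abs_self _).trans ((hB1 w hw).trans ((le_max_left _ _).trans (le_max_right _ _)))
  · exact (hB2 w hw).trans ((le_max_left _ _).trans ((le_max_right _ _).trans (le_max_right _ _)))
  · exact (hB3 w hw).trans ((le_max_right _ _).trans ((le_max_right _ _).trans (le_max_right _ _)))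
  · exact (norm_v0_le (R3_subset_R3c (R2_subset_R3 (Sc_subset_R2 hw)))).trans (le_max_left _ _)

lemma volume_S_lt_top : volume S < ⊤ := (isCompact_Sc.measure_lt_top).trans_le' (measure_mono S_subset_Sc)

/-- combine integrals over `innS` and `Aset` -/
lemma combine {t : ℝ} {F1 F2 : ℂ → ℝ} (h1 : IntegrableOn F1 (innS t)) (h2 : IntegrableOn F2 (Aset t)) :
    (∫ w in innS t, F1 w) + ∫ w in Aset t, F2 w =
      ∫ w in S, ((innS t).indicator F1 w + (Aset t).indicator F2 w) := by
  have e1 : ∫ w in innS t, F1 w = ∫ w in S, (innS t).indicator F1 w := by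
    rw [setIntegral_indicator (measurableSet_innS t)]
    congr 2
    ext w
    exact ⟨fun hw => ⟨hw.1, hw⟩, fun hw => hw.2⟩
  have e2 : ∫ w in Aset t, F2 w = ∫ w in S, (Aset t).indicator F2 w := by
    rw [setIntegral_indicator (measurableSet_Aset t)]
    congr 2
    ext w
    exact ⟨fun hw => ⟨hw.1, hw⟩, fun hw => hw.2⟩
  rw [e1, e2, integral_add]
  · exact ((integrable_indicator_iff (measurableSet_innS t)).2 h1).integrableOn
  · exact ((integrable_indicator_iff (measurableSet_Aset t)).2 h2).integrableOn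

/-- the flux integrand in the `w`-plane -/
def Psi (ε : ℝ) (ψ : ℂ → ℝ) (x : ℝ × ℂ) : ℝ :=
  (innS x.1).indicator (fun w => ε * fderiv ℝ ψ (Z w) (k w)) x.2 +
  (Aset x.1).indicator (fun w => mu ε w * fderiv ℝ ψ (Mt ε x.1 w) (ε • v0 w)) x.2

lemma measurable_Mt (ε : ℝ) : Measurable (fun x : ℝ × ℂ => Mt ε x.1 x.2) := by
  have h1 : Measurable (fun x : ℝ × ℂ => ε * (x.1 - tau x.2)) :=
    measurable_const.mul (measurable_fst.sub (measurable_tau.comp measurable_snd))
  have h2 : Measurable (fun x : ℝ × ℂ => v0 x.2) := measurable_v0.comp measurable_snd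
  have h3 : Measurable (fun x : ℝ × ℂ => Z x.2) := measurable_Z.comp measurable_snd
  exact h3.add (h1.smul h2)

lemma measurable_Psi (ε : ℝ) (ψ : ℂ → ℝ) : Measurable (Psi ε ψ) := by
  have m1 : Measurable (fun x : ℝ × ℂ => ε * fderiv ℝ ψ (Z x.2) (k x.2)) :=
    measurable_const.mul (measurable_fd ψ (measurable_Z.comp measurable_snd)
      (measurable_k.comp measurable_snd))
  have m2 : Measurable (fun x : ℝ × ℂ => mu ε x.2 * fderiv ℝ ψ (Mt ε x.1 x.2) (ε • v0 x.2)) :=
    ((measurable_mu ε).comp measurable_snd).mul (measurable_fd ψ (measurable_Mt ε)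
      ((measurable_v0.comp measurable_snd).const_smul ε))
  have s1 : MeasurableSet {x : ℝ × ℂ | x.2 ∈ innS x.1} := by
    have a1 : MeasurableSet {x : ℝ × ℂ | x.2 ∈ S} := isOpen_S.measurableSet.preimage measurable_snd
    exact a1.inter measurableSet_rel.compl
  have e : Psi ε ψ = fun x => ({x : ℝ × ℂ | x.2 ∈ innS x.1}).indicator
      (fun x : ℝ × ℂ => ε * fderiv ℝ ψ (Z x.2) (k x.2)) x +
      ({x : ℝ × ℂ | x.2 ∈ Aset x.1}).indicator
      (fun x : ℝ × ℂ => mu ε x.2 * fderiv ℝ ψ (Mt ε x.1 x.2) (ε • v0 x.2)) x := by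
    funext x
    rfl
  rw [e]
  exact (m1.indicator s1).add (m2.indicator measurableSet_A)

end

end Pool.Agent.MFG
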