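import Pool.Agent.MP_03ede7_an.W1

set_option autoImplicit false
open Set Filter Topology Complex MeasureTheory
open scoped ComplexConjugate ContDiff

namespace Pool.Agent.MFG

noncomputable section

namespace Sys

variable {ε : ℝ} {W0 : ℝ × ℂ → ℂ} {N : Set (ℝ × ℂ)} {q : ℝ × ℂ → ℝ} {Nq : Set (ℝ × ℂ)}
    {ζ : ℂ → ℂ} {Nζ : Set ℂ}

lemma Mt_mem_Om (h : Sys ε W0 N q Nq ζ Nζ) {t : ℝ} (ht : t ∈ Icc (0:ℝ) 1) {w : ℂ}
    (hw : w ∈ Aset t) : Mt ε t w ∈ Om := by
  obtain ⟨w', hw', he⟩ := h.M1 ht hw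
  exact ⟨w', hw'.1, he⟩

lemma abs_Psi_le (h : Sys ε W0 N q Nq ζ Nζ) {ψ : ℂ → ℝ} {C : ℝ} (hψ : TF ψ C) {B : ℝ}
    (hB1 : 1 ≤ B)
    (hB : ∀ w ∈ Sc, g w ≤ B ∧ ‖k w‖ ≤ B ∧ |mu ε w| ≤ B ∧ ‖v0 w‖ ≤ B) {s : ℝ}
    (hs : s ∈ Icc (0:ℝ) 1) {w : ℂ} (hw : w ∈ S) :
    |Psi ε ψ (s, w)| ≤ ε * (C * B) + B * (C * (ε * B)) := by
  obtain ⟨b1, b2, b3, b4⟩ := hB w (S_subset_Sc hw)
  have hε := h.geo.εpos
  have hC := hψ.C0
  unfold Psi
  refine (abs_add_le _ _).trans (add_le_add ?_ ?_)
  · simp only [indicator]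
    split_ifs
    · rw [abs_mul, abs_of_pos hε]
      refine mul_le_mul_of_nonneg_left ?_ hε.le
      have := (fderiv ℝ ψ (Z w)).le_opNorm (k w)
      rw [Real.norm_eq_abs] at this
      exact this.trans (mul_le_mul (hψ.b1 _ ⟨w, hw, rfl⟩) b2 (norm_nonneg _) hC)
    · rw [abs_zero]; positivity
  · simp only [indicator]
    split_ifs with hA
    · rw [abs_mul]
      refine mul_le_mul b3 ?_ (abs_nonneg _) (by linarith)
      have := (fderiv ℝ ψ (Mt ε s w)).le_opNorm (ε • v0 w)
      rw [Real.norm_eq_abs] at this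
      refine this.trans (mul_le_mul (hψ.b1 _ (h.Mt_mem_Om hs hA)) ?_ (norm_nonneg _) hC)
      rw [norm_smul, Real.norm_eq_abs, abs_of_pos hε]
      exact mul_le_mul_of_nonneg_left b4 hε.le
    · rw [abs_zero]; positivity

lemma not_rel_inn {s : ℝ} {w : ℂ} (hw : w ∈ S) (h : 11/10 < |w.re| → s ≤ tau w) (ε : ℝ)
    (ψ : ℂ → ℝ) : Psi ε ψ (s, w) = ε * fderiv ℝ ψ (Z w) (k w) := by
  have h1 : w ∈ innS s := ⟨hw, fun hr => absurd hr.2 (not_lt.2 (h hr.1))⟩
  have h2 : w ∉ Aset s := fun hA => absurd hA.2.2.2 (not_lt.2 (h hA.2.1))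
  simp only [Psi, indicator_of_mem h1, indicator_of_notMem h2, add_zero]

lemma hasDerivAt_Mt_time (ε s : ℝ) (w : ℂ) : HasDerivAt (fun s : ℝ => Mt ε s w) (ε • v0 w) s := by
  have h1 : HasDerivAt (fun s : ℝ => ε * (s - tau w)) ε s := by
    simpa using ((hasDerivAt_id s).sub_const (tau w)).const_mul ε
  have h2 := (h1.smul_const (v0 w)).const_add (Z w)
  exact h2

lemma time_integral (h : Sys ε W0 N q Nq ζ Nζ) {ψ : ℂ → ℝ} {C : ℝ} (hψ : TF ψ C) {t : ℝ}
    (ht : t ∈ Icc (0:ℝ) 1) {w : ℂ} (hw : w ∈ S) :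
    ∫ s in (0:ℝ)..t, Psi ε ψ (s, w) = ε * (mt t w * fderiv ℝ ψ (Z w) (k w)) +
      (Aset t).indicator (fun w => mu ε w * (ψ (Mt ε t w) - ψ (Z w))) w := by
  by_cases hc : 11/10 < |w.re| → t ≤ tau w
  · have hA : w ∉ Aset t := fun hA => absurd hA.2.2.2 (not_lt.2 (hc hA.2.1))
    rw [mt_eq_t ht hc, indicator_of_notMem hA]
    have : ∫ s in (0:ℝ)..t, Psi ε ψ (s, w) = ∫ s in (0:ℝ)..t, ε * fderiv ℝ ψ (Z w) (k w) := by
      refine intervalIntegral.integral_congr_ae (Eventually.of_forall fun s hs => ?_)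
      rw [uIoc_of_le ht.1] at hs
      exact not_rel_inn hw (fun hr => hs.2.trans (hc hr)) ε ψ
    rw [this, intervalIntegral.integral_const, smul_eq_mul]
    ring
  · push Not at hc
    obtain ⟨hre, htau⟩ := hc
    by_cases h0 : tau w < 0
    · have hA : w ∉ Aset t := fun hA => absurd hA.2.2.1 (not_le.2 h0)
      have hm : mt t w = 0 := by
        rw [mt, if_pos hre, min_eq_right (by linarith [ht.1]), max_eq_left h0.le]
      rw [hm, indicator_of_notMem hA]
      have : ∫ s in (0:ℝ)..t, Psi ε ψ (s, w) = ∫ s in (0:ℝ)..t, 0 := by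
        refine intervalIntegral.integral_congr_ae (Eventually.of_forall fun s hs => ?_)
        rw [uIoc_of_le ht.1] at hs
        have h1 : w ∉ innS s := fun hi => hi.2 ⟨hre, by linarith [hs.1]⟩
        have h2 : w ∉ Aset s := fun hA => absurd hA.2.2.1 (not_le.2 h0)
        simp only [Psi, indicator_of_notMem h1, indicator_of_notMem h2, add_zero]
      rw [this]
      simp
    · push Not at h0
      have hA : w ∈ Aset t := ⟨hw, hre, h0, htau⟩
      have hm : mt t w = tau w := by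
        rw [mt, if_pos hre, min_eq_right htau.le, max_eq_right h0]
      rw [hm, indicator_of_mem hA]
      have hτ1 : tau w ≤ 1 := by linarith [ht.2]
      -- first part
      have p1 : ∫ s in (0:ℝ)..(tau w), Psi ε ψ (s, w) = tau w * (ε * fderiv ℝ ψ (Z w) (k w)) := by
        have : ∫ s in (0:ℝ)..(tau w), Psi ε ψ (s, w) =
            ∫ s in (0:ℝ)..(tau w), ε * fderiv ℝ ψ (Z w) (k w) := by
          refine intervalIntegral.integral_congr_ae (Eventually.of_forall fun s hs => ?_)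
          rw [uIoc_of_le h0] at hs
          exact not_rel_inn hw (fun _ => hs.2) ε ψ
        rw [this, intervalIntegral.integral_const, smul_eq_mul, sub_zero]
      have hmem : ∀ s ∈ Icc (tau w) t, Mt ε s w ∈ Om := by
        intro s hs
        rcases eq_or_lt_of_le hs.1 with heq | hlt
        · rw [← heq]
          have : Mt ε (tau w) w = Z w := by simp [Mt]
          rw [this]; exact ⟨w, hw, rfl⟩
        · exact h.Mt_mem_Om ⟨by linarith, hs.2.trans ht.2⟩ ⟨hw, hre, h0, hlt⟩
      have hder : ∀ s ∈ Icc (tau w) t, HasDerivAt (fun s => ψ (Mt ε s w))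
          (fderiv ℝ ψ (Mt ε s w) (ε • v0 w)) s := fun s hs =>
        (hψ.d _ (hmem s hs)).comp_hasDerivAt s (hasDerivAt_Mt_time ε s w)
      have hmeasMt : Measurable (fun s : ℝ => Mt ε s w) :=
        (continuous_iff_continuousAt.2 fun s => (hasDerivAt_Mt_time ε s w).continuousAt).measurable
      have hii : IntervalIntegrable (fun s => fderiv ℝ ψ (Mt ε s w) (ε • v0 w)) volume (tau w) t := by
        rw [intervalIntegrable_iff_integrableOn_Ioc_of_le htau.le]
        refine IntegrableOn.of_bound measure_Ioc_lt_top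
          (measurable_fd ψ hmeasMt measurable_const).aestronglyMeasurable (C * ‖ε • v0 w‖) ?_
        refine (ae_restrict_iff' measurableSet_Ioc).2 (Eventually.of_forall fun s hs => ?_)
        refine ((fderiv ℝ ψ (Mt ε s w)).le_opNorm _).trans ?_
        exact mul_le_mul_of_nonneg_right (hψ.b1 _ (hmem s ⟨hs.1.le, hs.2⟩)) (norm_nonneg _)
      have p2 : ∫ s in (tau w)..t, Psi ε ψ (s, w) = mu ε w * (ψ (Mt ε t w) - ψ (Z w)) := by
        have e1 : ∫ s in (tau w)..t, Psi ε ψ (s, w) =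
            ∫ s in (tau w)..t, mu ε w * fderiv ℝ ψ (Mt ε s w) (ε • v0 w) := by
          refine intervalIntegral.integral_congr_ae (Eventually.of_forall fun s hs => ?_)
          rw [uIoc_of_le htau.le] at hs
          have h1 : w ∉ innS s := fun hi => hi.2 ⟨hre, hs.1⟩
          have h2 : w ∈ Aset s := ⟨hw, hre, h0, hs.1⟩
          simp only [Psi, indicator_of_notMem h1, indicator_of_mem h2, zero_add]
        rw [e1, intervalIntegral.integral_const_mul,
          intervalIntegral.integral_eq_sub_of_hasDerivAt (f := fun s => ψ (Mt ε s w))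
            (fun s hs => hder s (by rwa [uIcc_of_le htau.le] at hs)) hii]
        congr 2
        simp [Mt]
      have i1 : IntervalIntegrable (fun s => Psi ε ψ (s, w)) volume 0 (tau w) := by
        refine (intervalIntegrable_const (c := ε * fderiv ℝ ψ (Z w) (k w))).congr_ae ?_
        refine (ae_restrict_iff' measurableSet_uIoc).2 (Eventually.of_forall fun s hs => ?_)
        rw [uIoc_of_le h0] at hs
        exact (not_rel_inn hw (fun _ => hs.2) ε ψ).symm
      have i2 : IntervalIntegrable (fun s => Psi ε ψ (s, w)) volume (tau w) t := by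
        refine (hii.const_mul (mu ε w)).congr_ae ?_
        refine (ae_restrict_iff' measurableSet_uIoc).2 (Eventually.of_forall fun s hs => ?_)
        rw [uIoc_of_le htau.le] at hs
        have h1 : w ∉ innS s := fun hi => hi.2 ⟨hre, hs.1⟩
        have h2 : w ∈ Aset s := ⟨hw, hre, h0, hs.1⟩
        simp only [Psi, indicator_of_notMem h1, indicator_of_mem h2, zero_add]
      rw [← intervalIntegral.integral_add_adjacent_intervals i1 i2, p1, p2]
      ring

end Sys

end

end Pool.Agent.MFG
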