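import Pool.Agent.MP_03ede7_an.W1b

set_option autoImplicit false
open Set Filter Topology Complex MeasureTheory
open scoped ComplexConjugate ContDiff

namespace Pool.Agent.MFG

noncomputable section

lemma TF.contOn {ψ : ℂ → ℝ} {C : ℝ} (hψ : TF ψ C) : ContinuousOn ψ Om := fun z hz =>
  (hψ.d z hz).continuousAt.continuousWithinAt

lemma TF.ψZ_contOn {ψ : ℂ → ℝ} {C : ℝ} (hψ : TF ψ C) : ContinuousOn (fun w => ψ (Z w)) S :=
  hψ.contOn.comp (contDiff_Z (n := 0)).continuous.continuousOn (fun w hw => ⟨w, hw, rfl⟩)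

lemma TF.integrableOn {ψ : ℂ → ℝ} {C : ℝ} (hψ : TF ψ C) : IntegrableOn ψ Om := by
  refine IntegrableOn.of_bound volume_Om_lt_top
    (hψ.contOn.aestronglyMeasurable isOpen_Om.measurableSet) C ?_
  exact (ae_restrict_iff' isOpen_Om.measurableSet).2 (Eventually.of_forall fun z hz => hψ.b0 z hz)

namespace Sys

variable {ε : ℝ} {W0 : ℝ × ℂ → ℂ} {N : Set (ℝ × ℂ)} {q : ℝ × ℂ → ℝ} {Nq : Set (ℝ × ℂ)}
    {ζ : ℂ → ℂ} {Nζ : Set ℂ}

/-- the key identity, by integration along horizontal lines -/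
lemma key_zero {ψ : ℂ → ℝ} {C : ℝ} (hψ : TF ψ C) {t : ℝ} (ht : t ∈ Icc (0:ℝ) 1) :
    ∫ w in S, (mt t w * fderiv ℝ ψ (Z w) (k w) + dmt t w * ψ (Z w)) = 0 := by
  obtain ⟨B, hB1, hB⟩ := exists_bounds 0
  obtain ⟨T, hT0, hT⟩ := exists_tauX_bound
  have hint : IntegrableOn (fun w => mt t w * fderiv ℝ ψ (Z w) (k w) + dmt t w * ψ (Z w)) S := by
    refine Integrable.add ?_ ?_
    · refine IntegrableOn.of_bound volume_S_lt_top
        ((measurable_mt t).mul (measurable_fd ψ measurable_Z measurable_k)).aestronglyMeasurable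
        (1 * (C * B)) ?_
      refine (ae_restrict_iff' isOpen_S.measurableSet).2 (Eventually.of_forall fun w hw => ?_)
      rw [norm_mul, Real.norm_eq_abs]
      have h1 := mt_mem ht.1 w
      rw [abs_of_nonneg h1.1]
      refine mul_le_mul (h1.2.trans ht.2) ?_ (norm_nonneg _) zero_le_one
      exact ((fderiv ℝ ψ (Z w)).le_opNorm _).trans (mul_le_mul (hψ.b1 _ ⟨w, hw, rfl⟩)
        (hB w (S_subset_Sc hw)).2.1 (norm_nonneg _) hψ.C0)
    · refine IntegrableOn.of_bound volume_S_lt_top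
        ((measurable_dmt t).aestronglyMeasurable.mul
          (hψ.ψZ_contOn.aestronglyMeasurable isOpen_S.measurableSet)) (T * C) ?_
      refine (ae_restrict_iff' isOpen_S.measurableSet).2 (Eventually.of_forall fun w hw => ?_)
      rw [norm_mul, Real.norm_eq_abs, Real.norm_eq_abs]
      exact mul_le_mul (abs_dmt_le hT0 hT t (S_subset_Sc hw)) (hψ.b0 _ ⟨w, hw, rfl⟩)
        (abs_nonneg _) hT0
  rw [S_eq] at hint ⊢
  refine rect_zero hint fun y hy => ?_
  have hy' : |y| < 1/20 := abs_lt.2 hy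
  refine line_W1 ht hy' (f := fun x => ψ (Z ⟨x, y⟩))
    (f' := fun x => fderiv ℝ ψ (Z ⟨x, y⟩) (k ⟨x, y⟩)) (C := C * B) ?_ ?_
  · intro x hx
    have hw : (⟨x, y⟩ : ℂ) ∈ S := ⟨abs_lt.2 hx, hy'⟩
    have h1 := curve_Z (hasDerivAt_mk x y)
    rw [mul_one] at h1
    exact (hψ.d _ ⟨_, hw, rfl⟩).comp_hasDerivAt x h1
  · intro x hx
    have hw : (⟨x, y⟩ : ℂ) ∈ S := ⟨abs_lt.2 hx, hy'⟩
    exact ((fderiv ℝ ψ _).le_opNorm _).trans (mul_le_mul (hψ.b1 _ ⟨_, hw, rfl⟩)
        (hB _ (S_subset_Sc hw)).2.1 (norm_nonneg _) hψ.C0)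

/-- The mass integral in the `w`-plane -/
lemma I_eq (h : Sys ε W0 N q Nq ζ Nζ) {ψ : ℂ → ℝ} {C : ℝ} (hψ : TF ψ C) {t : ℝ}
    (ht : t ∈ Icc (0:ℝ) 1) :
    ∫ z in Om, ψ z * rho ε W0 ζ t z =
      ∫ w in S, ((innS t).indicator (fun w => g w * ψ (Z w)) w +
        (Aset t).indicator (fun w => mu ε w * ψ (Mt ε t w)) w) ∧
    IntegrableOn (fun w => (innS t).indicator (fun w => g w * ψ (Z w)) w +
        (Aset t).indicator (fun w => mu ε w * ψ (Mt ε t w)) w) S := by
  obtain ⟨B, hB1, hB⟩ := exists_bounds ε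
  have i1 : IntegrableOn (fun w => g w * ψ (Z w)) (innS t) := by
    have hsub : innS t ⊆ S := fun w hw => hw.1
    refine IntegrableOn.of_bound ((measure_mono hsub).trans_lt volume_S_lt_top)
      (measurable_g.aestronglyMeasurable.mul ((hψ.ψZ_contOn.mono hsub).aestronglyMeasurable
        (measurableSet_innS t))) (B * C) ?_
    refine (ae_restrict_iff' (measurableSet_innS t)).2 (Eventually.of_forall fun w hw => ?_)
    rw [norm_mul, Real.norm_eq_abs, Real.norm_eq_abs, abs_of_pos (g_pos (S_sub_R2 hw.1))]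
    exact mul_le_mul (hB w (S_subset_Sc hw.1)).1 (hψ.b0 _ ⟨w, hw.1, rfl⟩) (abs_nonneg _)
      (by linarith)
  have i2 : IntegrableOn (fun w => mu ε w * ψ (Mt ε t w)) (Aset t) := by
    have hsub : Aset t ⊆ S := fun w hw => hw.1
    have hMc : ContinuousOn (fun w => ψ (Mt ε t w)) (Aset t) :=
      hψ.contOn.comp (fun w hw => (hasFDerivAt_Mt ε t
        (k_ne (S_sub_R2 hw.1))).continuousAt.continuousWithinAt) (fun w hw => h.Mt_mem_Om ht hw)
    refine IntegrableOn.of_bound ((measure_mono hsub).trans_lt volume_S_lt_top)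
      ((measurable_mu ε).aestronglyMeasurable.mul (hMc.aestronglyMeasurable
        (measurableSet_Aset t))) (B * C) ?_
    refine (ae_restrict_iff' (measurableSet_Aset t)).2 (Eventually.of_forall fun w hw => ?_)
    rw [norm_mul, Real.norm_eq_abs, Real.norm_eq_abs]
    exact mul_le_mul (hB w (S_subset_Sc hw.1)).2.2.1 (hψ.b0 _ (h.Mt_mem_Om ht hw)) (abs_nonneg _)
      (by linarith)
  rw [h.cov ht hψ.integrableOn, combine i1 i2]
  refine ⟨rfl, ?_⟩
  exact (((integrable_indicator_iff (measurableSet_innS t)).2 i1).integrableOn).add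
    (((integrable_indicator_iff (measurableSet_Aset t)).2 i2).integrableOn)

lemma Aset_zero : Aset 0 = ∅ := by
  ext w
  constructor
  · rintro ⟨-, -, h1, h2⟩
    exact absurd h2 (not_lt.2 h1)
  · intro h; exact absurd h (notMem_empty _)

/-- the integrated flux -/
def RR (ε : ℝ) (ψ : ℂ → ℝ) (s : ℝ) : ℝ := ∫ w in S, Psi ε ψ (s, w)

lemma Psi_integrable (h : Sys ε W0 N q Nq ζ Nζ) {ψ : ℂ → ℝ} {C : ℝ} (hψ : TF ψ C) {t : ℝ}
    (ht : t ∈ Icc (0:ℝ) 1) :
    Integrable (Psi ε ψ) ((volume.restrict (Ioc 0 t)).prod (volume.restrict S)) := by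
  obtain ⟨B, hB1, hB⟩ := exists_bounds ε
  have : IsFiniteMeasure (volume.restrict S : Measure ℂ) := ⟨by
    rw [Measure.restrict_apply_univ]; exact volume_S_lt_top⟩
  refine Integrable.of_bound (measurable_Psi ε ψ).aestronglyMeasurable
    (ε * (C * B) + B * (C * (ε * B))) ?_
  rw [Measure.prod_restrict]
  refine (ae_restrict_iff' (measurableSet_Ioc.prod isOpen_S.measurableSet)).2
    (Eventually.of_forall fun x hx => ?_)
  exact h.abs_Psi_le hψ hB1 hB ⟨hx.1.1.le, hx.1.2.trans ht.2⟩ hx.2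

theorem W1_integral (h : Sys ε W0 N q Nq ζ Nζ) {ψ : ℂ → ℝ} {C : ℝ} (hψ : TF ψ C) {t : ℝ}
    (ht : t ∈ Icc (0:ℝ) 1) :
    (∫ z in Om, ψ z * rho ε W0 ζ t z) - ∫ z in Om, ψ z * rho ε W0 ζ 0 z =
      ∫ s in (0:ℝ)..t, RR ε ψ s := by
  have h0 : (0:ℝ) ∈ Icc (0:ℝ) 1 := ⟨le_rfl, zero_le_one⟩
  obtain ⟨e1, i1⟩ := h.I_eq hψ ht
  obtain ⟨e2, i2⟩ := h.I_eq hψ h0
  -- swap
  have hswap : ∫ s in (0:ℝ)..t, RR ε ψ s = ∫ w in S, ∫ s in (0:ℝ)..t, Psi ε ψ (s, w) := by
    rw [intervalIntegral.integral_of_le ht.1]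
    simp only [RR]
    have := integral_integral_swap (f := fun s w => Psi ε ψ (s, w)) (h.Psi_integrable hψ ht)
    rw [this]
    refine integral_congr_ae (Eventually.of_forall fun w => ?_)
    simp only
    rw [intervalIntegral.integral_of_le ht.1]
  rw [hswap, e1, e2, ← integral_sub i1 i2]
  have htime : ∫ w in S, ∫ s in (0:ℝ)..t, Psi ε ψ (s, w) =
      ∫ w in S, (ε * (mt t w * fderiv ℝ ψ (Z w) (k w)) +
      (Aset t).indicator (fun w => mu ε w * (ψ (Mt ε t w) - ψ (Z w))) w) :=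
    setIntegral_congr_fun isOpen_S.measurableSet (fun w hw => h.time_integral hψ ht hw)
  rw [htime]
  have hkey := key_zero hψ ht
  have hptw : ∀ w ∈ S, ((innS t).indicator (fun w => g w * ψ (Z w)) w +
        (Aset t).indicator (fun w => mu ε w * ψ (Mt ε t w)) w) -
      ((innS 0).indicator (fun w => g w * ψ (Z w)) w +
        (Aset 0).indicator (fun w => mu ε w * ψ (Mt ε 0 w)) w) =
      (ε * (mt t w * fderiv ℝ ψ (Z w) (k w)) +
      (Aset t).indicator (fun w => mu ε w * (ψ (Mt ε t w) - ψ (Z w))) w) -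
      ε * (mt t w * fderiv ℝ ψ (Z w) (k w) + dmt t w * ψ (Z w)) := by
    intro w hw
    rw [Aset_zero, indicator_empty]
    by_cases hA : w ∈ Aset t
    · have n1 : w ∉ innS t := fun hi => hi.2 ⟨hA.2.1, hA.2.2.2⟩
      have n2 : w ∈ innS 0 := ⟨hw, fun hr => absurd hr.2 (not_lt.2 hA.2.2.1)⟩
      have n3 : dmt t w = tauX w := if_pos ⟨hA.2.1, hA.2.2.1, hA.2.2.2⟩
      have n4 : mu ε w = g w - ε * tauX w := by
        unfold mu tauX; ring
      rw [indicator_of_mem hA, indicator_of_mem hA, indicator_of_notMem n1, indicator_of_mem n2, n3,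
        n4]
      ring
    · have n3 : dmt t w = 0 := if_neg fun hh => hA ⟨hw, hh⟩
      have n5 : (innS t).indicator (fun w => g w * ψ (Z w)) w =
          (innS 0).indicator (fun w => g w * ψ (Z w)) w := by
        by_cases hi : w ∈ innS t
        · have n2 : w ∈ innS 0 := ⟨hw, fun hr => hi.2 ⟨hr.1, by linarith [hr.2, ht.1]⟩⟩
          rw [indicator_of_mem hi, indicator_of_mem n2]
        · have n2 : w ∉ innS 0 := by
            intro hi0
            have hr : rel t w := by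
              by_contra hcon
              exact hi ⟨hw, hcon⟩
            have : ¬ tau w < 0 := fun hlt => hi0.2 ⟨hr.1, hlt⟩
            exact hA ⟨hw, hr.1, not_lt.1 this, hr.2⟩
          rw [indicator_of_notMem hi, indicator_of_notMem n2]
      rw [indicator_of_notMem hA, indicator_of_notMem hA, n3, n5]
      simp
  rw [setIntegral_congr_fun isOpen_S.measurableSet hptw]
  obtain ⟨B, hB1, hB⟩ := exists_bounds ε
  obtain ⟨T, hT0, hT⟩ := exists_tauX_bound
  have j1 : IntegrableOn (fun w => mt t w * fderiv ℝ ψ (Z w) (k w)) S := by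
    refine IntegrableOn.of_bound volume_S_lt_top
        ((measurable_mt t).mul (measurable_fd ψ measurable_Z measurable_k)).aestronglyMeasurable
        (1 * (C * B)) ?_
    refine (ae_restrict_iff' isOpen_S.measurableSet).2 (Eventually.of_forall fun w hw => ?_)
    rw [norm_mul, Real.norm_eq_abs]
    have h1 := mt_mem ht.1 w
    rw [abs_of_nonneg h1.1]
    refine mul_le_mul (h1.2.trans ht.2) ?_ (norm_nonneg _) zero_le_one
    exact ((fderiv ℝ ψ (Z w)).le_opNorm _).trans (mul_le_mul (hψ.b1 _ ⟨w, hw, rfl⟩)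
      (hB w (S_subset_Sc hw)).2.1 (norm_nonneg _) hψ.C0)
  have j2 : IntegrableOn (fun w => dmt t w * ψ (Z w)) S := by
    refine IntegrableOn.of_bound volume_S_lt_top
        ((measurable_dmt t).aestronglyMeasurable.mul
          (hψ.ψZ_contOn.aestronglyMeasurable isOpen_S.measurableSet)) (T * C) ?_
    refine (ae_restrict_iff' isOpen_S.measurableSet).2 (Eventually.of_forall fun w hw => ?_)
    rw [norm_mul, Real.norm_eq_abs, Real.norm_eq_abs]
    exact mul_le_mul (abs_dmt_le hT0 hT t (S_subset_Sc hw)) (hψ.b0 _ ⟨w, hw, rfl⟩)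
      (abs_nonneg _) hT0
  have j3 : IntegrableOn ((Aset t).indicator (fun w => mu ε w * (ψ (Mt ε t w) - ψ (Z w)))) S := by
    have hsub : Aset t ⊆ S := fun w hw => hw.1
    have hMc : ContinuousOn (fun w => ψ (Mt ε t w)) (Aset t) :=
      hψ.contOn.comp (fun w hw => (hasFDerivAt_Mt ε t
        (k_ne (S_sub_R2 hw.1))).continuousAt.continuousWithinAt) (fun w hw => h.Mt_mem_Om ht hw)
    refine ((integrable_indicator_iff (measurableSet_Aset t)).2 ?_).integrableOn
    refine IntegrableOn.of_bound ((measure_mono hsub).trans_lt volume_S_lt_top)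
      ((measurable_mu ε).aestronglyMeasurable.mul ((hMc.sub
        (hψ.ψZ_contOn.mono hsub)).aestronglyMeasurable (measurableSet_Aset t))) (B * (C + C)) ?_
    refine (ae_restrict_iff' (measurableSet_Aset t)).2 (Eventually.of_forall fun w hw => ?_)
    rw [norm_mul, Real.norm_eq_abs, Real.norm_eq_abs]
    refine mul_le_mul (hB w (S_subset_Sc hw.1)).2.2.1 ?_ (abs_nonneg _) (by linarith)
    refine (abs_sub _ _).trans (add_le_add (hψ.b0 _ (h.Mt_mem_Om ht hw)) (hψ.b0 _ ⟨w, hw.1, rfl⟩))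
  have l1 : Integrable (fun w => ε * (mt t w * fderiv ℝ ψ (Z w) (k w)) +
      (Aset t).indicator (fun w => mu ε w * (ψ (Mt ε t w) - ψ (Z w))) w) (volume.restrict S) :=
    (j1.const_mul ε).add j3
  have l2 : Integrable (fun w => ε * (mt t w * fderiv ℝ ψ (Z w) (k w) + dmt t w * ψ (Z w)))
      (volume.restrict S) := (j1.add j2).const_mul ε
  rw [integral_sub l1 l2, integral_const_mul, hkey]
  ring

end Sys

end

end Pool.Agent.MFG
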