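import Pool.Agent.MP_03ede7_an.W1c

set_option autoImplicit false
open Set Filter Topology Complex MeasureTheory
open scoped ComplexConjugate ContDiff

namespace Pool.Agent.MFG

noncomputable section

/-- from an integral representation to Lipschitz and a.e. derivative -/
lemma calculus_aux {I R : ℝ → ℝ} {K : ℝ} (hK : 0 ≤ K)
    (hR : IntervalIntegrable R volume 0 1) (hb : ∀ s ∈ Icc (0:ℝ) 1, |R s| ≤ K)
    (hI : ∀ t ∈ Icc (0:ℝ) 1, I t - I 0 = ∫ s in (0:ℝ)..t, R s) :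
    (∃ K : NNReal, LipschitzOnWith K I (Icc 0 1)) ∧
    ∀ᵐ t ∂(volume.restrict (Ioo (0:ℝ) 1)), HasDerivAt I (R t) t := by
  constructor
  · refine ⟨⟨K, hK⟩, LipschitzOnWith.of_dist_le_mul fun x hx y hy => ?_⟩
    have e : I x - I y = ∫ s in y..x, R s := by
      have h1 := hI x hx
      have h2 := hI y hy
      have hxi : IntervalIntegrable R volume 0 x :=
        hR.mono_set (by rw [uIcc_of_le hx.1, uIcc_of_le zero_le_one]; exact Icc_subset_Icc_right hx.2)
      have hyi : IntervalIntegrable R volume 0 y :=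
        hR.mono_set (by rw [uIcc_of_le hy.1, uIcc_of_le zero_le_one]; exact Icc_subset_Icc_right hy.2)
      have h3 := intervalIntegral.integral_interval_sub_left hxi hyi
      linarith
    rw [Real.dist_eq, Real.dist_eq, e]
    have := intervalIntegral.norm_integral_le_of_norm_le_const (a := y) (b := x) (f := R) (C := K)
      (fun s hs => by
        rw [Real.norm_eq_abs]
        apply hb
        rcases le_total y x with h | h
        · rw [uIoc_of_le h] at hs; exact ⟨by linarith [hy.1, hs.1], by linarith [hx.2, hs.2]⟩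
        · rw [uIoc_of_ge h] at hs; exact ⟨by linarith [hx.1, hs.1], by linarith [hy.2, hs.2]⟩)
    rw [Real.norm_eq_abs] at this
    exact this
  · rw [ae_restrict_iff' measurableSet_Ioo]
    filter_upwards [hR.ae_hasDerivAt_integral] with t ht htm
    have h1 := ht (by rw [uIcc_of_le zero_le_one]; exact ⟨htm.1.le, htm.2.le⟩) 0
      (by rw [uIcc_of_le zero_le_one]; exact ⟨le_rfl, zero_le_one⟩)
    have h2 := h1.add_const (I 0)
    refine h2.congr_of_eventuallyEq ?_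
    filter_upwards [isOpen_Ioo.mem_nhds htm] with s hs
    have := hI s ⟨hs.1.le, hs.2.le⟩
    linarith

lemma measurable_Mt' (ε t : ℝ) : Measurable (Mt ε t) := by
  have h1 : Measurable (fun w : ℂ => ε * (t - tau w)) :=
    measurable_const.mul (measurable_const.sub measurable_tau)
  have h2 : Measurable (fun w : ℂ => (ε * (t - tau w)) • v0 w) := h1.smul measurable_v0
  exact measurable_Z.add h2

lemma g_smul_v0 {w : ℂ} (hk : k w ≠ 0) : (g w) • v0 w = k w := by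
  have hkc : conj (k w) ≠ 0 := by simpa using hk
  have hgk : (g w : ℂ) = conj (k w) * k w := by rw [g, Complex.normSq_eq_conj_mul_self]
  rw [real_smul, hgk, v0, map_inv₀]
  field_simp

namespace Sys

variable {ε : ℝ} {W0 : ℝ × ℂ → ℂ} {N : Set (ℝ × ℂ)} {q : ℝ × ℂ → ℝ} {Nq : Set (ℝ × ℂ)}
    {ζ : ℂ → ℂ} {Nζ : Set ℂ}

lemma norm_vel_le (h : Sys ε W0 N q Nq ζ Nζ) {t : ℝ} (ht : t ∈ Icc (0:ℝ) 1) {z : ℂ} (hz : z ∈ Om) :
    ‖vel ε W0 ζ t z‖ ≤ ε * 2 := by
  have hε := h.geo.εpos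
  have h1 : ∀ w ∈ R3c, ‖ε • v0 w‖ ≤ ε * 2 := fun w hw => by
    rw [norm_smul, Real.norm_eq_abs, abs_of_pos hε]
    exact mul_le_mul_of_nonneg_left (norm_v0_le hw) hε.le
  unfold vel
  obtain ⟨w, hw, rfl⟩ := hz
  split_ifs
  · exact h1 _ (R3_subset_R3c (h.geo.W0R3 _ (h.geo.W0_mem (TI ht) (S_sub_R2 hw))))
  · rw [h.ζZ w (S_sub_R2 hw)]
    exact h1 _ (S_sub_R3c hw)

lemma ae_fd_vel (h : Sys ε W0 N q Nq ζ Nζ) (ψ : ℂ → ℝ) {t : ℝ} (ht : t ∈ Icc (0:ℝ) 1) :
    AEMeasurable (fun z => fderiv ℝ ψ z (vel ε W0 ζ t z)) (volume.restrict Om) := by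
  have h1 : (fun z => fderiv ℝ ψ z (vel ε W0 ζ t z)) =
      fun z => (vel ε W0 ζ t z).re * fderiv ℝ ψ z 1 + (vel ε W0 ζ t z).im * fderiv ℝ ψ z I := by
    funext x; exact clm_decomp _ _
  rw [h1]
  have hv := h.vel_ae_t ht
  exact ((measurable_re.comp_aemeasurable hv).mul
    (measurable_fderiv_apply_const ℝ ψ (1:ℂ)).aemeasurable).add
    ((measurable_im.comp_aemeasurable hv).mul
      (measurable_fderiv_apply_const ℝ ψ I).aemeasurable)

lemma fd_vel_integrable (h : Sys ε W0 N q Nq ζ Nζ) {ψ : ℂ → ℝ} {C : ℝ} (hψ : TF ψ C) {t : ℝ}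
    (ht : t ∈ Icc (0:ℝ) 1) :
    IntegrableOn (fun z => fderiv ℝ ψ z (vel ε W0 ζ t z)) Om := by
  refine IntegrableOn.of_bound volume_Om_lt_top (h.ae_fd_vel ψ ht).aestronglyMeasurable
    (C * (ε * 2)) ?_
  refine (ae_restrict_iff' isOpen_Om.measurableSet).2 (Eventually.of_forall fun z hz => ?_)
  exact ((fderiv ℝ ψ z).le_opNorm _).trans (mul_le_mul (hψ.b1 z hz) (h.norm_vel_le ht hz)
    (norm_nonneg _) hψ.C0)

lemma RR_eq (h : Sys ε W0 N q Nq ζ Nζ) {ψ : ℂ → ℝ} {C : ℝ} (hψ : TF ψ C) {t : ℝ}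
    (ht : t ∈ Icc (0:ℝ) 1) :
    RR ε ψ t = ∫ z in Om, fderiv ℝ ψ z (vel ε W0 ζ t z) * rho ε W0 ζ t z := by
  obtain ⟨B, hB1, hB⟩ := exists_bounds ε
  rw [h.cov ht (h.fd_vel_integrable hψ ht)]
  have e1 : ∫ w in innS t, g w * fderiv ℝ ψ (Z w) (vel ε W0 ζ t (Z w)) =
      ∫ w in innS t, ε * fderiv ℝ ψ (Z w) (k w) := by
    refine setIntegral_congr_fun (measurableSet_innS t) fun w hw => ?_
    have hr : ¬ rel t (ζ (Z w)) := by rw [h.ζZ w (S_sub_R2 hw.1)]; exact hw.2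
    simp only [vel_inn hr, h.ζZ w (S_sub_R2 hw.1)]
    rw [← g_smul_v0 (k_ne (S_sub_R2 hw.1)), map_smul, map_smul, smul_eq_mul, smul_eq_mul]
    ring
  have e2 : ∫ w in Aset t, mu ε w * fderiv ℝ ψ (Mt ε t w) (vel ε W0 ζ t (Mt ε t w)) =
      ∫ w in Aset t, mu ε w * fderiv ℝ ψ (Mt ε t w) (ε • v0 w) := by
    refine setIntegral_congr_fun (measurableSet_Aset t) fun w hw => ?_
    obtain ⟨w', hw', hwe⟩ := h.M1 ht hw
    have hr : rel t (ζ (Mt ε t w)) := by
      rw [← hwe, h.ζZ w' (S_sub_R2 hw'.1)]; exact hw'.2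
    simp only [vel_rel hr, h.geo.MW0 t (TI ht) w (S_sub_R2 hw.1)]
  rw [e1, e2]
  have i1 : IntegrableOn (fun w => ε * fderiv ℝ ψ (Z w) (k w)) (innS t) := by
    have hsub : innS t ⊆ S := fun w hw => hw.1
    refine IntegrableOn.of_bound ((measure_mono hsub).trans_lt volume_S_lt_top)
      ((measurable_fd ψ measurable_Z measurable_k).const_mul ε).aestronglyMeasurable
      (ε * (C * B)) ?_
    refine (ae_restrict_iff' (measurableSet_innS t)).2 (Eventually.of_forall fun w hw => ?_)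
    rw [norm_mul, Real.norm_eq_abs, abs_of_pos h.geo.εpos]
    refine mul_le_mul_of_nonneg_left ?_ h.geo.εpos.le
    exact ((fderiv ℝ ψ (Z w)).le_opNorm _).trans (mul_le_mul (hψ.b1 _ ⟨w, hw.1, rfl⟩)
      (hB w (S_subset_Sc hw.1)).2.1 (norm_nonneg _) hψ.C0)
  have i2 : IntegrableOn (fun w => mu ε w * fderiv ℝ ψ (Mt ε t w) (ε • v0 w)) (Aset t) := by
    have hsub : Aset t ⊆ S := fun w hw => hw.1
    have hMm : Measurable (Mt ε t) := measurable_Mt' ε t
    refine IntegrableOn.of_bound ((measure_mono hsub).trans_lt volume_S_lt_top)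
      ((measurable_mu ε).mul (measurable_fd ψ hMm (measurable_v0.const_smul ε))).aestronglyMeasurable
      (B * (C * (ε * B))) ?_
    refine (ae_restrict_iff' (measurableSet_Aset t)).2 (Eventually.of_forall fun w hw => ?_)
    rw [norm_mul, Real.norm_eq_abs]
    refine mul_le_mul (hB w (S_subset_Sc hw.1)).2.2.1 ?_ (norm_nonneg _) (by linarith)
    refine ((fderiv ℝ ψ (Mt ε t w)).le_opNorm _).trans (mul_le_mul (hψ.b1 _ (h.Mt_mem_Om ht hw)) ?_
      (norm_nonneg _) hψ.C0)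
    rw [norm_smul, Real.norm_eq_abs, abs_of_pos h.geo.εpos]
    exact mul_le_mul_of_nonneg_left (hB w (S_subset_Sc hw.1)).2.2.2 h.geo.εpos.le
  rw [combine i1 i2]
  rfl

theorem weak_cont (h : Sys ε W0 N q Nq ζ Nζ) {ψ : ℂ → ℝ} {C : ℝ} (hψ : TF ψ C) :
    (∃ K : NNReal, LipschitzOnWith K (fun t => ∫ z in Om, ψ z * rho ε W0 ζ t z) (Icc 0 1)) ∧
    ∀ᵐ t ∂(volume.restrict (Ioo (0:ℝ) 1)),
      HasDerivAt (fun s => ∫ z in Om, ψ z * rho ε W0 ζ s z)
        (∫ z in Om, fderiv ℝ ψ z (vel ε W0 ζ t z) * rho ε W0 ζ t z) t := by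
  obtain ⟨B, hB1, hB⟩ := exists_bounds ε
  have hε := h.geo.εpos
  have hfin : IsFiniteMeasure (volume.restrict S : Measure ℂ) := ⟨by
    rw [Measure.restrict_apply_univ]; exact volume_S_lt_top⟩
  have hRi : IntervalIntegrable (RR ε ψ) volume 0 1 := by
    rw [intervalIntegrable_iff_integrableOn_Ioc_of_le zero_le_one]
    exact (h.Psi_integrable hψ ⟨zero_le_one, le_rfl⟩).integral_prod_left
  set M := (ε * (C * B) + B * (C * (ε * B))) with hM
  have hM0 : 0 ≤ M := by have := hψ.C0; positivity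
  have hRb : ∀ s ∈ Icc (0:ℝ) 1, |RR ε ψ s| ≤ M * volume.real S := by
    intro s hs
    have := norm_setIntegral_le_of_norm_le_const (μ := volume) (s := S) (f := fun w => Psi ε ψ (s, w))
      (C := M) volume_S_lt_top (fun w hw => h.abs_Psi_le hψ hB1 hB hs hw)
    exact this
  obtain ⟨c1, c2⟩ := calculus_aux (I := fun t => ∫ z in Om, ψ z * rho ε W0 ζ t z)
    (by positivity) hRi hRb (fun t ht => h.W1_integral hψ ht)
  refine ⟨c1, ?_⟩
  rw [ae_restrict_iff' measurableSet_Ioo] at c2 ⊢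
  filter_upwards [c2] with t ht htm
  rw [← h.RR_eq hψ ⟨htm.1.le, htm.2.le⟩]
  exact ht htm

end Sys

end

end Pool.Agent.MFG
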