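import Pool.Agent.MP_03ede7_an.Ext2

set_option autoImplicit false
open Set Filter Topology Complex MeasureTheory
open scoped ComplexConjugate ContDiff

namespace Pool.Agent.MFG

noncomputable section

lemma c_im (w : ℂ) : (conj (k w) * k1 w).im = 4 * w.im *
    ((w.re^2 - w.im^2 - 1) * (1 + ((w.re^2 - w.im^2 - 1)^2 + (2 * w.re * w.im)^2)) +
      2 * w.re^2 * (1 - ((w.re^2 - w.im^2 - 1)^2 + (2 * w.re * w.im)^2))) := by
  simp [k, k1, pow_two]; ring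

lemma c_re (w : ℂ) : (conj (k w) * k1 w).re = 4 * w.re *
    ((w.re^2 - w.im^2 - 1) * (1 + ((w.re^2 - w.im^2 - 1)^2 + (2 * w.re * w.im)^2)) -
      2 * w.im^2 * (1 - ((w.re^2 - w.im^2 - 1)^2 + (2 * w.re * w.im)^2))) := by
  simp [k, k1, pow_two]; ring

/-- On the inner part of the outer zone `τ > 1`. -/
lemma tau_gt_one {w : ℂ} (h1 : 11/10 ≤ |w.re|) (h2 : |w.re| ≤ 23/20) (h3 : |w.im| ≤ 1/20) :
    1 < tau w := by
  have e1 := sq_le_of_abs_le h2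
  have e2 := sq_le_of_abs_le h3
  have e3 : (11/10)^2 ≤ w.re^2 := by rw [← sq_abs w.re]; exact pow_le_pow_left₀ (by norm_num) h1 2
  have hb : (2 * w.re * w.im)^2 ≤ 0.014 := by
    have : (2 * w.re * w.im)^2 = 4 * (w.re^2 * w.im^2) := by ring
    rw [this]
    have := mul_le_mul e1 e2 (sq_nonneg _) (by positivity)
    norm_num at this ⊢; linarith
  have hb0 : 0 ≤ (2 * w.re * w.im)^2 := sq_nonneg _
  have ha1 : 0.2 ≤ w.re^2 - w.im^2 - 1 := by norm_num at *; nlinarith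
  have ha2 : w.re^2 - w.im^2 - 1 ≤ 0.33 := by norm_num at *; nlinarith [sq_nonneg w.im]
  have hg : g w < 3/2 := by
    rw [g_eq']
    set a := w.re^2 - w.im^2 - 1
    set b := (2 * w.re * w.im)^2
    have haa : a^2 ≤ 0.11 := by nlinarith
    have : (a^2 + b)^2 ≤ 0.125^2 := pow_le_pow_left₀ (by positivity) (by norm_num at *; linarith) 2
    norm_num at *; linarith
  have hR : w ∈ R2 := ⟨h2.trans (by norm_num), h3.trans (by norm_num)⟩
  have hgp := g_pos hR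
  unfold tau
  have : 4 < 6 / g w := by rw [lt_div_iff₀ hgp]; linarith
  linarith

/-- At the ends `τ < 0`. -/
lemma tau_neg {w : ℂ} (h1 : 13/10 ≤ |w.re|) (h2 : |w.re| ≤ 7/5) (h3 : |w.im| ≤ 1/20) :
    tau w < 0 := by
  have e1 := sq_le_of_abs_le h2
  have e2 := sq_le_of_abs_le h3
  have e3 : (13/10)^2 ≤ w.re^2 := by rw [← sq_abs w.re]; exact pow_le_pow_left₀ (by norm_num) h1 2
  have hb : (2 * w.re * w.im)^2 ≤ 0.02 := by
    have : (2 * w.re * w.im)^2 = 4 * (w.re^2 * w.im^2) := by ring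
    rw [this]
    have := mul_le_mul e1 e2 (sq_nonneg _) (by positivity)
    norm_num at this ⊢; linarith
  have hb0 : 0 ≤ (2 * w.re * w.im)^2 := sq_nonneg _
  have ha1 : 0.68 ≤ w.re^2 - w.im^2 - 1 := by norm_num at *; nlinarith
  have hg : 2 < g w := by
    rw [g_eq']
    set a := w.re^2 - w.im^2 - 1
    set b := (2 * w.re * w.im)^2
    have haa : 0.46 ≤ a^2 := by norm_num at *; nlinarith
    have : 0.46^2 ≤ (a^2 + b)^2 := pow_le_pow_left₀ (by positivity) (by linarith) 2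
    norm_num at *; linarith
  have hR : w ∈ R2 := ⟨h2, h3.trans (by norm_num)⟩
  have hgp := g_pos hR
  unfold tau
  have : 6 / g w < 3 := by rw [div_lt_iff₀ hgp]; linarith
  linarith

/-- In the centre, `g > 3`. -/
lemma g_center {w : ℂ} (h2 : |w.re| ≤ 1/4) (h3 : |w.im| ≤ 1/20) : 3 < g w := by
  have e1 := sq_le_of_abs_le h2
  have e2 := sq_le_of_abs_le h3
  have hb : (2 * w.re * w.im)^2 ≤ 0.001 := by
    have : (2 * w.re * w.im)^2 = 4 * (w.re^2 * w.im^2) := by ring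
    rw [this]
    have := mul_le_mul e1 e2 (sq_nonneg _) (by positivity)
    norm_num at this ⊢; linarith
  have hb0 : 0 ≤ (2 * w.re * w.im)^2 := sq_nonneg _
  have ha1 : w.re^2 - w.im^2 - 1 ≤ -0.93 := by norm_num at *; nlinarith [sq_nonneg w.im]
  rw [g_eq']
  set a := w.re^2 - w.im^2 - 1
  set b := (2 * w.re * w.im)^2
  have haa : 0.86 ≤ a^2 := by norm_num at *; nlinarith
  have : 0.86^2 ≤ (a^2 + b)^2 := pow_le_pow_left₀ (by positivity) (by linarith) 2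
  norm_num at *; linarith

/-- the zone used by the competitor: `1/10 < τ < 1/2`. -/
lemma tau_zone {w : ℂ} (h1 : 126/100 ≤ |w.re|) (h2 : |w.re| ≤ 127/100) (h3 : |w.im| ≤ 1/40) :
    1/20 < tau w ∧ tau w < 49/100 := by
  have e1 := sq_le_of_abs_le h2
  have e2 := sq_le_of_abs_le h3
  have e3 : (126/100)^2 ≤ w.re^2 := by
    rw [← sq_abs w.re]; exact pow_le_pow_left₀ (by norm_num) h1 2
  have hb : (2 * w.re * w.im)^2 ≤ 0.0041 := by
    have : (2 * w.re * w.im)^2 = 4 * (w.re^2 * w.im^2) := by ring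
    rw [this]
    have := mul_le_mul e1 e2 (sq_nonneg _) (by positivity)
    norm_num at this ⊢; linarith
  have hb0 : 0 ≤ (2 * w.re * w.im)^2 := sq_nonneg _
  have ha1 : 0.5869 ≤ w.re^2 - w.im^2 - 1 := by norm_num at *; nlinarith
  have ha2 : w.re^2 - w.im^2 - 1 ≤ 0.613 := by norm_num at *; nlinarith [sq_nonneg w.im]
  have hg : 12/7 + 1/20 < g w ∧ g w < 1.96 := by
    rw [g_eq']
    set a := w.re^2 - w.im^2 - 1
    set b := (2 * w.re * w.im)^2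
    have haa : 0.3444 ≤ a^2 := by norm_num at *; nlinarith
    have haa2 : a^2 ≤ 0.3758 := by norm_num at *; nlinarith
    have h4 : 0.3444^2 ≤ (a^2 + b)^2 := pow_le_pow_left₀ (by positivity) (by linarith) 2
    have h5 : (a^2 + b)^2 ≤ 0.38^2 := pow_le_pow_left₀ (by positivity) (by norm_num at *; linarith) 2
    constructor <;> norm_num at * <;> linarith
  have hR : w ∈ R2 := ⟨h2.trans (by norm_num), h3.trans (by norm_num)⟩
  have hgp := g_pos hR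
  unfold tau
  have h6 : 6 / g w < 3.49 := by rw [div_lt_iff₀ hgp]; norm_num at *; linarith
  have h7 : 3.05 < 6 / g w := by rw [lt_div_iff₀ hgp]; norm_num at *; linarith
  constructor <;> norm_num at * <;> linarith

/-- bounds for `u` in the release zone -/
lemma zone_bounds {w : ℂ} (h1 : 23/20 ≤ |w.re|) (h2 : |w.re| ≤ 13/10) (h3 : |w.im| ≤ 1/20) :
    0.31 ≤ w.re^2 - w.im^2 - 1 ∧ w.re^2 - w.im^2 - 1 ≤ 0.69 ∧ (2 * w.re * w.im)^2 ≤ 0.0169 ∧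
    0 ≤ (2 * w.re * w.im)^2 ∧ 1.3225 ≤ w.re^2 ∧ w.re^2 ≤ 1.69 ∧ w.im^2 ≤ 0.0025 := by
  have e1 := sq_le_of_abs_le h2
  have e2 := sq_le_of_abs_le h3
  have e3 : (23/20)^2 ≤ w.re^2 := by rw [← sq_abs w.re]; exact pow_le_pow_left₀ (by norm_num) h1 2
  have hb : (2 * w.re * w.im)^2 ≤ 0.0169 := by
    have : (2 * w.re * w.im)^2 = 4 * (w.re^2 * w.im^2) := by ring
    rw [this]
    have := mul_le_mul e1 e2 (sq_nonneg _) (by positivity)
    norm_num at this ⊢; linarith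
  have hb0 : 0 ≤ (2 * w.re * w.im)^2 := sq_nonneg _
  have hi := sq_nonneg w.im
  refine ⟨?_, ?_, hb, hb0, ?_, ?_, ?_⟩ <;> norm_num at * <;> linarith

lemma zone_c {w : ℂ} (h1 : 23/20 ≤ |w.re|) (h2 : |w.re| ≤ 13/10) (h3 : |w.im| ≤ 1/20)
    (h4 : 1/40 ≤ w.im) :
    1/10 ≤ (conj (k w) * k1 w).im ∧ |(conj (k w) * k1 w).im| ≤ 10 ∧
      |(conj (k w) * k1 w).re| ≤ 10 ∧ ‖k w‖ ≤ 2 := by
  obtain ⟨a1, a2, b1, b0, r1, r2, i1⟩ := zone_bounds h1 h2 h3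
  rw [c_im, c_re]
  set a := w.re^2 - w.im^2 - 1 with ha
  set b := (2 * w.re * w.im)^2 with hb
  have hu1 : a^2 + b ≤ 0.5 := by norm_num at *; nlinarith
  have hu0 : 0 ≤ a^2 + b := by positivity
  have him := (abs_le.1 h3).2
  have hX1 : 1.3225 ≤ a * (1 + (a^2 + b)) + 2 * w.re^2 * (1 - (a^2 + b)) := by
    norm_num at *
    nlinarith [mul_nonneg (by linarith : (0:ℝ) ≤ a) hu0]
  have hX2 : a * (1 + (a^2 + b)) + 2 * w.re^2 * (1 - (a^2 + b)) ≤ 5 := by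
    norm_num at *
    nlinarith [mul_nonneg (by linarith : (0:ℝ) ≤ a) hu0]
  have hY1 : 0 ≤ a * (1 + (a^2 + b)) - 2 * w.im^2 * (1 - (a^2 + b)) := by
    norm_num at *
    nlinarith [mul_nonneg (by linarith : (0:ℝ) ≤ a) hu0, sq_nonneg w.im]
  have hY2 : a * (1 + (a^2 + b)) - 2 * w.im^2 * (1 - (a^2 + b)) ≤ 1.1 := by
    norm_num at *
    nlinarith [mul_nonneg (by linarith : (0:ℝ) ≤ a) hu0, sq_nonneg w.im]
  refine ⟨?_, ?_, ?_, ?_⟩
  · norm_num at *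
    nlinarith
  · rw [abs_le]
    constructor <;> norm_num at * <;> nlinarith
  · rw [abs_mul, abs_mul, abs_of_nonneg hY1]
    have : |(4:ℝ)| * |w.re| ≤ 5.2 := by
      rw [abs_of_pos (by norm_num : (0:ℝ) < 4)]; norm_num at *; linarith
    have h5 := mul_le_mul this hY2 hY1 (by norm_num)
    norm_num at *; linarith
  · have hg : g w ≤ 4 := by
      rw [g_eq', ← ha, ← hb]
      norm_num at *
      nlinarith
    have : ‖k w‖^2 ≤ 2^2 := by
      rw [← Complex.normSq_eq_norm_sq]; have := hg; unfold g at this; linarith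
    exact le_of_sq_le_sq this (by norm_num)

/-- The wall lemma. -/
lemma wall {w₀ w : ℂ} (h1 : 23/20 ≤ |w₀.re|) (h2 : |w₀.re| ≤ 13/10) (h3 : |w₀.im| ≤ 1/20)
    (h4 : 1/40 ≤ w₀.im) (hd : ‖w - w₀‖ ≤ 1/1000)
    (him : (conj (k w₀) * (Z w - Z w₀)).im = 0) : w.im ≤ w₀.im := by
  by_contra hcon
  push Not at hcon
  obtain ⟨c1, c2, c3, c4⟩ := zone_c h1 h2 h3 h4
  have hgge : 1/2 ≤ g w₀ := g_ge ⟨h2.trans (by norm_num), h3.trans (by norm_num)⟩
  set c := conj (k w₀) * k1 w₀ with hc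
  set Δ := w - w₀ with hΔ
  set E : ℂ := 2 * w₀^2 - 2/3 + w₀ * Δ + Δ^2/5 with hE
  have hw : w = w₀ + Δ := by rw [hΔ]; ring
  have hTaylor : Z w - Z w₀ = k w₀ * Δ + k1 w₀ * Δ^2 / 2 + Δ^3 * E := by
    rw [hw, hE]; simp only [Z, k, k1]; ring
  have hkk : conj (k w₀) * k w₀ = (g w₀ : ℂ) := by
    rw [g, Complex.normSq_eq_conj_mul_self]
  have hexp : conj (k w₀) * (Z w - Z w₀) = (g w₀ : ℂ) * Δ + c * Δ^2 / 2 +
      conj (k w₀) * (Δ^3 * E) := by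
    rw [hTaylor, hc, ← hkk]; ring
  rw [hexp] at him
  have hre : ((g w₀ : ℂ) * Δ + c * Δ^2 / 2 + conj (k w₀) * (Δ^3 * E)).im =
      g w₀ * Δ.im + (c.re * (2 * Δ.re * Δ.im) + c.im * (Δ.re^2 - Δ.im^2)) / 2 +
        (conj (k w₀) * (Δ^3 * E)).im := by
    have h2 : (c * Δ^2 / 2).im = (c.re * (2 * Δ.re * Δ.im) + c.im * (Δ.re^2 - Δ.im^2)) / 2 := by
      have : c * Δ^2 / 2 = ((1/2 : ℝ) : ℂ) * (c * Δ^2) := by push_cast; ring
      rw [this, im_ofReal_mul]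
      simp [pow_two]; ring
    rw [add_im, add_im, h2, im_ofReal_mul]
  rw [hre] at him
  have hβ : 0 < Δ.im := by rw [hΔ, sub_im]; linarith
  have hα1 : |Δ.re| ≤ 1/1000 := (abs_re_le_norm Δ).trans hd
  have hβ1 : |Δ.im| ≤ 1/1000 := (abs_im_le_norm Δ).trans hd
  have hnsq : ‖Δ‖^2 = Δ.re^2 + Δ.im^2 := by
    rw [← Complex.normSq_eq_norm_sq, normSq_apply]; ring
  have hw0n : ‖w₀‖ ≤ 1.31 := by
    have : ‖w₀‖^2 ≤ 1.31^2 := by
      rw [← Complex.normSq_eq_norm_sq, normSq_apply]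
      have e1 := sq_le_of_abs_le h2
      have e2 := sq_le_of_abs_le h3
      norm_num at *; nlinarith
    exact le_of_sq_le_sq this (by norm_num)
  have hEn : ‖E‖ ≤ 4.5 := by
    have t1 : ‖2 * w₀^2‖ ≤ 2 * 1.31^2 := by
      rw [norm_mul, norm_pow]
      have : ‖w₀‖^2 ≤ 1.31^2 := pow_le_pow_left₀ (norm_nonneg _) hw0n 2
      have h2n : ‖(2:ℂ)‖ = 2 := by simp
      rw [h2n]; linarith
    have t2 : ‖(2/3 : ℂ)‖ ≤ 1 := by norm_num
    have t3 : ‖w₀ * Δ‖ ≤ 1.31 * (1/1000) := by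
      rw [norm_mul]; exact mul_le_mul hw0n hd (norm_nonneg _) (by norm_num)
    have t4 : ‖Δ^2/5‖ ≤ 1/100 := by
      rw [norm_div, norm_pow]
      have : ‖Δ‖^2 ≤ (1/1000)^2 := pow_le_pow_left₀ (norm_nonneg _) hd 2
      have h5n : ‖(5:ℂ)‖ = 5 := by simp
      rw [h5n, div_le_iff₀ (by norm_num)]; norm_num at *; linarith
    calc ‖E‖ ≤ ‖2 * w₀^2‖ + ‖(2/3:ℂ)‖ + ‖w₀ * Δ‖ + ‖Δ^2/5‖ := by
          rw [hE]
          refine (norm_add_le _ _).trans (add_le_add ((norm_add_le _ _).trans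
            (add_le_add (norm_sub_le _ _) le_rfl)) le_rfl)
      _ ≤ 4.5 := by norm_num at *; linarith
  have hrem : |(conj (k w₀) * (Δ^3 * E)).im| ≤ 0.009 * (Δ.re^2 + Δ.im^2) := by
    refine (abs_im_le_norm _).trans ?_
    rw [norm_mul, norm_mul, norm_conj, norm_pow, ← hnsq]
    have t1 : ‖Δ‖^3 = ‖Δ‖ * ‖Δ‖^2 := by ring
    rw [t1]
    have t2 : ‖Δ‖ * ‖Δ‖^2 ≤ (1/1000) * ‖Δ‖^2 := mul_le_mul_of_nonneg_right hd (sq_nonneg _)
    have t3 : ‖Δ‖ * ‖Δ‖^2 * ‖E‖ ≤ (1/1000) * ‖Δ‖^2 * 4.5 :=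
      mul_le_mul t2 hEn (norm_nonneg _) (by positivity)
    have t4 : ‖k w₀‖ * (‖Δ‖ * ‖Δ‖^2 * ‖E‖) ≤ 2 * ((1/1000) * ‖Δ‖^2 * 4.5) :=
      mul_le_mul c4 t3 (by positivity) (by norm_num)
    norm_num at *; linarith
  have hrem' := (abs_le.1 hrem).1
  obtain ⟨α0, α1⟩ := abs_le.1 hα1
  obtain ⟨β0, β1⟩ := abs_le.1 hβ1
  obtain ⟨d0, d1⟩ := abs_le.1 c3
  obtain ⟨e0, e1⟩ := abs_le.1 c2
  have f1 : |c.re * Δ.re| ≤ 10 * (1/1000) := by
    rw [abs_mul]; exact mul_le_mul c3 hα1 (abs_nonneg _) (by norm_num)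
  obtain ⟨f2, f3⟩ := abs_le.1 f1
  have f4 : -(10 * (1/1000)) * Δ.im ≤ c.re * Δ.re * Δ.im := mul_le_mul_of_nonneg_right f2 hβ.le
  have f5 : c.im * Δ.im^2 ≤ 10 * (1/1000) * Δ.im := by
    have : c.im * Δ.im ≤ 10 * (1/1000) := mul_le_mul e1 β1 hβ.le (by norm_num)
    nlinarith
  have f6 : 1/10 * Δ.re^2 ≤ c.im * Δ.re^2 := mul_le_mul_of_nonneg_right c1 (sq_nonneg _)
  have f7 : 1/2 * Δ.im ≤ g w₀ * Δ.im := mul_le_mul_of_nonneg_right hgge hβ.le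
  have f8 : 0.009 * Δ.im^2 ≤ 0.009 * (1/1000) * Δ.im := by nlinarith
  have f9 := sq_nonneg Δ.re
  norm_num at *
  nlinarith

end

end Pool.Agent.MFG
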